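import Mathlib

/-!
Words over an alphabet with a symmetric braiding relation, as functions `ℤ → T`, and the
structure of a class of words closed under the moves `x y x → y x y`.
-/

namespace Pool.Agent.Q102.Braid

variable {T : Type*} {adj : T → T → Prop}

/-- a move centred at `c` is available at the word `a` -/
def En (adj : T → T → Prop) (c : ℤ) (a : ℤ → T) : Prop :=
  a (c - 1) = a (c + 1) ∧ adj (a (c + 1)) (a c)

/-- the result of the move centred at `c` -/
def flip (c : ℤ) (a : ℤ → T) : ℤ → T :=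
  fun j => if j = c then a (c + 1) else if j = c - 1 ∨ j = c + 1 then a c else a j

theorem flip_c (c : ℤ) (a : ℤ → T) : flip c a c = a (c + 1) := by simp [flip]

theorem flip_m (c : ℤ) (a : ℤ → T) : flip c a (c - 1) = a c := by simp [flip]

theorem flip_p (c : ℤ) (a : ℤ → T) : flip c a (c + 1) = a c := by simp [flip]

theorem flip_o {c j : ℤ} (a : ℤ → T) (h1 : j ≠ c) (h2 : j ≠ c - 1) (h3 : j ≠ c + 1) :
    flip c a j = a j := by simp [flip, h1, h2, h3]

/-- one move at a centre of `A` -/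
def St (adj : T → T → Prop) (A : Set ℤ) (a b : ℤ → T) : Prop :=
  ∃ c ∈ A, En adj c a ∧ b = flip c a

/-- reachability by moves at centres of `A` -/
def Rch (adj : T → T → Prop) (A : Set ℤ) : (ℤ → T) → (ℤ → T) → Prop :=
  Relation.ReflTransGen (St adj A)

/-- a class of reduced words: closed under moves, no repeated consecutive (braiding) letter -/
structure Cls (adj : T → T → Prop) (C : Set (ℤ → T)) : Prop where
  symm : ∀ x y, adj x y → adj y x
  closed : ∀ a ∈ C, ∀ c, En adj c a → flip c a ∈ C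
  red : ∀ a ∈ C, ∀ j, a j = a (j + 1) → ∀ t, ¬ adj (a j) t

theorem En.flip {c : ℤ} {a : ℤ → T} (hs : ∀ x y, adj x y → adj y x) (h : En adj c a) :
    En adj c (flip c a) := by
  refine ⟨by rw [flip_m, flip_p], ?_⟩
  rw [flip_p, flip_c]; exact hs _ _ h.2

theorem flip_flip {c : ℤ} {a : ℤ → T} (h : En adj c a) : flip c (flip c a) = a := by
  funext j
  by_cases h1 : j = c
  · subst h1; rw [flip_c, flip_p]
  by_cases h2 : j = c - 1
  · subst h2; rw [flip_m, flip_c, h.1]
  by_cases h3 : j = c + 1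
  · subst h3; rw [flip_p, flip_c]
  · rw [flip_o _ h1 h2 h3, flip_o _ h1 h2 h3]

theorem St.symm' {A : Set ℤ} {a b : ℤ → T} (hs : ∀ x y, adj x y → adj y x)
    (h : St adj A a b) : St adj A b a := by
  obtain ⟨c, hc, he, rfl⟩ := h
  exact ⟨c, hc, he.flip hs, (flip_flip he).symm⟩

theorem Rch.symm' {A : Set ℤ} {a b : ℤ → T} (hs : ∀ x y, adj x y → adj y x)
    (h : Rch adj A a b) : Rch adj A b a := by
  induction h with
  | refl => exact Relation.ReflTransGen.refl
  | tail _ h2 ih => exact Relation.ReflTransGen.head (h2.symm' hs) ih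

theorem Rch.mono {A B : Set ℤ} (hAB : A ⊆ B) {a b : ℤ → T} (h : Rch adj A a b) :
    Rch adj B a b := by
  induction h with
  | refl => exact Relation.ReflTransGen.refl
  | tail _ h2 ih =>
    obtain ⟨c, hc, he, rfl⟩ := h2
    exact Relation.ReflTransGen.tail ih ⟨c, hAB hc, he, rfl⟩

section
variable {C : Set (ℤ → T)} (hC : Cls adj C)
include hC

theorem Cls.mem {A : Set ℤ} {a b : ℤ → T} (ha : a ∈ C) (h : Rch adj A a b) : b ∈ C := by
  induction h with
  | refl => exact ha
  | tail _ h2 ih =>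
    obtain ⟨c, hc, he, rfl⟩ := h2
    exact hC.closed _ ih _ he

theorem Cls.en_ne {a : ℤ → T} (ha : a ∈ C) {c : ℤ} (h : En adj c a) : a c ≠ a (c + 1) := by
  intro he
  exact hC.red a ha c he (a c) (by rw [he]; rw [← he]; exact (he ▸ h.2))

end

/-- letters at `c`, `c+1` are only exchanged -/
theorem inv_pair {A : Set ℤ} {c : ℤ} (h1 : c + 1 ∉ A) (h2 : c + 2 ∉ A) (h0 : c - 1 ∉ A)
    {a b : ℤ → T} (h : Rch adj A a b) : s(a c, a (c + 1)) = s(b c, b (c + 1)) := by
  induction h with
  | refl => rfl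
  | tail _ hst ih =>
    obtain ⟨d, hd, he, rfl⟩ := hst
    rw [ih]
    by_cases hdc : d = c
    · subst hdc
      rw [flip_c, flip_p]; exact Sym2.eq_swap
    · have e1 : d ≠ c + 1 := fun h => h1 (h ▸ hd)
      have e2 : d ≠ c + 2 := fun h => h2 (h ▸ hd)
      have e3 : d ≠ c - 1 := fun h => h0 (h ▸ hd)
      rw [flip_o _ (by omega) (by omega) (by omega), flip_o _ (by omega) (by omega) (by omega)]

/-- letters at `c`, `c+1`, `c+2` are only permuted -/
theorem inv_triple {A : Set ℤ} {c : ℤ} (h1 : c + 1 ∉ A) (h3 : c + 3 ∉ A) (h0 : c - 1 ∉ A)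
    {a b : ℤ → T} (h : Rch adj A a b) :
    List.Perm [a c, a (c + 1), a (c + 2)] [b c, b (c + 1), b (c + 2)] := by
  induction h with
  | refl => exact List.Perm.refl _
  | @tail b' b'' _ hst ih =>
    obtain ⟨d, hd, he, rfl⟩ := hst
    refine ih.trans ?_
    have e1 : d ≠ c + 1 := fun h => h1 (h ▸ hd)
    have e2 : d ≠ c + 3 := fun h => h3 (h ▸ hd)
    have e3 : d ≠ c - 1 := fun h => h0 (h ▸ hd)
    by_cases hdc : d = c
    · subst hdc
      rw [flip_c, flip_p, flip_o _ (by omega) (by omega) (by omega)]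
      exact List.Perm.swap _ _ _
    by_cases hdc2 : d = c + 2
    · subst hdc2
      have q1 : flip (c + 2) b' (c + 1) = b' (c + 2) := by
        have := flip_m (c + 2) b'
        rwa [show c + 2 - 1 = c + 1 by ring] at this
      have q2 : flip (c + 2) b' (c + 2) = b' (c + 1) := by
        rw [flip_c, ← he.1]; congr 1; ring
      rw [flip_o _ (by omega) (by omega) (by omega), q1, q2]
      exact List.Perm.cons _ (List.Perm.swap _ _ _)
    · rw [flip_o _ (by omega) (by omega) (by omega), flip_o _ (by omega) (by omega) (by omega),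
        flip_o _ (by omega) (by omega) (by omega)]

theorem inv_triple_nodup {A : Set ℤ} {C : Set (ℤ → T)} (hC : Cls adj C) {c : ℤ}
    (h1 : c + 1 ∉ A) (h3 : c + 3 ∉ A) (h0 : c - 1 ∉ A)
    {w a b : ℤ → T} (hw : w ∈ C) (ha : Rch adj A w a) (hea : En adj c a) (hb : Rch adj A w b) :
    [b c, b (c + 1), b (c + 2)].Nodup := by
  have hab : List.Perm [a c, a (c + 1), a (c + 2)] [b c, b (c + 1), b (c + 2)] :=
    (inv_triple h1 h3 h0 ha).symm.trans (inv_triple h1 h3 h0 hb)
  have haC := hC.mem hw ha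
  rw [← hab.nodup_iff]
  have n1 : a c ≠ a (c + 1) := hC.en_ne haC hea
  have n2 : a (c + 1) ≠ a (c + 2) := by
    intro h
    have := hC.red a haC (c + 1) (by rw [h]; congr 1; ring) (a c)
    exact this hea.2
  have n3 : a c ≠ a (c + 2) := by
    intro h
    have haf := hC.closed a haC c hea
    have := hC.red _ haf (c + 1) (by
      rw [flip_p, flip_o _ (by omega) (by omega) (by omega), h]; congr 1; ring) (a (c + 1))
    rw [flip_p] at this
    exact this (hC.symm _ _ hea.2)
  simp [n1, n2, n3]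

/-- gluing two words at the gap between `c+1` and `c+2` -/
def mix (c : ℤ) (a b : ℤ → T) : ℤ → T := fun j => if j ≤ c + 1 then a j else b j

theorem mix_le {c j : ℤ} (a b : ℤ → T) (h : j ≤ c + 1) : mix c a b j = a j := by simp [mix, h]

theorem mix_gt {c j : ℤ} (a b : ℤ → T) (h : c + 2 ≤ j) : mix c a b j = b j := by
  have : ¬ j ≤ c + 1 := by omega
  simp [mix, this]

theorem mix_flip_left {c d : ℤ} (a b : ℤ → T) (hd : d ≤ c) :
    mix c (flip d a) b = flip d (mix c a b) := by
  funext j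
  by_cases h1 : j = d
  · subst h1; rw [flip_c, mix_le _ _ (by omega), flip_c, mix_le _ _ (by omega)]
  by_cases h2 : j = d - 1
  · subst h2; rw [flip_m, mix_le _ _ (by omega), flip_m, mix_le _ _ (by omega)]
  by_cases h3 : j = d + 1
  · subst h3; rw [flip_p, mix_le _ _ (by omega), flip_p, mix_le _ _ (by omega)]
  · rw [flip_o _ h1 h2 h3]
    by_cases h4 : j ≤ c + 1
    · rw [mix_le _ _ h4, mix_le _ _ h4, flip_o _ h1 h2 h3]
    · rw [mix_gt _ _ (by omega), mix_gt _ _ (by omega)]

theorem mix_flip_right {c d : ℤ} (a b : ℤ → T) (hd : c + 3 ≤ d) :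
    mix c a (flip d b) = flip d (mix c a b) := by
  funext j
  by_cases h1 : j = d
  · subst h1; rw [flip_c, mix_gt _ _ (by omega), flip_c, mix_gt _ _ (by omega)]
  by_cases h2 : j = d - 1
  · subst h2; rw [flip_m, mix_gt _ _ (by omega), flip_m, mix_gt _ _ (by omega)]
  by_cases h3 : j = d + 1
  · subst h3; rw [flip_p, mix_gt _ _ (by omega), flip_p, mix_gt _ _ (by omega)]
  · rw [flip_o _ h1 h2 h3]
    by_cases h4 : j ≤ c + 1
    · rw [mix_le _ _ h4, mix_le _ _ h4]
    · rw [mix_gt _ _ (by omega), mix_gt _ _ (by omega), flip_o _ h1 h2 h3]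

theorem mix_flip_left' {c d : ℤ} (a b : ℤ → T) (hd : c + 3 ≤ d) :
    mix c (flip d a) b = mix c a b := by
  funext j
  by_cases h4 : j ≤ c + 1
  · rw [mix_le _ _ h4, mix_le _ _ h4, flip_o _ (by omega) (by omega) (by omega)]
  · rw [mix_gt _ _ (by omega), mix_gt _ _ (by omega)]

theorem mix_flip_right' {c d : ℤ} (a b : ℤ → T) (hd : d ≤ c) :
    mix c a (flip d b) = mix c a b := by
  funext j
  by_cases h4 : j ≤ c + 1
  · rw [mix_le _ _ h4, mix_le _ _ h4]
  · rw [mix_gt _ _ (by omega), mix_gt _ _ (by omega), flip_o _ (by omega) (by omega) (by omega)]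

theorem mix_self (c : ℤ) (a : ℤ → T) : mix c a a = a := by
  funext j; by_cases h : j ≤ c + 1 <;> simp [mix]

theorem mix_rch {A : Set ℤ} {c : ℤ} (h1 : c + 1 ∉ A) (h2 : c + 2 ∉ A) {w a b : ℤ → T}
    (ha : Rch adj A w a) (hb : Rch adj A w b) : Rch adj A w (mix c a b) := by
  have base : Rch adj A w (mix c w b) := by
    induction hb with
    | refl => rw [mix_self]; exact Relation.ReflTransGen.refl
    | @tail b' b'' _ hst ih =>
      obtain ⟨d, hd, he, rfl⟩ := hst
      have e1 : d ≠ c + 1 := fun h => h1 (h ▸ hd)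
      have e2 : d ≠ c + 2 := fun h => h2 (h ▸ hd)
      rcases (by omega : d ≤ c ∨ c + 3 ≤ d) with h | h
      · rw [mix_flip_right' _ _ h]; exact ih
      · rw [mix_flip_right _ _ h]
        refine Relation.ReflTransGen.tail ih ⟨d, hd, ?_, rfl⟩
        refine ⟨?_, ?_⟩
        · rw [mix_gt _ _ (by omega), mix_gt _ _ (by omega)]; exact he.1
        · rw [mix_gt _ _ (by omega), mix_gt _ _ (by omega)]; exact he.2
  induction ha with
  | refl => exact base
  | @tail a' a'' _ hst ih =>
    obtain ⟨d, hd, he, rfl⟩ := hst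
    have e1 : d ≠ c + 1 := fun h => h1 (h ▸ hd)
    have e2 : d ≠ c + 2 := fun h => h2 (h ▸ hd)
    rcases (by omega : d ≤ c ∨ c + 3 ≤ d) with h | h
    · rw [mix_flip_left _ _ h]
      refine Relation.ReflTransGen.tail ih ⟨d, hd, ?_, rfl⟩
      refine ⟨?_, ?_⟩
      · rw [mix_le _ _ (by omega), mix_le _ _ (by omega)]; exact he.1
      · rw [mix_le _ _ (by omega), mix_le _ _ (by omega)]; exact he.2
    · rw [mix_flip_left' _ _ h]; exact ih

/-- If the centres used so far contain `c` and no two consecutive ones, then `c+1` is not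
available. -/
theorem no_succ {A : Set ℤ} {C : Set (ℤ → T)} (hC : Cls adj C)
    (hA : ∀ c ∈ A, c + 1 ∉ A) {w a b : ℤ → T} (hw : w ∈ C) {c : ℤ} (hc : c ∈ A)
    (ha : Rch adj A w a) (hea : En adj c a) (hb : Rch adj A w b) : ¬ En adj (c + 1) b := by
  intro heb
  have h1 : c + 1 ∉ A := hA c hc
  have h0 : c - 1 ∉ A := fun h => hA _ h (by rwa [sub_add_cancel])
  have heb1 : b c = b (c + 2) := by
    have := heb.1
    rwa [add_sub_cancel_right, show c + 1 + 1 = c + 2 by ring] at this
  by_cases h2 : c + 2 ∈ A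
  · have h3 : c + 3 ∉ A := fun h => hA _ h2 (by rwa [show c + 2 + 1 = c + 3 by ring])
    have := inv_triple_nodup hC h1 h3 h0 hw ha hea hb
    simp [heb1] at this
  · have hp : s(a c, a (c + 1)) = s(b c, b (c + 1)) :=
      (inv_pair h1 h2 h0 ha).symm.trans (inv_pair h1 h2 h0 hb)
    have hm := mix_rch h1 h2 ha hb
    have hmC := hC.mem hw hm
    have hadj : adj (b (c + 2)) (b (c + 1)) := by
      have := heb.2
      rwa [show c + 1 + 1 = c + 2 by ring] at this
    rcases Sym2.eq_iff.mp hp with ⟨q1, q2⟩ | ⟨q1, q2⟩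
    · -- mix = (q,p,q,p) on c-1..c+2
      have hem : En adj c (mix c a b) := by
        refine ⟨?_, ?_⟩
        · rw [mix_le _ _ (by omega), mix_le _ _ (by omega)]; exact hea.1
        · rw [mix_le _ _ (by omega), mix_le _ _ (by omega)]; exact hea.2
      have hf := hC.closed _ hmC c hem
      have := hC.red _ hf (c + 1) (by
        rw [flip_p, flip_o _ (by omega) (by omega) (by omega), mix_le _ _ (by omega),
          mix_gt _ _ (by omega), q1, heb1]; congr 1; ring) (b (c + 1))
      rw [flip_p, mix_le _ _ (by omega), q1, heb1] at this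
      exact this hadj
    · have := hC.red _ hmC (c + 1) (by
        rw [mix_le _ _ (by omega), mix_gt _ _ (by omega), q2, heb1]; congr 1; ring) (b (c + 1))
      rw [mix_le _ _ (by omega), q2, heb1] at this
      exact this hadj

/-! ### reflection -/

/-- the reversed word -/
def rfl' (a : ℤ → T) : ℤ → T := fun j => a (-j)

theorem en_rfl {c : ℤ} {a : ℤ → T} (h : En adj c a) : En adj (-c) (rfl' a) := by
  refine ⟨?_, ?_⟩
  · simp only [rfl']
    rw [show -(-c - 1) = c + 1 by ring, show -(-c + 1) = c - 1 by ring]; exact h.1.symm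
  · simp only [rfl']
    rw [show -(-c + 1) = c - 1 by ring, show -(-c) = c by ring, h.1]; exact h.2

theorem flip_rfl {c : ℤ} {a : ℤ → T} (h : En adj c a) : rfl' (flip c a) = flip (-c) (rfl' a) := by
  funext j
  by_cases h1 : j = -c
  · subst h1
    rw [flip_c]; simp only [rfl']
    rw [show -(-c + 1) = c - 1 by ring, show -(-c) = c by ring, flip_c, h.1]
  by_cases h2 : j = -c - 1
  · subst h2
    rw [flip_m]; simp only [rfl']
    rw [show -(-c - 1) = c + 1 by ring, show -(-c) = c by ring, flip_p]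
  by_cases h3 : j = -c + 1
  · subst h3
    rw [flip_p]; simp only [rfl']
    rw [show -(-c + 1) = c - 1 by ring, show -(-c) = c by ring, flip_m]
  · rw [flip_o _ h1 h2 h3]; simp only [rfl']
    rw [flip_o _ (by omega) (by omega) (by omega)]

theorem rch_rfl {A : Set ℤ} {a b : ℤ → T} (h : Rch adj A a b) :
    Rch adj {c | -c ∈ A} (rfl' a) (rfl' b) := by
  induction h with
  | refl => exact Relation.ReflTransGen.refl
  | tail _ h2 ih =>
    obtain ⟨c, hc, he, rfl⟩ := h2
    refine Relation.ReflTransGen.tail ih ⟨-c, ?_, en_rfl he, flip_rfl he⟩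
    simpa using hc

theorem rfl_rfl (a : ℤ → T) : rfl' (rfl' a) = a := by funext j; simp [rfl']

theorem Cls.rfl {C : Set (ℤ → T)} (hC : Cls adj C) : Cls adj {a | rfl' a ∈ C} where
  symm := hC.symm
  closed := by
    intro a ha c hc
    simp only [Set.mem_ofPred_eq] at ha ⊢
    rw [flip_rfl hc]
    exact hC.closed _ ha _ (en_rfl hc)
  red := by
    intro a ha j hj t ht
    simp only [Set.mem_ofPred_eq] at ha
    refine hC.red _ ha (-(j + 1)) ?_ t ?_
    · simp only [rfl']
      rw [show -(-(j + 1)) = j + 1 by ring, show -(-(j + 1) + 1) = j by ring, hj]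
    · simp only [rfl']
      rw [show -(-(j + 1)) = j + 1 by ring, ← hj]; exact ht

theorem no_pred {A : Set ℤ} {C : Set (ℤ → T)} (hC : Cls adj C)
    (hA : ∀ c ∈ A, c + 1 ∉ A) {w a b : ℤ → T} (hw : w ∈ C) {c : ℤ} (hc : c ∈ A)
    (ha : Rch adj A w a) (hea : En adj c a) (hb : Rch adj A w b) : ¬ En adj (c - 1) b := by
  intro heb
  refine no_succ hC.rfl (A := {c | -c ∈ A}) (w := rfl' w) ?_ ?_ (c := -c) ?_ (rch_rfl ha)
    (en_rfl hea) (rch_rfl hb) ?_
  · intro d hd hd'
    simp only [Set.mem_ofPred_eq] at hd hd'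
    exact hA _ hd' (by rwa [show -(d + 1) + 1 = -d by ring])
  · simp only [Set.mem_ofPred_eq]; rw [rfl_rfl]; exact hw
  · simpa using hc
  · have := en_rfl heb
    rwa [show -(c - 1) = -c + 1 by ring] at this

/-- sets of centres that are actually used and pairwise non-consecutive -/
def Good (adj : T → T → Prop) (w : ℤ → T) (A : Set ℤ) : Prop :=
  (∀ c ∈ A, c + 1 ∉ A) ∧ ∀ c ∈ A, ∃ a, Rch adj A w a ∧ En adj c a

theorem Good.insert {C : Set (ℤ → T)} (hC : Cls adj C) {w : ℤ → T} (hw : w ∈ C) {A : Set ℤ}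
    (hA : Good adj w A) {b : ℤ → T} (hb : Rch adj A w b) {d : ℤ} (hd : En adj d b) :
    Good adj w (A ∪ {d}) := by
  refine ⟨?_, ?_⟩
  · intro c hc hc'
    rcases hc with hc | hc <;> rcases hc' with hc' | hc'
    · exact hA.1 c hc hc'
    · simp only [Set.mem_singleton_iff] at hc'
      obtain ⟨a, ha, hea⟩ := hA.2 c hc
      subst hc'
      exact no_succ hC hA.1 hw hc ha hea hb hd
    · simp only [Set.mem_singleton_iff] at hc
      subst hc
      obtain ⟨a, ha, hea⟩ := hA.2 _ hc'
      refine no_pred hC hA.1 hw hc' ha hea hb ?_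
      rwa [add_sub_cancel_right]
    · simp only [Set.mem_singleton_iff] at hc hc'
      omega
  · intro c hc
    rcases hc with hc | hc
    · obtain ⟨a, ha, hea⟩ := hA.2 c hc
      exact ⟨a, ha.mono Set.subset_union_left, hea⟩
    · simp only [Set.mem_singleton_iff] at hc
      subst hc
      exact ⟨b, hb.mono Set.subset_union_left, hd⟩

theorem Good.extend {C : Set (ℤ → T)} (hC : Cls adj C) {w : ℤ → T} (hw : w ∈ C) {A : Set ℤ}
    (hA : Good adj w A) {b : ℤ → T} (hb : Rch adj Set.univ w b) :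
    ∃ B, A ⊆ B ∧ Good adj w B ∧ Rch adj B w b := by
  induction hb with
  | refl => exact ⟨A, subset_rfl, hA, Relation.ReflTransGen.refl⟩
  | tail _ h2 ih =>
    obtain ⟨B, hAB, hB, hr⟩ := ih
    obtain ⟨c, -, he, rfl⟩ := h2
    refine ⟨B ∪ {c}, hAB.trans Set.subset_union_left, hB.insert hC hw hr he, ?_⟩
    exact Relation.ReflTransGen.tail (hr.mono Set.subset_union_left)
      ⟨c, Or.inr rfl, he, rfl⟩

/-- **No two consecutive centres** are available in a class. -/
theorem no_consecutive {C : Set (ℤ → T)} (hC : Cls adj C) {w : ℤ → T} (hw : w ∈ C)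
    {a b : ℤ → T} (ha : Rch adj Set.univ w a) (hb : Rch adj Set.univ w b) {c : ℤ}
    (hea : En adj c a) : ¬ En adj (c + 1) b := by
  intro heb
  have h0 : Good adj w ∅ := ⟨by simp, by simp⟩
  obtain ⟨B1, -, hB1, hr1⟩ := h0.extend hC hw ha
  have hB1' := hB1.insert hC hw hr1 hea
  obtain ⟨B2, hs2, hB2, hr2⟩ := hB1'.extend hC hw hb
  have hB2' := hB2.insert hC hw hr2 heb
  exact hB2'.1 c (Or.inl (hs2 (Or.inr rfl))) (Or.inr rfl)

end Pool.Agent.Q102.Braid
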