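import Mathlib
import Pool.Agent.Q102.BraidBasic

/-!
Structure of a braid class in the triangle-free case, and its antipodal pair.
-/

namespace Pool.Agent.Q102.Braid

variable {T : Type*} {adj : T → T → Prop}

/-- a connected class together with the set of all its centres -/
structure Full (adj : T → T → Prop) (C : Set (ℤ → T)) (A : Set ℤ) : Prop extends Cls adj C where
  conn : ∀ a ∈ C, ∀ b ∈ C, Rch adj A a b
  use : ∀ c ∈ A, ∃ a ∈ C, En adj c a
  all : ∀ a ∈ C, ∀ c, En adj c a → c ∈ A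
  ns : ∀ c ∈ A, c + 1 ∉ A
  trif : ∀ x y z, adj x y → adj y z → ¬ adj x z

theorem mkFull {C : Set (ℤ → T)} (hC : Cls adj C) (htr : ∀ x y z, adj x y → adj y z → ¬ adj x z)
    {w : ℤ → T} (hw : w ∈ C) (hgen : ∀ b ∈ C, Rch adj Set.univ w b) :
    Full adj C {c | ∃ a ∈ C, En adj c a} where
  toCls := hC
  conn := by
    have key : ∀ a ∈ C, ∀ b, Rch adj Set.univ a b → Rch adj {c | ∃ a ∈ C, En adj c a} a b := by
      intro a ha b hb
      induction hb with
      | refl => exact Relation.ReflTransGen.refl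
      | @tail b' b'' h1 h2 ih =>
        obtain ⟨c, -, he, rfl⟩ := h2
        exact Relation.ReflTransGen.tail ih ⟨c, ⟨_, hC.mem ha h1, he⟩, he, rfl⟩
    intro a ha b hb
    exact ((key w hw a (hgen a ha)).symm' hC.symm).trans (key w hw b (hgen b hb))
  use := fun c hc => hc
  all := fun a ha c he => ⟨a, ha, he⟩
  ns := by
    rintro c ⟨a, ha, hea⟩ ⟨b, hb, heb⟩
    exact no_consecutive hC hw (hgen a ha) (hgen b hb) hea heb
  trif := htr

/-- letters at `c-1`, `c` are only exchanged -/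
theorem inv_pair_l {A : Set ℤ} {c : ℤ} (h1 : c + 1 ∉ A) (h2 : c - 2 ∉ A) (h0 : c - 1 ∉ A)
    {a b : ℤ → T} (h : Rch adj A a b) : s(a c, a (c - 1)) = s(b c, b (c - 1)) := by
  induction h with
  | refl => rfl
  | @tail b' b'' _ hst ih =>
    obtain ⟨d, hd, he, rfl⟩ := hst
    rw [ih]
    by_cases hdc : d = c
    · subst hdc
      rw [flip_c, flip_m, ← he.1]; exact Sym2.eq_swap
    · have e1 : d ≠ c + 1 := fun h => h1 (h ▸ hd)
      have e2 : d ≠ c - 2 := fun h => h2 (h ▸ hd)
      have e3 : d ≠ c - 1 := fun h => h0 (h ▸ hd)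
      rw [flip_o _ (by omega) (by omega) (by omega), flip_o _ (by omega) (by omega) (by omega)]

namespace Full

variable {C : Set (ℤ → T)} {A : Set ℤ} (F : Full adj C A)
include F

theorem np {c : ℤ} (hc : c ∈ A) : c - 1 ∉ A := fun h => F.ns _ h (by rwa [sub_add_cancel])

theorem pair_r {c : ℤ} (hc : c ∈ A) (h2 : c + 2 ∉ A) {a b : ℤ → T} (ha : a ∈ C) (hb : b ∈ C) :
    s(a c, a (c + 1)) = s(b c, b (c + 1)) :=
  inv_pair (F.ns c hc) h2 (F.np hc) (F.conn a ha b hb)

theorem pair_l {c : ℤ} (hc : c ∈ A) (h2 : c - 2 ∉ A) {a b : ℤ → T} (ha : a ∈ C) (hb : b ∈ C) :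
    s(a c, a (c - 1)) = s(b c, b (c - 1)) :=
  inv_pair_l (F.ns c hc) h2 (F.np hc) (F.conn a ha b hb)

theorem triple {c : ℤ} (hc : c ∈ A) (h2 : c + 2 ∈ A) {a b : ℤ → T} (ha : a ∈ C) (hb : b ∈ C) :
    List.Perm [a c, a (c + 1), a (c + 2)] [b c, b (c + 1), b (c + 2)] :=
  inv_triple (F.ns c hc) (by have := F.ns _ h2; rwa [show c + 2 + 1 = c + 3 by ring] at this)
    (F.np hc) (F.conn a ha b hb)

theorem nodup {c : ℤ} (hc : c ∈ A) (h2 : c + 2 ∈ A) {b : ℤ → T} (hb : b ∈ C) :
    [b c, b (c + 1), b (c + 2)].Nodup := by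
  obtain ⟨a, ha, hea⟩ := F.use c hc
  exact inv_triple_nodup F.toCls (F.ns c hc)
    (by have := F.ns _ h2; rwa [show c + 2 + 1 = c + 3 by ring] at this)
    (F.np hc) hb (F.conn b hb a ha) hea (F.conn b hb b hb)

/-- the special case `a (c-2) = a (c+2)` of the constancy of the pair at `c` -/
theorem const_aux {c : ℤ} (hc : c ∈ A) (h2 : c + 2 ∈ A) (hm : c - 2 ∈ A) {a : ℤ → T} (ha : a ∈ C)
    (hea : En adj c a) (hz : a (c - 2) = a (c + 2)) (hn : ¬ adj (a (c + 1)) (a (c + 2)))
    {b : ℤ → T} (hb : b ∈ C) : b c = a c ∨ b c = a (c + 1) := by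
  have key : ∀ b, Rch adj A a b → (b c = a c ∨ b c = a (c + 1)) ∧
      (b c = a c → b (c + 1) = a (c + 1) ∧ b (c - 1) = a (c + 1)) := by
    intro b hab
    induction hab with
    | refl => exact ⟨Or.inl rfl, fun _ => ⟨rfl, hea.1⟩⟩
    | @tail b b' hab' hst ih =>
      obtain ⟨d, hd, he, rfl⟩ := hst
      have hbC := F.toCls.mem ha hab'
      have hbC' := F.toCls.closed b hbC d he
      have e1 : d ≠ c + 1 := fun h => F.ns c hc (h ▸ hd)
      have e3 : d ≠ c - 1 := fun h => F.np hc (h ▸ hd)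
      have t1 := F.triple hc h2 ha hbC
      have nd := F.nodup hc h2 hbC
      have t2 := F.triple hm (c := c - 2) (by rwa [sub_add_cancel]) ha hbC
      have nd2 := F.nodup hm (c := c - 2) (by rwa [sub_add_cancel]) hbC
      rw [show c - 2 + 1 = c - 1 by ring, show c - 2 + 2 = c by ring] at t2 nd2
      have m1 : ∀ x ∈ [b c, b (c + 1), b (c + 2)], x = a c ∨ x = a (c + 1) ∨ x = a (c + 2) := by
        intro x hx
        have := t1.symm.subset hx
        simpa using this
      have m2 : ∀ x ∈ [b (c - 2), b (c - 1), b c], x = a c ∨ x = a (c + 1) ∨ x = a (c + 2) := by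
        intro x hx
        have := t2.symm.subset hx
        simp only [List.mem_cons, List.not_mem_nil, or_false] at this
        rw [hz, hea.1] at this
        tauto
      have hac : adj (a (c + 1)) (a c) := hea.2
      have b0 := m1 (b c) (by simp)
      have b1 := m1 (b (c + 1)) (by simp)
      have b2 := m1 (b (c + 2)) (by simp)
      have bm1 := m2 (b (c - 1)) (by simp)
      have bm2 := m2 (b (c - 2)) (by simp)
      simp only [List.nodup_cons, List.mem_cons, List.not_mem_nil, or_false, not_or,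
        not_false_eq_true, and_true, List.nodup_nil] at nd nd2
      obtain ⟨⟨n1, n2⟩, n3⟩ := nd
      obtain ⟨⟨n4, n5⟩, n6⟩ := nd2
      have nda := F.nodup hc h2 ha
      simp only [List.nodup_cons, List.mem_cons, List.not_mem_nil, or_false, not_or,
        not_false_eq_true, and_true, List.nodup_nil] at nda
      obtain ⟨⟨k1, k2⟩, k3⟩ := nda
      by_cases hdc : d = c
      · subst hdc
        rw [flip_c, flip_p, flip_m]
        rcases ih.1 with h | h
        · obtain ⟨i1, i2⟩ := ih.2 h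
          refine ⟨Or.inr i1, fun h' => ?_⟩
          exact absurd (h'.symm.trans i1) k1
        · have : b (d + 1) = a d := by
            rcases b1 with h' | h' | h'
            · exact h'
            · exact absurd (h.trans h'.symm) n1
            · exfalso
              have := he.2
              rw [h', h] at this
              exact hn (F.symm _ _ this)
          refine ⟨Or.inl this, fun _ => ⟨h, h⟩⟩
      · have fc : flip d b c = b c := flip_o _ (by omega) (by omega) (by omega)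
        rw [fc]
        refine ⟨ih.1, fun h => ?_⟩
        obtain ⟨i1, i2⟩ := ih.2 h
        have hd2 : d ≠ c + 2 := by
          intro hd2
          subst hd2
          have h5 := he.2
          have h6 := he.1
          rw [← h6, show c + 2 - 1 = c + 1 by ring, i1] at h5
          rcases b2 with h' | h' | h'
          · exact n2 (h.trans h'.symm)
          · exact n3 (i1.trans h'.symm)
          · rw [h'] at h5; exact hn h5
        have hd3 : d ≠ c - 2 := by
          intro hd2
          subst hd2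
          have h5 := he.2
          rw [show c - 2 + 1 = c - 1 by ring, i2] at h5
          rcases bm2 with h' | h' | h'
          · exact n5 (h'.trans h.symm)
          · exact n4 (h'.trans i2.symm)
          · rw [h'] at h5; exact hn h5
        rw [flip_o _ (by omega) (by omega) (by omega), flip_o _ (by omega) (by omega) (by omega)]
        exact ⟨i1, i2⟩
  exact (key b (F.conn a ha b hb)).1

/-- the letter at a centre takes only two values -/
theorem const {c : ℤ} (hc : c ∈ A) {a : ℤ → T} (ha : a ∈ C)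
    (hea : En adj c a) {b : ℤ → T} (hb : b ∈ C) : b c = a c ∨ b c = a (c + 1) := by
  by_cases h2 : c + 2 ∈ A
  · by_cases hm : c - 2 ∈ A
    · have t1 := F.triple hc h2 ha hb
      have t2 := F.triple hm (c := c - 2) (by rwa [sub_add_cancel]) ha hb
      rw [show c - 2 + 1 = c - 1 by ring, show c - 2 + 2 = c by ring] at t2
      have m1 : b c = a c ∨ b c = a (c + 1) ∨ b c = a (c + 2) := by
        have := t1.symm.subset (show b c ∈ [b c, b (c + 1), b (c + 2)] by simp)
        simpa using this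
      have m2 : b c = a (c - 2) ∨ b c = a (c + 1) ∨ b c = a c := by
        have := t2.symm.subset (show b c ∈ [b (c - 2), b (c - 1), b c] by simp)
        simp only [List.mem_cons, List.not_mem_nil, or_false] at this
        rwa [hea.1] at this
      by_cases hz : a (c - 2) = a (c + 2)
      · by_cases hn : adj (a (c + 1)) (a (c + 2))
        · -- use the flipped witness
          have haf := F.closed a ha c hea
          have := F.const_aux hc h2 hm haf (hea.flip F.symm) ?_ ?_ hb
          · rw [flip_c, flip_p] at this; exact this.symm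
          · rw [flip_o _ (by omega) (by omega) (by omega), flip_o _ (by omega) (by omega) (by omega)]
            exact hz
          · rw [flip_p, flip_o _ (by omega) (by omega) (by omega)]
            intro h
            exact F.trif _ _ _ (F.symm _ _ hea.2) hn h
        · exact F.const_aux hc h2 hm ha hea hz hn hb
      · rcases m1 with h | h | h
        · exact Or.inl h
        · exact Or.inr h
        · rcases m2 with h' | h' | h'
          · exact absurd (h'.symm.trans h) hz
          · exact Or.inr h'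
          · exact Or.inl h'
    · have := F.pair_l hc hm ha hb
      rw [hea.1] at this
      rcases Sym2.eq_iff.mp this with ⟨q1, q2⟩ | ⟨q1, q2⟩
      · exact Or.inl q1.symm
      · exact Or.inr q2.symm
  · have := F.pair_r hc h2 ha hb
    rcases Sym2.eq_iff.mp this with ⟨q1, q2⟩ | ⟨q1, q2⟩
    · exact Or.inl q1.symm
    · exact Or.inr q2.symm

end Full

/-- `(p,q)` is the letter pair of the centre `c` -/
def IsPair (adj : T → T → Prop) (C : Set (ℤ → T)) (c : ℤ) (p q : T) : Prop :=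
  p ≠ q ∧ adj q p ∧ (∀ b ∈ C, b c = p ∨ b c = q) ∧ ∃ a ∈ C, En adj c a ∧ a c = p ∧ a (c + 1) = q

theorem Full.exists_pair {C : Set (ℤ → T)} {A : Set ℤ} (F : Full adj C A) {c : ℤ} (hc : c ∈ A) :
    ∃ p q, IsPair adj C c p q := by
  obtain ⟨a, ha, hea⟩ := F.use c hc
  exact ⟨a c, a (c + 1), F.toCls.en_ne ha hea, hea.2, fun b hb => F.const hc ha hea hb,
    a, ha, hea, rfl, rfl⟩

/-- the local structure at two neighbouring centres -/
theorem Full.local {C : Set (ℤ → T)} {A : Set ℤ} (F : Full adj C A) {c : ℤ} (hc : c ∈ A)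
    (h2 : c + 2 ∈ A) {p q p' q' : T} (hp : IsPair adj C c p q) (hp' : IsPair adj C (c + 2) p' q') :
    ∃ s t u, s ≠ t ∧ t ≠ u ∧ s ≠ u ∧ ((p = s ∧ q = t) ∨ (p = t ∧ q = s)) ∧
      ((p' = t ∧ q' = u) ∨ (p' = u ∧ q' = t)) ∧
      ∀ b ∈ C, (b c = s ∧ b (c + 1) = t ∧ b (c + 2) = u) ∨
        (b c = t ∧ b (c + 1) = s ∧ b (c + 2) = u) ∨
        (b c = s ∧ b (c + 1) = u ∧ b (c + 2) = t) := by
  obtain ⟨hpq, -, hall, a, ha, hea, rfl, rfl⟩ := hp
  obtain ⟨hpq', -, hall', a', ha', hea', e1, e2⟩ := hp'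
  have e2' : a' (c + 1) = q' := by
    rw [← e2, ← hea'.1]; congr 1; ring
  have nda := F.nodup hc h2 ha
  simp only [List.nodup_cons, List.mem_cons, List.not_mem_nil, or_false, not_or,
        not_false_eq_true, and_true, List.nodup_nil] at nda
  obtain ⟨⟨k1, k2⟩, k3⟩ := nda
  have mem3 : ∀ b ∈ C, (b c ≠ b (c + 1) ∧ b c ≠ b (c + 2) ∧ b (c + 1) ≠ b (c + 2)) ∧
      (b (c + 1) = a c ∨ b (c + 1) = a (c + 1) ∨ b (c + 1) = a (c + 2)) ∧
      (b (c + 2) = a c ∨ b (c + 2) = a (c + 1) ∨ b (c + 2) = a (c + 2)) := by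
    intro b hb
    have nd := F.nodup hc h2 hb
    simp only [List.nodup_cons, List.mem_cons, List.not_mem_nil, or_false, not_or,
        not_false_eq_true, and_true, List.nodup_nil] at nd
    obtain ⟨⟨n1, n2⟩, n3⟩ := nd
    have t1 := F.triple hc h2 ha hb
    refine ⟨⟨n1, n2, n3⟩, ?_, ?_⟩
    · have := t1.symm.subset (show b (c + 1) ∈ [b c, b (c + 1), b (c + 2)] by simp)
      simpa using this
    · have := t1.symm.subset (show b (c + 2) ∈ [b c, b (c + 1), b (c + 2)] by simp)
      simpa using this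
  have ma' := mem3 a' ha'
  rw [e1, e2'] at ma'
  -- z := a (c+2) is one of p', q'
  have hzmem : p' = a (c + 2) ∨ q' = a (c + 2) := by
    by_contra hcon
    push Not at hcon
    have hp1 : p' = a c ∨ p' = a (c + 1) := by tauto
    have hq1 : q' = a c ∨ q' = a (c + 1) := by tauto
    have h3 := hall' a ha
    rcases h3 with h3 | h3
    · exact hcon.1 h3.symm
    · exact hcon.2 h3.symm
  -- the other one is t
  have main : ∀ t s, ((a c = s ∧ a (c + 1) = t) ∨ (a c = t ∧ a (c + 1) = s)) →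
      ((p' = t ∧ q' = a (c + 2)) ∨ (p' = a (c + 2) ∧ q' = t)) →
      ∀ b ∈ C, (b c = s ∧ b (c + 1) = t ∧ b (c + 2) = a (c + 2)) ∨
        (b c = t ∧ b (c + 1) = s ∧ b (c + 2) = a (c + 2)) ∨
        (b c = s ∧ b (c + 1) = a (c + 2) ∧ b (c + 2) = t) := by
    intro t s hst hpt b hb
    obtain ⟨⟨n1, n2, n3⟩, m1, m2⟩ := mem3 b hb
    have h0 : b c = s ∨ b c = t := by
      rcases hall b hb with h | h <;> rcases hst with ⟨e, e'⟩ | ⟨e, e'⟩
      · left; rw [h, e]
      · right; rw [h, e]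
      · right; rw [h, e']
      · left; rw [h, e']
    have h2' : b (c + 2) = t ∨ b (c + 2) = a (c + 2) := by
      rcases hall' b hb with h | h <;> rcases hpt with ⟨e, e'⟩ | ⟨e, e'⟩
      · left; rw [h, e]
      · right; rw [h, e]
      · right; rw [h, e']
      · left; rw [h, e']
    have h1 : b (c + 1) = s ∨ b (c + 1) = t ∨ b (c + 1) = a (c + 2) := by
      rcases m1 with h | h | h
      · rcases hst with ⟨e, e'⟩ | ⟨e, e'⟩
        · left; rw [h, e]
        · right; left; rw [h, e]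
      · rcases hst with ⟨e, e'⟩ | ⟨e, e'⟩
        · right; left; rw [h, e']
        · left; rw [h, e']
      · right; right; exact h
    rcases h0 with h0 | h0 <;> rcases h2' with h2' | h2' <;> rcases h1 with h1 | h1 | h1
    · exact absurd (h0.trans h1.symm) n1
    · exact absurd (h1.trans h2'.symm) n3
    · right; right; exact ⟨h0, h1, h2'⟩
    · exact absurd (h0.trans h1.symm) n1
    · left; exact ⟨h0, h1, h2'⟩
    · exact absurd (h1.trans h2'.symm) n3
    · exact absurd (h0.trans h2'.symm) n2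
    · exact absurd (h0.trans h2'.symm) n2
    · exact absurd (h0.trans h2'.symm) n2
    · right; left; exact ⟨h0, h1, h2'⟩
    · exact absurd (h0.trans h1.symm) n1
    · exact absurd (h1.trans h2'.symm) n3
  obtain ⟨⟨o1, o2, o3⟩, m1, m2⟩ := ma'
  rcases hzmem with hz | hz
  · -- p' = z, q' ∈ {a c, a (c+1)}
    have hq1 : q' = a c ∨ q' = a (c + 1) := by
      rcases m1 with h | h | h
      · exact Or.inl h
      · exact Or.inr h
      · exact absurd (hz.trans h.symm) hpq'
    rcases hq1 with hq | hq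
    · refine ⟨a (c + 1), a c, a (c + 2), (Ne.symm k1), k2, k3, Or.inr ⟨rfl, rfl⟩,
        Or.inr ⟨hz, hq⟩, ?_⟩
      exact main (a c) (a (c + 1)) (Or.inr ⟨rfl, rfl⟩) (Or.inr ⟨hz, hq⟩)
    · refine ⟨a c, a (c + 1), a (c + 2), k1, k3, k2, Or.inl ⟨rfl, rfl⟩, Or.inr ⟨hz, hq⟩, ?_⟩
      exact main (a (c + 1)) (a c) (Or.inl ⟨rfl, rfl⟩) (Or.inr ⟨hz, hq⟩)
  · have hp1 : p' = a c ∨ p' = a (c + 1) := by
      rcases m2 with h | h | h
      · exact Or.inl h
      · exact Or.inr h
      · exact absurd (h.trans hz.symm) hpq'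
    rcases hp1 with hq | hq
    · refine ⟨a (c + 1), a c, a (c + 2), (Ne.symm k1), k2, k3, Or.inr ⟨rfl, rfl⟩,
        Or.inl ⟨hq, hz⟩, ?_⟩
      exact main (a c) (a (c + 1)) (Or.inr ⟨rfl, rfl⟩) (Or.inl ⟨hq, hz⟩)
    · refine ⟨a c, a (c + 1), a (c + 2), k1, k3, k2, Or.inl ⟨rfl, rfl⟩, Or.inl ⟨hq, hz⟩, ?_⟩
      exact main (a (c + 1)) (a c) (Or.inl ⟨rfl, rfl⟩) (Or.inl ⟨hq, hz⟩)

/-- an admissible target for the centre letters -/
structure Tgt (A : Set ℤ) (p q g : ℤ → T) : Prop where
  mem : ∀ c ∈ A, g c = p c ∨ g c = q c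
  alt : ∀ c, c ∈ A → c + 2 ∈ A →
    ((g c = p (c + 2) ∨ g c = q (c + 2)) ↔ ¬ (g (c + 2) = p c ∨ g (c + 2) = q c))

namespace Full

variable {C : Set (ℤ → T)} {A : Set ℤ} (F : Full adj C A) {p q g : ℤ → T}
  (hpq : ∀ c ∈ A, IsPair adj C c (p c) (q c)) (hg : Tgt A p q g)
include F hpq hg

theorem block_r {b : ℤ → T} (hb : b ∈ C) {c : ℤ} (hc : c ∈ A) (h1 : b c ≠ g c)
    (h2 : b (c + 1) ≠ g c) : c + 2 ∈ A ∧ b (c + 2) ≠ g (c + 2) ∧ b (c + 1) = g (c + 2) := by
  by_cases hc2 : c + 2 ∈ A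
  · refine ⟨hc2, ?_⟩
    obtain ⟨s, t, u, st, tu, su, e1, e2, hall⟩ := F.local hc hc2 (hpq c hc) (hpq _ hc2)
    have m1 := hg.mem c hc
    have m2 := hg.mem _ hc2
    have m3 := hg.alt c hc hc2
    have m4 := hall b hb
    generalize g c = gc at *
    generalize g (c + 2) = gc2 at *
    generalize b c = bc at *
    generalize b (c + 1) = bc1 at *
    generalize b (c + 2) = bc2 at *
    generalize p c = pc at *
    generalize q c = qc at *
    generalize p (c + 2) = pc2 at *
    generalize q (c + 2) = qc2 at *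
    clear hall hpq hg
    rcases e1 with ⟨rfl, rfl⟩ | ⟨rfl, rfl⟩ <;> rcases e2 with ⟨rfl, rfl⟩ | ⟨rfl, rfl⟩ <;>
      rcases m1 with rfl | rfl <;> rcases m2 with rfl | rfl <;>
      rcases m4 with ⟨rfl, rfl, rfl⟩ | ⟨rfl, rfl, rfl⟩ | ⟨rfl, rfl, rfl⟩ <;> simp_all
  · exfalso
    obtain ⟨hne, -, -, a, ha, hea, ea, ea'⟩ := hpq c hc
    have := F.pair_r hc hc2 ha hb
    rw [ea, ea'] at this
    rcases Sym2.eq_iff.mp this with ⟨q1, q2⟩ | ⟨q1, q2⟩
    · rcases hg.mem c hc with h | h
      · exact h1 (q1.symm.trans h.symm)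
      · exact h2 (q2.symm.trans h.symm)
    · rcases hg.mem c hc with h | h
      · exact h2 (q1.symm.trans h.symm)
      · exact h1 (q2.symm.trans h.symm)

theorem block_l {b : ℤ → T} (hb : b ∈ C) {c : ℤ} (hc : c ∈ A) (h1 : b c ≠ g c)
    (h2 : b (c - 1) ≠ g c) : c - 2 ∈ A ∧ b (c - 2) ≠ g (c - 2) := by
  by_cases hc2 : c - 2 ∈ A
  · refine ⟨hc2, ?_⟩
    have hc' : c - 2 + 2 ∈ A := by rwa [sub_add_cancel]
    obtain ⟨s, t, u, st, tu, su, e1, e2, hall⟩ := F.local hc2 hc' (hpq _ hc2) (hpq _ hc')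
    have m1 := hg.mem _ hc2
    have m2 := hg.mem _ hc'
    have m3 := hg.alt _ hc2 hc'
    have m4 := hall b hb
    rw [show c - 2 + 2 = c by ring] at *
    rw [show c - 2 + 1 = c - 1 by ring] at *
    generalize g c = gc at *
    generalize g (c - 2) = gc2 at *
    generalize b c = bc at *
    generalize b (c - 1) = bc1 at *
    generalize b (c - 2) = bc2 at *
    generalize p c = pc at *
    generalize q c = qc at *
    generalize p (c - 2) = pc2 at *
    generalize q (c - 2) = qc2 at *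
    clear hall hpq hg
    rcases e1 with ⟨rfl, rfl⟩ | ⟨rfl, rfl⟩ <;> rcases e2 with ⟨rfl, rfl⟩ | ⟨rfl, rfl⟩ <;>
      rcases m1 with rfl | rfl <;> rcases m2 with rfl | rfl <;>
      rcases m4 with ⟨rfl, rfl, rfl⟩ | ⟨rfl, rfl, rfl⟩ | ⟨rfl, rfl, rfl⟩ <;> simp_all <;>
      exact fun h => st h.symm
  · exfalso
    obtain ⟨hne, -, -, a, ha, hea, ea, ea'⟩ := hpq c hc
    have := F.pair_l hc hc2 ha hb
    rw [hea.1, ea, ea'] at this
    rcases Sym2.eq_iff.mp this with ⟨q1, q2⟩ | ⟨q1, q2⟩
    · rcases hg.mem c hc with h | h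
      · exact h1 (q1.symm.trans h.symm)
      · exact h2 (q2.symm.trans h.symm)
    · rcases hg.mem c hc with h | h
      · exact h2 (q1.symm.trans h.symm)
      · exact h1 (q2.symm.trans h.symm)

/-- some disagreeing centre is available, with the right new letter -/
theorem exists_move (hfin : A.Finite) {b : ℤ → T} (hb : b ∈ C) {c₀ : ℤ} (hc₀ : c₀ ∈ A)
    (h₀ : b c₀ ≠ g c₀) : ∃ c ∈ A, En adj c b ∧ b c ≠ g c ∧ b (c + 1) = g c := by
  by_cases hex : ∃ c ∈ A, b c ≠ g c ∧ b (c - 1) = g c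
  · have hfin2 : {c | c ∈ A ∧ b c ≠ g c ∧ b (c - 1) = g c}.Finite :=
      hfin.subset (fun c hc => hc.1)
    obtain ⟨c, hcm⟩ := hfin2.exists_maximal (by obtain ⟨c, h1, h2⟩ := hex; exact ⟨c, h1, h2⟩)
    obtain ⟨hcA, hcb, hcm1⟩ := hcm.prop
    by_cases h2 : b (c + 1) = g c
    · refine ⟨c, hcA, ⟨hcm1.trans h2.symm, ?_⟩, hcb, h2⟩
      obtain ⟨hne, had, hall, -⟩ := hpq c hcA
      rw [h2]
      rcases hg.mem c hcA with h | h <;> rcases hall b hb with h' | h'
      · exact absurd (h'.trans h.symm) hcb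
      · rw [h, h']; exact F.symm _ _ had
      · rw [h, h']; exact had
      · exact absurd (h'.trans h.symm) hcb
    · exfalso
      obtain ⟨k1, k2, k3⟩ := F.block_r hpq hg hb hcA hcb h2
      have := hcm.le_of_ge (y := c + 2) ⟨k1, k2, by rwa [show c + 2 - 1 = c + 1 by ring]⟩ (by omega)
      omega
  · exfalso
    push Not at hex
    have hfin2 : {c | c ∈ A ∧ b c ≠ g c}.Finite := hfin.subset (fun c hc => hc.1)
    obtain ⟨c, hcm⟩ := hfin2.exists_minimal ⟨c₀, hc₀, h₀⟩
    obtain ⟨hcA, hcb⟩ := hcm.prop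
    obtain ⟨k1, k2⟩ := F.block_l hpq hg hb hcA hcb (hex c hcA hcb)
    have := hcm.le_of_le (y := c - 2) ⟨k1, k2⟩ (by omega)
    omega

end Full

/-- number of disagreeing centres -/
noncomputable def dis (A : Set ℤ) (g b : ℤ → T) : ℕ := {c | c ∈ A ∧ b c ≠ g c}.ncard

theorem flip_other {A : Set ℤ} (hns : ∀ c ∈ A, c + 1 ∉ A) {c d : ℤ} (hc : c ∈ A) (hd : d ∈ A)
    (hcd : c ≠ d) (b : ℤ → T) : flip d b c = b c := by
  have e1 : c ≠ d + 1 := fun h => hns d hd (h ▸ hc)
  have e2 : d ≠ c + 1 := fun h => hns c hc (h ▸ hd)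
  exact flip_o _ hcd (by omega) (by omega)

theorem dis_le {A : Set ℤ} (hfin : A.Finite) (hns : ∀ c ∈ A, c + 1 ∉ A) {g b : ℤ → T} {d : ℤ}
    (hd : d ∈ A) : dis A g (flip d b) ≤ dis A g b + 1 := by
  have hsub : {c | c ∈ A ∧ flip d b c ≠ g c} ⊆ insert d {c | c ∈ A ∧ b c ≠ g c} := by
    rintro c ⟨hc, hcb⟩
    by_cases h : c = d
    · exact Or.inl h
    · right
      rw [flip_other hns hc hd h] at hcb
      exact ⟨hc, hcb⟩
  have hf : {c | c ∈ A ∧ b c ≠ g c}.Finite := hfin.subset (fun c hc => hc.1)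
  calc dis A g (flip d b) ≤ (insert d {c | c ∈ A ∧ b c ≠ g c}).ncard :=
        Set.ncard_le_ncard hsub (hf.insert d)
    _ ≤ _ := Set.ncard_insert_le _ _

theorem dis_flip {A : Set ℤ} (hfin : A.Finite) (hns : ∀ c ∈ A, c + 1 ∉ A) {g b : ℤ → T} {d : ℤ}
    (hd : d ∈ A) (h1 : b d ≠ g d) (h2 : b (d + 1) = g d) :
    dis A g (flip d b) + 1 = dis A g b := by
  have heq : {c | c ∈ A ∧ b c ≠ g c} = insert d {c | c ∈ A ∧ flip d b c ≠ g c} := by
    ext c
    constructor
    · rintro ⟨hc, hcb⟩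
      by_cases h : c = d
      · exact Or.inl h
      · right
        refine ⟨hc, ?_⟩
        rwa [flip_other hns hc hd h]
    · rintro (rfl | ⟨hc, hcb⟩)
      · exact ⟨hd, h1⟩
      · by_cases h : c = d
        · subst h; exact ⟨hd, h1⟩
        · rw [flip_other hns hc hd h] at hcb
          exact ⟨hc, hcb⟩
  have hf : {c | c ∈ A ∧ flip d b c ≠ g c}.Finite := hfin.subset (fun c hc => hc.1)
  unfold dis
  rw [heq, Set.ncard_insert_of_notMem _ hf]
  rintro ⟨-, h⟩
  exact h (by rw [flip_c, h2])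

/-- words are determined by the letters at the centres -/
theorem Full.ext_centres {C : Set (ℤ → T)} {A : Set ℤ} (F : Full adj C A) {a b : ℤ → T}
    (ha : a ∈ C) (hb : b ∈ C) (h : ∀ c ∈ A, a c = b c) : a = b := by
  funext j
  by_cases hj : j ∈ A
  · exact h j hj
  by_cases hp : j + 1 ∈ A
  · by_cases hm : j - 1 ∈ A
    · have t := F.triple hm (by rwa [show j - 1 + 2 = j + 1 by ring]) ha hb
      rw [show j - 1 + 2 = j + 1 by ring, show j - 1 + 1 = j by ring, h _ hm, h _ hp] at t
      have t' := (List.perm_cons _).mp t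
      have nd := F.nodup hm (by rwa [show j - 1 + 2 = j + 1 by ring]) hb
      rw [show j - 1 + 2 = j + 1 by ring, show j - 1 + 1 = j by ring] at nd
      have t'' : List.Perm [b (j + 1), a j] [b (j + 1), b j] :=
        ((List.Perm.swap _ _ _).trans t').trans (List.Perm.swap _ _ _)
      have t3 := (List.perm_cons _).mp t''
      simpa using t3
    · have := F.pair_l hp (by rwa [show j + 1 - 2 = j - 1 by ring]) ha hb
      rw [show j + 1 - 1 = j by ring, h _ hp] at this
      rcases Sym2.eq_iff.mp this with ⟨-, e⟩ | ⟨e1, e2⟩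
      · exact e
      · exact e2.trans e1
  · by_cases hm : j - 1 ∈ A
    · have := F.pair_r hm (by rwa [show j - 1 + 2 = j + 1 by ring]) ha hb
      rw [show j - 1 + 1 = j by ring, h _ hm] at this
      rcases Sym2.eq_iff.mp this with ⟨-, e⟩ | ⟨e1, e2⟩
      · exact e
      · exact e2.trans e1
    · have key : ∀ b, Rch adj A a b → a j = b j := by
        intro b hab
        induction hab with
        | refl => rfl
        | tail _ hst ih =>
          obtain ⟨d, hd, he, rfl⟩ := hst
          rw [ih]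
          have e1 : d ≠ j := fun h => hj (h ▸ hd)
          have e2 : d ≠ j + 1 := fun h => hp (h ▸ hd)
          have e3 : d ≠ j - 1 := fun h => hm (h ▸ hd)
          rw [flip_o _ (by omega) (by omega) (by omega)]
      exact key b (F.conn a ha b hb)

/-! ### existence of the two antipodal targets -/

/-- recursion with step two -/
def rec2 (f : ℕ → T → T) (x0 x1 : T) : ℕ → T
  | 0 => x0
  | 1 => x1
  | n + 2 => f n (rec2 f x0 x1 n)

theorem Full.exists_tgt {C : Set (ℤ → T)} {A : Set ℤ} (F : Full adj C A) {p q : ℤ → T}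
    (hpq : ∀ c ∈ A, IsPair adj C c (p c) (q c)) (hpos : ∀ c ∈ A, 0 ≤ c) :
    ∃ g h : ℤ → T, Tgt A p q g ∧ Tgt A p q h ∧ ∀ c ∈ A, g c ≠ h c := by
  classical
  -- one step of the recursion
  have step : ∀ n : ℕ, ∀ x : T, ∃ y : T, ((n : ℤ) + 2 ∈ A → y = p (n + 2) ∨ y = q (n + 2)) ∧
      ((n : ℤ) ∈ A → (n : ℤ) + 2 ∈ A → (x = p n ∨ x = q n) →
        ((x = p (n + 2) ∨ x = q (n + 2)) ↔ ¬ (y = p n ∨ y = q n))) := by
    intro n x
    by_cases h2 : (n : ℤ) + 2 ∈ A
    · by_cases h1 : (n : ℤ) ∈ A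
      · obtain ⟨s, t, u, st, tu, su, e1, e2, -⟩ := F.local h1 h2 (hpq _ h1) (hpq _ h2)
        by_cases hx : x = t
        · refine ⟨u, fun _ => ?_, fun _ _ _ => ?_⟩
          · rcases e2 with ⟨e, e'⟩ | ⟨e, e'⟩
            · right; exact e'.symm
            · left; exact e.symm
          · subst hx
            rcases e2 with ⟨e, e'⟩ | ⟨e, e'⟩ <;> rcases e1 with ⟨f, f'⟩ | ⟨f, f'⟩ <;>
              rw [e, e', f, f'] <;> simp [tu.symm, su.symm]
        · refine ⟨t, fun _ => ?_, fun _ _ hxm => ?_⟩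
          · rcases e2 with ⟨e, e'⟩ | ⟨e, e'⟩
            · left; exact e.symm
            · right; exact e'.symm
          · have hxs : x = s := by
              rcases e1 with ⟨f, f'⟩ | ⟨f, f'⟩ <;> rw [f, f'] at hxm <;> tauto
            subst hxs
            rcases e2 with ⟨e, e'⟩ | ⟨e, e'⟩ <;> rcases e1 with ⟨f, f'⟩ | ⟨f, f'⟩ <;>
              rw [e, e', f, f'] <;> simp [st, su]
      · exact ⟨p (n + 2), fun _ => Or.inl rfl, fun h => absurd h h1⟩
    · exact ⟨x, fun h => absurd h h2, fun _ h => absurd h h2⟩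
  choose f hf1 hf2 using step
  set g0 : ℕ → T := rec2 f (p 0) (p 1) with hg0
  have g0mem : ∀ n : ℕ, (n : ℤ) ∈ A → g0 n = p n ∨ g0 n = q n := by
    intro n hn
    match n with
    | 0 => left; rfl
    | 1 => left; rfl
    | n + 2 =>
      have := hf1 n (g0 n) (by push_cast at hn; exact hn)
      push_cast
      exact this
  have T1 : Tgt A p q (fun c => g0 c.toNat) := by
    refine ⟨?_, ?_⟩
    · intro c hc
      have h0 := hpos c hc
      have := g0mem c.toNat (by rwa [Int.toNat_of_nonneg h0])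
      rwa [Int.toNat_of_nonneg h0] at this
    · intro c hc hc2
      have h0 := hpos c hc
      have e : (c + 2).toNat = c.toNat + 2 := by omega
      have m := g0mem c.toNat (by rwa [Int.toNat_of_nonneg h0])
      have := hf2 c.toNat (g0 c.toNat) (by rwa [Int.toNat_of_nonneg h0])
        (by rwa [Int.toNat_of_nonneg h0]) m
      rw [Int.toNat_of_nonneg h0] at this
      simp only [e]
      exact this
  set g : ℤ → T := fun c => g0 c.toNat with hg
  refine ⟨g, fun c => if g c = p c then q c else p c, T1, ⟨?_, ?_⟩, ?_⟩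
  · intro c hc
    by_cases h : g c = p c
    · simp [h]
    · simp [h]
  · intro c hc hc2
    obtain ⟨s, t, u, st, tu, su, e1, e2, -⟩ := F.local hc hc2 (hpq _ hc) (hpq _ hc2)
    have m1 := T1.mem c hc
    have m2 := T1.mem _ hc2
    have m3 := T1.alt c hc hc2
    clear_value g
    generalize g c = gc at *
    generalize g (c + 2) = gc2 at *
    generalize p c = pc at *
    generalize q c = qc at *
    generalize p (c + 2) = pc2 at *
    generalize q (c + 2) = qc2 at *
    clear hpq hf1 hf2 g0mem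
    rcases e1 with ⟨rfl, rfl⟩ | ⟨rfl, rfl⟩ <;> rcases e2 with ⟨rfl, rfl⟩ | ⟨rfl, rfl⟩ <;>
      rcases m1 with rfl | rfl <;> rcases m2 with rfl | rfl <;> simp_all [Ne.symm]
  · intro c hc
    obtain ⟨hne, -⟩ := hpq c hc
    by_cases h : g c = p c
    · simp [h, hne]
    · simp [h]

end Pool.Agent.Q102.Braid
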