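import Mathlib
import Pool.Agent.Q102.BraidMain

/-!
Braid classes and braid graphs of reduced words in a Coxeter system.
-/

namespace Pool.Agent.Q102.Braid

variable {B : Type*}

/-- a braid move: a factor `s t s` with `m(s,t) = 3` is replaced by `t s t` -/
def Move (M : CoxeterMatrix B) (x y : List B) : Prop :=
  ∃ (l r : List B) (s t : B), M s t = 3 ∧ x = l ++ [s, t, s] ++ r ∧ y = l ++ [t, s, t] ++ r

/-- the braid class -/
def braidClass (M : CoxeterMatrix B) (α : List B) : Set (List B) :=
  {β | Relation.ReflTransGen (Move M) α β}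

/-- the braid graph -/
def braidGraph (M : CoxeterMatrix B) (α : List B) : SimpleGraph (braidClass M α) :=
  SimpleGraph.fromRel (fun x y => Move M x.1 y.1)

/-- Type `Λ`: simply laced and triangle free -/
def TypeLambda (M : CoxeterMatrix B) : Prop :=
  (∀ s t, s ≠ t → M s t = 2 ∨ M s t = 3) ∧
    ∀ s t u, s ≠ t → t ≠ u → s ≠ u → ¬ (M s t = 3 ∧ M t u = 3 ∧ M s u = 3)

/-- the word as a function on `ℤ` -/
def emb (l : List B) : ℤ → Option B := fun j => if 0 ≤ j then l[j.toNat]? else none

/-- the braiding relation on letters -/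
def adjO (M : CoxeterMatrix B) (x y : Option B) : Prop :=
  ∃ s t, x = some s ∧ y = some t ∧ M s t = 3

theorem emb_injective : Function.Injective (emb : List B → _) := by
  intro l l' h
  apply List.ext_getElem?
  intro i
  have := congrFun h (i : ℤ)
  simpa [emb] using this

theorem emb_app (l r : List B) (x y z : B) (j : ℤ) :
    emb (l ++ [x, y, z] ++ r) j = if j < l.length then emb l j else
      if j = l.length then some x else if j = l.length + 1 then some y else
      if j = l.length + 2 then some z else emb r (j - l.length - 3) := by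
  unfold emb
  by_cases h0 : 0 ≤ j
  · rw [if_pos h0, if_pos h0]
    obtain ⟨n, rfl⟩ := Int.eq_ofNat_of_zero_le h0
    simp only [Int.toNat_natCast]
    by_cases h1 : (n : ℤ) < l.length
    · rw [if_pos h1, List.append_assoc, List.getElem?_append_left (by omega)]
    · rw [if_neg h1]
      obtain ⟨k, rfl⟩ : ∃ k, n = l.length + k := ⟨n - l.length, by omega⟩
      rw [List.append_assoc, List.getElem?_append_right (by omega), Nat.add_sub_cancel_left]
      match k with
      | 0 => simp
      | 1 => simp
      | 2 => simp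
      | k + 3 =>
        have e1 : ¬ ((l.length + (k + 3) : ℕ) : ℤ) = l.length := by push_cast; omega
        have e2 : ¬ ((l.length + (k + 3) : ℕ) : ℤ) = l.length + 1 := by push_cast; omega
        have e3 : ¬ ((l.length + (k + 3) : ℕ) : ℤ) = l.length + 2 := by push_cast; omega
        have e4 : ((l.length + (k + 3) : ℕ) : ℤ) - l.length - 3 = k := by push_cast; ring
        rw [if_neg e1, if_neg e2, if_neg e3, e4]
        simp
  · rw [if_neg h0, if_pos (by omega), if_neg h0]

theorem Move.symm' {M : CoxeterMatrix B} {x y : List B} (h : Move M x y) : Move M y x := by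
  obtain ⟨l, r, s, t, hm, hx, hy⟩ := h
  exact ⟨l, r, t, s, by rw [M.symmetric]; exact hm, hy, hx⟩

theorem Move.en {M : CoxeterMatrix B} {l r : List B} {s t : B} (hm : M s t = 3) :
    En (adjO M) (l.length + 1) (emb (l ++ [s, t, s] ++ r)) ∧
      emb (l ++ [t, s, t] ++ r) = flip (l.length + 1) (emb (l ++ [s, t, s] ++ r)) := by
  refine ⟨⟨?_, ?_⟩, ?_⟩
  · rw [emb_app, emb_app]
    rw [if_neg (by omega), if_pos (by omega), if_neg (by omega), if_neg (by omega),
      if_neg (by omega), if_pos (by omega)]
  · rw [emb_app, emb_app]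
    rw [if_neg (by omega), if_neg (by omega), if_neg (by omega), if_pos (by omega),
      if_neg (by omega), if_neg (by omega), if_pos (by omega)]
    exact ⟨s, t, rfl, rfl, hm⟩
  · funext j
    simp only [flip, emb_app]
    split_ifs <;> first | rfl | (exfalso; omega)

theorem Move.exists_en {M : CoxeterMatrix B} {x y : List B} (h : Move M x y) :
    ∃ c : ℤ, En (adjO M) c (emb x) ∧ emb y = flip c (emb x) := by
  obtain ⟨l, r, s, t, hm, rfl, rfl⟩ := h
  exact ⟨_, Move.en hm⟩

theorem split3 {x : List B} {n : ℕ} {s t u : B} (h0 : x[n]? = some s) (h1 : x[n + 1]? = some t)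
    (h2 : x[n + 2]? = some u) : x = x.take n ++ [s, t, u] ++ x.drop (n + 3) := by
  obtain ⟨l0, e0⟩ := List.getElem?_eq_some_iff.mp h0
  obtain ⟨l1, e1⟩ := List.getElem?_eq_some_iff.mp h1
  obtain ⟨l2, e2⟩ := List.getElem?_eq_some_iff.mp h2
  conv_lhs => rw [← List.take_append_drop n x]
  rw [List.append_assoc, List.drop_eq_getElem_cons l0, List.drop_eq_getElem_cons l1,
    List.drop_eq_getElem_cons l2, e0, e1, e2]
  rfl

theorem en_pos {M : CoxeterMatrix B} {x : List B} {c : ℤ} (h : En (adjO M) c (emb x)) :
    ∃ (n : ℕ) (s t : B), c = n + 1 ∧ M s t = 3 ∧ x[n]? = some s ∧ x[n + 1]? = some t ∧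
      x[n + 2]? = some s := by
  obtain ⟨h1, s, t, e1, e2, hm⟩ := h
  rw [e1] at h1
  have hc : 0 ≤ c - 1 := by
    by_contra hcon
    simp only [emb, if_neg hcon] at h1
    cases h1
  obtain ⟨n, hn⟩ := Int.eq_ofNat_of_zero_le hc
  have hc' : c = n + 1 := by omega
  subst hc'
  refine ⟨n, s, t, rfl, hm, ?_, ?_, ?_⟩
  · rw [show (n : ℤ) + 1 - 1 = n by ring] at h1
    simpa [emb] using h1
  · have : (n : ℤ) + 1 = ((n + 1 : ℕ) : ℤ) := by push_cast; ring
    rw [this] at e2
    simp only [emb, Int.toNat_natCast] at e2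
    rwa [if_pos (by positivity)] at e2
  · have : (n : ℤ) + 1 + 1 = ((n + 2 : ℕ) : ℤ) := by push_cast; ring
    rw [this] at e1
    simp only [emb, Int.toNat_natCast] at e1
    rwa [if_pos (by positivity)] at e1

theorem move_of_en {M : CoxeterMatrix B} {x : List B} {c : ℤ} (h : En (adjO M) c (emb x)) :
    ∃ y, Move M x y ∧ emb y = flip c (emb x) := by
  obtain ⟨n, s, t, rfl, hm, h0, h1, h2⟩ := en_pos h
  have hx := split3 h0 h1 h2
  have hlen : (x.take n).length = n := by
    obtain ⟨l0, -⟩ := List.getElem?_eq_some_iff.mp h0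
    rw [List.length_take]; omega
  refine ⟨x.take n ++ [t, s, t] ++ x.drop (n + 3), ⟨_, _, s, t, hm, hx, rfl⟩, ?_⟩
  have := (Move.en (l := x.take n) (r := x.drop (n + 3)) hm).2
  rw [hlen, ← hx] at this
  exact this

section cox

variable {W : Type*} [Group W] {M : CoxeterMatrix B} (cs : CoxeterSystem M W)
include cs

theorem wordProd_braid {s t : B} (hm : M s t = 3) : cs.wordProd [s, t, s] = cs.wordProd [t, s, t] := by
  have h := cs.simple_mul_simple_pow s t
  rw [hm] at h
  have hs := cs.simple_mul_simple_self s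
  have ht := cs.simple_mul_simple_self t
  simp only [CoxeterSystem.wordProd, List.map_cons, List.map_nil, List.prod_cons, List.prod_nil,
    mul_one]
  set a := cs.simple s
  set b := cs.simple t
  have h' : a * b * a * b * a * b = 1 := by
    rw [← h]; simp [pow_succ, mul_assoc]
  have h2 : a * (b * a) * (b * (a * b)) = 1 := by
    rw [← h']; simp [mul_assoc]
  have h3 : (b * (a * b)) * (b * (a * b)) = 1 := by
    calc (b * (a * b)) * (b * (a * b)) = b * a * (b * b) * a * b := by simp [mul_assoc]
      _ = 1 := by rw [ht, mul_one, mul_assoc b a a, hs, mul_one, ht]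
  exact mul_right_cancel (h2.trans h3.symm)

theorem Move.reduced {x y : List B} (h : Move M x y) (hx : cs.IsReduced x) : cs.IsReduced y := by
  obtain ⟨l, r, s, t, hm, rfl, rfl⟩ := h
  have : cs.wordProd (l ++ [t, s, t] ++ r) = cs.wordProd (l ++ [s, t, s] ++ r) := by
    simp only [CoxeterSystem.wordProd_append]
    rw [wordProd_braid cs hm]
  unfold CoxeterSystem.IsReduced at *
  rw [this, hx]
  simp

theorem class_reduced {α β : List B} (hα : cs.IsReduced α) (h : β ∈ braidClass M α) :
    cs.IsReduced β := by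
  have h' : Relation.ReflTransGen (Move M) α β := h
  clear h
  induction h' with
  | refl => exact hα
  | tail _ h2 ih => exact h2.reduced cs ih

theorem reduced_no_rep {x : List B} (hx : cs.IsReduced x) {n : ℕ} {s : B} (h0 : x[n]? = some s)
    (h1 : x[n + 1]? = some s) : False := by
  obtain ⟨l0, e0⟩ := List.getElem?_eq_some_iff.mp h0
  obtain ⟨l1, e1⟩ := List.getElem?_eq_some_iff.mp h1
  have hsp : x = x.take n ++ s :: s :: x.drop (n + 2) := by
    conv_lhs => rw [← List.take_append_drop n x]
    rw [List.drop_eq_getElem_cons l0, List.drop_eq_getElem_cons l1, e0, e1]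
  have hp : cs.wordProd x = cs.wordProd (x.take n ++ x.drop (n + 2)) := by
    conv_lhs => rw [hsp]
    simp [CoxeterSystem.wordProd_append, CoxeterSystem.wordProd_cons]
  have hle := cs.length_wordProd_le (x.take n ++ x.drop (n + 2))
  rw [← hp, hx] at hle
  simp only [List.length_append, List.length_take, List.length_drop] at hle
  omega

theorem cls {α : List B} (hα : cs.IsReduced α) : Cls (adjO M) (emb '' braidClass M α) where
  symm := by
    rintro x y ⟨s, t, rfl, rfl, hm⟩
    exact ⟨t, s, rfl, rfl, by rw [M.symmetric]; exact hm⟩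
  closed := by
    rintro _ ⟨β, hβ, rfl⟩ c hc
    obtain ⟨γ, hm, he⟩ := move_of_en hc
    exact ⟨γ, Relation.ReflTransGen.tail hβ hm, he⟩
  red := by
    rintro _ ⟨β, hβ, rfl⟩ j hj t ⟨s, t', hs, -, -⟩
    have hj0 : 0 ≤ j := by
      by_contra hcon
      simp only [emb, if_neg hcon] at hs
      cases hs
    obtain ⟨n, rfl⟩ := Int.eq_ofNat_of_zero_le hj0
    rw [hs] at hj
    have h0 : β[n]? = some s := by simpa [emb] using hs
    have h1 : β[n + 1]? = some s := by
      have : (n : ℤ) + 1 = ((n + 1 : ℕ) : ℤ) := by push_cast; ring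
      rw [this] at hj
      simp only [emb, Int.toNat_natCast] at hj
      rw [if_pos (by positivity)] at hj
      exact hj.symm
    exact reduced_no_rep cs (class_reduced cs hα hβ) h0 h1

/-- the set of all centres -/
def centres (M : CoxeterMatrix B) (α : List B) : Set ℤ :=
  {c | ∃ a ∈ emb '' braidClass M α, En (adjO M) c a}

theorem full {α : List B} (hα : cs.IsReduced α) (hΛ : TypeLambda M) :
    Full (adjO M) (emb '' braidClass M α) (centres M α) := by
  refine mkFull (cls cs hα) ?_ (w := emb α) ⟨α, Relation.ReflTransGen.refl, rfl⟩ ?_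
  · rintro x y z ⟨s, t, rfl, rfl, hm⟩ ⟨t', u, ht', rfl, hm'⟩ ⟨s', u', hs', hu', hm''⟩
    cases ht'; cases hs'; cases hu'
    have hd : ∀ a b : B, M a b = 3 → a ≠ b := by
      rintro a b h rfl
      rw [M.diagonal] at h
      omega
    exact hΛ.2 s t u (hd _ _ hm) (hd _ _ hm') (hd _ _ hm'') ⟨hm, hm', hm''⟩
  · rintro _ ⟨β, hβ, rfl⟩
    have hβ' : Relation.ReflTransGen (Move M) α β := hβ
    clear hβ
    induction hβ' with
    | refl => exact Relation.ReflTransGen.refl
    | tail _ h2 ih =>
      obtain ⟨c, hc, he⟩ := h2.exists_en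
      exact Relation.ReflTransGen.tail ih ⟨c, trivial, hc, he⟩

end cox

theorem class_length {M : CoxeterMatrix B} {α β : List B} (h : β ∈ braidClass M α) :
    β.length = α.length := by
  have h' : Relation.ReflTransGen (Move M) α β := h
  clear h
  induction h' with
  | refl => rfl
  | tail _ h2 ih =>
    obtain ⟨l, r, s, t, hm, rfl, rfl⟩ := h2
    rw [← ih]; simp

theorem centres_pos {M : CoxeterMatrix B} {α : List B} {c : ℤ} (hc : c ∈ centres M α) : 0 ≤ c := by
  obtain ⟨_, ⟨β, hβ, rfl⟩, he⟩ := hc
  obtain ⟨n, s, t, rfl, -⟩ := en_pos he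
  positivity

theorem centres_finite (M : CoxeterMatrix B) (α : List B) : (centres M α).Finite := by
  refine (Set.finite_Icc (0 : ℤ) α.length).subset ?_
  rintro c ⟨_, ⟨β, hβ, rfl⟩, he⟩
  obtain ⟨n, s, t, rfl, -, -, -, h2⟩ := en_pos he
  obtain ⟨l2, -⟩ := List.getElem?_eq_some_iff.mp h2
  rw [class_length hβ] at l2
  constructor <;> omega

/-! ### distances from potentials -/

theorem dist_eq_of_potential {V : Type*} (G : SimpleGraph V) (f : V → ℕ) (u : V) (h0 : f u = 0)
    (huniq : ∀ x, f x = 0 → x = u) (hstep : ∀ x y, G.Adj x y → f x ≤ f y + 1)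
    (hdec : ∀ x, f x ≠ 0 → ∃ y, G.Adj x y ∧ f y + 1 = f x) :
    ∀ x, G.Reachable x u ∧ G.dist x u = f x := by
  have upper : ∀ n x, f x = n → ∃ p : G.Walk x u, p.length = n := by
    intro n
    induction n with
    | zero =>
      intro x hx
      obtain rfl := huniq x hx
      exact ⟨SimpleGraph.Walk.nil, rfl⟩
    | succ n ih =>
      intro x hx
      obtain ⟨y, hxy, hy⟩ := hdec x (by omega)
      obtain ⟨p, hp⟩ := ih y (by omega)
      exact ⟨SimpleGraph.Walk.cons hxy p, by simp [hp]⟩
  have lower : ∀ x y (p : G.Walk x y), f x ≤ f y + p.length := by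
    intro x y p
    induction p with
    | nil => simp
    | @cons a b c hab p ih =>
      have := hstep _ _ hab
      simp only [SimpleGraph.Walk.length_cons]
      omega
  intro x
  obtain ⟨p, hp⟩ := upper (f x) x rfl
  refine ⟨⟨p⟩, le_antisymm (hp ▸ SimpleGraph.dist_le p) ?_⟩
  obtain ⟨q, hq⟩ := SimpleGraph.Reachable.exists_walk_length_eq_dist (G := G) (u := x) (v := u) ⟨p⟩
  have := lower _ _ q
  omega

/-- **The antipodal pair**: in type `Λ`, the braid graph of a reduced word has two vertices `u, v`
with `d(u,w) + d(w,v) = d(u,v) =` number of shadow positions, for all `w`. -/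
theorem antipodal {W : Type*} [Group W] {M : CoxeterMatrix B} (cs : CoxeterSystem M W)
    (hΛ : TypeLambda M) {α : List B} (hα : cs.IsReduced α) :
    ∃ u v : braidClass M α, ∀ w : braidClass M α,
      (braidGraph M α).Reachable w u ∧ (braidGraph M α).Reachable w v ∧
      (braidGraph M α).dist u w + (braidGraph M α).dist w v = (centres M α).ncard := by
  have F := full cs hα hΛ
  have hfin := centres_finite M α
  have hpos : ∀ c ∈ centres M α, 0 ≤ c := fun c hc => centres_pos hc
  have hpair : ∀ c, ∃ p q : Option B, c ∈ centres M α →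
      IsPair (adjO M) (emb '' braidClass M α) c p q := by
    intro c
    by_cases hc : c ∈ centres M α
    · obtain ⟨p, q, h⟩ := F.exists_pair hc
      exact ⟨p, q, fun _ => h⟩
    · exact ⟨none, none, fun h => absurd h hc⟩
  choose p q hpq using hpair
  obtain ⟨g, h, hg, hh, hgh⟩ := F.exists_tgt hpq hpos
  -- for each target, a vertex with the prescribed distances
  have key : ∀ g, Tgt (centres M α) p q g → ∃ u : braidClass M α, ∀ w : braidClass M α,
      (braidGraph M α).Reachable w u ∧ (braidGraph M α).dist w u = dis (centres M α) g (emb w) := by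
    intro g hg
    have hmem : ∀ w : braidClass M α, emb w.1 ∈ emb '' braidClass M α := fun w => ⟨w.1, w.2, rfl⟩
    have hdec : ∀ x : braidClass M α, dis (centres M α) g (emb x) ≠ 0 → ∃ y : braidClass M α,
        (braidGraph M α).Adj x y ∧
        dis (centres M α) g (emb y) + 1 = dis (centres M α) g (emb x) := by
      intro x hx
      have hne : {c | c ∈ centres M α ∧ emb x.1 c ≠ g c}.Nonempty := by
        by_contra hcon
        rw [Set.not_nonempty_iff_eq_empty] at hcon
        exact hx (by unfold dis; rw [hcon, Set.ncard_empty])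
      obtain ⟨c₀, hc₀, hb₀⟩ := hne
      obtain ⟨c, hc, he, h1, h2⟩ := F.exists_move (fun c hc => hpq c hc) hg hfin (hmem x) hc₀ hb₀
      obtain ⟨y, hm, hy⟩ := move_of_en he
      have hd := dis_flip hfin F.ns hc h1 h2
      have hycl : y ∈ braidClass M α := Relation.ReflTransGen.tail x.2 hm
      refine ⟨⟨y, hycl⟩, ?_, ?_⟩
      · rw [braidGraph, SimpleGraph.fromRel_adj]
        refine ⟨?_, Or.inl hm⟩
        intro hxy
        have hxy' : x.1 = y := congrArg Subtype.val hxy
        have : emb x.1 c = flip c (emb x.1) c := by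
          have := congrFun hy c
          rwa [← hxy'] at this
        rw [flip_c] at this
        exact F.toCls.en_ne (hmem x) he this
      · show dis (centres M α) g (emb y) + 1 = _
        rw [hy]; exact hd
    have hstep : ∀ x y : braidClass M α, (braidGraph M α).Adj x y →
        dis (centres M α) g (emb x) ≤ dis (centres M α) g (emb y) + 1 := by
      intro x y hxy
      rw [braidGraph, SimpleGraph.fromRel_adj] at hxy
      have hyx : Move M y.1 x.1 := by
        rcases hxy.2 with h | h
        · exact h.symm'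
        · exact h
      obtain ⟨c, hc, he⟩ := hyx.exists_en
      rw [he]
      exact dis_le hfin F.ns (F.all _ (hmem y) c hc)
    have hex : ∀ n, ∀ x : braidClass M α, dis (centres M α) g (emb x) = n →
        ∃ u : braidClass M α, dis (centres M α) g (emb u) = 0 := by
      intro n
      induction n with
      | zero => intro x hx; exact ⟨x, hx⟩
      | succ n ih =>
        intro x hx
        obtain ⟨y, -, hy⟩ := hdec x (by omega)
        exact ih y (by omega)
    obtain ⟨u, hu⟩ := hex _ ⟨α, Relation.ReflTransGen.refl⟩ rfl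
    refine ⟨u, dist_eq_of_potential _ (fun x : braidClass M α => dis (centres M α) g (emb x)) u
      hu ?_ hstep hdec⟩
    intro x hx
    apply Subtype.ext
    apply emb_injective
    refine F.ext_centres (hmem x) (hmem u) (fun c hc => ?_)
    have z : ∀ y : braidClass M α, dis (centres M α) g (emb y) = 0 → emb y.1 c = g c := by
      intro y hy
      unfold dis at hy
      rw [Set.ncard_eq_zero (hfin.subset (fun c hc => hc.1))] at hy
      by_contra hcon
      have : c ∈ {c | c ∈ centres M α ∧ emb y.1 c ≠ g c} := ⟨hc, hcon⟩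
      rw [hy] at this
      exact this
    rw [z x hx, z u hu]
  obtain ⟨u, hu⟩ := key g hg
  obtain ⟨v, hv⟩ := key h hh
  refine ⟨u, v, fun w => ⟨(hu w).1, (hv w).1, ?_⟩⟩
  rw [SimpleGraph.dist_comm, (hu w).2, (hv w).2]
  unfold dis
  have hd : Disjoint {c | c ∈ centres M α ∧ emb w.1 c ≠ g c} {c | c ∈ centres M α ∧ emb w.1 c ≠ h c} := by
    rw [Set.disjoint_left]
    rintro c ⟨hc, h1⟩ ⟨-, h2⟩
    obtain ⟨hne, -, hall, -⟩ := hpq c hc
    have m1 := hall _ ⟨w.1, w.2, rfl⟩
    have m2 := hg.mem c hc
    have m3 := hh.mem c hc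
    have m4 := hgh c hc
    rcases m1 with m1 | m1 <;> rcases m2 with m2 | m2 <;> rcases m3 with m3 | m3
    · exact m4 (m2.trans m3.symm)
    · exact h1 (m1.trans m2.symm)
    · exact h2 (m1.trans m3.symm)
    · exact m4 (m2.trans m3.symm)
    · exact m4 (m2.trans m3.symm)
    · exact h2 (m1.trans m3.symm)
    · exact h1 (m1.trans m2.symm)
    · exact m4 (m2.trans m3.symm)
  rw [← Set.ncard_union_eq hd (hfin.subset (fun c hc => hc.1)) (hfin.subset (fun c hc => hc.1))]
  congr 1
  ext c
  constructor
  · rintro (⟨hc, -⟩ | ⟨hc, -⟩) <;> exact hc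
  · intro hc
    by_cases h1 : emb w.1 c = g c
    · right
      exact ⟨hc, fun h2 => hgh c hc (h1.symm.trans h2)⟩
    · left; exact ⟨hc, h1⟩

end Pool.Agent.Q102.Braid
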