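import Mathlib

/-!
# Bridged graphs: balls are convex

`NoIso H` says that `H` has no isometric closed walk of length at least four, in terms of periodic
sequences of vertices.  We prove that in such a graph the balls `{x | Le H u x n}` have the properties
`PA` (the neighbours in the ball of a vertex outside form a clique) and `PB` (two adjacent vertices
of the next sphere have a common neighbour in the ball).
-/

set_option autoImplicit false

open SimpleGraph

namespace Pool.Agent.Q102.Bridged

variable {V : Type*}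

/-- There is a walk of length at most `n` from `u` to `x`. -/
def Le (H : SimpleGraph V) (u x : V) (n : ℕ) : Prop := ∃ p : H.Walk u x, p.length ≤ n

section Le

variable {H : SimpleGraph V} {u v w x : V} {m n : ℕ}

theorem Le.refl (u : V) (n : ℕ) : Le H u u n := ⟨Walk.nil, by simp⟩

theorem Le.mono (h : Le H u x m) (hmn : m ≤ n) : Le H u x n := by
  obtain ⟨p, hp⟩ := h
  exact ⟨p, hp.trans hmn⟩

theorem Le.symm (h : Le H u x n) : Le H x u n := by
  obtain ⟨p, hp⟩ := h
  exact ⟨p.reverse, by simpa using hp⟩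

theorem Le.trans (h : Le H u v m) (h' : Le H v w n) : Le H u w (m + n) := by
  obtain ⟨p, hp⟩ := h
  obtain ⟨q, hq⟩ := h'
  exact ⟨p.append q, by rw [Walk.length_append]; omega⟩

theorem Le.of_adj (h : H.Adj u v) : Le H u v 1 := ⟨Walk.cons h Walk.nil, by simp⟩

theorem Le.succ_adj (h : Le H u v n) (h' : H.Adj v w) : Le H u w (n + 1) :=
  h.trans (Le.of_adj h')

theorem Le.adj_succ (h' : H.Adj u v) (h : Le H v w n) : Le H u w (n + 1) := by
  have := (Le.of_adj h').trans h
  rwa [add_comm] at this

theorem Le.eq_of_zero (h : Le H u v 0) : u = v := by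
  obtain ⟨p, hp⟩ := h
  exact Walk.eq_of_length_eq_zero (Nat.le_zero.mp hp)

theorem Le.pred (h : Le H u x (n + 1)) : Le H u x n ∨ ∃ p, Le H u p n ∧ H.Adj p x := by
  obtain ⟨p, hp⟩ := h.symm
  cases p with
  | nil => exact Or.inl (Le.refl _ _)
  | @cons _ w _ e q =>
    rw [Walk.length_cons] at hp
    exact Or.inr ⟨w, Le.symm ⟨q, by omega⟩, e.symm⟩

theorem Le.eq_or_adj (h : Le H u x 1) : u = x ∨ H.Adj u x := by
  rcases h.pred with h | ⟨p, h, hp⟩
  · exact Or.inl h.eq_of_zero
  · exact Or.inr (h.eq_of_zero ▸ hp)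

end Le

/-- The closed walk `c` of period `N` is isometric. -/
def Iso (H : SimpleGraph V) (N : ℕ) (c : ℕ → V) : Prop :=
  ∀ i k, 1 ≤ k → 2 * k ≤ N → ¬ Le H (c i) (c (i + k)) (k - 1)

/-- No isometric closed walk of length at least four. -/
def NoIso (H : SimpleGraph V) : Prop :=
  ∀ (N : ℕ) (c : ℕ → V), 4 ≤ N → (∀ i, c (i + N) = c i) → (∀ i, H.Adj (c i) (c (i + 1))) →
    ¬ Iso H N c

theorem seq_le {H : SimpleGraph V} {c : ℕ → V} (hc : ∀ i, H.Adj (c i) (c (i + 1))) (i k : ℕ) :
    Le H (c i) (c (i + k)) k := by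
  induction k with
  | zero => exact Le.refl _ _
  | succ k ih => exact ih.succ_adj (hc (i + k))

/-- If antipodal vertices are far apart then the closed walk is isometric. -/
theorem iso_of_antipodal {H : SimpleGraph V} {N m : ℕ} {c : ℕ → V} (hm : N ≤ 2 * m + 1)
    (hc : ∀ i, H.Adj (c i) (c (i + 1))) (h : ∀ i, ¬ Le H (c i) (c (i + m)) (m - 1)) :
    Iso H N c := by
  intro i k hk hkN hle
  apply h i
  have h1 := seq_le hc (i + k) (m - k)
  have h2 : i + k + (m - k) = i + m := by omega
  rw [h2] at h1
  exact (hle.trans h1).mono (by omega)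

/-- No induced four-cycle. -/
def C4free (H : SimpleGraph V) : Prop :=
  ∀ a b c d, H.Adj a b → H.Adj b c → H.Adj c d → H.Adj d a → a ≠ c → b ≠ d →
    H.Adj a c ∨ H.Adj b d

/-- No induced five-cycle. -/
def C5free (H : SimpleGraph V) : Prop :=
  ∀ a b c d e, H.Adj a b → H.Adj b c → H.Adj c d → H.Adj d e → H.Adj e a →
    a ≠ c → b ≠ d → c ≠ e → d ≠ a → e ≠ b →
    H.Adj a c ∨ H.Adj b d ∨ H.Adj c e ∨ H.Adj d a ∨ H.Adj e b

theorem NoIso.c4free {H : SimpleGraph V} (hH : NoIso H) : C4free H := by
  intro a b c d h1 h2 h3 h4 hac hbd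
  by_contra hcon
  rw [not_or] at hcon
  let s : ℕ → V := fun i => if i % 4 = 0 then a else if i % 4 = 1 then b else
    if i % 4 = 2 then c else d
  refine hH 4 s le_rfl (fun i => by simp [s]) ?_ ?_
  · intro i
    have : i % 4 = 0 ∨ i % 4 = 1 ∨ i % 4 = 2 ∨ i % 4 = 3 := by omega
    rcases this with h | h | h | h
    · have h' : (i + 1) % 4 = 1 := by omega
      simp [s, h, h', h1]
    · have h' : (i + 1) % 4 = 2 := by omega
      simp [s, h, h', h2]
    · have h' : (i + 1) % 4 = 3 := by omega
      simp [s, h, h', h3]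
    · have h' : (i + 1) % 4 = 0 := by omega
      simp [s, h, h', h4]
  · apply iso_of_antipodal (m := 2) (by norm_num)
    · intro i
      have : i % 4 = 0 ∨ i % 4 = 1 ∨ i % 4 = 2 ∨ i % 4 = 3 := by omega
      rcases this with h | h | h | h
      · have h' : (i + 1) % 4 = 1 := by omega
        simp [s, h, h', h1]
      · have h' : (i + 1) % 4 = 2 := by omega
        simp [s, h, h', h2]
      · have h' : (i + 1) % 4 = 3 := by omega
        simp [s, h, h', h3]
      · have h' : (i + 1) % 4 = 0 := by omega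
        simp [s, h, h', h4]
    · intro i hle
      have hle' := hle.eq_or_adj
      have : i % 4 = 0 ∨ i % 4 = 1 ∨ i % 4 = 2 ∨ i % 4 = 3 := by omega
      rcases this with h | h | h | h
      · have h' : (i + 2) % 4 = 2 := by omega
        simp only [s, h, h', if_true, if_false, OfNat.ofNat_ne_zero, OfNat.ofNat_ne_one] at hle'
        tauto
      · have h' : (i + 2) % 4 = 3 := by omega
        simp [s, h, h'] at hle'
        tauto
      · have h' : (i + 2) % 4 = 0 := by omega
        simp [s, h, h'] at hle'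
        rcases hle' with hle' | hle'
        · exact hac hle'.symm
        · exact hcon.1 hle'.symm
      · have h' : (i + 2) % 4 = 1 := by omega
        simp [s, h, h'] at hle'
        rcases hle' with hle' | hle'
        · exact hbd hle'.symm
        · exact hcon.2 hle'.symm

theorem NoIso.c5free {H : SimpleGraph V} (hH : NoIso H) : C5free H := by
  intro a b c d e h1 h2 h3 h4 h5 hac hbd hce hda heb
  by_contra hcon
  simp only [not_or] at hcon
  obtain ⟨k1, k2, k3, k4, k5⟩ := hcon
  let s : ℕ → V := fun i => if i % 5 = 0 then a else if i % 5 = 1 then b else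
    if i % 5 = 2 then c else if i % 5 = 3 then d else e
  have hs : ∀ i, H.Adj (s i) (s (i + 1)) := by
    intro i
    have : i % 5 = 0 ∨ i % 5 = 1 ∨ i % 5 = 2 ∨ i % 5 = 3 ∨ i % 5 = 4 := by omega
    rcases this with h | h | h | h | h
    · have h' : (i + 1) % 5 = 1 := by omega
      simp [s, h, h', h1]
    · have h' : (i + 1) % 5 = 2 := by omega
      simp [s, h, h', h2]
    · have h' : (i + 1) % 5 = 3 := by omega
      simp [s, h, h', h3]
    · have h' : (i + 1) % 5 = 4 := by omega
      simp [s, h, h', h4]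
    · have h' : (i + 1) % 5 = 0 := by omega
      simp [s, h, h', h5]
  refine hH 5 s (by norm_num) (fun i => by simp [s]) hs ?_
  apply iso_of_antipodal (m := 2) (by norm_num) hs
  intro i hle
  have hle' := hle.eq_or_adj
  have : i % 5 = 0 ∨ i % 5 = 1 ∨ i % 5 = 2 ∨ i % 5 = 3 ∨ i % 5 = 4 := by omega
  rcases this with h | h | h | h | h
  · have h' : (i + 2) % 5 = 2 := by omega
    simp [s, h, h'] at hle'
    tauto
  · have h' : (i + 2) % 5 = 3 := by omega
    simp [s, h, h'] at hle'
    tauto
  · have h' : (i + 2) % 5 = 4 := by omega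
    simp [s, h, h'] at hle'
    tauto
  · have h' : (i + 2) % 5 = 0 := by omega
    simp [s, h, h'] at hle'
    tauto
  · have h' : (i + 2) % 5 = 1 := by omega
    simp [s, h, h'] at hle'
    tauto

/-- The gadget lemma. -/
theorem gadget {H : SimpleGraph V} (h4 : C4free H) (h5 : C5free H) {y q0 q2 t t' : V}
    (a1 : H.Adj y q0) (a2 : H.Adj y q2) (hne : q0 ≠ q2) (hna : ¬ H.Adj q0 q2)
    (b1 : H.Adj q0 t) (b2 : H.Adj q2 t') (htt : t = t' ∨ H.Adj t t')
    (c1 : y ≠ t) (c2 : y ≠ t') (d1 : ¬ H.Adj y t) (d2 : ¬ H.Adj y t') : False := by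
  rcases htt with rfl | htt
  · rcases h4 y q0 t q2 a1 b1 b2.symm a2.symm c1 hne with h | h
    · exact d1 h
    · exact hna h
  · by_cases e1 : H.Adj t q2
    · rcases h4 y q0 t q2 a1 b1 e1 a2.symm c1 hne with h | h
      · exact d1 h
      · exact hna h
    by_cases e2 : H.Adj t' q0
    · rcases h4 y q0 t' q2 a1 e2.symm b2.symm a2.symm c2 hne with h | h
      · exact d2 h
      · exact hna h
    have f1 : q0 ≠ t' := by
      rintro rfl
      exact hna b2.symm
    have f2 : t ≠ q2 := by
      rintro rfl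
      exact hna b1
    rcases h5 y q0 t t' q2 a1 b1 htt b2.symm a2.symm c1 f1 f2 c2.symm hne.symm with
      h | h | h | h | h
    · exact d1 h
    · exact e2 h.symm
    · exact e1 h
    · exact d2 h.symm
    · exact hna h.symm

/-- Neighbours in a ball of a vertex outside the ball form a clique. -/
def PA (H : SimpleGraph V) (n : ℕ) : Prop :=
  ∀ u x p q, ¬ Le H u x n → H.Adj x p → H.Adj x q → Le H u p n → Le H u q n → p ≠ q → H.Adj p q

/-- Adjacent vertices on a sphere have a common neighbour in the smaller ball. -/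
def PB (H : SimpleGraph V) (n : ℕ) : Prop :=
  ∀ u x y, H.Adj x y → ¬ Le H u x n → ¬ Le H u y n → Le H u x (n + 1) → Le H u y (n + 1) →
    ∃ w, H.Adj x w ∧ H.Adj y w ∧ Le H u w n

theorem PA_zero (H : SimpleGraph V) : PA H 0 := by
  intro u x p q _ _ _ h1 h2 h3
  exact absurd (h1.eq_of_zero.symm.trans h2.eq_of_zero) h3

theorem PB_zero (H : SimpleGraph V) : PB H 0 := by
  intro u x y _ h1 h2 h3 h4
  refine ⟨u, ?_, ?_, Le.refl _ _⟩
  · rcases h3.eq_or_adj with rfl | h
    · exact absurd (Le.refl _ _) h1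
    · exact h.symm
  · rcases h4.eq_or_adj with rfl | h
    · exact absurd (Le.refl _ _) h2
    · exact h.symm

/-- The periodic sequence of a closed walk. -/
def seq {H : SimpleGraph V} {u : V} (W : H.Walk u u) : ℕ → V := fun i => W.getVert (i % W.length)

theorem seq_period {H : SimpleGraph V} {u : V} (W : H.Walk u u) (i : ℕ) :
    seq W (i + W.length) = seq W i := by
  simp [seq]

theorem seq_adj {H : SimpleGraph V} {u : V} (W : H.Walk u u) (hW : 0 < W.length) (i : ℕ) :
    H.Adj (seq W i) (seq W (i + 1)) := by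
  have h1 := Nat.mod_lt i hW
  rw [seq, seq]
  by_cases h : i % W.length + 1 < W.length
  · have h2 : (i + 1) % W.length = i % W.length + 1 := by
      rw [Nat.add_mod, Nat.mod_eq_of_lt (by omega : 1 < W.length), Nat.mod_eq_of_lt h]
    rw [h2]
    exact W.adj_getVert_succ h1
  · have h3 : i % W.length + 1 = W.length := by omega
    have h2 : (i + 1) % W.length = 0 := by
      rw [Nat.add_mod]
      by_cases h4 : W.length = 1
      · rw [h4]
        omega
      · rw [Nat.mod_eq_of_lt (by omega : 1 < W.length), h3, Nat.mod_self]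
    have h5 := W.adj_getVert_succ h1
    rw [h3, Walk.getVert_length] at h5
    rw [h2, Walk.getVert_zero]
    exact h5

theorem seq_lt {H : SimpleGraph V} {u : V} (W : H.Walk u u) {i : ℕ} (hi : i < W.length) :
    seq W i = W.getVert i := by
  rw [seq, Nat.mod_eq_of_lt hi]

end Pool.Agent.Q102.Bridged
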