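import Mathlib
import Pool.Agent.Q102.BridgedBasic

/-!
# Bridged graphs: the ball properties, and distances from an edge
-/

set_option autoImplicit false

open SimpleGraph

namespace Pool.Agent.Q102.Bridged

variable {V : Type*} {H : SimpleGraph V}

theorem PA_succ (hH : NoIso H) {s : ℕ} (hA : PA H s) (hB : PB H s) : PA H (s + 1) := by
  intro u x p q hx hxp hxq hp hq hpq
  by_contra hnadj
  obtain ⟨P, hP⟩ := hp
  obtain ⟨Q, hQ⟩ := hq
  have hPl : P.length = s + 1 := by
    by_contra hne
    exact hx (Le.succ_adj ⟨P, by omega⟩ hxp.symm)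
  have hQl : Q.length = s + 1 := by
    by_contra hne
    exact hx (Le.succ_adj ⟨Q, by omega⟩ hxq.symm)
  let W : H.Walk u u := P.append (Walk.cons hxp.symm (Walk.cons hxq Q.reverse))
  have hWl : W.length = 2 * s + 4 := by
    simp only [W, Walk.length_append, Walk.length_cons, Walk.length_reverse, hPl, hQl]
    ring
  have hc := seq_adj W (by omega)
  have hper : ∀ i, seq W (i + (2 * s + 4)) = seq W i := by
    intro i
    rw [← hWl]
    exact seq_period W i
  have e1 : seq W (s + 1) = p := by
    rw [seq_lt W (by omega), Walk.getVert_append, if_neg (by omega)]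
    simp [hPl]
  have e2 : seq W (s + 2) = x := by
    rw [seq_lt W (by omega), Walk.getVert_append, if_neg (by omega)]
    simp [hPl]
  have e3 : seq W (s + 3) = q := by
    rw [seq_lt W (by omega), Walk.getVert_append, if_neg (by omega)]
    have : s + 3 - P.length = 2 := by omega
    rw [this]
    simp
  have e0 : seq W 0 = u := by
    rw [seq_lt W (by omega), Walk.getVert_zero]
  generalize seq W = c at hc hper e0 e1 e2 e3
  have hC4 := hH.c4free
  have hC5 := hH.c5free
  -- the rotation
  have key : ∀ i, ¬ Le H (c i) (c (i + (s + 2))) (s + 1) ∧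
      ¬ H.Adj (c (i + (s + 1))) (c (i + (s + 3))) ∧ c (i + (s + 1)) ≠ c (i + (s + 3)) := by
    intro i
    induction i with
    | zero =>
      simp only [zero_add, e0, e1, e2, e3]
      exact ⟨hx, hnadj, hpq⟩
    | succ i ih =>
      obtain ⟨hx, hnadj, hpq⟩ := ih
      have r1 : i + 1 + (s + 2) = i + (s + 3) := by ring
      have r2 : i + 1 + (s + 1) = i + (s + 2) := by ring
      have r3 : i + 1 + (s + 3) = i + (s + 4) := by ring
      have r4 : i + 1 + s = i + (s + 1) := by ring
      rw [r1, r2, r3]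
      have hxp : H.Adj (c (i + (s + 2))) (c (i + (s + 1))) := (hc (i + (s + 1))).symm
      have hxq : H.Adj (c (i + (s + 2))) (c (i + (s + 3))) := hc (i + (s + 2))
      have hua : H.Adj (c i) (c (i + 1)) := hc i
      have huq : Le H (c i) (c (i + (s + 3))) (s + 1) := by
        have h1 := seq_le hc (i + (s + 3)) (s + 1)
        have h2 : i + (s + 3) + (s + 1) = i + (2 * s + 4) := by ring
        rw [h2, hper] at h1
        exact h1.symm
      have hub : Le H (c i) (c (i + (s + 4))) s := by
        have h1 := seq_le hc (i + (s + 4)) s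
        have h2 : i + (s + 4) + s = i + (2 * s + 4) := by ring
        rw [h2, hper] at h1
        exact h1.symm
      have hup : Le H (c i) (c (i + (s + 1))) (s + 1) := seq_le hc i (s + 1)
      have hap : Le H (c (i + 1)) (c (i + (s + 1))) s := by
        have h1 := seq_le hc (i + 1) s
        rwa [r4] at h1
      generalize c (i + (s + 4)) = b at *
      generalize c (i + (s + 3)) = q at *
      generalize c (i + (s + 2)) = x at *
      generalize c (i + (s + 1)) = p at *
      generalize c (i + 1) = a at *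
      generalize c i = u at *
      have hxa : ¬ Le H a x s := fun h => hx (Le.adj_succ hua h)
      have nup : ∀ w, H.Adj x w → ¬ Le H u w s := fun w hw h => hx (h.succ_adj hw.symm)
      refine ⟨?_, ?_, ?_⟩
      · intro hle
        by_cases h1 : Le H a q s
        · exact hnadj (hA a x p q hxa hxp hxq hap h1 hpq)
        · obtain ⟨w, hxw, hqw, hw⟩ := hB a x q hxq hxa h1 (hap.succ_adj hxp.symm) hle
          have hpw' : p ≠ w := by
            rintro rfl
            exact hnadj hqw.symm
          have hpw : H.Adj p w := hA a x p w hxa hxp hxw hap hw hpw'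
          have huw : Le H u w (s + 1) := Le.adj_succ hua hw
          obtain ⟨t, hpt, hwt, ht⟩ := hB u p w hpw (nup p hxp) (nup w hxw) hup huw
          obtain ⟨t', hqt', hwt', ht'⟩ := hB u q w hqw (nup q hxq) (nup w hxw) huq huw
          have htt : t = t' ∨ H.Adj t t' := by
            by_cases h : t = t'
            · exact Or.inl h
            · exact Or.inr (hA u w t t' (nup w hxw) hwt hwt' ht ht' h)
          refine gadget hC4 hC5 hxp hxq hpq hnadj hpt hqt' htt ?_ ?_ ?_ ?_
          · rintro rfl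
            exact hx (ht.mono (by omega))
          · rintro rfl
            exact hx (ht'.mono (by omega))
          · exact fun h => hx (ht.succ_adj h.symm)
          · exact fun h => hx (ht'.succ_adj h.symm)
      · exact fun h => hx (hub.succ_adj h.symm)
      · rintro rfl
        exact hx (hub.mono (by omega))
  refine hH (2 * s + 4) c (by omega) hper hc ?_
  exact iso_of_antipodal (m := s + 2) (by omega) hc fun i => (key i).1

theorem PB_succ (hH : NoIso H) {s : ℕ} (hA : PA H (s + 1)) (hB : PB H s) : PB H (s + 1) := by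
  intro u x y hxy hx hy hx' hy'
  by_contra hno
  push Not at hno
  obtain ⟨P, hP⟩ := hx'
  obtain ⟨Q, hQ⟩ := hy'
  have hPl : P.length = s + 2 := by
    by_contra hne
    exact hx ⟨P, by omega⟩
  have hQl : Q.length = s + 2 := by
    by_contra hne
    exact hy ⟨Q, by omega⟩
  let W : H.Walk u u := P.append (Walk.cons hxy Q.reverse)
  have hWl : W.length = 2 * s + 5 := by
    simp only [W, Walk.length_append, Walk.length_cons, Walk.length_reverse, hPl, hQl]
    ring
  have hc := seq_adj W (by omega)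
  have hper : ∀ i, seq W (i + (2 * s + 5)) = seq W i := by
    intro i
    rw [← hWl]
    exact seq_period W i
  have e1 : seq W (s + 2) = x := by
    rw [seq_lt W (by omega), Walk.getVert_append, if_neg (by omega)]
    simp [hPl]
  have e2 : seq W (s + 3) = y := by
    rw [seq_lt W (by omega), Walk.getVert_append, if_neg (by omega)]
    have : s + 3 - P.length = 1 := by omega
    rw [this]
    simp
  have e0 : seq W 0 = u := by
    rw [seq_lt W (by omega), Walk.getVert_zero]
  generalize seq W = c at hc hper e0 e1 e2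
  -- bad configurations
  let Bad : ℕ → Prop := fun i => ¬ Le H (c i) (c (i + (s + 2))) (s + 1) ∧
      ¬ Le H (c i) (c (i + (s + 3))) (s + 1) ∧
      ∀ w, H.Adj (c (i + (s + 2))) w → H.Adj (c (i + (s + 3))) w → ¬ Le H (c i) w (s + 1)
  have bad0 : Bad 0 := by
    simp only [Bad, zero_add, e0, e1, e2]
    exact ⟨hx, hy, hno⟩
  have badper : ∀ i, Bad (i + (2 * s + 5)) ↔ Bad i := by
    intro i
    have r1 : i + (2 * s + 5) + (s + 2) = i + (s + 2) + (2 * s + 5) := by ring
    have r2 : i + (2 * s + 5) + (s + 3) = i + (s + 3) + (2 * s + 5) := by ring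
    simp only [Bad, r1, r2, hper]
  have step : ∀ i, Bad i → Bad (i + (s + 2)) := by
    rintro i ⟨hx, hy, hno⟩
    have r1 : i + (s + 2) + (s + 2) = i + (2 * s + 4) := by ring
    have r2 : i + (s + 2) + (s + 3) = i + (2 * s + 5) := by ring
    simp only [Bad, r1, r2, hper]
    have hxy : H.Adj (c (i + (s + 2))) (c (i + (s + 3))) := hc (i + (s + 2))
    have hub : H.Adj (c (i + (2 * s + 4))) (c i) := by
      have h1 := hc (i + (2 * s + 4))
      have h2 : i + (2 * s + 4) + 1 = i + (2 * s + 5) := by ring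
      rwa [h2, hper] at h1
    have hyb : Le H (c (i + (2 * s + 4))) (c (i + (s + 3))) (s + 1) := by
      have h1 := seq_le hc (i + (s + 3)) (s + 1)
      have h2 : i + (s + 3) + (s + 1) = i + (2 * s + 4) := by ring
      rw [h2] at h1
      exact h1.symm
    generalize c (i + (2 * s + 4)) = b at *
    generalize c (i + (s + 3)) = y at *
    generalize c (i + (s + 2)) = x at *
    generalize c i = u at *
    -- a neighbour of `u` is not much closer to `x` and `y`
    have common : ∀ z, H.Adj u z → Le H z x (s + 1) → Le H z y (s + 1) → False := by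
      intro z hz h1 h2
      obtain ⟨w, hw1, hw2, hw3⟩ := hB z x y hxy (fun h => hx (Le.adj_succ hz h))
        (fun h => hy (Le.adj_succ hz h)) h1 h2
      exact hno w hw1 hw2 (Le.adj_succ hz hw3)
    have hbx : ¬ Le H b x (s + 1) := fun h => common b hub.symm h hyb
    refine ⟨fun h => hbx h.symm, fun h => hx h.symm, ?_⟩
    intro w hbw huw hxw
    by_cases hyw : Le H w y (s + 1)
    · exact common w huw hxw.symm hyw
    rcases hxw.symm.pred with h | ⟨p, hp, hpx⟩
    · exact hx (Le.adj_succ huw h)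
    · have hpy : p ≠ y := by
        rintro rfl
        exact hyw (hp.mono (by omega))
      have h1 := hA b x p y hbx hpx.symm hxy (Le.adj_succ hbw hp) hyb hpy
      exact hyw (hp.succ_adj h1)
  have back : ∀ i, Bad (i + 1) → Bad i := by
    intro i h
    have h1 := step _ (step _ h)
    have h2 : i + 1 + (s + 2) + (s + 2) = i + (2 * s + 5) := by ring
    rw [h2, badper] at h1
    exact h1
  have back' : ∀ d i, Bad (i + d) → Bad i := by
    intro d
    induction d with
    | zero => exact fun i h => h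
    | succ d ih => exact fun i h => ih i (back (i + d) h)
  have far : ∀ t, Bad (t * (2 * s + 5)) := by
    intro t
    induction t with
    | zero => rwa [zero_mul]
    | succ t ih => rwa [Nat.succ_mul, badper]
  have all : ∀ i, Bad i := by
    intro i
    have h1 : i + (i * (2 * s + 4)) = i * (2 * s + 5) := by ring
    exact back' (i * (2 * s + 4)) i (by rw [h1]; exact far i)
  refine hH (2 * s + 5) c (by omega) hper hc ?_
  exact iso_of_antipodal (m := s + 2) (by omega) hc fun i => (all i).1

theorem PAB (hH : NoIso H) : ∀ n, PA H n ∧ PB H n := by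
  intro n
  induction n with
  | zero => exact ⟨PA_zero H, PB_zero H⟩
  | succ n ih =>
    have hA := PA_succ hH ih.1 ih.2
    exact ⟨hA, PB_succ hH hA ih.2⟩

/-! ### Distance from a vertex or an edge -/

/-- Distance at most `r` from `{z, z'}`. -/
def LK (H : SimpleGraph V) (z z' w : V) (r : ℕ) : Prop := Le H z w r ∨ Le H z' w r

theorem LK.swap {z z' w : V} {r : ℕ} (h : LK H z z' w r) : LK H z' z w r := Or.symm h

theorem LK.succ_adj {z z' w x : V} {r : ℕ} (h : LK H z z' w r) (hwx : H.Adj w x) :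
    LK H z z' x (r + 1) := h.imp (fun h => h.succ_adj hwx) fun h => h.succ_adj hwx

theorem LK.mono {z z' w : V} {r t : ℕ} (h : LK H z z' w r) (hrt : r ≤ t) : LK H z z' w t :=
  h.imp (fun h => h.mono hrt) fun h => h.mono hrt

/-- There are no rectangles. -/
theorem mixed (hAB : ∀ n, PA H n ∧ PB H n) {z z' x x' : V} {r : ℕ} (hK : z = z' ∨ H.Adj z z')
    (hxx : H.Adj x x') (h1 : Le H z x (r + 1)) (h2 : Le H z' x' (r + 1))
    (h3 : ¬ Le H z x' (r + 1)) (h4 : ¬ Le H z' x (r + 1)) : False := by
  rcases hK with rfl | hK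
  · exact h3 h2
  rcases h1.pred with h | ⟨p, hp, hpx⟩
  · exact h4 (Le.adj_succ hK.symm h)
  · have hpx' : p ≠ x' := by
      rintro rfl
      exact h3 (hp.mono (by omega))
    have := (hAB (r + 1)).1 z' x p x' h4 hpx.symm hxx (Le.adj_succ hK.symm hp) h2 hpx'
    exact h3 (hp.succ_adj this)

theorem KB (hAB : ∀ n, PA H n ∧ PB H n) {z z' : V} (hK : z = z' ∨ H.Adj z z') (r : ℕ) (x y : V)
    (hxy : H.Adj x y) (hx : ¬ LK H z z' x r) (hy : ¬ LK H z z' y r) (hx' : LK H z z' x (r + 1))
    (hy' : LK H z z' y (r + 1)) : ∃ w, H.Adj x w ∧ H.Adj y w ∧ LK H z z' w r := by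
  rw [LK, not_or] at hx hy
  have hK' : z' = z ∨ H.Adj z' z := hK.imp Eq.symm fun h => h.symm
  by_cases h1 : Le H z x (r + 1) ∧ Le H z y (r + 1)
  · obtain ⟨w, h2, h3, h4⟩ := (hAB r).2 z x y hxy hx.1 hy.1 h1.1 h1.2
    exact ⟨w, h2, h3, Or.inl h4⟩
  by_cases h2 : Le H z' x (r + 1) ∧ Le H z' y (r + 1)
  · obtain ⟨w, h2, h3, h4⟩ := (hAB r).2 z' x y hxy hx.2 hy.2 h2.1 h2.2
    exact ⟨w, h2, h3, Or.inr h4⟩
  exfalso
  rcases hx' with hx' | hx' <;> rcases hy' with hy' | hy'
  · exact h1 ⟨hx', hy'⟩
  · exact mixed hAB hK hxy hx' hy' (fun h => h1 ⟨hx', h⟩) (fun h => h2 ⟨h, hy'⟩)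
  · exact mixed hAB hK' hxy hx' hy' (fun h => h2 ⟨hx', h⟩) (fun h => h1 ⟨h, hy'⟩)
  · exact h2 ⟨hx', hy'⟩

theorem KA_aux (hC4 : C4free H) (hC5 : C5free H) (hAB : ∀ n, PA H n ∧ PB H n) {z z' : V}
    (hK : z = z' ∨ H.Adj z z') (s : ℕ)
    (ih : ∀ x p q : V, ¬ LK H z z' x s → H.Adj x p → H.Adj x q → LK H z z' p s →
      LK H z z' q s → p ≠ q → H.Adj p q)
    (x p q : V) (hx : ¬ LK H z z' x (s + 1)) (hxp : H.Adj x p)
    (hxq : H.Adj x q) (hpz : Le H z p (s + 1)) (hqz' : Le H z' q (s + 1))
    (hqz : ¬ Le H z q (s + 1)) (hpq : p ≠ q) : H.Adj p q := by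
  by_contra hna
  have hKa : H.Adj z z' := by
    rcases hK with rfl | h
    · exact absurd hqz' hqz
    · exact h
  rw [LK, not_or] at hx
  have lev : ∀ w, H.Adj x w → ¬ LK H z z' w s := by
    rintro w hw (h | h)
    · exact hx.1 (h.succ_adj hw.symm)
    · exact hx.2 (h.succ_adj hw.symm)
  obtain ⟨w, hxw, hqw, hw⟩ := (hAB (s + 1)).2 z x q hxq hx.1 hqz (hpz.succ_adj hxp.symm)
    (Le.adj_succ hKa hqz')
  have hpw' : p ≠ w := by
    rintro rfl
    exact hna hqw.symm
  have hpw : H.Adj p w := (hAB (s + 1)).1 z x p w hx.1 hxp hxw hpz hw hpw'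
  obtain ⟨t, hpt, hwt, ht⟩ := KB hAB hK s p w hpw (lev p hxp) (lev w hxw) (Or.inl hpz) (Or.inl hw)
  obtain ⟨t', hqt', hwt', ht'⟩ := KB hAB hK s q w hqw (lev q hxq) (lev w hxw) (Or.inr hqz')
    (Or.inl hw)
  have htt : t = t' ∨ H.Adj t t' := by
    by_cases h : t = t'
    · exact Or.inl h
    · exact Or.inr (ih w t t' (lev w hxw) hwt hwt' ht ht' h)
  have hx' : ¬ LK H z z' x (s + 1) := by
    rw [LK, not_or]
    exact hx
  refine gadget hC4 hC5 hxp hxq hpq hna hpt hqt' htt ?_ ?_ ?_ ?_
  · rintro rfl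
    exact hx' (ht.mono (by omega))
  · rintro rfl
    exact hx' (ht'.mono (by omega))
  · exact fun h => hx' (ht.succ_adj h.symm)
  · exact fun h => hx' (ht'.succ_adj h.symm)

theorem KA (hC4 : C4free H) (hC5 : C5free H) (hAB : ∀ n, PA H n ∧ PB H n) {z z' : V}
    (hK : z = z' ∨ H.Adj z z') : ∀ (r : ℕ) (x p q : V), ¬ LK H z z' x r → H.Adj x p → H.Adj x q →
      LK H z z' p r → LK H z z' q r → p ≠ q → H.Adj p q := by
  intro r
  induction r with
  | zero =>
    intro x p q _ _ _ hp hq hpq
    rcases hp with hp | hp <;> rcases hq with hq | hq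
    · exact absurd (hp.eq_of_zero.symm.trans hq.eq_of_zero) hpq
    · have h1 := hp.eq_of_zero
      have h2 := hq.eq_of_zero
      subst h1
      subst h2
      exact hK.resolve_left hpq
    · have h1 := hp.eq_of_zero
      have h2 := hq.eq_of_zero
      subst h1
      subst h2
      exact (hK.resolve_left (Ne.symm hpq)).symm
    · exact absurd (hp.eq_of_zero.symm.trans hq.eq_of_zero) hpq
  | succ s ih =>
    intro x p q hx hxp hxq hp hq hpq
    have hK' : z' = z ∨ H.Adj z' z := hK.imp Eq.symm fun h => h.symm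
    have ih' : ∀ x p q : V, ¬ LK H z' z x s → H.Adj x p → H.Adj x q → LK H z' z p s →
      LK H z' z q s → p ≠ q → H.Adj p q := fun x p q h1 h2 h3 h4 h5 h6 =>
        ih x p q (fun h => h1 h.swap) h2 h3 h4.swap h5.swap h6
    have hx' : ¬ LK H z' z x (s + 1) := fun h => hx h.swap
    by_cases h1 : Le H z p (s + 1) ∧ Le H z q (s + 1)
    · exact (hAB (s + 1)).1 z x p q (fun h => hx (Or.inl h)) hxp hxq h1.1 h1.2 hpq
    by_cases h2 : Le H z' p (s + 1) ∧ Le H z' q (s + 1)
    · exact (hAB (s + 1)).1 z' x p q (fun h => hx (Or.inr h)) hxp hxq h2.1 h2.2 hpq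
    rcases hp with hp | hp <;> rcases hq with hq | hq
    · exact absurd ⟨hp, hq⟩ h1
    · exact KA_aux hC4 hC5 hAB hK s ih x p q hx hxp hxq hp hq (fun h => h1 ⟨hp, h⟩) hpq
    · exact KA_aux hC4 hC5 hAB hK' s ih' x p q hx' hxp hxq hp hq (fun h => h2 ⟨hp, h⟩) hpq
    · exact absurd ⟨hp, hq⟩ h2

end Pool.Agent.Q102.Bridged
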