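import Mathlib
import Pool.Agent.Q102.BridgedBalls

/-!
# Bridged graphs: adding a vertex, and finite bridged subgraphs
-/

set_option autoImplicit false

open SimpleGraph

namespace Pool.Agent.Q102.Bridged

variable {V : Type*}

/-- The subgraph with all edges of `G` inside `B`, on the same vertex type. -/
def rs (G : SimpleGraph V) (B : Set V) : SimpleGraph V where
  Adj x y := G.Adj x y ∧ x ∈ B ∧ y ∈ B
  symm := ⟨fun _ _ h => ⟨h.1.symm, h.2.2, h.2.1⟩⟩
  loopless := ⟨fun x h => G.loopless.irrefl x h.1⟩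

theorem rs_adj {G : SimpleGraph V} {B : Set V} {x y : V} :
    (rs G B).Adj x y ↔ G.Adj x y ∧ x ∈ B ∧ y ∈ B := Iff.rfl

theorem rs_mono (G : SimpleGraph V) {B B' : Set V} (h : B ⊆ B') : rs G B ≤ rs G B' :=
  fun _ _ hxy => ⟨hxy.1, h hxy.2.1, h hxy.2.2⟩

theorem Le.mono_graph {H H' : SimpleGraph V} (hle : H ≤ H') {u x : V} {n : ℕ} (h : Le H u x n) :
    Le H' u x n := by
  obtain ⟨p, hp⟩ := h
  exact ⟨p.mapLe hle, by simpa using hp⟩

section Add

variable {G : SimpleGraph V}

theorem add_vertex_aux (hC4 : C4free G) (hC5 : C5free G) {B : Set V} (hB : NoIso (rs G B)) {y : V}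
    (hy : y ∉ B)
    (hconn : ∀ a ∈ B, ∀ b ∈ B, G.Adj y a → G.Adj y b → ∃ q1 ∈ B, ∃ q2 ∈ B, G.Adj y q1 ∧
      G.Adj y q2 ∧ (a = q1 ∨ G.Adj a q1) ∧ (q1 = q2 ∨ G.Adj q1 q2) ∧ (q2 = b ∨ G.Adj q2 b))
    {N : ℕ} {c : ℕ → V} (hN : 4 ≤ N) (hper : ∀ i, c (i + N) = c i)
    (hc : ∀ i, (rs G (insert y B)).Adj (c i) (c (i + 1)))
    (hiso : Iso (rs G (insert y B)) N c) (h0 : c 0 = y) : False := by
  have hcN : c N = y := by
    have := hper 0
    rwa [zero_add, h0] at this
  have inB : ∀ i, 0 < i → i < N → c i ∈ B := by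
    intro i hi hiN
    rcases (hc i).2.1 with h | h
    · exfalso
      rcases le_or_gt (2 * i) N with h2 | h2
      · apply hiso 0 i hi h2
        rw [zero_add, h0, h]
        exact Le.refl _ _
      · apply hiso i (N - i) (by omega) (by omega)
        rw [Nat.add_sub_cancel' hiN.le, hcN, h]
        exact Le.refl _ _
    · exact h
  have pathB : ∀ i k, 0 < i → i + k < N → Le (rs G B) (c i) (c (i + k)) k := by
    intro i k hi
    induction k with
    | zero => exact fun _ => Le.refl _ _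
    | succ k ih =>
      intro hik
      exact (ih (by omega)).succ_adj
        ⟨(hc (i + k)).1, inB _ (by omega) (by omega), inB _ (by omega) (by omega)⟩
  obtain ⟨r, hr⟩ : ∃ r, N = 2 * r + 4 ∨ N = 2 * r + 5 := ⟨N / 2 - 2, by omega⟩
  have hsub : rs G B ≤ rs G (insert y B) := rs_mono G (Set.subset_insert _ _)
  set H := rs G B with hH
  set H' := rs G (insert y B) with hH'
  obtain ⟨z, hz⟩ : ∃ z, c (r + 2) = z := ⟨_, rfl⟩
  obtain ⟨z', hz'⟩ : ∃ z', c (N - (r + 2)) = z' := ⟨_, rfl⟩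
  have hK : z = z' ∨ H.Adj z z' := by
    rcases hr with hr | hr
    · left
      rw [← hz, ← hz']
      congr 1
      omega
    · right
      have h1 : N - (r + 2) = r + 2 + 1 := by omega
      rw [← hz, ← hz', h1]
      exact ⟨(hc (r + 2)).1, inB _ (by omega) (by omega), inB _ (by omega) (by omega)⟩
  obtain ⟨a, ha⟩ : ∃ a, c 1 = a := ⟨_, rfl⟩
  obtain ⟨b, hb⟩ : ∃ b, c (N - 1) = b := ⟨_, rfl⟩
  have haB : a ∈ B := ha ▸ inB 1 (by omega) (by omega)
  have hbB : b ∈ B := hb ▸ inB (N - 1) (by omega) (by omega)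
  have hya : G.Adj y a := by
    have := (hc 0).1
    rwa [zero_add, h0, ha] at this
  have hyb : G.Adj y b := by
    have := (hc (N - 1)).1
    rw [Nat.sub_add_cancel (by omega), hb, hcN] at this
    exact this.symm
  have LKa : LK H z z' a (r + 1) := by
    left
    have := pathB 1 (r + 1) (by omega) (by omega)
    have h1 : 1 + (r + 1) = r + 2 := by ring
    rw [h1, hz, ha] at this
    exact this.symm
  have LKb : LK H z z' b (r + 1) := by
    right
    have := pathB (N - (r + 2)) (r + 1) (by omega) (by omega)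
    have h1 : N - (r + 2) + (r + 1) = N - 1 := by omega
    rwa [h1, hz', hb] at this
  have far : ∀ w ∈ B, G.Adj y w → ¬ LK H z z' w r := by
    rintro w hw hyw (h | h)
    · have h1 : Le H' z y (r + 1) := (h.mono_graph hsub).succ_adj
        ⟨hyw.symm, Set.mem_insert_of_mem _ hw, Set.mem_insert _ _⟩
      apply hiso 0 (r + 2) (by omega) (by omega)
      rw [zero_add, h0, hz]
      exact h1.symm
    · have h1 : Le H' z' y (r + 1) := (h.mono_graph hsub).succ_adj
        ⟨hyw.symm, Set.mem_insert_of_mem _ hw, Set.mem_insert _ _⟩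
      apply hiso (N - (r + 2)) (r + 2) (by omega) (by omega)
      rw [Nat.sub_add_cancel (by omega), hcN, hz']
      exact h1
  have hab0 : ¬ Le H' b a 1 := by
    have h1 := hiso (N - 1) 2 (by omega) (by omega)
    have h2 : N - 1 + 2 = 1 + N := by omega
    rwa [h2, hper, ha, hb] at h1
  have hab : a ≠ b := by
    rintro rfl
    exact hab0 (Le.refl _ _)
  have hnab : ¬ G.Adj a b := fun h => hab0
    (Le.of_adj ⟨h.symm, Set.mem_insert_of_mem _ hbB, Set.mem_insert_of_mem _ haB⟩)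
  have hAB := PAB hB
  have hHC4 := hB.c4free
  have hHC5 := hB.c5free
  have KA' : ∀ (s : ℕ) (x p q : V), x ∈ B → p ∈ B → q ∈ B → ¬ LK H z z' x s → G.Adj x p →
      G.Adj x q → LK H z z' p s → LK H z z' q s → p ≠ q → G.Adj p q :=
    fun s x p q hx hp hq h1 h2 h3 h4 h5 h6 =>
      (KA hHC4 hHC5 hAB hK s x p q h1 ⟨h2, hx, hp⟩ ⟨h3, hx, hq⟩ h4 h5 h6).1
  have KB' : ∀ (s : ℕ) (x y : V), x ∈ B → y ∈ B → G.Adj x y → ¬ LK H z z' x s → ¬ LK H z z' y s →
      LK H z z' x (s + 1) → LK H z z' y (s + 1) →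
      ∃ w ∈ B, G.Adj x w ∧ G.Adj y w ∧ LK H z z' w s := by
    intro s x y hx hy hxy h1 h2 h3 h4
    obtain ⟨w, h5, h6, h7⟩ := KB hAB hK s x y ⟨hxy, hx, hy⟩ h1 h2 h3 h4
    exact ⟨w, h5.2.2, h5.1, h6.1, h7⟩
  have claimT : ∀ q0 ∈ B, ∀ q1 ∈ B, ∀ q2 ∈ B, G.Adj y q0 → G.Adj y q1 → G.Adj y q2 →
      LK H z z' q0 (r + 1) → LK H z z' q1 (r + 1) → LK H z z' q2 (r + 1) → G.Adj q0 q1 →
      G.Adj q1 q2 → q0 ≠ q2 → G.Adj q0 q2 := by
    intro q0 h0 q1 h1 q2 h2 y0 y1 y2 l0 l1 l2 e01 e12 hne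
    by_contra hna
    obtain ⟨t, htB, ht0, ht1, ht⟩ := KB' r q0 q1 h0 h1 e01 (far q0 h0 y0) (far q1 h1 y1) l0 l1
    obtain ⟨t', htB', ht2', ht1', ht'⟩ := KB' r q2 q1 h2 h1 e12.symm (far q2 h2 y2)
      (far q1 h1 y1) l2 l1
    have htt : t = t' ∨ G.Adj t t' := by
      by_cases h : t = t'
      · exact Or.inl h
      · exact Or.inr (KA' r q1 t t' h1 htB htB' (far q1 h1 y1) ht1 ht1' ht ht' h)
    refine gadget hC4 hC5 y0 y2 hne hna ht0 ht2' htt ?_ ?_ ?_ ?_
    · rintro rfl
      exact hy htB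
    · rintro rfl
      exact hy htB'
    · exact fun h => far t htB h ht
    · exact fun h => far t' htB' h ht'
  have claimM : ∀ s ∈ B, ∀ q ∈ B, ∀ t ∈ B, G.Adj y s → G.Adj y q → G.Adj y t →
      LK H z z' s (r + 1) → LK H z z' t (r + 1) → G.Adj s q → G.Adj q t → s ≠ t → G.Adj s t := by
    intro s hs q hq t ht ys yq yt ls lt esq eqt hst
    by_cases lq : LK H z z' q (r + 1)
    · exact claimT s hs q hq t ht ys yq yt ls lq lt esq eqt hst
    · exact KA' (r + 1) q s t hq hs ht lq esq.symm eqt ls lt hst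
  obtain ⟨q1, hq1, q2, hq2, y1, y2, h1, h2, h3⟩ := hconn a haB b hbB hya hyb
  have M2 : ∀ q ∈ B, G.Adj y q → G.Adj a q → G.Adj q b → False := fun q hq yq e1 e2 =>
    hnab (claimM a haB q hq b hbB hya yq hyb LKa LKb e1 e2 hab)
  rcases h1 with rfl | h1
  · rcases h2 with rfl | h2
    · rcases h3 with h3 | h3
      · exact hab h3
      · exact hnab h3
    · rcases h3 with rfl | h3
      · exact hnab h2
      · exact M2 q2 hq2 y2 h2 h3
  · rcases h2 with rfl | h2
    · rcases h3 with rfl | h3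
      · exact hnab h1
      · exact M2 q1 hq1 y1 h1 h3
    · rcases h3 with rfl | h3
      · exact M2 q1 hq1 y1 h1 h2
      · -- the path `a, q1, q2, b`
        have n1 : ¬ G.Adj a q2 := fun h => M2 q2 hq2 y2 h h3
        have n2 : ¬ G.Adj q1 b := fun h => M2 q1 hq1 y1 h1 h
        have n3 : a ≠ q2 := by
          rintro rfl
          exact hnab h3
        have n4 : q1 ≠ b := by
          rintro rfl
          exact hnab h1
        by_cases l1 : LK H z z' q1 (r + 1)
        · by_cases l2 : LK H z z' q2 (r + 1)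
          · exact n1 (claimT a haB q1 hq1 q2 hq2 hya y1 y2 LKa l1 l2 h1 h2 n3)
          · exact n2 (KA' (r + 1) q2 q1 b hq2 hq1 hbB l2 h2.symm h3 l1 LKb n4)
        · by_cases l2 : LK H z z' q2 (r + 1)
          · exact n1 (KA' (r + 1) q1 a q2 hq1 haB hq2 l1 h1.symm h2 LKa l2 n3)
          · have m1 : LK H z z' q1 (r + 1 + 1) := LKa.succ_adj ⟨h1, haB, hq1⟩
            have m2 : LK H z z' q2 (r + 1 + 1) := LKb.succ_adj ⟨h3.symm, hbB, hq2⟩
            obtain ⟨p, hpB, hp1, hp2, hp⟩ := KB' (r + 1) q1 q2 hq1 hq2 h2 l1 l2 m1 m2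
            have hap : a ≠ p := by
              rintro rfl
              exact n1 hp2.symm
            have hpb : p ≠ b := by
              rintro rfl
              exact n2 hp1
            have e1 : G.Adj a p := KA' (r + 1) q1 a p hq1 haB hpB l1 h1.symm hp1 LKa hp hap
            have e2 : G.Adj p b := KA' (r + 1) q2 p b hq2 hpB hbB l2 hp2 h3 hp LKb hpb
            have hyp : y ≠ p := by
              rintro rfl
              exact hy hpB
            rcases hC4 y a p q2 hya e1 hp2.symm y2.symm hyp n3 with h | h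
            · exact M2 p hpB h e1 e2
            · exact n1 h

/-- Adding a vertex whose neighbourhood is connected in a strong sense. -/
theorem add_vertex (hC4 : C4free G) (hC5 : C5free G) {B : Set V} (hB : NoIso (rs G B)) {y : V}
    (hy : y ∉ B)
    (hconn : ∀ a ∈ B, ∀ b ∈ B, G.Adj y a → G.Adj y b → ∃ q1 ∈ B, ∃ q2 ∈ B, G.Adj y q1 ∧
      G.Adj y q2 ∧ (a = q1 ∨ G.Adj a q1) ∧ (q1 = q2 ∨ G.Adj q1 q2) ∧ (q2 = b ∨ G.Adj q2 b)) :
    NoIso (rs G (insert y B)) := by
  intro N c hN hper hc hiso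
  by_cases hyc : ∃ i, c i = y
  · obtain ⟨i₀, hi₀⟩ := hyc
    refine add_vertex_aux hC4 hC5 hB hy hconn (c := fun i => c (i + i₀)) hN ?_ ?_ ?_ ?_
    · intro i
      have : i + N + i₀ = i + i₀ + N := by ring
      simp only [this, hper]
    · intro i
      have : i + 1 + i₀ = i + i₀ + 1 := by ring
      simp only [this]
      exact hc _
    · intro i k hk hkN
      have : i + k + i₀ = i + i₀ + k := by ring
      simp only [this]
      exact hiso (i + i₀) k hk hkN
    · simpa using hi₀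
  · push Not at hyc
    refine hB N c hN hper ?_ ?_
    · intro i
      refine ⟨(hc i).1, ?_, ?_⟩
      · rcases (hc i).2.1 with h | h
        · exact absurd h (hyc i)
        · exact h
      · rcases (hc i).2.2 with h | h
        · exact absurd h (hyc (i + 1))
        · exact h
    · intro i k hk hkN hle
      exact hiso i k hk hkN (hle.mono_graph (rs_mono G (Set.subset_insert _ _)))

end Add

end Pool.Agent.Q102.Bridged
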