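import Mathlib
import Pool.Agent.Q102.BridgedFinite

/-!
# Finite sets in bridged graphs lie in finite induced bridged subgraphs
-/

set_option autoImplicit false

open SimpleGraph

namespace Pool.Agent.Q102.Bridged

variable {V : Type*}

section Closure

variable {G : SimpleGraph V}

theorem exists_closed_aux [DecidableEq V] {lev : V → ℕ} {P : V → V} {Q : V → V → V}
    (hP : ∀ x, 0 < lev x → lev (P x) + 1 = lev x)
    (hQ : ∀ x y, G.Adj x y → lev x = lev y → 0 < lev x → lev (Q x y) + 1 = lev x) :
    ∀ (k : ℕ) (F : Finset V), (∀ x ∈ F, k < lev x → P x ∈ F ∧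
      ∀ y ∈ F, G.Adj x y → lev x = lev y → Q x y ∈ F) →
      ∃ F' : Finset V, F ⊆ F' ∧ ∀ x ∈ F', 0 < lev x → P x ∈ F' ∧
        ∀ y ∈ F', G.Adj x y → lev x = lev y → Q x y ∈ F' := by
  classical
  intro k
  induction k with
  | zero => exact fun F h => ⟨F, Finset.Subset.refl _, h⟩
  | succ k ih =>
    intro F hF
    let A : Finset V := (F.filter fun x => lev x = k + 1).image P
    let B : Finset V := ((F ×ˢ F).filter fun p => lev p.1 = k + 1 ∧ lev p.2 = k + 1 ∧
      G.Adj p.1 p.2).image fun p => Q p.1 p.2
    have hA : ∀ x ∈ A, lev x = k := by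
      intro x hx
      obtain ⟨y, hy, rfl⟩ := Finset.mem_image.mp hx
      have h1 := (Finset.mem_filter.mp hy).2
      have := hP y (by omega)
      omega
    have hB : ∀ x ∈ B, lev x = k := by
      intro x hx
      obtain ⟨⟨y, z⟩, hy, rfl⟩ := Finset.mem_image.mp hx
      have h1 := (Finset.mem_filter.mp hy).2
      simp only at h1
      have := hQ y z h1.2.2 (h1.1.trans h1.2.1.symm) (by omega)
      simp only
      omega
    have hlev : ∀ x ∈ F ∪ (A ∪ B), k < lev x → x ∈ F := by
      intro x hx hk
      rcases Finset.mem_union.mp hx with h | h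
      · exact h
      · rcases Finset.mem_union.mp h with h | h
        · have := hA x h
          omega
        · have := hB x h
          omega
    obtain ⟨F', hF', hF''⟩ := ih (F ∪ (A ∪ B)) (by
      intro x hx hk
      have hxF := hlev x hx hk
      by_cases hk1 : lev x = k + 1
      · refine ⟨Finset.mem_union_right _ (Finset.mem_union_left _
          (Finset.mem_image_of_mem _ (Finset.mem_filter.mpr ⟨hxF, hk1⟩))), ?_⟩
        intro y hy hxy he
        have hyF := hlev y hy (by omega)
        refine Finset.mem_union_right _ (Finset.mem_union_right _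
          (Finset.mem_image.mpr ⟨(x, y), ?_, rfl⟩))
        rw [Finset.mem_filter]
        exact ⟨Finset.mem_product.mpr ⟨hxF, hyF⟩, hk1, by simp only; omega, hxy⟩
      · obtain ⟨h1, h2⟩ := hF x hxF (by omega)
        refine ⟨Finset.mem_union_left _ h1, ?_⟩
        intro y hy hxy he
        exact Finset.mem_union_left _ (h2 y (hlev y hy (by omega)) hxy he))
    exact ⟨F', Finset.Subset.trans Finset.subset_union_left hF', hF''⟩

theorem exists_closed [DecidableEq V] {lev : V → ℕ} {P : V → V} {Q : V → V → V}
    (hP : ∀ x, 0 < lev x → lev (P x) + 1 = lev x)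
    (hQ : ∀ x y, G.Adj x y → lev x = lev y → 0 < lev x → lev (Q x y) + 1 = lev x)
    (S : Finset V) : ∃ F : Finset V, S ⊆ F ∧ ∀ x ∈ F, 0 < lev x → P x ∈ F ∧
        ∀ y ∈ F, G.Adj x y → lev x = lev y → Q x y ∈ F := by
  apply exists_closed_aux hP hQ (S.sup lev) S
  intro x hx hk
  have := Finset.le_sup (f := lev) hx
  omega

end Closure

/-- A level function with the properties of the distance from a base vertex. -/
structure IsLevel (G : SimpleGraph V) (lev : V → ℕ) : Prop where
  adj : ∀ x y, G.Adj x y → lev x ≤ lev y + 1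
  zero : ∀ x y, G.Adj x y → lev x = 0 → lev y ≠ 0
  down : ∀ x, 0 < lev x → ∃ p, G.Adj x p ∧ lev p + 1 = lev x
  clique : ∀ x p q, G.Adj x p → G.Adj x q → lev p + 1 = lev x → lev q + 1 = lev x → p ≠ q →
    G.Adj p q
  common : ∀ x y, G.Adj x y → lev x = lev y → 0 < lev x →
    ∃ w, G.Adj x w ∧ G.Adj y w ∧ lev w + 1 = lev x

theorem exists_level {G : SimpleGraph V} (hG : NoIso G) : ∃ lev : V → ℕ, IsLevel G lev := by
  classical
  let base : V → V := fun x => Quot.out (G.connectedComponentMk x)
  have hbase : ∀ x, G.Reachable (base x) x := by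
    intro x
    exact ConnectedComponent.exact (Quot.out_eq (G.connectedComponentMk x))
  have hadj : ∀ x y, G.Adj x y → base x = base y := by
    intro x y h
    have h1 : G.connectedComponentMk x = G.connectedComponentMk y :=
      ConnectedComponent.sound h.reachable
    simp only [base, h1]
  have hex : ∀ x, ∃ n, Le G (base x) x n := by
    intro x
    obtain ⟨p⟩ := hbase x
    exact ⟨p.length, p, le_rfl⟩
  let lev : V → ℕ := fun x => Nat.find (hex x)
  have hle : ∀ x n, Le G (base x) x n ↔ lev x ≤ n := by
    intro x n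
    constructor
    · exact fun h => Nat.find_min' (hex x) h
    · exact fun h => (Nat.find_spec (hex x)).mono h
  have hle' : ∀ x y n, base x = base y → (Le G (base x) y n ↔ lev y ≤ n) := by
    intro x y n h
    rw [h]
    exact hle y n
  have hAB := PAB hG
  refine ⟨lev, ?_, ?_, ?_, ?_, ?_⟩
  · intro x y hxy
    rw [← hle]
    rw [hadj x y hxy]
    exact ((hle y _).mpr le_rfl).succ_adj hxy.symm
  · intro x y hxy hx hy
    have h1 := ((hle x 0).mpr hx.le).eq_of_zero
    have h2 := ((hle y 0).mpr hy.le).eq_of_zero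
    rw [hadj x y hxy] at h1
    exact hxy.ne (h1.symm.trans h2)
  · intro x hx
    obtain ⟨n, hn⟩ : ∃ n, lev x = n + 1 := ⟨lev x - 1, by omega⟩
    have h1 := (hle x (n + 1)).mpr hn.le
    rcases h1.pred with h2 | ⟨p, hp, hpx⟩
    · rw [hle] at h2
      omega
    · refine ⟨p, hpx.symm, ?_⟩
      rw [hle' x p n (hadj p x hpx).symm] at hp
      have h3 : lev x ≤ lev p + 1 := by
        rw [← hle, ← hadj p x hpx]
        exact ((hle p _).mpr le_rfl).succ_adj hpx
      omega
  · intro x p q hxp hxq hp hq hpq
    refine (hAB (lev p)).1 (base x) x p q ?_ hxp hxq ?_ ?_ hpq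
    · rw [hle]
      omega
    · rw [hle' x p _ (hadj x p hxp)]
    · rw [hle' x q _ (hadj x q hxq)]
      omega
  · intro x y hxy he hx
    obtain ⟨n, hn⟩ : ∃ n, lev x = n + 1 := ⟨lev x - 1, by omega⟩
    obtain ⟨w, h1, h2, h3⟩ := (hAB n).2 (base x) x y hxy (by rw [hle]; omega)
      (by rw [hle' x y n (hadj x y hxy)]; omega) (by rw [hle]; omega)
      (by rw [hle' x y _ (hadj x y hxy)]; omega)
    refine ⟨w, h1, h2, ?_⟩
    rw [hle' x w _ (hadj x w h1)] at h3
    have h4 : lev x ≤ lev w + 1 := by
      rw [← hle, hadj x w h1]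
      exact ((hle w _).mpr le_rfl).succ_adj h1.symm
    omega

/-- Every finite set lies in a finite set inducing a graph without isometric closed walks. -/
theorem exists_finite [DecidableEq V] {G : SimpleGraph V} (hG : NoIso G) (S : Finset V) :
    ∃ F : Finset V, S ⊆ F ∧ NoIso (rs G (F : Set V)) := by
  classical
  obtain ⟨lev, hlev⟩ := exists_level hG
  have hP : ∀ x, ∃ p, 0 < lev x → G.Adj x p ∧ lev p + 1 = lev x := by
    intro x
    by_cases h : 0 < lev x
    · obtain ⟨p, hp⟩ := hlev.down x h
      exact ⟨p, fun _ => hp⟩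
    · exact ⟨x, fun h' => absurd h' h⟩
  choose P hP using hP
  have hQ : ∀ x y, ∃ w, G.Adj x y → lev x = lev y → 0 < lev x →
      G.Adj x w ∧ G.Adj y w ∧ lev w + 1 = lev x := by
    intro x y
    by_cases h : G.Adj x y ∧ lev x = lev y ∧ 0 < lev x
    · obtain ⟨w, hw⟩ := hlev.common x y h.1 h.2.1 h.2.2
      exact ⟨w, fun _ _ _ => hw⟩
    · exact ⟨x, fun h1 h2 h3 => absurd ⟨h1, h2, h3⟩ h⟩
  choose Q hQ using hQ
  obtain ⟨F, hSF, hF⟩ := exists_closed (G := G) (lev := lev) (P := P) (Q := Q)
    (fun x h => (hP x h).2) (fun x y h1 h2 h3 => (hQ x y h1 h2 h3).2.2) S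
  refine ⟨F, hSF, ?_⟩
  have key : ∀ (n : ℕ) (B : Finset V), B.card = n → B ⊆ F →
      (∀ x ∈ B, ∀ w ∈ F, lev w < lev x → w ∈ B) → NoIso (rs G (B : Set V)) := by
    intro n
    induction n with
    | zero =>
      intro B hB _ _ N c _ _ hc _
      have := (hc 0).2.1
      rw [Finset.card_eq_zero.mp hB] at this
      simp at this
    | succ n ih =>
      intro B hB hBF hinit
      have hne : B.Nonempty := by
        rw [← Finset.card_pos]
        omega
      obtain ⟨y, hyB, hmax⟩ := Finset.exists_max_image B lev hne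
      have hB' : NoIso (rs G ((B.erase y : Finset V) : Set V)) := by
        apply ih
        · rw [Finset.card_erase_of_mem hyB, hB]
          rfl
        · exact (Finset.erase_subset _ _).trans hBF
        · intro x hx w hw hlt
          have hxB := Finset.mem_of_mem_erase hx
          rw [Finset.mem_erase]
          refine ⟨?_, hinit x hxB w hw hlt⟩
          rintro rfl
          have := hmax x hxB
          omega
      have hadd := add_vertex (y := y) hG.c4free hG.c5free hB' (by simp) ?_
      · have : insert y ((B.erase y : Finset V) : Set V) = (B : Set V) := by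
          rw [← Finset.coe_insert, Finset.insert_erase hyB]
        rwa [this] at hadd
      · intro a ha b hb hya hyb
        rw [Finset.mem_coe] at ha hb
        have haB := Finset.mem_of_mem_erase ha
        have hbB := Finset.mem_of_mem_erase hb
        -- the level of `y` is positive
        have hpos : 0 < lev y := by
          rcases Nat.eq_zero_or_pos (lev y) with h | h
          · have h1 := hlev.zero y a hya h
            have h2 := hmax a haB
            omega
          · exact h
        -- every neighbour has a lower companion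
        have comp : ∀ a ∈ B, G.Adj y a → ∃ q ∈ B.erase y, G.Adj y q ∧ (a = q ∨ G.Adj a q) ∧
            lev q + 1 = lev y := by
          intro a haB hya
          have h1 := hmax a haB
          have h2 := hlev.adj y a hya
          by_cases h3 : lev a = lev y
          · obtain ⟨h4, h5, h6⟩ := hQ y a hya h3.symm hpos
            have h7 : Q y a ∈ F := (hF y (hBF hyB) hpos).2 a (hBF haB) hya h3.symm
            have h8 : Q y a ∈ B := hinit y hyB _ h7 (by omega)
            refine ⟨Q y a, Finset.mem_erase.mpr ⟨h4.ne', h8⟩, h4, Or.inr h5, h6⟩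
          · exact ⟨a, Finset.mem_erase.mpr ⟨hya.ne', haB⟩, hya, Or.inl rfl, by omega⟩
        obtain ⟨q1, hq1, h1, h2, h3⟩ := comp a haB hya
        obtain ⟨q2, hq2, h4, h5, h6⟩ := comp b hbB hyb
        refine ⟨q1, Finset.mem_coe.mpr hq1, q2, Finset.mem_coe.mpr hq2, h1, h4, h2, ?_,
          h5.imp Eq.symm fun h => h.symm⟩
        by_cases h : q1 = q2
        · exact Or.inl h
        · exact Or.inr (hlev.clique y q1 q2 h1 h4 h3 h6 h)
  exact key F.card F rfl (Finset.Subset.refl _) fun x _ w hw _ => hw

/-! ### Translation to walks -/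

section Translate

variable {G : SimpleGraph V}

/-- The walk along a sequence. -/
theorem exists_walk_seq {c : ℕ → V} (hc : ∀ i, G.Adj (c i) (c (i + 1))) (n : ℕ) :
    ∀ (i : ℕ) (v : V), c (i + n) = v →
      ∃ p : G.Walk (c i) v, p.length = n ∧ ∀ j ≤ n, p.getVert j = c (i + j) := by
  induction n with
  | zero =>
    intro i v hv
    subst hv
    refine ⟨Walk.nil, rfl, ?_⟩
    intro j hj
    have : j = 0 := by omega
    subst this
    rfl
  | succ n ih =>
    intro i v hv
    obtain ⟨p, hp, hp'⟩ := ih (i + 1) v (by rw [← hv]; congr 1; ring)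
    refine ⟨Walk.cons (hc i) p, by rw [Walk.length_cons, hp], ?_⟩
    intro j hj
    rcases Nat.eq_zero_or_pos j with rfl | hj0
    · simp
    · obtain ⟨k, rfl⟩ : ∃ k, j = k + 1 := ⟨j - 1, by omega⟩
      rw [Walk.getVert_cons_succ, hp' k (by omega)]
      congr 1
      ring

theorem Iso.injective {N : ℕ} {c : ℕ → V} (hper : ∀ i, c (i + N) = c i) (h : Iso G N c)
    {i k : ℕ} (hk : 0 < k) (hkN : k < N) : c i ≠ c (i + k) := by
  intro he
  rcases le_or_gt (2 * k) N with h2 | h2
  · apply h i k hk h2
    rw [← he]
    exact Le.refl _ _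
  · apply h (i + k) (N - k) (by omega) (by omega)
    have : i + k + (N - k) = i + N := by omega
    rw [this, hper, he]
    exact Le.refl _ _

theorem dist_le_of_Le {u v : V} {n : ℕ} (h : Le G u v n) : G.dist u v ≤ n := by
  obtain ⟨p, hp⟩ := h
  exact (dist_le p).trans hp

/-- From the shortcut property of cycles to `NoIso`. -/
theorem noIso_of_cycles
    (h : ∀ (u : V) (c : G.Walk u u), c.IsCycle → 4 ≤ c.length →
        ∃ i j : ℕ, i ≤ j ∧ j < c.length ∧
          G.dist (c.getVert i) (c.getVert j) < min (j - i) (c.length - (j - i))) : NoIso G := by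
  intro N c hN hper hc hiso
  obtain ⟨W, hW, hW'⟩ := exists_walk_seq hc N 0 (c 0) (hper 0)
  have hcyc : W.IsCycle := by
    rw [Walk.isCycle_iff_isPath_tail_and_le_length]
    refine ⟨?_, by omega⟩
    rw [← Walk.IsPath.getVert_injOn_iff]
    have hnil : ¬ W.Nil := by
      rw [← Walk.length_eq_zero_iff]
      omega
    have htl : W.tail.length + 1 = N := by
      rw [← hW]
      exact Walk.length_tail_add_one hnil
    intro i hi j hj hij
    rw [Set.mem_ofPred_eq] at hi hj
    rw [Walk.getVert_tail, Walk.getVert_tail, hW' _ (by omega), hW' _ (by omega)] at hij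
    by_contra hne
    rcases Nat.lt_or_gt_of_ne hne with hlt | hlt
    · apply hiso.injective hper (i := i + 1) (k := j - i) (by omega) (by omega)
      have : i + 1 + (j - i) = 0 + (j + 1) := by omega
      rw [this, ← hij]
      congr 1
      ring
    · apply hiso.injective hper (i := j + 1) (k := i - j) (by omega) (by omega)
      have : j + 1 + (i - j) = 0 + (i + 1) := by omega
      rw [this, hij]
      congr 1
      ring
  obtain ⟨i, j, hij, hj, hlt⟩ := h _ W hcyc (by omega)
  rw [hW] at hj hlt
  rw [hW' i (by omega), hW' j (by omega), zero_add, zero_add, lt_min_iff] at hlt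
  have hreach : G.Reachable (c i) (c j) := by
    obtain ⟨p, -⟩ := seq_le hc i (j - i)
    have : i + (j - i) = j := by omega
    rw [this] at p
    exact ⟨p⟩
  obtain ⟨p, hp⟩ := hreach.exists_walk_length_eq_dist
  rcases le_or_gt (2 * (j - i)) N with h2 | h2
  · apply hiso i (j - i) (by omega) h2
    have : i + (j - i) = j := by omega
    rw [this]
    exact ⟨p, by omega⟩
  · apply hiso j (N - (j - i)) (by omega) (by omega)
    have : j + (N - (j - i)) = i + N := by omega
    rw [this, hper]
    exact Le.symm ⟨p, by omega⟩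

/-- Walks inside `B` lift to the induced subgraph. -/
theorem lift_walk {B : Set V} : ∀ {x y : V} (p : (rs G B).Walk x y) (hx : x ∈ B) (hy : y ∈ B),
    ∃ q : (G.induce B).Walk ⟨x, hx⟩ ⟨y, hy⟩, q.length = p.length := by
  intro x y p
  induction p with
  | nil => exact fun hx hy => ⟨Walk.nil, rfl⟩
  | cons h p ih =>
    intro hx hy
    obtain ⟨q, hq⟩ := ih h.2.2 hy
    exact ⟨Walk.cons (show (G.induce B).Adj ⟨_, hx⟩ ⟨_, h.2.2⟩ from h.1) q, by
      rw [Walk.length_cons, Walk.length_cons, hq]⟩

/-- From `NoIso` to the shortcut property of cycles of the induced subgraph. -/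
theorem cycles_of_noIso {B : Set V} (h : NoIso (rs G B)) (u : B) (W : (G.induce B).Walk u u)
    (hN : 4 ≤ W.length) :
    ∃ i j : ℕ, i ≤ j ∧ j < W.length ∧
      (G.induce B).dist (W.getVert i) (W.getVert j) < min (j - i) (W.length - (j - i)) := by
  have h1 := h W.length (fun i => (seq W i).1) hN (fun i => by simp only [seq_period])
    (fun i => ⟨seq_adj W (by omega) i, (seq W i).2, (seq W (i + 1)).2⟩)
  rw [Iso] at h1
  push Not at h1
  obtain ⟨i, k, hk, hkN, p, hp⟩ := h1
  obtain ⟨q, hq⟩ := lift_walk p (seq W i).2 (seq W (i + k)).2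
  have hd : (G.induce B).dist (seq W i) (seq W (i + k)) ≤ k - 1 := (dist_le q).trans (by omega)
  have hi := Nat.mod_lt i (show 0 < W.length by omega)
  by_cases hc : i % W.length + k < W.length
  · refine ⟨i % W.length, i % W.length + k, by omega, hc, ?_⟩
    have e : (i + k) % W.length = i % W.length + k := by
      rw [Nat.add_mod, Nat.mod_eq_of_lt (show k < W.length by omega), Nat.mod_eq_of_lt hc]
    rw [seq, seq, e] at hd
    rw [lt_min_iff]
    omega
  · refine ⟨i % W.length + k - W.length, i % W.length, by omega, hi, ?_⟩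
    have e : (i + k) % W.length = i % W.length + k - W.length := by
      rw [Nat.add_mod, Nat.mod_eq_of_lt (show k < W.length by omega),
        Nat.mod_eq_sub_mod (by omega), Nat.mod_eq_of_lt (by omega)]
    rw [seq, seq, e, dist_comm] at hd
    rw [lt_min_iff]
    omega

end Translate

end Pool.Agent.Q102.Bridged
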