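import Mathlib

/-!
# Degree sequences, the classes `P(G)` and `D(G)`, and slacks
-/

set_option autoImplicit false

open SimpleGraph Finset

namespace Pool.Agent.Q102.DSF

/-- The degree sequence of a finite graph, as the multiset of its vertex degrees. -/
noncomputable def degSeq {V : Type*} [Finite V] (G : SimpleGraph V) : Multiset ℕ :=
  haveI := Fintype.ofFinite V
  (Finset.univ : Finset V).val.map fun v => (G.neighborSet v).ncard

/-- `H ∈ P(G)`: some graph with the degree sequence of `H` has an induced subgraph isomorphic to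
`G`. -/
def InP {U V : Type*} [Finite V] (G : SimpleGraph U) (H : SimpleGraph V) : Prop :=
  ∃ H' : SimpleGraph V, degSeq H' = degSeq H ∧ Nonempty (G ↪g H')

/-- `H ∈ D(G)`: `H ∈ P(G)` and no proper induced subgraph of `H` lies in `P(G)`. -/
def InD {U V : Type*} [Finite V] (G : SimpleGraph U) (H : SimpleGraph V) : Prop :=
  InP G H ∧ ∀ S : Set V, S ≠ Set.univ → ¬ InP G (H.induce S)

theorem exists_equiv {α β : Type*} [Fintype α] [Fintype β] (f : α → ℕ) (g : β → ℕ)
    (h : (univ : Finset α).val.map f = (univ : Finset β).val.map g) :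
    ∃ σ : α ≃ β, ∀ a, g (σ a) = f a := by
  classical
  have hcard : ∀ k, Fintype.card {a // f a = k} = Fintype.card {b // g b = k} := by
    intro k
    have h1 := congrArg (Multiset.count k) h
    rw [Multiset.count_map, Multiset.count_map] at h1
    rw [Fintype.card_subtype, Fintype.card_subtype, Finset.card_def, Finset.card_def,
      Finset.filter_val, Finset.filter_val]
    simpa only [eq_comm] using h1
  let e : ∀ k, {a // f a = k} ≃ {b // g b = k} := fun k => Fintype.equivOfCardEq (hcard k)
  refine ⟨(Equiv.sigmaFiberEquiv f).symm.trans ((Equiv.sigmaCongrRight e).trans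
    (Equiv.sigmaFiberEquiv g)), fun a => ?_⟩
  exact (e (f a) ⟨a, rfl⟩).2

theorem degSeq_eq_iff {V W : Type*} [Finite V] [Finite W] {G : SimpleGraph V}
    {H : SimpleGraph W} : degSeq G = degSeq H ↔
      ∃ σ : V ≃ W, ∀ v, (H.neighborSet (σ v)).ncard = (G.neighborSet v).ncard := by
  constructor
  · intro h
    exact @exists_equiv V W (Fintype.ofFinite V) (Fintype.ofFinite W) _ _ h
  · rintro ⟨σ, hσ⟩
    have := Fintype.ofFinite V
    have := Fintype.ofFinite W
    have e1 : degSeq G = (univ : Finset V).val.map fun v => (G.neighborSet v).ncard := by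
      rw [degSeq, Subsingleton.elim (Fintype.ofFinite V) _]
    have e2 : degSeq H = (univ : Finset W).val.map fun v => (H.neighborSet v).ncard := by
      rw [degSeq, Subsingleton.elim (Fintype.ofFinite W) _]
    rw [e1, e2, ← Multiset.map_univ_val_equiv σ, Multiset.map_map]
    refine Multiset.map_congr rfl fun v _ => ?_
    exact (hσ v).symm

theorem ncard_neighborSet_iso {V W : Type*} {G : SimpleGraph V} {H : SimpleGraph W}
    (e : G ≃g H) (v : V) : (H.neighborSet (e v)).ncard = (G.neighborSet v).ncard := by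
  have h : H.neighborSet (e v) = e '' G.neighborSet v := by
    ext w
    simp only [mem_neighborSet, Set.mem_image]
    constructor
    · intro hw
      refine ⟨e.symm w, ?_, by simp⟩
      rw [← e.map_adj_iff]
      simpa using hw
    · rintro ⟨u, hu, rfl⟩
      exact e.map_adj_iff.mpr hu
  rw [h, Set.ncard_image_of_injective _ e.injective]

theorem degSeq_iso {V W : Type*} [Finite V] [Finite W] {G : SimpleGraph V} {H : SimpleGraph W}
    (e : G ≃g H) : degSeq G = degSeq H :=
  degSeq_eq_iff.mpr ⟨e.toEquiv, ncard_neighborSet_iso e⟩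

/-- Membership in `P(G)` with a labelled realization. -/
theorem inP_iff {U V : Type*} [Finite V] {G : SimpleGraph U} {H : SimpleGraph V} :
    InP G H ↔ ∃ X : SimpleGraph V,
      (∀ v, (X.neighborSet v).ncard = (H.neighborSet v).ncard) ∧ Nonempty (G ↪g X) := by
  constructor
  · rintro ⟨X, hX, ⟨φ⟩⟩
    obtain ⟨σ, hσ⟩ := degSeq_eq_iff.mp hX.symm
    let e : X.comap σ ≃g X := Iso.comap σ X
    refine ⟨X.comap σ, fun v => ?_, ⟨φ.trans e.symm.toEmbedding⟩⟩
    rw [← hσ v]
    exact (ncard_neighborSet_iso e v).symm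
  · rintro ⟨X, hX, hφ⟩
    exact ⟨X, degSeq_eq_iff.mpr ⟨Equiv.refl V, fun v => (hX v).symm⟩, hφ⟩

theorem InP.of_degSeq {U V W : Type*} [Finite V] [Finite W] {G : SimpleGraph U}
    {X : SimpleGraph V} {H : SimpleGraph W} (φ : G ↪g X) (h : degSeq X = degSeq H) : InP G H := by
  obtain ⟨σ, hσ⟩ := degSeq_eq_iff.mp h
  let e : X.comap σ.symm ≃g X := Iso.comap σ.symm X
  rw [inP_iff]
  refine ⟨X.comap σ.symm, fun w => ?_, ⟨φ.trans e.symm.toEmbedding⟩⟩
  have h1 := ncard_neighborSet_iso e w
  have h2 := hσ (σ.symm w)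
  have h3 : e w = σ.symm w := rfl
  rw [Equiv.apply_symm_apply] at h2
  rw [h3] at h1
  omega

theorem InP.iso {U V W : Type*} [Finite V] [Finite W] {G : SimpleGraph U} {H : SimpleGraph V}
    {H' : SimpleGraph W} (h : InP G H) (e : H ≃g H') : InP G H' := by
  obtain ⟨X, hX, ⟨φ⟩⟩ := h
  exact InP.of_degSeq φ (hX.trans (degSeq_iso e))

theorem InD.iso {U V W : Type*} [Finite V] [Finite W] {G : SimpleGraph U} {H : SimpleGraph V}
    {H' : SimpleGraph W} (h : InD G H) (e : H ≃g H') : InD G H' := by
  refine ⟨h.1.iso e, fun S hS hP => ?_⟩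
  have hS' : e ⁻¹' S ≠ Set.univ := by
    intro h1
    apply hS
    ext w
    simp only [Set.mem_univ, iff_true]
    have : e.symm w ∈ e ⁻¹' S := by
      rw [h1]
      trivial
    simpa using this
  refine h.2 _ hS' (hP.iso ?_)
  exact {
    toFun := fun w => ⟨e.symm w.1, by simp⟩
    invFun := fun v => ⟨e v.1, v.2⟩
    left_inv := fun w => Subtype.ext (by simp)
    right_inv := fun v => Subtype.ext (by simp)
    map_rel_iff' := by
      intro a b
      simp only [comap_adj, Function.Embedding.subtype_apply, Equiv.coe_fn_mk]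
      exact e.symm.map_adj_iff }

/-! ### Slacks -/

section Slack

variable {T : Type*} [Fintype T] [DecidableEq T]

open Classical in
/-- The ordered pairs that count for the slack of `(A, B)`. -/
noncomputable def sl (X : SimpleGraph T) (A B : Finset T) : Finset (T × T) :=
  univ.filter fun p => (p.1 ∈ A ∧ p.2 ∉ B ∧ p.1 ≠ p.2 ∧ ¬ X.Adj p.1 p.2) ∨
    (p.1 ∈ B ∧ p.2 ∉ A ∧ X.Adj p.1 p.2)

theorem sl_card (X : SimpleGraph T) {A B : Finset T} (hAB : Disjoint A B) :
    ((sl X A B).card : ℤ) + ∑ a ∈ A, ((X.neighborSet a).ncard : ℤ) =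
      A.card * ((Fintype.card T : ℤ) - B.card - 1) + ∑ b ∈ B, ((X.neighborSet b).ncard : ℤ) := by
  classical
  have hdeg : ∀ v, ((X.neighborSet v).ncard : ℤ) = ((univ.filter fun w => X.Adj v w).card : ℤ) := by
    intro v
    rw [← Set.ncard_coe_finset]
    congr 2
    ext w
    simp
  have h1 : sl X A B = (A.sigma fun a => univ.filter fun v => v ∉ B ∧ a ≠ v ∧ ¬ X.Adj a v).map
      ⟨fun p => (p.1, p.2), fun p q h => by cases p; cases q; simpa using h⟩ ∪
      (B.sigma fun b => univ.filter fun v => v ∉ A ∧ X.Adj b v).map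
      ⟨fun p => (p.1, p.2), fun p q h => by cases p; cases q; simpa using h⟩ := by
    ext ⟨u, v⟩
    simp only [sl, mem_filter, mem_univ, true_and, mem_union, mem_map, mem_sigma,
      Function.Embedding.coeFn_mk, Prod.mk.injEq, Sigma.exists]
    constructor
    · rintro (⟨h1, h2, h3, h4⟩ | ⟨h1, h2, h3⟩)
      · exact Or.inl ⟨u, v, ⟨h1, h2, h3, h4⟩, rfl, rfl⟩
      · exact Or.inr ⟨u, v, ⟨h1, h2, h3⟩, rfl, rfl⟩
    · rintro (⟨u', v', ⟨h1, h2, h3, h4⟩, rfl, rfl⟩ | ⟨u', v', ⟨h1, h2, h3⟩, rfl, rfl⟩)
      · exact Or.inl ⟨h1, h2, h3, h4⟩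
      · exact Or.inr ⟨h1, h2, h3⟩
  have h2 : ((sl X A B).card : ℤ) =
      ∑ a ∈ A, ((univ.filter fun v => v ∉ B ∧ a ≠ v ∧ ¬ X.Adj a v).card : ℤ) +
      ∑ b ∈ B, ((univ.filter fun v => v ∉ A ∧ X.Adj b v).card : ℤ) := by
    rw [h1, card_union_of_disjoint, card_map, card_map, card_sigma, card_sigma]
    · push_cast
      rfl
    · rw [Finset.disjoint_left]
      rintro ⟨u, v⟩ h3 h4
      simp only [mem_map, mem_sigma, Function.Embedding.coeFn_mk, Prod.mk.injEq,
        Sigma.exists] at h3 h4
      obtain ⟨_, _, ⟨h3, _⟩, rfl, rfl⟩ := h3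
      obtain ⟨_, _, ⟨h4, _⟩, rfl, rfl⟩ := h4
      exact Finset.disjoint_left.mp hAB h3 h4
  have h3 : ∀ a ∈ A, ((univ.filter fun v => v ∉ B ∧ a ≠ v ∧ ¬ X.Adj a v).card : ℤ) +
      ((univ.filter fun v => X.Adj a v).card : ℤ) =
      (Fintype.card T : ℤ) - B.card - 1 + ((B.filter fun v => X.Adj a v).card : ℤ) := by
    intro a ha
    have haB : a ∉ B := Finset.disjoint_left.mp hAB ha
    have e1 : (univ.filter fun v => v ∉ B ∧ a ≠ v ∧ ¬ X.Adj a v).card +
        (univ.filter fun v => v ∉ B ∧ X.Adj a v).card + 1 + B.card = Fintype.card T := by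
      have e2 : (univ : Finset T) = (((univ.filter fun v => v ∉ B ∧ a ≠ v ∧ ¬ X.Adj a v) ∪
          (univ.filter fun v => v ∉ B ∧ X.Adj a v)) ∪ {a}) ∪ B := by
        ext v
        simp only [mem_univ, mem_union, mem_filter, true_and, mem_singleton, true_iff]
        by_cases hvB : v ∈ B
        · exact Or.inr hvB
        · left
          by_cases hav : a = v
          · exact Or.inr hav.symm
          · left
            by_cases hadj : X.Adj a v
            · exact Or.inr ⟨hvB, hadj⟩
            · exact Or.inl ⟨hvB, hav, hadj⟩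
      have e3 := congrArg Finset.card e2
      rw [card_union_of_disjoint, card_union_of_disjoint, card_union_of_disjoint, card_univ,
        card_singleton] at e3
      · exact e3.symm
      · rw [Finset.disjoint_left]
        intro v hv hv'
        exact (mem_filter.mp hv).2.2.2 (mem_filter.mp hv').2.2
      · rw [Finset.disjoint_left]
        intro v hv hv'
        rw [mem_singleton] at hv'
        subst hv'
        rcases mem_union.mp hv with h | h
        · exact (mem_filter.mp h).2.2.1 rfl
        · exact X.loopless.irrefl _ (mem_filter.mp h).2.2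
      · rw [Finset.disjoint_left]
        intro v hv hv'
        rcases mem_union.mp hv with h | h
        · rcases mem_union.mp h with h | h
          · exact (mem_filter.mp h).2.1 hv'
          · exact (mem_filter.mp h).2.1 hv'
        · rw [mem_singleton] at h
          subst h
          exact haB hv'
    have e4 : (univ.filter fun v => X.Adj a v).card =
        (univ.filter fun v => v ∉ B ∧ X.Adj a v).card + (B.filter fun v => X.Adj a v).card := by
      rw [← card_union_of_disjoint]
      · congr 1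
        ext v
        simp only [mem_filter, mem_univ, true_and, mem_union]
        tauto
      · rw [Finset.disjoint_left]
        intro v hv hv'
        exact (mem_filter.mp hv).2.1 (mem_filter.mp hv').1
    have e1' : (((univ.filter fun v => v ∉ B ∧ a ≠ v ∧ ¬ X.Adj a v).card +
        (univ.filter fun v => v ∉ B ∧ X.Adj a v).card + 1 + B.card : ℕ) : ℤ) = Fintype.card T := by
      exact_mod_cast e1
    push_cast at e1'
    rw [e4]
    push_cast
    linarith
  have h4 : ∀ b ∈ B, ((univ.filter fun v => v ∉ A ∧ X.Adj b v).card : ℤ) +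
      ((A.filter fun v => X.Adj b v).card : ℤ) = ((univ.filter fun v => X.Adj b v).card : ℤ) := by
    intro b _
    have e4 : (univ.filter fun v => X.Adj b v).card =
        (univ.filter fun v => v ∉ A ∧ X.Adj b v).card + (A.filter fun v => X.Adj b v).card := by
      rw [← card_union_of_disjoint]
      · congr 1
        ext v
        simp only [mem_filter, mem_univ, true_and, mem_union]
        tauto
      · rw [Finset.disjoint_left]
        intro v hv hv'
        exact (mem_filter.mp hv).2.1 (mem_filter.mp hv').1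
    rw [e4]
    push_cast
    ring
  have h5 : ∑ a ∈ A, ((B.filter fun v => X.Adj a v).card : ℤ) =
      ∑ b ∈ B, ((A.filter fun v => X.Adj b v).card : ℤ) := by
    simp only [card_filter]
    push_cast
    rw [sum_comm]
    refine sum_congr rfl fun b _ => sum_congr rfl fun a _ => ?_
    simp only [X.adj_comm a b]
  rw [h2]
  simp_rw [hdeg]
  have h6 := sum_congr rfl h3
  have h7 := sum_congr rfl h4
  rw [sum_add_distrib, sum_add_distrib, sum_const, nsmul_eq_mul] at h6
  rw [sum_add_distrib] at h7
  linarith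

/-- Slacks depend only on the degrees. -/
theorem sl_card_eq {X Y : SimpleGraph T} (h : ∀ v, (X.neighborSet v).ncard = (Y.neighborSet v).ncard)
    {A B : Finset T} (hAB : Disjoint A B) : (sl X A B).card = (sl Y A B).card := by
  have h1 := sl_card X hAB
  have h2 := sl_card Y hAB
  simp only [h] at h1
  have : ((sl X A B).card : ℤ) = (sl Y A B).card := by linarith
  exact_mod_cast this

/-- Slacks of induced subgraphs. -/
theorem sl_card_le {U : Type*} [Fintype U] [DecidableEq U] {G : SimpleGraph U}
    {X : SimpleGraph T} (φ : G ↪g X) (A B : Finset T) :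
    (sl G (univ.filter fun w => φ w ∈ A) (univ.filter fun w => φ w ∈ B)).card ≤
      (sl X A B).card := by
  refine card_le_card_of_injOn (fun p => (φ p.1, φ p.2)) ?_ ?_
  · rintro ⟨u, v⟩ h
    simp only [sl, coe_filter, mem_filter, mem_univ, true_and, Set.mem_ofPred_eq] at h ⊢
    rcases h with ⟨h1, h2, h3, h4⟩ | ⟨h1, h2, h3⟩
    · exact Or.inl ⟨h1, h2, fun h => h3 (φ.injective h), fun h => h4 (φ.map_adj_iff.mp h)⟩
    · exact Or.inr ⟨h1, h2, φ.map_adj_iff.mpr h3⟩
  · rintro ⟨u, v⟩ _ ⟨u', v'⟩ _ h
    simp only [Prod.mk.injEq] at h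
    exact Prod.ext (φ.injective h.1) (φ.injective h.2)

/-- Upper bounds for sums over subsets. -/
theorem sum_le_threshold (d : T → ℕ) (A : Finset T) (t : ℕ) :
    ∑ a ∈ A, d a ≤ A.card * t + ∑ v, (d v - t) := by
  calc ∑ a ∈ A, d a ≤ ∑ a ∈ A, (t + (d a - t)) := sum_le_sum fun a _ => by omega
    _ = A.card * t + ∑ a ∈ A, (d a - t) := by
        rw [sum_add_distrib, sum_const, smul_eq_mul]
    _ ≤ _ := Nat.add_le_add_left (sum_le_sum_of_subset (subset_univ _)) _

/-- Lower bounds for sums over subsets. -/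
theorem threshold_le_sum (d : T → ℕ) (B : Finset T) (t : ℕ) :
    B.card * t ≤ ∑ b ∈ B, d b + ∑ v, (t - d v) := by
  calc B.card * t = ∑ b ∈ B, t := by rw [sum_const, smul_eq_mul]
    _ ≤ ∑ b ∈ B, (d b + (t - d b)) := sum_le_sum fun a _ => by omega
    _ = ∑ b ∈ B, d b + ∑ b ∈ B, (t - d b) := sum_add_distrib
    _ ≤ _ := Nat.add_le_add_left (sum_le_sum_of_subset (subset_univ _)) _

end Slack

end Pool.Agent.Q102.DSF
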