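import Mathlib
import Pool.Agent.Q102.DSFBasic

/-!
# An infinite family of members of `D(G)`
-/

set_option autoImplicit false

open SimpleGraph Finset

namespace Pool.Agent.Q102.DSF

/-- The vertices of the graph `H_m`: a spine with `2m+2` vertices and ten more vertices. -/
abbrev VV (m : ℕ) : Type := Fin (2 * m + 2) ⊕ Fin 10

/-- Positions. -/
def pos (m : ℕ) : VV m → ℕ := Sum.elim (fun p => p.val) fun e => if e.val < 5 then 0 else 2 * m + 1

/-- The rows form a clique, the others an independent set. -/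
def row (m : ℕ) : VV m → Bool := Sum.elim (fun p => decide (p.val % 2 = 0))
  ![true, true, false, false, false, true, true, true, false, false]

/-- Labels. -/
def lab (m : ℕ) : VV m → ℕ := Sum.elim (fun _ => 0) ![1, 2, 0, 1, 2, 0, 1, 2, 1, 2]

/-- The default adjacency of a row and a column. -/
def dflt (m : ℕ) (u v : VV m) : Prop := pos m u < pos m v ∨ (pos m u = pos m v ∧ lab m u = lab m v)

instance (m : ℕ) (u v : VV m) : Decidable (dflt m u v) := by
  unfold dflt
  infer_instance

/-- The graph of a set of switched pairs. -/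
def gr (m : ℕ) (sw : VV m → VV m → Prop) : SimpleGraph (VV m) where
  Adj u v := u ≠ v ∧ ((row m u = true ∧ row m v = true) ∨
    (row m u = true ∧ row m v = false ∧ ((dflt m u v ∧ ¬ sw u v) ∨ (sw u v ∧ ¬ dflt m u v))) ∨
    (row m v = true ∧ row m u = false ∧ ((dflt m v u ∧ ¬ sw v u) ∨ (sw v u ∧ ¬ dflt m v u))))
  symm := by
    constructor
    rintro u v ⟨h1, h2⟩
    refine ⟨h1.symm, ?_⟩
    rcases h2 with ⟨h2, h3⟩ | h2 | h2
    · exact Or.inl ⟨h3, h2⟩
    · exact Or.inr (Or.inr h2)
    · exact Or.inr (Or.inl h2)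
  loopless := ⟨fun u h => h.1 rfl⟩

/-- Consecutive spine vertices. -/
def swH (m : ℕ) (u v : VV m) : Prop :=
  u.isLeft = true ∧ v.isLeft = true ∧ (pos m u = pos m v + 1 ∨ pos m v = pos m u + 1)

/-- The two ends of the spine. -/
def swE (m : ℕ) (u v : VV m) : Prop :=
  u.isLeft = true ∧ v.isLeft = true ∧ pos m u = 0 ∧ pos m v = 2 * m + 1

/-- The graph `H_m`. -/
def HH (m : ℕ) : SimpleGraph (VV m) := gr m (swH m)

/-- The graph `H'_m`. -/
def HE (m : ℕ) : SimpleGraph (VV m) := gr m (swE m)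

/-- The graph `G`. -/
def GG : SimpleGraph (VV 0) := gr 0 (swE 0)

instance : DecidableRel GG.Adj := by
  intro u v
  unfold GG gr swE
  infer_instance

variable {m : ℕ}

@[simp] theorem pos_inl (p : Fin (2 * m + 2)) : pos m (Sum.inl p) = p.val := rfl

theorem pos_inr (e : Fin 10) : pos m (Sum.inr e) = if e.val < 5 then 0 else 2 * m + 1 := rfl

theorem pos_le (v : VV m) : pos m v ≤ 2 * m + 1 := by
  rcases v with p | e
  · have := p.isLt
    simp only [pos_inl]
    omega
  · rw [pos_inr]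
    split_ifs <;> omega

theorem row_inl (p : Fin (2 * m + 2)) : row m (Sum.inl p) = decide (p.val % 2 = 0) := rfl

theorem lab_inl (p : Fin (2 * m + 2)) : lab m (Sum.inl p) = 0 := rfl

theorem adj_rr {sw : VV m → VV m → Prop} {u v : VV m} (hu : row m u = true) (hv : row m v = true)
    (h : u ≠ v) : (gr m sw).Adj u v := ⟨h, Or.inl ⟨hu, hv⟩⟩

theorem adj_cc {sw : VV m → VV m → Prop} {u v : VV m} (hu : row m u = false)
    (hv : row m v = false) : ¬ (gr m sw).Adj u v := by
  rintro ⟨-, ⟨h, -⟩ | ⟨h, -⟩ | ⟨h, -⟩⟩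
  · rw [hu] at h
    exact absurd h (by decide)
  · rw [hu] at h
    exact absurd h (by decide)
  · rw [hv] at h
    exact absurd h (by decide)

theorem adj_rc {sw : VV m → VV m → Prop} {u v : VV m} (hu : row m u = true)
    (hv : row m v = false) :
    (gr m sw).Adj u v ↔ ((dflt m u v ∧ ¬ sw u v) ∨ (sw u v ∧ ¬ dflt m u v)) := by
  constructor
  · rintro ⟨-, ⟨-, h⟩ | ⟨-, -, h⟩ | ⟨h, -⟩⟩
    · rw [hv] at h
      exact absurd h (by decide)
    · exact h
    · rw [hv] at h
      exact absurd h (by decide)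
  · intro h
    refine ⟨?_, Or.inr (Or.inl ⟨hu, hv, h⟩)⟩
    rintro rfl
    rw [hu] at hv
    exact absurd hv (by decide)

theorem adj_cr {sw : VV m → VV m → Prop} {u v : VV m} (hu : row m u = false)
    (hv : row m v = true) :
    (gr m sw).Adj u v ↔ ((dflt m v u ∧ ¬ sw v u) ∨ (sw v u ∧ ¬ dflt m v u)) := by
  rw [SimpleGraph.adj_comm, adj_rc hv hu]

/-! ### `H_m` lies in `P(G)` -/

theorem ncard_eq_of_swap {V : Type*} [DecidableEq V] (N N' : Set V) (a b : V)
    (h1 : a ∈ N' ↔ b ∈ N) (h2 : b ∈ N' ↔ a ∈ N)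
    (h : ∀ w, w ≠ a → w ≠ b → (w ∈ N' ↔ w ∈ N)) : N'.ncard = N.ncard := by
  have : N' = Equiv.swap a b '' N := by
    ext w
    rw [Set.mem_image_equiv, Equiv.symm_swap]
    by_cases hwa : w = a
    · subst hwa
      rw [Equiv.swap_apply_left]
      exact h1
    · by_cases hwb : w = b
      · subst hwb
        rw [Equiv.swap_apply_right]
        exact h2
      · rw [Equiv.swap_apply_of_ne_of_ne hwa hwb]
        exact h w hwa hwb
  rw [this, Set.ncard_image_of_injective _ (Equiv.injective _)]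

theorem adj_inl_inl (sw : VV m → VV m → Prop) (p q : Fin (2 * m + 2)) :
    (gr m sw).Adj (Sum.inl p) (Sum.inl q) ↔ p.val ≠ q.val ∧
      ((p.val % 2 = 0 ∧ q.val % 2 = 0) ∨
      (p.val % 2 = 0 ∧ q.val % 2 = 1 ∧ ((p.val ≤ q.val ∧ ¬ sw (Sum.inl p) (Sum.inl q)) ∨
        (sw (Sum.inl p) (Sum.inl q) ∧ ¬ p.val ≤ q.val))) ∨
      (q.val % 2 = 0 ∧ p.val % 2 = 1 ∧ ((q.val ≤ p.val ∧ ¬ sw (Sum.inl q) (Sum.inl p)) ∨
        (sw (Sum.inl q) (Sum.inl p) ∧ ¬ q.val ≤ p.val)))) := by
  have e1 : ∀ p q : Fin (2 * m + 2), dflt m (Sum.inl p) (Sum.inl q) ↔ p.val ≤ q.val := by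
    intro p q
    simp only [dflt, pos_inl, lab_inl, and_true]
    omega
  have e2 : ((Sum.inl p : VV m) ≠ Sum.inl q) ↔ p.val ≠ q.val := by
    rw [Ne, Ne, Sum.inl.injEq, Fin.ext_iff]
  have e3 : ∀ p : Fin (2 * m + 2), row m (Sum.inl p) = false ↔ p.val % 2 = 1 := by
    intro p
    rw [row_inl, decide_eq_false_iff_not]
    omega
  have e4 : ∀ p : Fin (2 * m + 2), row m (Sum.inl p) = true ↔ p.val % 2 = 0 := by
    intro p
    rw [row_inl, decide_eq_true_iff]
  unfold gr
  simp only [e1, e2, e3, e4]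

theorem swH_inl (p q : Fin (2 * m + 2)) :
    swH m (Sum.inl p) (Sum.inl q) ↔ (p.val = q.val + 1 ∨ q.val = p.val + 1) := by
  simp [swH]

theorem swE_inl (p q : Fin (2 * m + 2)) :
    swE m (Sum.inl p) (Sum.inl q) ↔ (p.val = 0 ∧ q.val = 2 * m + 1) := by
  simp [swE]

theorem adj_inr_left (sw sw' : VV m → VV m → Prop) (h : ∀ u v, sw u v → u.isLeft = true ∧ v.isLeft)
    (h' : ∀ u v, sw' u v → u.isLeft = true ∧ v.isLeft) (e : Fin 10) (w : VV m) :
    (gr m sw).Adj (Sum.inr e) w ↔ (gr m sw').Adj (Sum.inr e) w := by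
  have e1 : ∀ w, ¬ sw (Sum.inr e) w := fun w h1 => by simpa using (h _ _ h1).1
  have e2 : ∀ w, ¬ sw w (Sum.inr e) := fun w h1 => by simpa using (h _ _ h1).2
  have e3 : ∀ w, ¬ sw' (Sum.inr e) w := fun w h1 => by simpa using (h' _ _ h1).1
  have e4 : ∀ w, ¬ sw' w (Sum.inr e) := fun w h1 => by simpa using (h' _ _ h1).2
  unfold gr
  simp only [e1, e2, e3, e4]

theorem degrees_eq (v : VV m) : ((HE m).neighborSet v).ncard = ((HH m).neighborSet v).ncard := by
  have hinr : ∀ (e : Fin 10) (w : VV m), (HE m).Adj (Sum.inr e) w ↔ (HH m).Adj (Sum.inr e) w := by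
    intro e w
    exact adj_inr_left _ _ (fun _ _ h => ⟨h.1, h.2.1⟩) (fun _ _ h => ⟨h.1, h.2.1⟩) e w
  rcases v with p | e
  · have key : ∀ a b : Fin (2 * m + 2),
        ((HE m).Adj (Sum.inl p) (Sum.inl a) ↔ (HH m).Adj (Sum.inl p) (Sum.inl b)) →
        ((HE m).Adj (Sum.inl p) (Sum.inl b) ↔ (HH m).Adj (Sum.inl p) (Sum.inl a)) →
        (∀ q : Fin (2 * m + 2), q.val ≠ a.val → q.val ≠ b.val →
          ((HE m).Adj (Sum.inl p) (Sum.inl q) ↔ (HH m).Adj (Sum.inl p) (Sum.inl q))) →
        ((HE m).neighborSet (Sum.inl p)).ncard = ((HH m).neighborSet (Sum.inl p)).ncard := by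
      intro a b h1 h2 h3
      refine ncard_eq_of_swap _ _ (Sum.inl a) (Sum.inl b) h1 h2 ?_
      rintro (q | e) hqa hqb
      · refine h3 q (fun h => hqa ?_) (fun h => hqb ?_)
        · rw [Fin.ext h]
        · rw [Fin.ext h]
      · simp only [mem_neighborSet]
        rw [SimpleGraph.adj_comm, hinr, SimpleGraph.adj_comm]
    have hp := p.isLt
    simp only [HE, HH, adj_inl_inl, swH_inl, swE_inl] at key
    have hex : ∀ a : ℕ, a < 2 * m + 2 → ∃ b : Fin (2 * m + 2), b.val = a :=
      fun a ha => ⟨⟨a, ha⟩, rfl⟩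
    rcases Nat.eq_zero_or_pos p.val with h0 | h0
    · obtain ⟨a, ha⟩ := hex 1 (by omega)
      obtain ⟨b, hb⟩ := hex (2 * m + 1) (by omega)
      refine key a b ?_ ?_ ?_
      · omega
      · omega
      · intro q h1 h2
        omega
    · rcases Nat.lt_or_ge p.val (2 * m + 1) with h1 | h1
      · obtain ⟨a, ha⟩ := hex (p.val - 1) (by omega)
        obtain ⟨b, hb⟩ := hex (p.val + 1) (by omega)
        refine key a b ?_ ?_ ?_
        · omega
        · omega
        · intro q h1 h2
          omega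
      · obtain ⟨a, ha⟩ := hex (2 * m) (by omega)
        obtain ⟨b, hb⟩ := hex 0 (by omega)
        refine key a b ?_ ?_ ?_
        · omega
        · omega
        · intro q h1 h2
          omega
  · congr 1
    ext w
    exact hinr e w

/-- The map of the vertices of `G` into those of `H'_m`. -/
def emb (m : ℕ) : VV 0 → VV m :=
  Sum.map (fun p => if p.val = 0 then ⟨0, by omega⟩ else ⟨2 * m + 1, by omega⟩) id

theorem emb_injective : Function.Injective (emb m) := by
  refine Sum.map_injective.mpr ⟨?_, fun _ _ h => h⟩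
  intro p q h
  have h1 := p.isLt
  have h2 := q.isLt
  ext
  simp only [] at h
  split_ifs at h with h3 h4 h4
  · omega
  · simp [Fin.ext_iff] at h
  · simp [Fin.ext_iff] at h
  · omega

theorem pos_emb (v : VV 0) : pos m (emb m v) = if pos 0 v = 0 then 0 else 2 * m + 1 := by
  rcases v with p | e
  · have := p.isLt
    simp only [emb, Sum.map_inl, pos_inl]
    split_ifs with h1 <;> rfl
  · simp only [emb, Sum.map_inr, id_eq, pos_inr]
    split_ifs <;> simp_all

theorem row_emb (v : VV 0) : row m (emb m v) = row 0 v := by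
  rcases v with p | e
  · have := p.isLt
    simp only [emb, Sum.map_inl]
    split_ifs with h1
    · simp [row_inl, h1]
    · have h2 : p.val = 1 := by omega
      simp only [row_inl, h2]
      rw [decide_eq_decide]
      omega
  · rfl

theorem lab_emb (v : VV 0) : lab m (emb m v) = lab 0 v := by
  rcases v with p | e <;> rfl

theorem isLeft_emb (v : VV 0) : (emb m v).isLeft = v.isLeft := by
  rcases v with p | e <;> rfl

theorem pos_zero (v : VV 0) : pos 0 v = 0 ∨ pos 0 v = 1 := by
  have := pos_le v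
  omega

/-- `G` is an induced subgraph of `H'_m`. -/
def embGG (m : ℕ) : GG ↪g HE m where
  toFun := emb m
  inj' := emb_injective
  map_rel_iff' := by
    intro u v
    have hd : ∀ u v, dflt m (emb m u) (emb m v) ↔ dflt 0 u v := by
      intro u v
      unfold dflt
      rw [pos_emb, pos_emb, lab_emb, lab_emb]
      rcases pos_zero u with h1 | h1 <;> rcases pos_zero v with h2 | h2 <;>
        simp [h1, h2]
    have hs : ∀ u v, swE m (emb m u) (emb m v) ↔ swE 0 u v := by
      intro u v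
      unfold swE
      rw [pos_emb, pos_emb, isLeft_emb, isLeft_emb]
      rcases pos_zero u with h1 | h1 <;> rcases pos_zero v with h2 | h2 <;>
        simp [h1, h2]
    simp only [Function.Embedding.coeFn_mk]
    unfold HE GG gr
    simp only [row_emb, hd, hs, emb_injective.ne_iff]

theorem inP_HH (m : ℕ) : InP GG (HH m) :=
  inP_iff.mpr ⟨HE m, degrees_eq, ⟨embGG m⟩⟩

/-! ### Slacks of `G` -/

/-- The degrees of `G`. -/
def dG (v : VV 0) : ℕ := (univ.filter fun w => GG.Adj v w).card

theorem ncard_GG (v : VV 0) : (GG.neighborSet v).ncard = dG v := by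
  rw [dG, ← Set.ncard_coe_finset]
  congr 1
  ext w
  simp

theorem facts (A B : Finset (VV 0)) (hAB : Disjoint A B) (hs : (sl GG A B).card ≤ 1) :
    (A.card + B.card ∈ ({0, 1, 5, 6, 7, 11, 12} : Finset ℕ)) ∧
    (A.card + B.card = 5 → A.card = 2) ∧
    ((sl GG A B).card = 0 → A.card + B.card = 0 ∨ A.card + B.card = 12) := by
  have h0 := sl_card GG hAB
  simp only [ncard_GG] at h0
  have hP1 := sum_le_threshold dG A 1
  have hP3 := sum_le_threshold dG A 3
  have hP4 := sum_le_threshold dG A 4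
  have hP6 := sum_le_threshold dG A 6
  have hP8 := sum_le_threshold dG A 8
  have hP9 := sum_le_threshold dG A 9
  have hQ1 := threshold_le_sum dG B 1
  have hQ3 := threshold_le_sum dG B 3
  have hQ4 := threshold_le_sum dG B 4
  have hQ6 := threshold_le_sum dG B 6
  have hQ8 := threshold_le_sum dG B 8
  have hQ9 := threshold_le_sum dG B 9
  rw [show ∑ v, (dG v - 1) = 46 by decide +kernel] at hP1
  rw [show ∑ v, (dG v - 3) = 28 by decide +kernel] at hP3
  rw [show ∑ v, (dG v - 4) = 20 by decide +kernel] at hP4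
  rw [show ∑ v, (dG v - 6) = 8 by decide +kernel] at hP6
  rw [show ∑ v, (dG v - 8) = 2 by decide +kernel] at hP8
  rw [show ∑ v, (dG v - 9) = 0 by decide +kernel] at hP9
  rw [show ∑ v, (1 - dG v) = 0 by decide +kernel] at hQ1
  rw [show ∑ v, (3 - dG v) = 6 by decide +kernel] at hQ3
  rw [show ∑ v, (4 - dG v) = 10 by decide +kernel] at hQ4
  rw [show ∑ v, (6 - dG v) = 22 by decide +kernel] at hQ6
  rw [show ∑ v, (8 - dG v) = 40 by decide +kernel] at hQ8
  rw [show ∑ v, (9 - dG v) = 50 by decide +kernel] at hQ9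
  have hc : A.card + B.card ≤ 12 := by
    rw [← card_union_of_disjoint hAB]
    exact (card_le_univ _).trans (by decide)
  have hT : Fintype.card (VV 0) = 12 := by decide
  rw [hT] at h0
  have h0' : ((sl GG A B).card : ℤ) + ((∑ a ∈ A, dG a : ℕ) : ℤ) =
      A.card * ((12 : ℤ) - B.card - 1) + ((∑ b ∈ B, dG b : ℕ) : ℤ) := by
    push_cast
    exact_mod_cast h0
  clear h0
  generalize (sl GG A B).card = s at *
  generalize (∑ a ∈ A, dG a) = x at *
  generalize (∑ b ∈ B, dG b) = y at *
  generalize A.card = a at *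
  generalize B.card = b at *
  simp only [mem_insert, mem_singleton]
  have ha : a ≤ 12 := by omega
  have hb : b ≤ 12 := by omega
  interval_cases a <;> interval_cases b <;> omega

end Pool.Agent.Q102.DSF
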