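import Mathlib
import Pool.Agent.Q102.DSFFamily

/-!
# The graphs `H_m` are minimal in `P(G)`
-/

set_option autoImplicit false

open SimpleGraph Finset

namespace Pool.Agent.Q102.DSF

variable {m : ℕ}

theorem cut (S : Set (VV m)) (X : SimpleGraph S)
    (hX : ∀ v, (X.neighborSet v).ncard = (((HH m).induce S).neighborSet v).ncard) (φ : GG ↪g X)
    (P : VV m → Prop) [DecidablePred P] (x y : VV m)
    (h1 : ∀ u ∈ S, ∀ v ∈ S, row m u = true → row m v = false → P u → ¬ P v →
      ¬ (HH m).Adj u v → u = x ∧ v = y)
    (h2 : ∀ u ∈ S, ∀ v ∈ S, row m u = false → row m v = true → P u → ¬ P v →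
      (HH m).Adj u v → u = x ∧ v = y) :
    ((univ.filter fun w => P (φ w).1).card ∈ ({0, 1, 5, 6, 7, 11, 12} : Finset ℕ)) ∧
    ((univ.filter fun w => P (φ w).1).card = 5 →
      (univ.filter fun w => row m (φ w).1 = true ∧ P (φ w).1).card = 2) ∧
    (x ∉ S ∨ y ∉ S → (univ.filter fun w => P (φ w).1).card = 0 ∨
      (univ.filter fun w => P (φ w).1).card = 12) := by
  classical
  have := Fintype.ofFinite S
  set A : Finset S := univ.filter fun u => row m u.1 = true ∧ P u.1 with hA
  set B : Finset S := univ.filter fun u => row m u.1 = false ∧ P u.1 with hB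
  have hAB : Disjoint A B := by
    rw [Finset.disjoint_left]
    intro u hu hu'
    rw [hA, mem_filter] at hu
    rw [hB, mem_filter] at hu'
    rw [hu.2.1] at hu'
    exact absurd hu'.2.1 (by decide)
  have hsub : ∀ p ∈ sl ((HH m).induce S) A B, p.1.1 = x ∧ p.2.1 = y := by
    rintro ⟨u, v⟩ hp
    simp only [sl, hA, hB, mem_filter, mem_univ, true_and, comap_adj,
      Function.Embedding.subtype_apply] at hp
    rcases hp with ⟨⟨h3, h4⟩, h5, h6, h7⟩ | ⟨⟨h3, h4⟩, h5, h6⟩
    · rcases Bool.eq_false_or_eq_true (row m v.1) with h8 | h8
      · exact absurd (adj_rr h3 h8 fun h => h6 (Subtype.ext h)) h7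
      · exact h1 _ u.2 _ v.2 h3 h8 h4 (fun h => h5 ⟨h8, h⟩) h7
    · rcases Bool.eq_false_or_eq_true (row m v.1) with h8 | h8
      · exact h2 _ u.2 _ v.2 h3 h8 h4 (fun h => h5 ⟨h8, h⟩) h6
      · exact absurd h6 (adj_cc h3 h8)
  have hle1 : (sl ((HH m).induce S) A B).card ≤ 1 := by
    rw [Finset.card_le_one]
    intro p hp q hq
    obtain ⟨h3, h4⟩ := hsub p hp
    obtain ⟨h5, h6⟩ := hsub q hq
    exact Prod.ext (Subtype.ext (h3.trans h5.symm)) (Subtype.ext (h4.trans h6.symm))
  have heq := sl_card_eq hX hAB
  have hle := sl_card_le φ A B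
  set A' := univ.filter fun w => φ w ∈ A with hA'
  set B' := univ.filter fun w => φ w ∈ B with hB'
  have hAB' : Disjoint A' B' := by
    rw [Finset.disjoint_left]
    intro w hw hw'
    exact Finset.disjoint_left.mp hAB (mem_filter.mp hw).2 (mem_filter.mp hw').2
  have hN : (univ.filter fun w => P (φ w).1).card = A'.card + B'.card := by
    rw [← card_union_of_disjoint hAB']
    congr 1
    ext w
    simp only [hA', hB', hA, hB, mem_filter, mem_univ, true_and, mem_union]
    rcases Bool.eq_false_or_eq_true (row m (φ w).1) with h8 | h8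
    · simp [h8]
    · simp [h8]
  have hA'' : (univ.filter fun w => row m (φ w).1 = true ∧ P (φ w).1) = A' := by
    ext w
    simp only [hA', hA, mem_filter, mem_univ, true_and]
  obtain ⟨f1, f2, f3⟩ := facts A' B' hAB' (by omega)
  rw [hN, hA'']
  refine ⟨f1, f2, fun h => f3 ?_⟩
  have : sl ((HH m).induce S) A B = ∅ := by
    rw [Finset.eq_empty_iff_forall_notMem]
    intro p hp
    obtain ⟨h3, h4⟩ := hsub p hp
    rcases h with h | h
    · exact h (h3 ▸ p.1.2)
    · exact h (h4 ▸ p.2.2)
  rw [this, card_empty] at heq
  omega

theorem adj_HH_rc {u v : VV m} (hu : row m u = true) (hv : row m v = false) :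
    (HH m).Adj u v ↔ ((dflt m u v ∧ ¬ swH m u v) ∨ (swH m u v ∧ ¬ dflt m u v)) := adj_rc hu hv

theorem adj_HH_cr {u v : VV m} (hu : row m u = false) (hv : row m v = true) :
    (HH m).Adj u v ↔ ((dflt m v u ∧ ¬ swH m v u) ∨ (swH m v u ∧ ¬ dflt m v u)) := adj_cr hu hv

theorem eq_inl_of_pos {v : VV m} {t : ℕ} (ht : t < 2 * m + 2) (h : pos m v = t)
    (hv : v.isLeft = true) : v = Sum.inl ⟨t, ht⟩ := by
  rcases v with p | e
  · congr 1
    ext
    exact h
  · simp at hv

theorem eq_inl_of_pos' {v : VV m} {t : ℕ} (ht : t < 2 * m + 2) (h : pos m v = t)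
    (h0 : 0 < t) (h1 : t ≤ 2 * m) : v = Sum.inl ⟨t, ht⟩ := by
  rcases v with p | e
  · congr 1
    ext
    exact h
  · rw [pos_inr] at h
    split_ifs at h <;> omega

theorem card_left : (univ.filter fun v => pos m v = 0).card = 6 := by
  have : (univ.filter fun v => pos m v = 0) =
      (({⟨0, by omega⟩} : Finset (Fin (2 * m + 2))).disjSum ({0, 1, 2, 3, 4} : Finset (Fin 10))) := by
    ext v
    rcases v with p | e
    · rw [Finset.inl_mem_disjSum, mem_filter, mem_singleton, Fin.ext_iff, pos_inl]
      simp only [mem_univ, true_and]
    · rw [Finset.inr_mem_disjSum]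
      simp only [mem_filter, mem_univ, true_and, pos_inr]
      fin_cases e <;> simp
  rw [this, card_disjSum]
  rfl

theorem card_right : (univ.filter fun v => pos m v = 2 * m + 1).card = 6 := by
  have : (univ.filter fun v => pos m v = 2 * m + 1) =
      (({⟨2 * m + 1, by omega⟩} : Finset (Fin (2 * m + 2))).disjSum
        ({5, 6, 7, 8, 9} : Finset (Fin 10))) := by
    ext v
    rcases v with p | e
    · rw [Finset.inl_mem_disjSum, mem_filter, mem_singleton, Fin.ext_iff, pos_inl]
      simp only [mem_univ, true_and]
    · rw [Finset.inr_mem_disjSum]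
      have h5 : ∀ e : Fin 10, e ∈ ({5, 6, 7, 8, 9} : Finset (Fin 10)) ↔ ¬ e.val < 5 := by decide
      rw [h5, mem_filter, pos_inr]
      by_cases h : e.val < 5
      · rw [if_pos h]
        constructor
        · rintro ⟨-, h'⟩
          omega
        · intro h'
          exact absurd h h'
      · rw [if_neg h]
        exact ⟨fun _ => h, fun _ => ⟨mem_univ _, rfl⟩⟩
  rw [this, card_disjSum]
  rfl

theorem not_inP (m : ℕ) (S : Set (VV m)) (hS : S ≠ Set.univ) : ¬ InP GG ((HH m).induce S) := by
  classical
  intro hP
  obtain ⟨X, hX, ⟨φ⟩⟩ := inP_iff.mp hP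
  obtain ⟨x, hx⟩ : ∃ x, x ∉ S := by
    by_contra h
    push Not at h
    exact hS (Set.eq_univ_of_forall h)
  have hinj : Function.Injective fun w => (φ w).1 := fun a b h => φ.injective (Subtype.ext h)
  set N : ℕ → ℕ := fun t => (univ.filter fun w => pos m (φ w).1 ≤ t).card with hN
  have hcut : ∀ t, (ht : t ≤ 2 * m) →
      (N t ∈ ({0, 1, 5, 6, 7, 11, 12} : Finset ℕ)) ∧
      (N t = 5 → (univ.filter fun w => row m (φ w).1 = true ∧ pos m (φ w).1 ≤ t).card = 2) ∧
      ((Sum.inl ⟨t, by omega⟩ : VV m) ∉ S ∨ (Sum.inl ⟨t + 1, by omega⟩ : VV m) ∉ S →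
        N t = 0 ∨ N t = 12) := by
    intro t ht
    refine cut S X hX φ (fun v => pos m v ≤ t) _ _ ?_ ?_
    · intro u _ v _ hu hv h3 h4 h5
      rw [adj_HH_rc hu hv] at h5
      have h6 : dflt m u v := Or.inl (by omega)
      have h7 : swH m u v := by
        by_contra h7
        exact h5 (Or.inl ⟨h6, h7⟩)
      obtain ⟨h8, h9, h10⟩ := h7
      exact ⟨eq_inl_of_pos _ (by omega) h8, eq_inl_of_pos _ (by omega) h9⟩
    · intro u _ v _ hu hv h3 h4 h5
      rw [adj_HH_cr hu hv] at h5
      have h6 : ¬ dflt m v u := by
        unfold dflt
        omega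
      rcases h5 with ⟨h5, -⟩ | ⟨⟨h8, h9, h10⟩, -⟩
      · exact absurd h5 h6
      · exact ⟨eq_inl_of_pos _ (by omega) h9, eq_inl_of_pos _ (by omega) h8⟩
  have hmono : ∀ t, N t ≤ N (t + 1) := by
    intro t
    refine card_le_card fun w hw => ?_
    rw [mem_filter] at hw ⊢
    exact ⟨hw.1, by omega⟩
  have hstep : ∀ t, t + 1 ≤ 2 * m → N (t + 1) ≤ N t + 1 := by
    intro t ht
    have h1 : (univ.filter fun w => pos m (φ w).1 ≤ t + 1) ⊆
        (univ.filter fun w => pos m (φ w).1 ≤ t) ∪ (univ.filter fun w => pos m (φ w).1 = t + 1) := by
      intro w hw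
      rw [mem_union, mem_filter, mem_filter]
      rw [mem_filter] at hw
      rcases Nat.lt_or_ge t (pos m (φ w).1) with h | h
      · exact Or.inr ⟨mem_univ _, by omega⟩
      · exact Or.inl ⟨mem_univ _, h⟩
    have h2 : (univ.filter fun w => pos m (φ w).1 = t + 1).card ≤ 1 := by
      rw [Finset.card_le_one]
      intro a ha b hb
      rw [mem_filter] at ha hb
      apply hinj
      simp only []
      rw [eq_inl_of_pos' (by omega) ha.2 (by omega) ht,
        eq_inl_of_pos' (by omega) hb.2 (by omega) ht]
    exact (card_le_card h1).trans ((card_union_le _ _).trans (by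
      simp only [hN]
      omega))
  have him : ∀ (P : VV m → Prop) [DecidablePred P],
      (univ.filter fun w => P (φ w).1).card ≤ ((univ.filter P).erase x).card := by
    intro P _
    rw [← card_image_of_injective (univ.filter fun w => P (φ w).1) hinj]
    refine card_le_card fun v hv => ?_
    rw [mem_image] at hv
    obtain ⟨w, hw, rfl⟩ := hv
    rw [mem_filter] at hw
    rw [mem_erase, mem_filter]
    exact ⟨fun h => hx (h ▸ (φ w).2), mem_univ _, hw.2⟩
  have him' : ∀ (P : VV m → Prop) [DecidablePred P],
      ((univ.filter P).erase x).card ≤ (univ.filter fun w => P (φ w).1).card →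
      ∀ v, P v → v ≠ x → ∃ w, (φ w).1 = v := by
    intro P _ hle v hv hvx
    have h1 : (univ.filter fun w => P (φ w).1).image (fun w => (φ w).1) =
        (univ.filter P).erase x := by
      refine Finset.eq_of_subset_of_card_le ?_ ?_
      · intro v hv
        rw [mem_image] at hv
        obtain ⟨w, hw, rfl⟩ := hv
        rw [mem_filter] at hw
        rw [mem_erase, mem_filter]
        exact ⟨fun h => hx (h ▸ (φ w).2), mem_univ _, hw.2⟩
      · rw [card_image_of_injective _ hinj]
        exact hle
    have h2 : v ∈ (univ.filter P).erase x := by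
      rw [mem_erase, mem_filter]
      exact ⟨hvx, mem_univ _, hv⟩
    rw [← h1, mem_image] at h2
    obtain ⟨w, -, hw⟩ := h2
    exact ⟨w, hw⟩
  have hcard12 : Fintype.card (VV 0) = 12 := by decide
  have hcompl : (univ.filter fun w => pos m (φ w).1 = 2 * m + 1).card + N (2 * m) = 12 := by
    have h1 := Finset.card_filter_add_card_filter_not (s := (univ : Finset (VV 0)))
      (fun w => pos m (φ w).1 ≤ 2 * m)
    rw [card_univ, hcard12] at h1
    have h2 : (univ.filter fun w => ¬ pos m (φ w).1 ≤ 2 * m) =
        univ.filter fun w => pos m (φ w).1 = 2 * m + 1 := by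
      ext w
      have := pos_le (φ w).1
      simp only [mem_filter, mem_univ, true_and]
      omega
    rw [h2] at h1
    simp only [hN]
    omega
  have hN0 : N 0 = (univ.filter fun w => pos m (φ w).1 = 0).card := by
    simp only [hN]
    congr 1
    ext w
    simp
  have hN0le : N 0 ≤ 6 := by
    rw [hN0]
    refine (him fun v => pos m v = 0).trans ((card_le_card (erase_subset _ _)).trans ?_)
    rw [card_left]
  have hNle : 6 ≤ N (2 * m) := by
    have h1 := (him fun v => pos m v = 2 * m + 1).trans (card_le_card (erase_subset _ _))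
    rw [card_right] at h1
    omega
  have hin : ∀ t ≤ 2 * m, N t = 0 ∨ N t = 1 ∨ N t = 5 ∨ N t = 6 ∨ N t = 7 ∨ N t = 11 ∨ N t = 12 := by
    intro t ht
    have := (hcut t ht).1
    simpa only [mem_insert, mem_singleton] using this
  have hA : ∀ t ≤ 2 * m, N 0 ≤ 1 → N t ≤ 1 := by
    intro t
    induction t with
    | zero => exact fun _ h => h
    | succ t ih =>
      intro ht h
      have h1 := ih (by omega) h
      have h2 := hstep t ht
      have h3 := hin (t + 1) ht
      omega
  have hB : ∀ t ≤ 2 * m, N t ≤ 7 := by
    intro t
    induction t with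
    | zero => exact fun _ => by omega
    | succ t ih =>
      intro ht
      have h1 := ih (by omega)
      have h2 := hstep t ht
      have h3 := hin (t + 1) ht
      omega
  have hC : ∀ t ≤ 2 * m, N 0 ≤ N t := by
    intro t
    induction t with
    | zero => exact fun _ => le_rfl
    | succ t ih =>
      intro ht
      exact (ih (by omega)).trans (hmono t)
  have hN05 : 5 ≤ N 0 := by
    have h1 := hin 0 (by omega)
    have h2 := hA (2 * m) le_rfl
    omega
  rcases x with p | e
  · -- a spine vertex is missing
    have hp := p.isLt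
    rcases Nat.lt_or_ge p.val (2 * m + 1) with h | h
    · have h1 := (hcut p.val (by omega)).2.2 (Or.inl hx)
      have h2 := hB p.val (by omega)
      have h3 := hC p.val (by omega)
      omega
    · have h0 : p = ⟨2 * m + 1, by omega⟩ := Fin.ext (by simp only []; omega)
      have h1 := (hcut (2 * m) le_rfl).2.2 (Or.inr (h0 ▸ hx))
      have h2 := hB (2 * m) le_rfl
      have h3 := hC (2 * m) le_rfl
      omega
  · rcases Nat.lt_or_ge e.val 5 with he | he
    · -- a vertex on the left is missing
      have hcl : ((univ.filter fun v => pos m v = 0).erase (Sum.inr e)).card = 5 := by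
        rw [card_erase_of_mem, card_left]
        rw [mem_filter, pos_inr, if_pos he]
        exact ⟨mem_univ _, rfl⟩
      have h5 : N 0 = 5 := by
        have h1 := him fun v => pos m v = 0
        rw [hcl, ← hN0] at h1
        omega
      have hsur := him' (fun v => pos m v = 0) (by rw [hcl, ← hN0]; exact hN05)
      have hrows := (hcut 0 (by omega)).2.1 h5
      rcases Nat.lt_or_ge e.val 2 with he2 | he2
      · -- `ℓ_i` is missing
        have hf : ∃ f : Fin 10, f.val = e.val + 3 := ⟨⟨e.val + 3, by omega⟩, rfl⟩
        obtain ⟨f, hf⟩ := hf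
        have hc := (cut S X hX φ (fun v => v = Sum.inr f) (Sum.inr e) (Sum.inr e) ?_ ?_).2.2
          (Or.inl hx)
        · obtain ⟨w, hw⟩ := hsur (Sum.inr f) (by rw [pos_inr, if_pos (by omega)]) (by
            intro h
            have := congrArg Fin.val (Sum.inr.inj h)
            omega)
          have h1 : (univ.filter fun w => (φ w).1 = Sum.inr f) = {w} := by
            ext w'
            rw [mem_filter, mem_singleton]
            constructor
            · rintro ⟨-, h⟩
              exact hinj (h.trans hw.symm)
            · rintro rfl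
              exact ⟨mem_univ _, hw⟩
          rw [h1, card_singleton] at hc
          omega
        · intro u _ v _ hu _ h3 _ _
          exfalso
          subst h3
          obtain ⟨e, he'⟩ := e
          obtain ⟨f, hf'⟩ := f
          simp only [] at hf he2
          subst hf
          interval_cases e <;> simp [row] at hu
        · intro u _ v hv hu hvr h3 _ h5
          exfalso
          subst h3
          rw [adj_HH_cr hu hvr] at h5
          rcases h5 with ⟨h5, -⟩ | ⟨⟨-, h5, -⟩, -⟩
          · apply hx
            have : v = Sum.inr e := by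
              obtain ⟨e, he'⟩ := e
              obtain ⟨f, hf'⟩ := f
              simp only [] at hf he2
              subst hf
              rcases v with q | g
              · interval_cases e <;> simp [dflt, pos, lab] at h5
              · interval_cases e <;> fin_cases g <;> simp [dflt, pos, lab, row] at h5 hvr ⊢
            exact this ▸ hv
          · simp at h5
      · -- `λ_i` is missing
        obtain ⟨w1, hw1⟩ := hsur (Sum.inl ⟨0, by omega⟩) rfl (by simp)
        obtain ⟨w2, hw2⟩ := hsur (Sum.inr 0) (by simp [pos]) (by
          intro h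
          rw [← Sum.inr.inj h] at he2
          simp at he2)
        obtain ⟨w3, hw3⟩ := hsur (Sum.inr 1) (by simp [pos]) (by
          intro h
          rw [← Sum.inr.inj h] at he2
          simp at he2)
        have h12 : w1 ≠ w2 := by
          rintro rfl
          rw [hw1] at hw2
          simp at hw2
        have h13 : w1 ≠ w3 := by
          rintro rfl
          rw [hw1] at hw3
          simp at hw3
        have h23 : w2 ≠ w3 := by
          rintro rfl
          rw [hw2] at hw3
          simp at hw3
        have hsub : ({w1, w2, w3} : Finset (VV 0)) ⊆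
            univ.filter fun w => row m (φ w).1 = true ∧ pos m (φ w).1 ≤ 0 := by
          intro w hw
          simp only [mem_insert, mem_singleton] at hw
          rw [mem_filter]
          rcases hw with rfl | rfl | rfl
          · rw [hw1]
            simp [row, pos]
          · rw [hw2]
            simp [row, pos]
          · rw [hw3]
            simp [row, pos]
        have := card_le_card hsub
        rw [hrows, card_insert_of_notMem, card_insert_of_notMem, card_singleton] at this
        · omega
        · simpa using h23
        · simp only [mem_insert, mem_singleton]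
          push Not
          exact ⟨h12, h13⟩
    · -- a vertex on the right is missing
      have hcl : ((univ.filter fun v => pos m v = 2 * m + 1).erase (Sum.inr e)).card = 5 := by
        rw [card_erase_of_mem, card_right]
        rw [mem_filter, pos_inr, if_neg (by omega)]
        exact ⟨mem_univ _, rfl⟩
      have h7 : N (2 * m) = 7 := by
        have h1 := him fun v => pos m v = 2 * m + 1
        rw [hcl] at h1
        have h2 := hB (2 * m) le_rfl
        omega
      have hsur := him' (fun v => pos m v = 2 * m + 1) (by rw [hcl]; omega)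
      rcases Nat.lt_or_ge e.val 8 with he2 | he2
      · -- `r_i` is missing
        obtain ⟨ρ, hρ1, hρ2, hρ3, hρ4⟩ : ∃ ρ : VV m, pos m ρ = 2 * m + 1 ∧ row m ρ = false ∧
            lab m ρ = lab m (Sum.inr e) ∧ ρ ≠ Sum.inr e := by
          have hr : ∀ f : Fin (2 * m + 2), f.val = 2 * m + 1 → row m (Sum.inl f) = false := by
            intro f hf
            rw [row_inl, hf, decide_eq_false_iff_not]
            omega
          obtain ⟨e, he'⟩ := e
          simp only [] at he he2
          interval_cases e
          · refine ⟨Sum.inl ⟨2 * m + 1, by omega⟩, rfl, hr _ rfl, rfl, by simp⟩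
          · exact ⟨Sum.inr 8, rfl, rfl, rfl, by simp⟩
          · exact ⟨Sum.inr 9, rfl, rfl, rfl, by simp⟩
        have hrow : ∀ v : VV m, row m v = true → pos m v = 2 * m + 1 →
            lab m v = lab m (Sum.inr e) → v = Sum.inr e := by
          intro v h1 h2 h3
          rcases v with q | g
          · exfalso
            rw [row_inl, decide_eq_true_iff] at h1
            simp only [pos_inl] at h2
            omega
          · obtain ⟨e, he'⟩ := e
            simp only [] at he he2
            interval_cases e <;> fin_cases g <;> simp [pos, lab, row] at h1 h2 h3 ⊢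
        have hc := (cut S X hX φ (fun v => pos m v ≤ 2 * m ∨ v = ρ)
          (Sum.inl ⟨2 * m, by omega⟩) (Sum.inl ⟨2 * m + 1, by omega⟩) ?_ ?_).1
        · obtain ⟨w, hw⟩ := hsur ρ hρ1 hρ4
          have h1 : (univ.filter fun w => pos m (φ w).1 ≤ 2 * m ∨ (φ w).1 = ρ) =
              insert w (univ.filter fun w => pos m (φ w).1 ≤ 2 * m) := by
            ext w'
            rw [mem_filter, mem_insert, mem_filter]
            constructor
            · rintro ⟨-, h | h⟩
              · exact Or.inr ⟨mem_univ _, h⟩
              · exact Or.inl (hinj (h.trans hw.symm))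
            · rintro (rfl | ⟨-, h⟩)
              · exact ⟨mem_univ _, Or.inr hw⟩
              · exact ⟨mem_univ _, Or.inl h⟩
          have h2 : w ∉ univ.filter fun w => pos m (φ w).1 ≤ 2 * m := by
            rw [mem_filter, hw, hρ1]
            omega
          rw [h1, card_insert_of_notMem h2] at hc
          change N (2 * m) + 1 ∈ _ at hc
          rw [h7] at hc
          simp at hc
        · intro u _ v _ hu hv h3 h4 h5
          rw [adj_HH_rc hu hv] at h5
          push Not at h4
          have hu' : pos m u ≤ 2 * m := by
            rcases h3 with h3 | h3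
            · exact h3
            · exfalso
              rw [h3, hρ2] at hu
              exact absurd hu (by decide)
          have h6 : dflt m u v := Or.inl (by omega)
          have h7 : swH m u v := by
            by_contra h7
            exact h5 (Or.inl ⟨h6, h7⟩)
          obtain ⟨h8, h9, h10⟩ := h7
          exact ⟨eq_inl_of_pos _ (by omega) h8, eq_inl_of_pos _ (by omega) h9⟩
        · intro u _ v hv hu hvr h3 h4 h5
          rw [adj_HH_cr hu hvr] at h5
          push Not at h4
          rcases h3 with h3 | h3
          · have h6 : ¬ dflt m v u := by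
              unfold dflt
              omega
            rcases h5 with ⟨h5, -⟩ | ⟨⟨h8, h9, h10⟩, -⟩
            · exact absurd h5 h6
            · exact ⟨eq_inl_of_pos _ (by omega) h9, eq_inl_of_pos _ (by omega) h8⟩
          · subst h3
            exfalso
            have hpv := pos_le v
            have h6 : ¬ dflt m v u := by
              intro h
              rcases h with h | ⟨h, h'⟩
              · omega
              · exact hx ((hrow v hvr (h.trans hρ1) (h'.trans hρ3)) ▸ hv)
            rcases h5 with ⟨h5, -⟩ | ⟨⟨h8, h9, h10⟩, -⟩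
            · exact absurd h5 h6
            · omega
      · -- `ρ_i` is missing
        obtain ⟨r, hr⟩ : ∃ r : Fin 10, r.val + 2 = e.val := ⟨⟨e.val - 2, by omega⟩, by
          simp only []
          omega⟩
        have hc := (cut S X hX φ (fun v => v ≠ Sum.inr r) (Sum.inr e) (Sum.inr e) ?_ ?_).2.2
          (Or.inl hx)
        · obtain ⟨w, hw⟩ := hsur (Sum.inr r) (by rw [pos_inr, if_neg (by omega)]) (by
            intro h
            have := congrArg Fin.val (Sum.inr.inj h)
            omega)
          have h1 : (univ.filter fun w => (φ w).1 ≠ Sum.inr r) = univ.erase w := by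
            ext w'
            rw [mem_filter, mem_erase]
            constructor
            · rintro ⟨-, h⟩
              exact ⟨fun h' => h (h' ▸ hw), mem_univ _⟩
            · rintro ⟨h, -⟩
              exact ⟨mem_univ _, fun h' => h (hinj (h'.trans hw.symm))⟩
          rw [h1, card_erase_of_mem (mem_univ _), card_univ, hcard12] at hc
          omega
        · intro u _ v _ _ hv _ h4 _
          exfalso
          push Not at h4
          subst h4
          obtain ⟨e, he'⟩ := e
          obtain ⟨r, hr'⟩ := r
          simp only [] at hr he2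
          have : r = 6 ∨ r = 7 := by omega
          rcases this with rfl | rfl <;> simp [row] at hv
        · intro u hu v _ huc hvr _ h4 h5
          exfalso
          push Not at h4
          subst h4
          rw [adj_HH_cr huc hvr] at h5
          rcases h5 with ⟨h5, -⟩ | ⟨⟨h5, -, -⟩, -⟩
          · apply hx
            have : u = Sum.inr e := by
              have hpu := pos_le u
              have hpr : pos m (Sum.inr r : VV m) = 2 * m + 1 := by
                rw [pos_inr, if_neg (by omega)]
              have h5' : pos m u = 2 * m + 1 ∧ lab m (Sum.inr r : VV m) = lab m u := by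
                rcases h5 with h5 | ⟨h5, h6⟩
                · omega
                · exact ⟨by omega, h6⟩
              obtain ⟨h6, h7⟩ := h5'
              obtain ⟨e, he'⟩ := e
              obtain ⟨r, hr'⟩ := r
              simp only [] at hr he2
              have : r = 6 ∧ e = 8 ∨ r = 7 ∧ e = 9 := by omega
              rcases u with q | g
              · rcases this with ⟨rfl, rfl⟩ | ⟨rfl, rfl⟩ <;> simp [lab] at h7
              · rcases this with ⟨rfl, rfl⟩ | ⟨rfl, rfl⟩ <;> fin_cases g <;>
                  simp [pos, lab, row] at h6 h7 huc ⊢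
            exact this ▸ hu
          · simp at h5

theorem inD_HH (m : ℕ) : InD GG (HH m) := ⟨inP_HH m, not_inP m⟩

end Pool.Agent.Q102.DSF
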