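import Mathlib
import Pool.Agent.Q102.DSFMain

/-!
# Sets of isomorphism classes of graphs, degree-sequence-forcing sets
-/

set_option autoImplicit false

open SimpleGraph Finset

namespace Pool.Agent.Q102.DSF

/-- A finite graph, on the vertex set `{0, ..., n-1}`. -/
abbrev FinGraph : Type := Σ n : ℕ, SimpleGraph (Fin n)

/-- Isomorphism of finite graphs. -/
instance isoSetoid : Setoid FinGraph where
  r G H := Nonempty (G.2 ≃g H.2)
  iseqv := ⟨fun _ => ⟨Iso.refl⟩, fun ⟨e⟩ => ⟨e.symm⟩, fun ⟨e⟩ ⟨f⟩ => ⟨f.comp e⟩⟩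

/-- The isomorphism classes of finite graphs. -/
abbrev IsoClass : Type := Quotient isoSetoid

/-- The finite graph `H` is `F`-free: no induced subgraph of `H` is isomorphic to a member of
`F`. -/
def Free (F : Set IsoClass) (H : FinGraph) : Prop :=
  ∀ K : FinGraph, (⟦K⟧ : IsoClass) ∈ F → IsEmpty (K.2 ↪g H.2)

/-- `F` is degree-sequence-forcing. -/
def IsDSF (F : Set IsoClass) : Prop :=
  F.Nonempty ∧ ∀ d : Multiset ℕ, (∃ H : FinGraph, degSeq H.2 = d ∧ Free F H) →
    ∀ H : FinGraph, degSeq H.2 = d → Free F H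

/-- `F` is a minimal degree-sequence-forcing set: it is degree-sequence-forcing, and no nonempty
proper subset of it is. -/
def IsMinimalDSF (F : Set IsoClass) : Prop :=
  IsDSF F ∧ ∀ F' : Set IsoClass, F' ⊂ F → F'.Nonempty → ¬ IsDSF F'

/-- Replacing an induced subgraph by another realization of its degree sequence. -/
theorem InP.of_induced {U V W : Type*} [Finite V] [Finite W] {G : SimpleGraph U}
    {F : SimpleGraph V} {H : SimpleGraph W} (h : InP G F) (ψ : F ↪g H) : InP G H := by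
  classical
  obtain ⟨X, hX, ⟨φ⟩⟩ := inP_iff.mp h
  let H' : SimpleGraph W :=
    { Adj := fun a b => (∃ u v, a = ψ u ∧ b = ψ v ∧ X.Adj u v) ∨
        (¬ (a ∈ Set.range ψ ∧ b ∈ Set.range ψ) ∧ H.Adj a b)
      symm := by
        constructor
        rintro a b (⟨u, v, h1, h2, h3⟩ | ⟨h1, h2⟩)
        · exact Or.inl ⟨v, u, h2, h1, h3.symm⟩
        · exact Or.inr ⟨fun h => h1 ⟨h.2, h.1⟩, h2.symm⟩
      loopless := by
        constructor
        rintro a (⟨u, v, h1, h2, h3⟩ | ⟨h1, h2⟩)
        · have : u = v := ψ.injective (h1.symm.trans h2)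
          exact h3.ne this
        · exact h2.ne rfl }
  have hN : ∀ (Y : SimpleGraph V) (K : SimpleGraph W) (u : V),
      (∀ v, K.Adj (ψ u) (ψ v) ↔ Y.Adj u v) →
      (∀ w, w ∉ Set.range ψ → (K.Adj (ψ u) w ↔ H.Adj (ψ u) w)) →
      (K.neighborSet (ψ u)).ncard = (Y.neighborSet u).ncard +
        (H.neighborSet (ψ u) \ Set.range ψ).ncard := by
    intro Y K u h1 h2
    have e1 : K.neighborSet (ψ u) = ψ '' Y.neighborSet u ∪ (H.neighborSet (ψ u) \ Set.range ψ) := by
      ext w
      simp only [mem_neighborSet, Set.mem_union, Set.mem_image, Set.mem_sdiff]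
      constructor
      · intro h3
        by_cases hw : w ∈ Set.range ψ
        · obtain ⟨v, rfl⟩ := hw
          exact Or.inl ⟨v, (h1 v).mp h3, rfl⟩
        · exact Or.inr ⟨(h2 w hw).mp h3, hw⟩
      · rintro (⟨v, h3, rfl⟩ | ⟨h3, h4⟩)
        · exact (h1 v).mpr h3
        · exact (h2 w h4).mpr h3
    rw [e1, Set.ncard_union_eq, Set.ncard_image_of_injective _ ψ.injective]
    · rw [Set.disjoint_left]
      rintro _ ⟨v, -, rfl⟩ h3
      exact h3.2 ⟨v, rfl⟩
  refine inP_iff.mpr ⟨H', fun w => ?_, ⟨φ.trans ⟨ψ.toEmbedding, ?_⟩⟩⟩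
  · by_cases hw : w ∈ Set.range ψ
    · obtain ⟨u, rfl⟩ := hw
      rw [hN X H' u, hN F H u, hX u]
      · exact fun v => ψ.map_adj_iff
      · exact fun w _ => Iff.rfl
      · intro v
        constructor
        · rintro (⟨u', v', h1, h2, h3⟩ | ⟨h1, h2⟩)
          · rw [ψ.injective h1, ψ.injective h2]
            exact h3
          · exact absurd ⟨⟨u, rfl⟩, ⟨v, rfl⟩⟩ h1
        · intro h1
          exact Or.inl ⟨u, v, rfl, rfl, h1⟩
      · intro w hw
        constructor
        · rintro (⟨u', v', h1, h2, h3⟩ | ⟨h1, h2⟩)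
          · exact absurd ⟨v', h2.symm⟩ hw
          · exact h2
        · intro h1
          exact Or.inr ⟨fun h => hw h.2, h1⟩
    · congr 1
      ext v
      simp only [mem_neighborSet]
      constructor
      · rintro (⟨u', v', h1, h2, h3⟩ | ⟨h1, h2⟩)
        · exact absurd ⟨u', h1.symm⟩ hw
        · exact h2
      · intro h1
        exact Or.inr ⟨fun h => hw h.1, h1⟩
  · intro u v
    constructor
    · rintro (⟨u', v', h1, h2, h3⟩ | ⟨h1, h2⟩)
      · have e1 : u = u' := ψ.injective h1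
        have e2 : v = v' := ψ.injective h2
        rw [e1, e2]
        exact h3
      · exact absurd ⟨⟨u, rfl⟩, ⟨v, rfl⟩⟩ h1
    · intro h1
      exact Or.inl ⟨u, v, rfl, rfl, h1⟩

/-- Every graph is isomorphic to one on `Fin n`. -/
theorem exists_finGraph {V : Type*} [Finite V] (G : SimpleGraph V) :
    ∃ H : FinGraph, H.1 = Nat.card V ∧ Nonempty (G ≃g H.2) := by
  let e := Finite.equivFin V
  refine ⟨⟨Nat.card V, G.comap e.symm⟩, rfl, ⟨?_⟩⟩
  exact (Iso.comap e.symm G).symm

theorem induce_induce_iso {V : Type*} (G : SimpleGraph V) (S : Set V) (T : Set S) :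
    Nonempty ((G.induce S).induce T ≃g G.induce ((↑) '' T : Set V)) := by
  refine ⟨{ toFun := fun x => ⟨x.1.1, x.1, x.2, rfl⟩
            invFun := fun y => ⟨⟨y.1, by
              obtain ⟨x, -, h⟩ := y.2
              exact h ▸ x.2⟩, by
              obtain ⟨x, hx, h⟩ := y.2
              have : (⟨y.1, by exact h ▸ x.2⟩ : S) = x := Subtype.ext h.symm
              rw [this]
              exact hx⟩
            left_inv := fun x => rfl
            right_inv := fun y => rfl
            map_rel_iff' := Iff.rfl }⟩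

/-- Every graph in `P(G)` has an induced subgraph in `D(G)`. -/
theorem exists_inD {U V : Type*} [Finite V] {G : SimpleGraph U} {H : SimpleGraph V}
    (h : InP G H) : ∃ S : Set V, InD G (H.induce S) := by
  obtain ⟨S, hS, hmin⟩ := Set.Finite.exists_minimal (s := {S : Set V | InP G (H.induce S)})
    (Set.toFinite _) ⟨Set.univ, h.iso ⟨(Equiv.Set.univ V).symm, Iff.rfl⟩⟩
  refine ⟨S, hS, fun T hT hP => ?_⟩
  obtain ⟨e⟩ := induce_induce_iso H S T
  have h1 := hmin (hP.iso e) (by
    rintro _ ⟨x, -, rfl⟩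
    exact x.2)
  apply hT
  rw [Set.eq_univ_iff_forall]
  intro x
  obtain ⟨y, hy, h2⟩ := h1 x.2
  rw [← Subtype.ext h2]
  exact hy

section

variable {U : Type} [Finite U] (G : SimpleGraph U)

/-- The set `D(G)`. -/
def DD : Set IsoClass := {c | ∃ H : FinGraph, c = ⟦H⟧ ∧ InD G H.2}

theorem mem_DD {H : FinGraph} : (⟦H⟧ : IsoClass) ∈ DD G ↔ InD G H.2 := by
  constructor
  · rintro ⟨K, h1, h2⟩
    obtain ⟨e⟩ := Quotient.exact h1
    exact h2.iso e.symm
  · intro h
    exact ⟨H, rfl, h⟩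

theorem free_DD_iff {H : FinGraph} : Free (DD G) H ↔ ¬ InP G H.2 := by
  constructor
  · intro h hP
    obtain ⟨S, hS⟩ := exists_inD hP
    obtain ⟨K, -, ⟨e⟩⟩ := exists_finGraph (H.2.induce S)
    have h1 := h K ((mem_DD G).mpr (hS.iso e))
    exact h1.elim (e.symm.toEmbedding.trans (Embedding.induce S))
  · intro h K hK
    exact ⟨fun ψ => h (((mem_DD G).mp hK).1.of_induced ψ)⟩

theorem inP_congr {V W : Type*} [Finite V] [Finite W] {H : SimpleGraph V} {H' : SimpleGraph W}
    (h : degSeq H = degSeq H') (hP : InP G H) : InP G H' := by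
  obtain ⟨X, hX, ⟨φ⟩⟩ := hP
  exact InP.of_degSeq φ (hX.trans h)

theorem inP_self : InP G G := ⟨G, rfl, ⟨Embedding.refl⟩⟩

theorem card_le_of_inP {V : Type*} [Finite V] {H : SimpleGraph V} (h : InP G H) :
    Nat.card U ≤ Nat.card V := by
  obtain ⟨X, -, ⟨φ⟩⟩ := h
  exact Nat.card_le_card_of_injective φ φ.injective

/-- An induced subgraph in `P(G)` of a member of `D(G)` is everything. -/
theorem InD.iso_of_embedding {V W : Type*} [Finite V] [Finite W] {G : SimpleGraph U}
    {H : SimpleGraph V} {K : SimpleGraph W} (h : InD G H) (ψ : K ↪g H) (hK : InP G K) :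
    Nonempty (K ≃g H) := by
  have hr : Set.range ψ = Set.univ := by
    by_contra hr
    refine h.2 _ hr (hK.iso ?_)
    exact ⟨Equiv.ofInjective ψ ψ.injective, by
      intro a b
      simp [Equiv.ofInjective_apply]⟩
  exact ⟨⟨Equiv.ofBijective ψ ⟨ψ.injective, Set.range_eq_univ.mp hr⟩, ψ.map_adj_iff⟩⟩

/-- `D(G)` is a minimal degree-sequence-forcing set. -/
theorem isMinimalDSF_DD : IsMinimalDSF (DD G) := by
  refine ⟨⟨?_, ?_⟩, ?_⟩
  · obtain ⟨S, hS⟩ := exists_inD (inP_self G)
    obtain ⟨K, -, ⟨e⟩⟩ := exists_finGraph (G.induce S)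
    exact ⟨⟦K⟧, (mem_DD G).mpr (hS.iso e)⟩
  · rintro d ⟨H, hd, hH⟩ H' hd'
    rw [free_DD_iff] at hH ⊢
    exact fun h => hH (inP_congr G (hd'.trans hd.symm) h)
  · rintro F hF hne ⟨-, hdsf⟩
    obtain ⟨GF, -, ⟨eG⟩⟩ := exists_finGraph G
    -- a member of `F` with the fewest vertices
    have hne' : ∃ n, ∃ K : FinGraph, (⟦K⟧ : IsoClass) ∈ F ∧ K.1 = n := by
      obtain ⟨c, hc⟩ := hne
      induction c using Quotient.inductionOn with
      | h K => exact ⟨K.1, K, hc, rfl⟩
    classical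
    obtain ⟨K, hK, hKn⟩ := Nat.find_spec hne'
    have hmin : ∀ K' : FinGraph, (⟦K'⟧ : IsoClass) ∈ F → K.1 ≤ K'.1 := by
      intro K' hK'
      rw [hKn]
      exact Nat.find_min' hne' ⟨K', hK', rfl⟩
    -- `H` free implies `H'` free
    have hfree : ∀ H H' : FinGraph, degSeq H.2 = degSeq H'.2 → ¬ Free F H → ¬ Free F H' :=
      fun H H' h h1 h2 => h1 (hdsf (degSeq H'.2) ⟨H', rfl, h2⟩ H h)
    have hsub : ∀ K : FinGraph, (⟦K⟧ : IsoClass) ∈ F → InD G K.2 :=
      fun K hK => (mem_DD G).mp (hF.1 hK)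
    -- `G` is in `F`
    have hGF : (⟦GF⟧ : IsoClass) ∈ F := by
      obtain ⟨X, hX, ⟨φ⟩⟩ := (hsub K hK).1
      have h1 : ¬ Free F ⟨K.1, X⟩ := by
        refine hfree K _ hX.symm fun h => ?_
        exact (h K hK).elim Embedding.refl
      unfold Free at h1
      push Not at h1
      obtain ⟨K', hK', h2⟩ := h1
      obtain ⟨ψ⟩ := h2
      have h3 : Function.Surjective ψ := by
        have hc : Fintype.card (Fin K.1) ≤ Fintype.card (Fin K'.1) := by
          simpa using hmin K' hK'
        exact ((Fintype.bijective_iff_injective_and_card ψ).mpr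
          ⟨ψ.injective, le_antisymm (Fintype.card_le_of_injective ψ ψ.injective) hc⟩).2
      let e : K'.2 ≃g X := ⟨Equiv.ofBijective ψ ⟨ψ.injective, h3⟩, ψ.map_adj_iff⟩
      have h4 : InD G X := (hsub K' hK').iso e
      obtain ⟨f⟩ := h4.iso_of_embedding φ (inP_self G)
      have h5 : (⟦GF⟧ : IsoClass) = ⟦K'⟧ :=
        Quotient.sound ⟨(e.symm.comp f).comp eG.symm⟩
      rw [h5]
      exact hK'
    -- every member of `D(G)` is in `F`
    apply hF.2
    intro c hc
    induction c using Quotient.inductionOn with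
    | h H =>
      have hH := (mem_DD G).mp hc
      obtain ⟨X, hX, ⟨φ⟩⟩ := hH.1
      have h1 : ¬ Free F H := by
        refine hfree ⟨H.1, X⟩ H hX fun h => ?_
        exact (h GF hGF).elim (eG.symm.toEmbedding.trans φ)
      unfold Free at h1
      push Not at h1
      obtain ⟨K', hK', h2⟩ := h1
      obtain ⟨ψ⟩ := h2
      obtain ⟨f⟩ := hH.iso_of_embedding ψ (hsub K' hK').1
      have h5 : (⟦H⟧ : IsoClass) = ⟦K'⟧ := Quotient.sound ⟨f.symm⟩
      rw [h5]
      exact hK'

end

/-- `D(G)` is infinite for our graph `G`. -/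
theorem infinite_DD : (DD GG).Infinite := by
  choose K hK e using fun m => exists_finGraph (HH m)
  refine Set.infinite_of_injective_forall_mem (f := fun m => (⟦K m⟧ : IsoClass)) ?_ ?_
  · intro i j hij
    obtain ⟨f⟩ := Quotient.exact hij
    have h1 := Fintype.card_congr f.toEquiv
    simp only [Fintype.card_fin, hK, Nat.card_eq_fintype_card, Fintype.card_sum] at h1
    omega
  · intro m
    exact (mem_DD GG).mpr ((inD_HH m).iso (e m).some)

end Pool.Agent.Q102.DSF
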