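import Mathlib

/-!
Expansion of a determinant with coded entries into a list of signed monomials.
-/

namespace Pool.Agent.Q102.DetTerms

variable {R : Type*} [CommRing R]

/-- the value of a code: integers below `2` stand for themselves, `k + 2` for the variable `x k` -/
def val (x : ℕ → R) (z : ℤ) : R := if z < 2 then (z : R) else x (z.toNat - 2)

/-- evaluation of a list of signed monomials -/
def ev (x : ℕ → R) (l : List (ℤ × List ℕ)) : R :=
  (l.map fun t => (t.1 : R) * (t.2.map x).prod).sum

/-- multiplication of a signed monomial by a sign and a code -/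
def mulCode (s z : ℤ) (t : ℤ × List ℕ) : ℤ × List ℕ :=
  if z < 2 then (s * z * t.1, t.2) else (s * t.1, (z.toNat - 2) :: t.2)

/-- the nonzero terms of the Laplace expansion of the determinant with rows `i, i + 1, …` and the
columns in the list -/
def terms (A : ℕ → ℕ → ℤ) : ℕ → ℕ → List ℕ → List (ℤ × List ℕ)
  | 0, _, _ => [(1, [])]
  | n + 1, i, cols =>
    (List.range (n + 1)).flatMap fun p =>
      if A i (cols.getD p 0) = 0 then []
      else (terms A n (i + 1) (cols.eraseIdx p)).map
        (mulCode (if p % 2 = 0 then 1 else -1) (A i (cols.getD p 0)))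

theorem ev_nil (x : ℕ → R) : ev x [] = 0 := rfl

theorem ev_append (x : ℕ → R) (l m : List (ℤ × List ℕ)) : ev x (l ++ m) = ev x l + ev x m := by
  simp [ev]

theorem ev_flatMap (x : ℕ → R) (f : ℕ → List (ℤ × List ℕ)) (l : List ℕ) :
    ev x (l.flatMap f) = (l.map fun p => ev x (f p)).sum := by
  induction l with
  | nil => simp [ev]
  | cons a l ih => rw [List.flatMap_cons, ev_append, ih, List.map_cons, List.sum_cons]

theorem ev_mulCode (x : ℕ → R) (s z : ℤ) (l : List (ℤ × List ℕ)) :
    ev x (l.map (mulCode s z)) = (s : R) * val x z * ev x l := by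
  induction l with
  | nil => simp [ev]
  | cons a l ih =>
    have h : ev x (a :: l) = (a.1 : R) * (a.2.map x).prod + ev x l := by simp [ev]
    have h2 : ev x ((a :: l).map (mulCode s z)) =
        ((mulCode s z a).1 : R) * ((mulCode s z a).2.map x).prod + ev x (l.map (mulCode s z)) := by
      simp [ev]
    rw [h2, ih, h]
    unfold mulCode val
    split_ifs with hz
    · push_cast; ring
    · rw [List.map_cons, List.prod_cons]; push_cast; ring

theorem getD_eraseIdx (l : List ℕ) (p c : ℕ) :
    (l.eraseIdx p).getD c 0 = l.getD (if c < p then c else c + 1) 0 := by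
  rw [List.getD_eq_getElem?_getD, List.getD_eq_getElem?_getD, List.getElem?_eraseIdx]
  split_ifs <;> rfl

theorem sum_range_eq (f : ℕ → R) : ∀ m : ℕ, ((List.range m).map f).sum = ∑ p : Fin m, f p
  | 0 => by simp
  | m + 1 => by
    rw [List.range_succ, List.map_append, List.sum_append, sum_range_eq f m,
      Fin.sum_univ_castSucc]
    simp

theorem det_eq (x : ℕ → R) (A : ℕ → ℕ → ℤ) : ∀ (n i : ℕ) (cols : List ℕ),
    Matrix.det (Matrix.of fun r c : Fin n => val x (A (i + r) (cols.getD c 0))) =
      ev x (terms A n i cols)
  | 0, i, cols => by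
    rw [Matrix.det_isEmpty]
    simp [ev, terms]
  | n + 1, i, cols => by
    rw [Matrix.det_succ_row_zero, terms, ev_flatMap]
    have hsum : ((List.range (n + 1)).map fun p => ev x (if A i (cols.getD p 0) = 0 then []
        else (terms A n (i + 1) (cols.eraseIdx p)).map
          (mulCode (if p % 2 = 0 then 1 else -1) (A i (cols.getD p 0))))).sum =
        ∑ p : Fin (n + 1), ev x (if A i (cols.getD p 0) = 0 then []
        else (terms A n (i + 1) (cols.eraseIdx p)).map
          (mulCode (if (p : ℕ) % 2 = 0 then 1 else -1) (A i (cols.getD p 0)))) := by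
      exact sum_range_eq _ _
    rw [hsum]
    apply Finset.sum_congr rfl
    intro p _
    have hsub : (Matrix.of fun r c : Fin (n + 1) => val x (A (i + r) (cols.getD c 0))).submatrix
        Fin.succ p.succAbove =
        Matrix.of fun r c : Fin n => val x (A (i + 1 + r) ((cols.eraseIdx p).getD c 0)) := by
      ext r c
      simp only [Matrix.submatrix_apply, Matrix.of_apply, Fin.val_succ]
      rw [getD_eraseIdx]
      have h1 : i + (↑r + 1) = i + 1 + ↑r := by omega
      rw [h1]
      congr 3
      unfold Fin.succAbove
      simp only [Fin.lt_def, Fin.val_castSucc]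
      split_ifs <;> rfl
    rw [hsub, det_eq x A n (i + 1) (cols.eraseIdx p)]
    simp only [Matrix.of_apply, Fin.val_zero, add_zero]
    split_ifs with h0 h1
    · rw [h0]; simp [val, ev]
    · rw [ev_mulCode]
      have : (-1 : R) ^ (p : ℕ) = 1 := Even.neg_one_pow (Nat.even_iff.2 h1)
      rw [this]; push_cast; ring
    · rw [ev_mulCode]
      have : (-1 : R) ^ (p : ℕ) = -1 := Odd.neg_one_pow (Nat.odd_iff.2 (by omega))
      rw [this]; push_cast; ring

end Pool.Agent.Q102.DetTerms
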