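import Mathlib.Combinatorics.SimpleGraph.Metric

/-!
# Certifying the graph distance with a table

A function `D` that vanishes on the diagonal, drops by one along some edge off the diagonal and
changes by at most one along every edge is the graph distance.
-/

set_option autoImplicit false

namespace Pool.Agent.Q102.DistTable

variable {V : Type*} {G : SimpleGraph V} {D : V → V → ℕ}

theorem exists_walk (h0 : ∀ u, D u u = 0)
    (hstep : ∀ u v, u ≠ v → ∃ w, G.Adj u w ∧ D w v + 1 = D u v) (v : V) :
    ∀ n u, D u v = n → ∃ p : G.Walk u v, p.length = n := by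
  intro n
  induction n with
  | zero =>
    intro u hu
    by_cases h : u = v
    · subst h
      exact ⟨SimpleGraph.Walk.nil, rfl⟩
    · obtain ⟨w, -, hw⟩ := hstep u v h
      omega
  | succ n ih =>
    intro u hu
    have h : u ≠ v := by
      rintro rfl
      rw [h0] at hu
      omega
    obtain ⟨w, ha, hw⟩ := hstep u v h
    obtain ⟨p, hp⟩ := ih w (by omega)
    exact ⟨SimpleGraph.Walk.cons ha p, by simp [hp]⟩

theorem le_length (h0 : ∀ u, D u u = 0) (hadj : ∀ u w v, G.Adj u w → D u v ≤ D w v + 1)
    {u v : V} (p : G.Walk u v) : D u v ≤ p.length := by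
  induction p with
  | nil => simp [h0]
  | cons h p ih =>
    rw [SimpleGraph.Walk.length_cons]
    exact (hadj _ _ _ h).trans (by omega)

theorem connected [Nonempty V] (h0 : ∀ u, D u u = 0)
    (hstep : ∀ u v, u ≠ v → ∃ w, G.Adj u w ∧ D w v + 1 = D u v) : G.Connected := by
  rw [SimpleGraph.connected_iff]
  refine ⟨fun u v => ?_, inferInstance⟩
  obtain ⟨p, -⟩ := exists_walk h0 hstep v (D u v) u rfl
  exact ⟨p⟩

theorem dist_eq (h0 : ∀ u, D u u = 0)
    (hstep : ∀ u v, u ≠ v → ∃ w, G.Adj u w ∧ D w v + 1 = D u v)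
    (hadj : ∀ u w v, G.Adj u w → D u v ≤ D w v + 1) (u v : V) : G.dist u v = D u v := by
  obtain ⟨p, hp⟩ := exists_walk h0 hstep v (D u v) u rfl
  apply le_antisymm
  · exact (SimpleGraph.dist_le p).trans hp.le
  · obtain ⟨q, hq⟩ := (SimpleGraph.Walk.reachable p).exists_walk_length_eq_dist
    rw [← hq]
    exact le_length h0 hadj q

end Pool.Agent.Q102.DistTable
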