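import Mathlib

/-!
The Erdős–Gallai theorem (sufficiency), following the proof of Tripathi, Venugopalan and West.
-/

namespace Pool.Agent.Q102.EG

open Finset

section modify

variable {V : Type*} [Fintype V] [DecidableEq V]

/-- remove the edges in `R`, add the edges in `A` -/
def modify (G : SimpleGraph V) (R A : Finset (Sym2 V)) : SimpleGraph V :=
  SimpleGraph.fromEdgeSet ((G.edgeSet \ ↑R) ∪ ↑A)

omit [Fintype V] [DecidableEq V] in
theorem modify_adj (G : SimpleGraph V) (R A : Finset (Sym2 V)) (a b : V) :
    (modify G R A).Adj a b ↔ ((G.Adj a b ∧ s(a, b) ∉ R) ∨ s(a, b) ∈ A) ∧ a ≠ b := by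
  unfold modify
  rw [SimpleGraph.fromEdgeSet_adj]
  simp [SimpleGraph.mem_edgeSet]

open Classical in
theorem degree_modify (G : SimpleGraph V) (R A : Finset (Sym2 V)) (hR : ∀ e ∈ R, e ∈ G.edgeSet)
    (hA : ∀ e ∈ A, e ∉ G.edgeSet) (hd : ∀ e ∈ A, ¬ e.IsDiag) (v : V) :
    (modify G R A).degree v + #{e ∈ R | v ∈ e} = G.degree v + #{e ∈ A | v ∈ e} := by
  have hdeg : ∀ (H : SimpleGraph V), H.degree v = #{e ∈ H.edgeFinset | v ∈ e} := by
    intro H
    rw [← SimpleGraph.card_incidenceFinset_eq_degree, SimpleGraph.incidenceFinset_eq_filter]
  have hE : (modify G R A).edgeFinset = (G.edgeFinset \ R) ∪ A := by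
    ext e
    rw [SimpleGraph.mem_edgeFinset, modify, SimpleGraph.edgeSet_fromEdgeSet]
    simp only [Set.mem_sdiff, Set.mem_union, Finset.mem_coe, Finset.mem_union, Finset.mem_sdiff,
      SimpleGraph.mem_edgeFinset]
    constructor
    · rintro ⟨h, -⟩; exact h
    · intro h
      refine ⟨h, ?_⟩
      rcases h with h | h
      · exact G.not_isDiag_of_mem_edgeSet h.1
      · exact hd e h
  have hfs : {e ∈ G.edgeFinset \ R | v ∈ e} = {e ∈ G.edgeFinset | v ∈ e} \ {e ∈ R | v ∈ e} := by
    ext e
    simp only [Finset.mem_filter, Finset.mem_sdiff]
    tauto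
  rw [hdeg, hdeg, hE, Finset.filter_union, hfs]
  have hsub : {e ∈ R | v ∈ e} ⊆ {e ∈ G.edgeFinset | v ∈ e} := by
    intro e he
    rw [Finset.mem_filter] at he ⊢
    exact ⟨SimpleGraph.mem_edgeFinset.mpr (hR e he.1), he.2⟩
  rw [Finset.card_union_of_disjoint, Finset.card_sdiff_of_subset hsub]
  · have := Finset.card_le_card hsub
    omega
  · rw [Finset.disjoint_left]
    intro e he he'
    rw [Finset.mem_sdiff, Finset.mem_filter, SimpleGraph.mem_edgeFinset] at he
    rw [Finset.mem_filter] at he'
    exact hA e he'.1 he.1.1

end modify

open Classical in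
/-- a neighbour of `i` that is not a neighbour of `r` -/
theorem exists_private {V : Type*} [Fintype V] (G : SimpleGraph V) {i r : V}
    (h : G.degree r < G.degree i) : ∃ u, u ≠ r ∧ u ≠ i ∧ G.Adj i u ∧ ¬ G.Adj r u := by
  by_contra hcon
  push Not at hcon
  have hir : i ≠ r := by rintro rfl; exact lt_irrefl _ h
  have h1 : G.neighborFinset i \ {r} ⊆ G.neighborFinset r \ {i} := by
    intro u hu
    rw [Finset.mem_sdiff, SimpleGraph.mem_neighborFinset, Finset.mem_singleton] at hu ⊢
    have hui : u ≠ i := hu.1.ne'
    exact ⟨hcon u hu.2 hui hu.1, hui⟩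
  have h2 := Finset.card_le_card h1
  rw [Finset.card_sdiff, Finset.card_sdiff, SimpleGraph.card_neighborFinset_eq_degree,
    SimpleGraph.card_neighborFinset_eq_degree] at h2
  by_cases hadj : G.Adj i r
  · have e1 : ({r} : Finset V) ∩ G.neighborFinset i = {r} := by
      rw [Finset.inter_eq_left, Finset.singleton_subset_iff, SimpleGraph.mem_neighborFinset]
      exact hadj
    have e2 : ({i} : Finset V) ∩ G.neighborFinset r = {i} := by
      rw [Finset.inter_eq_left, Finset.singleton_subset_iff, SimpleGraph.mem_neighborFinset]
      exact hadj.symm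
    rw [e1, e2, Finset.card_singleton, Finset.card_singleton] at h2
    have : 0 < G.degree r := by
      rw [← SimpleGraph.card_neighborFinset_eq_degree]
      exact Finset.card_pos.mpr ⟨i, by rw [SimpleGraph.mem_neighborFinset]; exact hadj.symm⟩
    omega
  · have e1 : ({r} : Finset V) ∩ G.neighborFinset i = ∅ := by
      rw [← Finset.disjoint_iff_inter_eq_empty, Finset.disjoint_singleton_left,
        SimpleGraph.mem_neighborFinset]
      exact hadj
    rw [e1, Finset.card_empty] at h2
    omega

section main

open Classical

variable {n : ℕ} (d : Fin n → ℕ)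

/-- the Erdős–Gallai conditions -/
def EGCond : Prop := ∀ r : Fin n, ∑ i ∈ Finset.Iic r, d i ≤
  (r.val + 1) * r.val + ∑ i ∈ Finset.Ioi r, min (d i) (r.val + 1)

/-- the subrealizations considered at stage `r` -/
structure Sub (r : Fin n) (G : SimpleGraph (Fin n)) : Prop where
  eq : ∀ i < r, G.degree i = d i
  le : ∀ i, G.degree i ≤ d i
  indep : ∀ i j, r < i → r < j → ¬ G.Adj i j

variable {d}

theorem Sub.step (hd : Antitone d) (hEG : EGCond d) (hpar : Even (∑ i, d i)) {r : Fin n}
    {G : SimpleGraph (Fin n)} (hG : Sub d r G) (hlt : G.degree r < d r) :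
    ∃ G', Sub d r G' ∧ G.degree r < G'.degree r := by
  by_contra hcon
  push Not at hcon
  -- Case 0
  have c0 : ∀ k, r < k → G.degree k < d k → G.Adj r k := by
    intro k hk hdk
    by_contra hadj
    have hne : r ≠ k := hk.ne
    have hdm := degree_modify G ∅ {s(r, k)} (by simp) (by
      intro e he
      rw [Finset.mem_singleton] at he
      subst he
      rwa [SimpleGraph.mem_edgeSet]) (by
      intro e he
      rw [Finset.mem_singleton] at he
      subst he
      simpa using hne)
    have hval : ∀ v, (modify G ∅ {s(r, k)}).degree v =
        G.degree v + (if v = r ∨ v = k then 1 else 0) := by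
      intro v
      have := hdm v
      rw [Finset.filter_empty, Finset.card_empty, add_zero] at this
      rw [this, Finset.filter_singleton]
      by_cases hv : v = r ∨ v = k
      · rw [if_pos (by simpa using hv), if_pos hv]; simp
      · rw [if_neg (by simpa using hv), if_neg hv]; simp
    refine absurd (hcon (modify G ∅ {s(r, k)}) ⟨?_, ?_, ?_⟩) ?_
    · intro i hi
      rw [hval, if_neg, hG.eq i hi, add_zero]
      rintro (h | h)
      · exact absurd h hi.ne
      · rw [h] at hi; exact absurd hi (by exact not_lt.mpr hk.le)
    · intro i
      rw [hval]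
      by_cases hv : i = r ∨ i = k
      · rw [if_pos hv]
        rcases hv with rfl | rfl
        · exact hlt
        · exact hdk
      · rw [if_neg hv]; exact hG.le i
    · intro i j hi hj
      rw [modify_adj]
      rintro ⟨(h | h), -⟩
      · exact hG.indep i j hi hj h.1
      · rw [Finset.mem_singleton, Sym2.eq_iff] at h
        rcases h with ⟨h, -⟩ | ⟨-, h⟩
        · exact absurd h hi.ne'
        · exact absurd h hj.ne'
    · rw [hval, if_pos (Or.inl rfl)]; omega
  -- Case 1
  have c1 : ∀ i < r, G.Adj r i := by
    intro i hi
    by_contra hadj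
    have hir : i ≠ r := hi.ne
    have hdeg : G.degree r < G.degree i := by
      rw [hG.eq i hi]; exact lt_of_lt_of_le hlt (hd hi.le)
    obtain ⟨u, hur, hui, hiu, hru⟩ := exists_private G hdeg
    by_cases h2 : G.degree r + 2 ≤ d r
    · have hdm := degree_modify G {s(u, i)} {s(u, r), s(i, r)} (by
        intro e he
        rw [Finset.mem_singleton] at he
        subst he
        rw [SimpleGraph.mem_edgeSet]; exact hiu.symm) (by
        intro e he
        rw [Finset.mem_insert, Finset.mem_singleton] at he
        rcases he with rfl | rfl
        · rw [SimpleGraph.mem_edgeSet]; exact fun h => hru h.symm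
        · rw [SimpleGraph.mem_edgeSet]; exact fun h => hadj h.symm) (by
        intro e he
        rw [Finset.mem_insert, Finset.mem_singleton] at he
        rcases he with rfl | rfl
        · simpa using hur
        · simpa using hir)
      have hne : s(u, r) ≠ s(i, r) := by
        intro h
        rcases Sym2.eq_iff.mp h with ⟨h, -⟩ | ⟨h, -⟩
        · exact hui h
        · exact hur h
      have hval : ∀ v, (modify G {s(u, i)} {s(u, r), s(i, r)}).degree v =
          G.degree v + (if v = r then 2 else 0) := by
        intro v
        have := hdm v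
        rw [Finset.filter_singleton, Finset.filter_insert, Finset.filter_singleton] at this
        simp only [Sym2.mem_iff] at this
        by_cases h1 : v = r
        · subst h1
          simp [hur.symm, hir.symm, hne] at this
          rw [if_pos rfl]; omega
        · by_cases h3 : v = u
          · subst h3
            simp [hur, hui] at this
            rw [if_neg h1]; omega
          · by_cases h4 : v = i
            · subst h4
              simp [hir, Ne.symm hui] at this
              rw [if_neg h1]; omega
            · simp [h1, h3, h4] at this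
              rw [if_neg h1]; omega
      refine absurd (hcon (modify G {s(u, i)} {s(u, r), s(i, r)}) ⟨?_, ?_, ?_⟩) ?_
      · intro j hj
        rw [hval, if_neg hj.ne, hG.eq j hj, add_zero]
      · intro j
        rw [hval]
        by_cases hj : j = r
        · subst hj; rw [if_pos rfl]; exact h2
        · rw [if_neg hj]; exact hG.le j
      · intro a b ha hb
        rw [modify_adj]
        rintro ⟨(h | h), -⟩
        · exact hG.indep a b ha hb h.1
        · rw [Finset.mem_insert, Finset.mem_singleton, Sym2.eq_iff, Sym2.eq_iff] at h
          rcases h with (⟨-, h⟩ | ⟨h, -⟩) | (⟨-, h⟩ | ⟨h, -⟩)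
          · exact absurd h hb.ne'
          · exact absurd h ha.ne'
          · exact absurd h hb.ne'
          · exact absurd h ha.ne'
      · rw [hval, if_pos rfl]; omega
    · -- parity
      have h1 : G.degree r + 1 = d r := by omega
      have hex : ∃ k, r < k ∧ G.degree k < d k := by
        by_contra hno
        push Not at hno
        have hall : ∀ j, j ≠ r → G.degree j = d j := by
          intro j hj
          rcases lt_trichotomy j r with h | h | h
          · exact hG.eq j h
          · exact absurd h hj
          · exact le_antisymm (hG.le j) (hno j h)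
        have hsum : ∑ j, d j = ∑ j, G.degree j + 1 := by
          rw [← Finset.add_sum_erase _ d (Finset.mem_univ r),
            ← Finset.add_sum_erase _ (fun j => G.degree j) (Finset.mem_univ r), ← h1]
          have : ∑ j ∈ Finset.univ.erase r, d j = ∑ j ∈ Finset.univ.erase r, G.degree j := by
            apply Finset.sum_congr rfl
            intro j hj
            exact (hall j (Finset.ne_of_mem_erase hj)).symm
          rw [this]; ring
        rw [hsum, G.sum_degrees_eq_twice_card_edges] at hpar
        exact absurd hpar (by
          rw [Nat.not_even_iff_odd]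
          exact ⟨_, rfl⟩)
      obtain ⟨k, hk, hdk⟩ := hex
      have hrk := c0 k hk hdk
      have huk : u ≠ k := by rintro rfl; exact hru hrk
      have hik : i ≠ k := by rintro rfl; exact absurd hi (not_lt.mpr hk.le)
      have hdm := degree_modify G {s(r, k), s(u, i)} {s(u, r), s(i, r)} (by
        intro e he
        rw [Finset.mem_insert, Finset.mem_singleton] at he
        rcases he with rfl | rfl
        · rw [SimpleGraph.mem_edgeSet]; exact hrk
        · rw [SimpleGraph.mem_edgeSet]; exact hiu.symm) (by
        intro e he
        rw [Finset.mem_insert, Finset.mem_singleton] at he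
        rcases he with rfl | rfl
        · rw [SimpleGraph.mem_edgeSet]; exact fun h => hru h.symm
        · rw [SimpleGraph.mem_edgeSet]; exact fun h => hadj h.symm) (by
        intro e he
        rw [Finset.mem_insert, Finset.mem_singleton] at he
        rcases he with rfl | rfl
        · simpa using hur
        · simpa using hir)
      have hne : s(u, r) ≠ s(i, r) := by
        intro h
        rcases Sym2.eq_iff.mp h with ⟨h, -⟩ | ⟨h, -⟩
        · exact hui h
        · exact hur h
      have hne2 : s(r, k) ≠ s(u, i) := by
        intro h
        rcases Sym2.eq_iff.mp h with ⟨h, -⟩ | ⟨h, -⟩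
        · exact hur h.symm
        · exact hir h.symm
      have hval : ∀ v, (modify G {s(r, k), s(u, i)} {s(u, r), s(i, r)}).degree v +
          (if v = k then 1 else 0) = G.degree v + (if v = r then 1 else 0) := by
        intro v
        have := hdm v
        rw [Finset.filter_insert, Finset.filter_singleton, Finset.filter_insert,
          Finset.filter_singleton] at this
        simp only [Sym2.mem_iff] at this
        by_cases h1 : v = r
        · subst h1
          simp [hur.symm, hir.symm, hne] at this
          rw [if_pos rfl, if_neg hk.ne]; omega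
        · by_cases h3 : v = u
          · subst h3
            simp [hur, hui, huk] at this
            rw [if_neg h1, if_neg huk]; omega
          · by_cases h4 : v = i
            · subst h4
              simp [hir, Ne.symm hui, hik] at this
              rw [if_neg h1, if_neg hik]; omega
            · by_cases h5 : v = k
              · subst h5
                simp [h1, h3, h4] at this
                rw [if_neg h1, if_pos rfl]; omega
              · simp [h1, h3, h4, h5] at this
                rw [if_neg h1, if_neg h5]; omega
      refine absurd (hcon (modify G {s(r, k), s(u, i)} {s(u, r), s(i, r)}) ⟨?_, ?_, ?_⟩) ?_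
      · intro j hj
        have := hval j
        have hjk : j ≠ k := fun h => absurd (h ▸ hj) (not_lt.mpr hk.le)
        rw [if_neg hj.ne, if_neg hjk] at this
        rw [← hG.eq j hj]; omega
      · intro j
        have := hval j
        by_cases hj : j = r
        · subst hj
          rw [if_pos rfl, if_neg hk.ne] at this
          omega
        · rw [if_neg hj] at this
          have := hG.le j
          split_ifs at * <;> omega
      · intro a b ha hb
        rw [modify_adj]
        rintro ⟨(h | h), -⟩
        · exact hG.indep a b ha hb h.1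
        · rw [Finset.mem_insert, Finset.mem_singleton, Sym2.eq_iff, Sym2.eq_iff] at h
          rcases h with (⟨-, h⟩ | ⟨h, -⟩) | (⟨-, h⟩ | ⟨h, -⟩)
          · exact absurd h hb.ne'
          · exact absurd h ha.ne'
          · exact absurd h hb.ne'
          · exact absurd h ha.ne'
      · have := hval r
        rw [if_pos rfl, if_neg hk.ne] at this
        omega
  -- neighbours of later vertices
  have hNk : ∀ k, r < k → G.neighborFinset k ⊆ Finset.Iic r := by
    intro k hk u hu
    rw [SimpleGraph.mem_neighborFinset] at hu
    rw [Finset.mem_Iic]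
    by_contra hlt'
    exact hG.indep k u hk (not_le.mp hlt') hu
  -- Case 2
  have c2 : ∀ k, r < k → min (d k) (r.val + 1) ≤ G.degree k := by
    intro k hk
    by_contra hmin
    push Not at hmin
    have hdk : G.degree k < d k := lt_of_lt_of_le hmin (min_le_left _ _)
    have hdr : G.degree k < r.val + 1 := lt_of_lt_of_le hmin (min_le_right _ _)
    have hrk := c0 k hk hdk
    obtain ⟨i, hi, hki⟩ : ∃ i, i < r ∧ ¬ G.Adj k i := by
      by_contra hno
      push Not at hno
      have : Finset.Iic r ⊆ G.neighborFinset k := by
        intro i hi
        rw [Finset.mem_Iic] at hi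
        rw [SimpleGraph.mem_neighborFinset]
        rcases hi.lt_or_eq with h | h
        · exact hno i h
        · rw [h]; exact hrk.symm
      have := Finset.card_le_card this
      rw [Fin.card_Iic, SimpleGraph.card_neighborFinset_eq_degree] at this
      omega
    have hdeg : G.degree r < G.degree i := by
      rw [hG.eq i hi]; exact lt_of_lt_of_le hlt (hd hi.le)
    obtain ⟨u, hur, hui, hiu, hru⟩ := exists_private G hdeg
    have hir : i ≠ r := hi.ne
    have hru' : r < u := by
      rcases lt_trichotomy u r with h | h | h
      · exact absurd (c1 u h) hru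
      · exact absurd h hur
      · exact h
    have huk : u ≠ k := by rintro rfl; exact hki hiu.symm
    have hik : i ≠ k := by rintro rfl; exact absurd hi (not_lt.mpr hk.le)
    have hrk' : r ≠ k := hk.ne
    have hdm := degree_modify G {s(u, i)} {s(u, r), s(i, k)} (by
      intro e he
      rw [Finset.mem_singleton] at he
      subst he
      rw [SimpleGraph.mem_edgeSet]; exact hiu.symm) (by
      intro e he
      rw [Finset.mem_insert, Finset.mem_singleton] at he
      rcases he with rfl | rfl
      · rw [SimpleGraph.mem_edgeSet]; exact fun h => hru h.symm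
      · rw [SimpleGraph.mem_edgeSet]; exact fun h => hki h.symm) (by
      intro e he
      rw [Finset.mem_insert, Finset.mem_singleton] at he
      rcases he with rfl | rfl
      · simpa using hur
      · simpa using hik)
    have hval : ∀ v, (modify G {s(u, i)} {s(u, r), s(i, k)}).degree v =
        G.degree v + (if v = r ∨ v = k then 1 else 0) := by
      intro v
      have := hdm v
      rw [Finset.filter_singleton, Finset.filter_insert, Finset.filter_singleton] at this
      simp only [Sym2.mem_iff] at this
      by_cases h1 : v = r
      · subst h1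
        simp [hur.symm, hir.symm, hrk'] at this
        rw [if_pos (Or.inl rfl)]; omega
      · by_cases h3 : v = u
        · subst h3
          simp [hur, hui, huk] at this
          rw [if_neg (by tauto)]; omega
        · by_cases h4 : v = i
          · subst h4
            simp [hir, Ne.symm hui, hik] at this
            rw [if_neg (by tauto)]; omega
          · by_cases h5 : v = k
            · subst h5
              simp [h1, h3, h4] at this
              rw [if_pos (Or.inr rfl)]; omega
            · simp [h1, h3, h4, h5] at this
              rw [if_neg (by tauto)]; omega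
    refine absurd (hcon (modify G {s(u, i)} {s(u, r), s(i, k)}) ⟨?_, ?_, ?_⟩) ?_
    · intro j hj
      have hjk : j ≠ k := fun h => absurd (h ▸ hj) (not_lt.mpr hk.le)
      rw [hval, if_neg, hG.eq j hj, add_zero]
      rintro (h | h)
      · exact hj.ne h
      · exact hjk h
    · intro j
      rw [hval]
      by_cases hj : j = r ∨ j = k
      · rw [if_pos hj]
        rcases hj with rfl | rfl
        · exact hlt
        · exact hdk
      · rw [if_neg hj]; exact hG.le j
    · intro a b ha hb
      rw [modify_adj]
      rintro ⟨(h | h), -⟩
      · exact hG.indep a b ha hb h.1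
      · rw [Finset.mem_insert, Finset.mem_singleton, Sym2.eq_iff, Sym2.eq_iff] at h
        rcases h with (⟨-, h⟩ | ⟨h, -⟩) | (⟨h, -⟩ | ⟨-, h⟩)
        · exact absurd h hb.ne'
        · exact absurd h ha.ne'
        · rw [h] at ha; exact absurd ha (not_lt.mpr hi.le)
        · rw [h] at hb; exact absurd hb (not_lt.mpr hi.le)
    · rw [hval, if_pos (Or.inl rfl)]; omega
  -- Case 3
  have c3 : ∀ i j, i < j → j < r → G.Adj i j := by
    intro i j hij hj
    by_contra hadj
    have hi : i < r := hij.trans hj
    have hdi : G.degree r < G.degree i := by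
      rw [hG.eq i hi]; exact lt_of_lt_of_le hlt (hd hi.le)
    have hdj : G.degree r < G.degree j := by
      rw [hG.eq j hj]; exact lt_of_lt_of_le hlt (hd hj.le)
    obtain ⟨u, hur, hui, hiu, hru⟩ := exists_private G hdi
    obtain ⟨w, hwr, hwj, hjw, hrw⟩ := exists_private G hdj
    have hbig : ∀ u, u ≠ r → ¬ G.Adj r u → r < u := by
      intro u hur hru
      rcases lt_trichotomy u r with h | h | h
      · exact absurd (c1 u h) hru
      · exact absurd h hur
      · exact h
    have hu := hbig u hur hru
    have hw := hbig w hwr hrw
    have hir : i ≠ r := hi.ne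
    have hjr : j ≠ r := hj.ne
    have hij' : i ≠ j := hij.ne
    have huj : u ≠ j := fun h => absurd (h ▸ hu) (not_lt.mpr hj.le)
    have hwi : w ≠ i := fun h => absurd (h ▸ hw) (not_lt.mpr hi.le)
    have hdm := degree_modify G {s(u, i), s(w, j)} {s(i, j), s(u, r)} (by
      intro e he
      rw [Finset.mem_insert, Finset.mem_singleton] at he
      rcases he with rfl | rfl
      · rw [SimpleGraph.mem_edgeSet]; exact hiu.symm
      · rw [SimpleGraph.mem_edgeSet]; exact hjw.symm) (by
      intro e he
      rw [Finset.mem_insert, Finset.mem_singleton] at he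
      rcases he with rfl | rfl
      · rw [SimpleGraph.mem_edgeSet]; exact hadj
      · rw [SimpleGraph.mem_edgeSet]; exact fun h => hru h.symm) (by
      intro e he
      rw [Finset.mem_insert, Finset.mem_singleton] at he
      rcases he with rfl | rfl
      · simpa using hij'
      · simpa using hur)
    have hne1 : s(u, i) ≠ s(w, j) := by
      intro h
      rcases Sym2.eq_iff.mp h with ⟨-, h⟩ | ⟨h, -⟩
      · exact hij' h
      · exact huj h
    have hne2 : s(i, j) ≠ s(u, r) := by
      intro h
      rcases Sym2.eq_iff.mp h with ⟨h, -⟩ | ⟨h, -⟩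
      · exact hui h.symm
      · exact hir h
    have hval : ∀ v, (modify G {s(u, i), s(w, j)} {s(i, j), s(u, r)}).degree v +
        (if v = w then 1 else 0) = G.degree v + (if v = r then 1 else 0) := by
      intro v
      have := hdm v
      rw [Finset.filter_insert, Finset.filter_singleton, Finset.filter_insert,
        Finset.filter_singleton] at this
      simp only [Sym2.mem_iff] at this
      by_cases h1 : v = r
      · subst h1
        simp [hur.symm, hir.symm, hwr.symm, hjr.symm] at this
        rw [if_pos rfl, if_neg hwr.symm]; omega
      · by_cases h4 : v = i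
        · subst h4
          simp [hir, Ne.symm hui, hij', Ne.symm hwi] at this
          rw [if_neg h1, if_neg (Ne.symm hwi)]; omega
        · by_cases h5 : v = j
          · subst h5
            simp [hjr, Ne.symm huj, h4, Ne.symm hwj] at this
            rw [if_neg h1, if_neg (Ne.symm hwj)]; omega
          · by_cases h3 : v = u
            · subst h3
              by_cases h6 : v = w
              · subst h6
                simp [h1, h4, h5, hne1] at this
                rw [if_neg h1, if_pos rfl]; omega
              · simp [h1, h4, h5, h6] at this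
                rw [if_neg h1, if_neg h6]; omega
            · by_cases h6 : v = w
              · subst h6
                simp [h1, h3, h4, h5] at this
                rw [if_neg h1, if_pos rfl]; omega
              · simp [h1, h3, h4, h5, h6] at this
                rw [if_neg h1, if_neg h6]; omega
    refine absurd (hcon (modify G {s(u, i), s(w, j)} {s(i, j), s(u, r)}) ⟨?_, ?_, ?_⟩) ?_
    · intro a ha
      have := hval a
      have haw : a ≠ w := fun h => absurd (h ▸ ha) (not_lt.mpr hw.le)
      rw [if_neg ha.ne, if_neg haw] at this
      rw [← hG.eq a ha]; omega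
    · intro a
      have := hval a
      by_cases ha : a = r
      · subst ha
        rw [if_pos rfl, if_neg hwr.symm] at this
        omega
      · rw [if_neg ha] at this
        have := hG.le a
        split_ifs at * <;> omega
    · intro a b ha hb
      rw [modify_adj]
      rintro ⟨(h | h), -⟩
      · exact hG.indep a b ha hb h.1
      · rw [Finset.mem_insert, Finset.mem_singleton, Sym2.eq_iff, Sym2.eq_iff] at h
        rcases h with (⟨h, -⟩ | ⟨h, -⟩) | (⟨-, h⟩ | ⟨h, -⟩)
        · rw [h] at ha; exact absurd ha (not_lt.mpr hi.le)
        · rw [h] at ha; exact absurd ha (not_lt.mpr hj.le)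
        · exact absurd h hb.ne'
        · exact absurd h ha.ne'
    · have := hval r
      rw [if_pos rfl, if_neg hwr.symm] at this
      omega
  -- final count
  have hcl : ∀ i j, i ≤ r → j ≤ r → i ≠ j → G.Adj i j := by
    intro i j hi hj hij
    rcases hi.lt_or_eq with hi' | hi' <;> rcases hj.lt_or_eq with hj' | hj'
    · rcases lt_or_gt_of_ne hij with h | h
      · exact c3 i j h hj'
      · exact (c3 j i h hi').symm
    · rw [hj']; exact (c1 i hi').symm
    · rw [hi']; exact c1 j hj'
    · exact absurd (hi'.trans hj'.symm) hij
  have hsplit : ∀ i ≤ r, G.degree i = r.val + #{k ∈ Finset.Ioi r | G.Adj i k} := by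
    intro i hi
    have e : G.neighborFinset i = (Finset.Iic r).erase i ∪ {k ∈ Finset.Ioi r | G.Adj i k} := by
      ext k
      rw [SimpleGraph.mem_neighborFinset, Finset.mem_union, Finset.mem_erase, Finset.mem_Iic,
        Finset.mem_filter, Finset.mem_Ioi]
      constructor
      · intro h
        rcases le_or_gt k r with hk | hk
        · exact Or.inl ⟨h.ne', hk⟩
        · exact Or.inr ⟨hk, h⟩
      · rintro (⟨h1, h2⟩ | ⟨-, h⟩)
        · exact hcl i k hi h2 h1.symm
        · exact h
    rw [← SimpleGraph.card_neighborFinset_eq_degree, e, Finset.card_union_of_disjoint,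
      Finset.card_erase_of_mem (Finset.mem_Iic.mpr hi), Fin.card_Iic]
    · simp
    · rw [Finset.disjoint_left]
      intro k hk hk'
      rw [Finset.mem_erase, Finset.mem_Iic] at hk
      rw [Finset.mem_filter, Finset.mem_Ioi] at hk'
      exact absurd hk'.1 (not_lt.mpr hk.2)
  have hsum1 : ∑ i ∈ Finset.Iic r, G.degree i =
      (r.val + 1) * r.val + ∑ k ∈ Finset.Ioi r, G.degree k := by
    rw [Finset.sum_congr rfl (fun i hi => hsplit i (Finset.mem_Iic.mp hi)),
      Finset.sum_add_distrib, Finset.sum_const, Fin.card_Iic, smul_eq_mul]
    congr 1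
    have hdc := Finset.sum_card_bipartiteAbove_eq_sum_card_bipartiteBelow
      (s := Finset.Iic r) (t := Finset.Ioi r) (fun i k => G.Adj i k)
    unfold Finset.bipartiteAbove Finset.bipartiteBelow at hdc
    rw [hdc]
    apply Finset.sum_congr rfl
    intro k hk
    rw [Finset.mem_Ioi] at hk
    rw [← SimpleGraph.card_neighborFinset_eq_degree]
    congr 1
    ext i
    rw [Finset.mem_filter, SimpleGraph.mem_neighborFinset]
    constructor
    · rintro ⟨-, h⟩; exact h.symm
    · intro h
      exact ⟨hNk k hk (by rw [SimpleGraph.mem_neighborFinset]; exact h), h.symm⟩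
  have hsum2 : ∑ i ∈ Finset.Iic r, G.degree i < ∑ i ∈ Finset.Iic r, d i :=
    Finset.sum_lt_sum (fun i _ => hG.le i) ⟨r, Finset.mem_Iic.mpr le_rfl, hlt⟩
  have hsum3 : ∑ k ∈ Finset.Ioi r, min (d k) (r.val + 1) ≤ ∑ k ∈ Finset.Ioi r, G.degree k :=
    Finset.sum_le_sum (fun k hk => c2 k (Finset.mem_Ioi.mp hk))
  have := hEG r
  omega

theorem exists_sub (hd : Antitone d) (hEG : EGCond d) (hpar : Even (∑ i, d i)) :
    ∀ m : ℕ, m ≤ n → ∃ G : SimpleGraph (Fin n), (∀ i : Fin n, i.val < m → G.degree i = d i) ∧
      (∀ i, G.degree i ≤ d i) ∧ (∀ i j : Fin n, m ≤ i.val → m ≤ j.val → G.Adj i j → False) := by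
  intro m
  induction m with
  | zero =>
    intro _
    refine ⟨⊥, by simp, by simp, by simp⟩
  | succ m ih =>
    intro hm
    obtain ⟨G, h1, h2, h3⟩ := ih (by omega)
    set r : Fin n := ⟨m, by omega⟩ with hr
    have hG : Sub d r G := by
      refine ⟨fun i hi => h1 i ?_, h2, fun i j hi hj h => h3 i j ?_ ?_ h⟩
      · exact hi
      · exact le_of_lt (Fin.lt_def.mp hi)
      · exact le_of_lt (Fin.lt_def.mp hj)
    have key : ∀ t : ℕ, ∀ G : SimpleGraph (Fin n), Sub d r G → d r - G.degree r = t →
        ∃ G' : SimpleGraph (Fin n), Sub d r G' ∧ G'.degree r = d r := by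
      intro t
      induction t using Nat.strong_induction_on with
      | _ t iht =>
        intro G hG ht
        by_cases hlt : G.degree r < d r
        · obtain ⟨G', hG', hlt'⟩ := hG.step hd hEG hpar hlt
          have := hG'.le r
          exact iht (d r - G'.degree r) (by omega) G' hG' rfl
        · exact ⟨G, hG, le_antisymm (hG.le r) (not_lt.mp hlt)⟩
    obtain ⟨G', hG', he⟩ := key _ G hG rfl
    refine ⟨G', ?_, hG'.le, ?_⟩
    · intro i hi
      rcases Nat.lt_succ_iff_lt_or_eq.mp hi with h | h
      · exact hG'.eq i (by rw [Fin.lt_def]; exact h)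
      · have : i = r := Fin.ext h
        rw [this]; exact he
    · intro i j hi hj h
      exact hG'.indep i j (by rw [Fin.lt_def]; exact hi) (by rw [Fin.lt_def]; exact hj) h

/-- **Erdős–Gallai**: a nonincreasing sequence of natural numbers with even sum that satisfies the
Erdős–Gallai inequalities is the degree sequence of a graph. -/
theorem erdos_gallai (hd : Antitone d) (hEG : EGCond d) (hpar : Even (∑ i, d i)) :
    ∃ G : SimpleGraph (Fin n), ∀ i, G.degree i = d i := by
  obtain ⟨G, h1, -⟩ := exists_sub hd hEG hpar n le_rfl
  exact ⟨G, fun i => h1 i i.2⟩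

end main

open Classical in
/-- **Erdős–Gallai** for unsorted families. -/
theorem erdos_gallai_family {ι : Type*} [Fintype ι] [DecidableEq ι] (f : ι → ℕ) (hpar : Even (∑ i, f i))
    (h : ∀ F : Finset ι, F.Nonempty → ∑ i ∈ F, f i ≤
      #F * (#F - 1) + ∑ i ∈ Fᶜ, min (f i) #F) :
    ∃ G : SimpleGraph (Fin (Fintype.card ι)),
      (Finset.univ.val.map fun v => G.degree v) = Finset.univ.val.map f := by
  set e0 : Fin (Fintype.card ι) ≃ ι := (Fintype.equivFin ι).symm with he0
  set σ := Tuple.sort (fun i => OrderDual.toDual (f (e0 i))) with hσ
  set e : Fin (Fintype.card ι) ≃ ι := σ.trans e0 with he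
  have hanti : Antitone (fun i => f (e i)) := by
    intro i j hij
    have := Tuple.monotone_sort (fun i => OrderDual.toDual (f (e0 i))) hij
    exact this
  have hsum : ∑ i, f (e i) = ∑ i, f i := Equiv.sum_comp e f
  obtain ⟨G, hG⟩ := erdos_gallai (d := fun i => f (e i)) hanti (by
    intro r
    have hF := h ((Finset.Iic r).map e.toEmbedding) (by simp)
    rw [Finset.sum_map, Finset.card_map, Fin.card_Iic] at hF
    have hc : ((Finset.Iic r).map e.toEmbedding)ᶜ = (Finset.Ioi r).map e.toEmbedding := by
      ext x
      rw [Finset.mem_compl, Finset.mem_map_equiv, Finset.mem_map_equiv, Finset.mem_Iic,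
        Finset.mem_Ioi, not_le]
    rw [hc, Finset.sum_map] at hF
    simpa using hF) (by rw [hsum]; exact hpar)
  refine ⟨G, ?_⟩
  have h1 : (Finset.univ.val.map fun v => G.degree v) = Finset.univ.val.map (fun i => f (e i)) := by
    apply Multiset.map_congr rfl
    intro i _
    exact hG i
  rw [h1]
  have h2 : (Finset.univ : Finset (Fin (Fintype.card ι))).val.map (fun i => f (e i)) =
      ((Finset.univ : Finset (Fin (Fintype.card ι))).map e.toEmbedding).val.map f := by
    rw [Finset.map_val, Multiset.map_map]
    rfl
  rw [h2, Finset.map_univ_equiv]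

end Pool.Agent.Q102.EG
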