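import Mathlib
import Pool.Agent.Q102.DetTerms

/-!
Dodgson polynomials, five-invariants and splitting of 5-configurations (MP_9405a7_co).
-/

namespace Pool.Agent.Q102.FiveInv

open MvPolynomial Pool.Agent.Q102.DetTerms

/-- A finite graph with vertices `0, …, nv` and edges `0, …, ne - 1`, each with an orientation;
loops and multiple edges are allowed. -/
structure Graph where
  nv : ℕ
  ne : ℕ
  src : Fin ne → Fin (nv + 1)
  tgt : Fin ne → Fin (nv + 1)

variable (G : Graph)

/-- the entries of the vertex-edge incidence matrix -/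
def inc (v : Fin (G.nv + 1)) (e : Fin G.ne) : ℤ :=
  (if G.src e = v then 1 else 0) - (if G.tgt e = v then 1 else 0)

/-- the polynomials in the Schwinger coordinates -/
abbrev Poly := MvPolynomial (Fin G.ne) ℤ

/-- the incidence matrix without the row of the last vertex -/
noncomputable def E : Matrix (Fin G.nv) (Fin G.ne) (Poly G) :=
  Matrix.of fun v e => C (inc G v.castSucc e)

/-- the matrix `M_G` -/
noncomputable def M : Matrix (Fin G.ne ⊕ Fin G.nv) (Fin G.ne ⊕ Fin G.nv) (Poly G) :=
  Matrix.fromBlocks (Matrix.diagonal X) (E G).transpose (-E G) 0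

/-- the edges outside `I` in increasing order -/
def outside (I : Finset (Fin G.ne)) : List (Fin G.ne) := (List.finRange G.ne).filter (· ∉ I)

/-- the substitution `α_e = 0` for `e ∈ K` -/
noncomputable def kill (K : Finset (Fin G.ne)) : Poly G →ₐ[ℤ] Poly G :=
  aeval fun e => if e ∈ K then 0 else X e

/-- The Dodgson polynomial `Ψ^{I,J}_K`: the determinant of `M_G` without the rows in `I` and without
the columns in `J`, at `α_e = 0` for `e ∈ K`. -/
noncomputable def dodgson (I J K : Finset (Fin G.ne)) : Poly G :=
  if h : (outside G J).length = (outside G I).length then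
    Matrix.det (Matrix.of fun r c : Fin (outside G I).length ⊕ Fin G.nv =>
      kill G K (M G (Sum.map (outside G I).get id r)
        (Sum.map (fun i => (outside G J).get (i.cast h.symm)) id c)))
  else 0

/-- The five edges `e 0, …, e 4` split: one of the 30 Dodgsons is zero. -/
def Splits (e : Fin 5 ↪ Fin G.ne) : Prop :=
  ∃ I J K : Finset (Fin G.ne), I ∪ J ∪ K = Finset.univ.map e ∧
    ((I.card = 2 ∧ J.card = 2 ∧ I ∩ J = ∅ ∧ K.card = 1) ∨
      (I.card = 3 ∧ J.card = 3 ∧ (I ∩ J).card = 1 ∧ K = ∅)) ∧
    dodgson G I J K = 0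

/-- the five-invariant -/
noncomputable def fiveInv (e : Fin 5 ↪ Fin G.ne) : Poly G :=
  dodgson G {e 0, e 1} {e 2, e 3} {e 4} * dodgson G {e 0, e 2, e 4} {e 1, e 3, e 4} ∅ -
    dodgson G {e 0, e 2} {e 1, e 3} {e 4} * dodgson G {e 0, e 1, e 4} {e 2, e 3, e 4} ∅

/-- every irreducible factor has degree at most 1 in every variable -/
def LinearlyFactorable (p : Poly G) : Prop :=
  ∀ q, Irreducible q → q ∣ p → ∀ e, degreeOf e q ≤ 1

/-! ### computation of the Dodgson polynomials -/

/-- codes of the entries -/
def code (I J K : Finset (Fin G.ne)) (r c : ℕ) : ℤ :=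
  if hr : r < (outside G I).length then
    if hc : c < (outside G J).length then
      if (outside G I).get ⟨r, hr⟩ = (outside G J).get ⟨c, hc⟩ then
        if (outside G I).get ⟨r, hr⟩ ∈ K then 0 else ((outside G I).get ⟨r, hr⟩ : ℕ) + 2
      else 0
    else if hv : c - (outside G I).length < G.nv then
      inc G (Fin.castSucc ⟨c - (outside G I).length, hv⟩) ((outside G I).get ⟨r, hr⟩)
    else 0
  else if hv : r - (outside G I).length < G.nv then
    if hc : c < (outside G J).length then
      -inc G (Fin.castSucc ⟨r - (outside G I).length, hv⟩) ((outside G J).get ⟨c, hc⟩)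
    else 0
  else 0

/-- the terms of a Dodgson -/
def dterms (I J K : Finset (Fin G.ne)) : List (ℤ × List ℕ) :=
  terms (code G I J K) ((outside G I).length + G.nv) 0
    (List.range ((outside G I).length + G.nv))

/-- the variables -/
noncomputable def xv (k : ℕ) : Poly G := if h : k < G.ne then X ⟨k, h⟩ else 0

theorem inc_lt (v : Fin (G.nv + 1)) (e : Fin G.ne) : inc G v e < 2 := by
  unfold inc; split_ifs <;> norm_num

theorem neg_inc_lt (v : Fin (G.nv + 1)) (e : Fin G.ne) : -inc G v e < 2 := by
  unfold inc; split_ifs <;> norm_num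

theorem val_lt {R : Type*} [CommRing R] (x : ℕ → R) {z : ℤ} (h : z < 2) : val x z = (z : R) := by
  unfold val; rw [if_pos h]

theorem dodgson_eq (I J K : Finset (Fin G.ne))
    (h : (outside G J).length = (outside G I).length) :
    dodgson G I J K = ev (xv G) (dterms G I J K) := by
  unfold dodgson dterms
  rw [dif_pos h, ← det_eq]
  rw [← Matrix.det_submatrix_equiv_self (finSumFinEquiv (m := (outside G I).length) (n := G.nv))]
  congr 1
  ext1 r c
  have hget : ∀ i : Fin ((outside G I).length + G.nv),
      (List.range ((outside G I).length + G.nv)).getD i 0 = i := by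
    intro i
    rw [List.getD_eq_getElem _ _ (by rw [List.length_range]; exact i.2), List.getElem_range]
  rw [Matrix.submatrix_apply, Matrix.of_apply, Matrix.of_apply, hget, zero_add]
  rcases r with r | r <;> rcases c with c | c
  · rw [finSumFinEquiv_apply_left, finSumFinEquiv_apply_left, Fin.val_castAdd, Fin.val_castAdd]
    have hc : (c : ℕ) < (outside G J).length := by rw [h]; exact c.2
    unfold code
    rw [dif_pos r.2, dif_pos hc]
    simp only [Sum.map_inl, M, Matrix.fromBlocks_apply₁₁]
    by_cases he : (outside G I).get r = (outside G J).get (c.cast h.symm)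
    · have hcast : (outside G J).get (Fin.cast h.symm c) = (outside G J).get ⟨c, hc⟩ := rfl
      have hI : (outside G I).get ⟨r, r.2⟩ = (outside G J).get ⟨c, hc⟩ := he
      rw [he, Matrix.diagonal_apply_eq, hcast, if_pos rfl]
      by_cases hK : (outside G J).get ⟨c, hc⟩ ∈ K
      · rw [if_pos hK, val_lt _ (by norm_num)]
        unfold kill
        rw [aeval_X, if_pos hK, Int.cast_zero]
      · rw [if_neg hK]
        unfold kill
        rw [aeval_X, if_neg hK]
        unfold val
        rw [if_neg (by omega)]
        unfold xv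
        have h2 : (((outside G J).get ⟨c, hc⟩ : ℕ) + 2 : ℤ).toNat - 2 =
            ((outside G J).get ⟨c, hc⟩ : ℕ) := by omega
        rw [h2, dif_pos (Fin.is_lt _)]
    · rw [Matrix.diagonal_apply_ne _ he]
      have he' : ¬ (outside G I).get ⟨r, r.2⟩ = (outside G J).get ⟨c, hc⟩ := he
      rw [if_neg he', val_lt _ (by norm_num), map_zero]; simp
  · rw [finSumFinEquiv_apply_left, finSumFinEquiv_apply_right, Fin.val_castAdd, Fin.val_natAdd]
    unfold code
    rw [dif_pos r.2, dif_neg (by omega)]
    have h2 : (outside G I).length + (c : ℕ) - (outside G I).length = c := by omega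
    have hv : (outside G I).length + (c : ℕ) - (outside G I).length < G.nv := by
      rw [h2]; exact c.2
    rw [dif_pos hv, val_lt _ (inc_lt G _ _)]
    simp only [Sum.map_inl, Sum.map_inr, M, Matrix.fromBlocks_apply₁₂, Matrix.transpose_apply, E,
      Matrix.of_apply, id]
    have h3 : (⟨(outside G I).length + (c : ℕ) - (outside G I).length, hv⟩ : Fin G.nv) = c :=
      Fin.ext h2
    rw [h3]
    unfold kill
    rw [algHom_C]
    rfl
  · rw [finSumFinEquiv_apply_left, finSumFinEquiv_apply_right, Fin.val_castAdd, Fin.val_natAdd]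
    have hc : (c : ℕ) < (outside G J).length := by rw [h]; exact c.2
    unfold code
    rw [dif_neg (by omega)]
    have h2 : (outside G I).length + (r : ℕ) - (outside G I).length = r := by omega
    have hv : (outside G I).length + (r : ℕ) - (outside G I).length < G.nv := by
      rw [h2]; exact r.2
    rw [dif_pos hv, dif_pos hc, val_lt _ (neg_inc_lt G _ _)]
    simp only [Sum.map_inl, Sum.map_inr, M, Matrix.fromBlocks_apply₂₁, Matrix.neg_apply, E,
      Matrix.of_apply, id, map_neg]
    have h3 : (⟨(outside G I).length + (r : ℕ) - (outside G I).length, hv⟩ : Fin G.nv) = r :=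
      Fin.ext h2
    rw [h3]
    unfold kill
    rw [algHom_C, Int.cast_neg]
    rfl
  · rw [finSumFinEquiv_apply_right, finSumFinEquiv_apply_right, Fin.val_natAdd, Fin.val_natAdd]
    unfold code
    rw [dif_neg (by omega)]
    have h2 : (outside G I).length + (r : ℕ) - (outside G I).length = r := by omega
    have hv : (outside G I).length + (r : ℕ) - (outside G I).length < G.nv := by
      rw [h2]; exact r.2
    rw [dif_pos hv, dif_neg (by omega), val_lt _ (by norm_num)]
    simp [M]

theorem map_ev {R T : Type*} [CommRing R] [CommRing T] (φ : R →+* T) (x : ℕ → R)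
    (l : List (ℤ × List ℕ)) : φ (ev x l) = ev (fun k => φ (x k)) l := by
  unfold ev
  rw [map_list_sum, List.map_map]
  congr 1
  apply List.map_congr_left
  intro t _
  simp [map_list_prod, List.map_map, Function.comp_def]

/-- an integer point -/
def pt (n k : ℕ) : ℤ := if k < n then 2 * (k : ℤ) + 1 else 0

theorem ne_zero_of_check (I J K : Finset (Fin G.ne))
    (h : (outside G J).length = (outside G I).length)
    (h2 : ev (pt G.ne) (dterms G I J K) ≠ 0) : dodgson G I J K ≠ 0 := by
  intro h0
  rw [dodgson_eq G I J K h] at h0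
  apply h2
  have h3 := congrArg (eval fun i : Fin G.ne => pt G.ne i) h0
  rw [map_zero, map_ev] at h3
  rw [← h3]
  congr 1
  ext k
  unfold xv pt
  split_ifs with hk
  · rw [eval_X, if_pos hk]
  · rw [map_zero]

/-- a table of codes, written as one number -/
def look (T r c : ℕ) : ℤ :=
  if (T >>> (64 * r + 4 * c)) % 16 = 15 then -1 else (((T >>> (64 * r + 4 * c)) % 16 : ℕ) : ℤ)

theorem terms_congr (A B : ℕ → ℕ → ℤ) : ∀ (n i : ℕ) (cols : List ℕ), cols.length = n →
    (∀ r, i ≤ r → r < i + n → ∀ c ∈ cols, A r c = B r c) → terms A n i cols = terms B n i cols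
  | 0, _, _, _, _ => rfl
  | n + 1, i, cols, hl, h => by
    unfold terms
    apply List.flatMap_congr
    intro p hp
    rw [List.mem_range] at hp
    have hp' : p < cols.length := by omega
    have hmem : cols.getD p 0 ∈ cols := by
      rw [List.getD_eq_getElem _ _ hp']; exact List.getElem_mem hp'
    have h1 : A i (cols.getD p 0) = B i (cols.getD p 0) := h i (le_refl _) (by omega) _ hmem
    rw [h1, terms_congr A B n (i + 1) (cols.eraseIdx p)
      (by rw [List.length_eraseIdx_of_lt hp']; omega)
      (fun r h2 h3 c hc => h r (by omega) (by omega) c (List.mem_of_mem_eraseIdx hc))]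

/-- the table `T` of size `m` contains the codes of the Dodgson -/
def TabOk (I J K : Finset (Fin G.ne)) (m T : ℕ) : Prop :=
  (outside G J).length = (outside G I).length ∧ (outside G I).length + G.nv = m ∧
    ∀ r < m, ∀ c < m, code G I J K r c = look T r c

instance (I J K : Finset (Fin G.ne)) (m T : ℕ) : Decidable (TabOk G I J K m T) := by
  unfold TabOk; infer_instance

theorem dterms_tab (I J K : Finset (Fin G.ne)) (m T : ℕ) (h : TabOk G I J K m T) :
    dterms G I J K = terms (look T) m 0 (List.range m) := by
  unfold dterms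
  rw [h.2.1]
  apply terms_congr _ _ _ _ _ List.length_range
  intro r _ hr c hc
  rw [List.mem_range] at hc
  exact h.2.2 r (by omega) c hc

/-- the dodgson of the pair is not zero -/
def Ok (S : Finset (Fin G.ne)) (p : Finset (Fin G.ne) × Finset (Fin G.ne)) : Prop :=
  dodgson G p.1 p.2 (S \ (p.1 ∪ p.2)) ≠ 0

theorem ok_of_tab (S I J : Finset (Fin G.ne)) (m T : ℕ) (h : TabOk G I J (S \ (I ∪ J)) m T)
    (h2 : ev (pt G.ne) (terms (look T) m 0 (List.range m)) ≠ 0) : Ok G S (I, J) := by
  apply ne_zero_of_check G I J _ h.1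
  rw [dterms_tab G I J _ m T h]
  exact h2

/-- the pairs of sets of the Dodgsons are in the list `L` -/
def Covers (S : Finset (Fin G.ne)) (L : List (Finset (Fin G.ne) × Finset (Fin G.ne))) : Prop :=
  ∀ I ∈ S.powerset, ∀ J ∈ S.powerset,
    (I.card = 2 ∧ J.card = 2 ∧ I ∩ J = ∅) ∨ (I.card = 3 ∧ J.card = 3 ∧ (I ∩ J).card = 1) →
    (I, J) ∈ L

instance (S : Finset (Fin G.ne)) (L : List (Finset (Fin G.ne) × Finset (Fin G.ne))) :
    Decidable (Covers G S L) := by unfold Covers; infer_instance

/-- `K_{3,3}` -/
def K33 : Graph where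
  nv := 5
  ne := 9
  src := ![0, 0, 0, 1, 2, 3, 1, 2, 3]
  tgt := ![1, 2, 3, 4, 4, 4, 5, 5, 5]

/-- the 4-cycle `0 1 4 2` and the edge `3 5` -/
def e33 : Fin 5 ↪ Fin K33.ne := ⟨(![0, 1, 3, 4, 8] : Fin 5 → Fin 9), by decide⟩

/-- the pairs of sets of the Dodgsons of `e33` -/
def L33 : List (Finset (Fin 9) × Finset (Fin 9)) :=
  [({0, 1}, {3, 4}), ({0, 1}, {3, 8}), ({0, 1}, {4, 8}), ({0, 3}, {1, 4}),
    ({0, 3}, {1, 8}), ({0, 3}, {4, 8}), ({0, 4}, {1, 3}), ({0, 4}, {1, 8}),
    ({0, 4}, {3, 8}), ({0, 8}, {1, 3}), ({0, 8}, {1, 4}), ({0, 8}, {3, 4}),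
    ({1, 3}, {0, 4}), ({1, 3}, {0, 8}), ({1, 3}, {4, 8}), ({1, 4}, {0, 3}),
    ({1, 4}, {0, 8}), ({1, 4}, {3, 8}), ({1, 8}, {0, 3}), ({1, 8}, {0, 4}),
    ({1, 8}, {3, 4}), ({3, 4}, {0, 1}), ({3, 4}, {0, 8}), ({3, 4}, {1, 8}),
    ({3, 8}, {0, 1}), ({3, 8}, {0, 4}), ({3, 8}, {1, 4}), ({4, 8}, {0, 1}),
    ({4, 8}, {0, 3}), ({4, 8}, {1, 3}), ({0, 1, 3}, {0, 4, 8}), ({0, 1, 3}, {1, 4, 8}),
    ({0, 1, 3}, {3, 4, 8}), ({0, 1, 4}, {0, 3, 8}), ({0, 1, 4}, {1, 3, 8}), ({0, 1, 4}, {3, 4, 8}),
    ({0, 1, 8}, {0, 3, 4}), ({0, 1, 8}, {1, 3, 4}), ({0, 1, 8}, {3, 4, 8}), ({0, 3, 4}, {0, 1, 8}),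
    ({0, 3, 4}, {1, 3, 8}), ({0, 3, 4}, {1, 4, 8}), ({0, 3, 8}, {0, 1, 4}), ({0, 3, 8}, {1, 3, 4}),
    ({0, 3, 8}, {1, 4, 8}), ({0, 4, 8}, {0, 1, 3}), ({0, 4, 8}, {1, 3, 4}), ({0, 4, 8}, {1, 3, 8}),
    ({1, 3, 4}, {0, 1, 8}), ({1, 3, 4}, {0, 3, 8}), ({1, 3, 4}, {0, 4, 8}), ({1, 3, 8}, {0, 1, 4}),
    ({1, 3, 8}, {0, 3, 4}), ({1, 3, 8}, {0, 4, 8}), ({1, 4, 8}, {0, 1, 3}), ({1, 4, 8}, {0, 3, 4}),
    ({1, 4, 8}, {0, 3, 8}), ({3, 4, 8}, {0, 1, 3}), ({3, 4, 8}, {0, 1, 4}), ({3, 4, 8}, {0, 1, 8})]

theorem covers33 : Covers K33 (Finset.univ.map e33) L33 := by decide +kernel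

theorem ok33_0 : Ok K33 (Finset.univ.map e33) (({0, 1}, {3, 4}) :
    Finset (Fin 9) × Finset (Fin 9)) :=
  ok_of_tab K33 _ _ _ 12 0x1000000000000f00f1000000000000f0001000000000000f00010000000000000fff0000010000000000000000100090000000000001000800000000f100000070000000f010000000000000f0010000000000000f0010000400
    (by decide +kernel) (by decide +kernel)

theorem ok33_1 : Ok K33 (Finset.univ.map e33) (({0, 1}, {3, 8}) :
    Finset (Fin 9) × Finset (Fin 9)) :=
  ok_of_tab K33 _ _ _ 12 0x1100000000000000f0100000000000f00f0100000000000f000010000000000000fff0000010000000000000000100900000000000001008000000000f100000700000000f010000000000000f0010000000000000f0010000400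
    (by decide +kernel) (by decide +kernel)

theorem ok33_2 : Ok K33 (Finset.univ.map e33) (({0, 1}, {4, 8}) :
    Finset (Fin 9) × Finset (Fin 9)) :=
  ok_of_tab K33 _ _ _ 12 0x1100000000000000f0100000000000f0000100000000000f0f0010000000000000fff0000010000000000000000100900000000000001008000000000f100000700000000f010000000000000f0010000000000000f0010000400
    (by decide +kernel) (by decide +kernel)

theorem ok33_3 : Ok K33 (Finset.univ.map e33) (({0, 3}, {1, 4}) :
    Finset (Fin 9) × Finset (Fin 9)) :=
  ok_of_tab K33 _ _ _ 12 0x1100000000000f00f0100000000000f0000000000000000f0f0100000000000000ff0000010000000000000000100090000000000001000800000000f100000070000000f0100000000000000f0010000040000000f010000000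
    (by decide +kernel) (by decide +kernel)

theorem ok33_4 : Ok K33 (Finset.univ.map e33) (({0, 3}, {1, 8}) :
    Finset (Fin 9) × Finset (Fin 9)) :=
  ok_of_tab K33 _ _ _ 12 0x1110000000000000f0010000000000f00f0000000000000f00f0100000000000000ff0000010000000000000000100900000000000001008000000000f100000700000000f0100000000000000f0010000040000000f010000000
    (by decide +kernel) (by decide +kernel)

theorem ok33_5 : Ok K33 (Finset.univ.map e33) (({0, 3}, {4, 8}) :
    Finset (Fin 9) × Finset (Fin 9)) :=
  ok_of_tab K33 _ _ _ 12 0x1100000000000000f0100000000000f0000100000000000f0f0010000000000000fff0000010000000000000000100900000000000001008000000000f100000700000000f0100000000000000f0010000400000000f010000000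
    (by decide +kernel) (by decide +kernel)

theorem ok33_6 : Ok K33 (Finset.univ.map e33) (({0, 4}, {1, 3}) :
    Finset (Fin 9) × Finset (Fin 9)) :=
  ok_of_tab K33 _ _ _ 12 0x1100000000000f00f0100000000000f00f0000000000000f000100000000000000ff0000010000000000000000100090000000000001000800000000f100000070000000f0010000000000000f0010000040000000f010000000
    (by decide +kernel) (by decide +kernel)

theorem ok33_7 : Ok K33 (Finset.univ.map e33) (({0, 4}, {1, 8}) :
    Finset (Fin 9) × Finset (Fin 9)) :=
  ok_of_tab K33 _ _ _ 12 0x1110000000000000f0010000000000f00f0000000000000f00f0100000000000000ff0000010000000000000000100900000000000001008000000000f100000700000000f0010000000000000f0010000040000000f010000000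
    (by decide +kernel) (by decide +kernel)

theorem ok33_8 : Ok K33 (Finset.univ.map e33) (({0, 4}, {3, 8}) :
    Finset (Fin 9) × Finset (Fin 9)) :=
  ok_of_tab K33 _ _ _ 12 0x1100000000000000f0100000000000f00f0100000000000f000010000000000000fff0000010000000000000000100900000000000001008000000000f100000700000000f0010000000000000f0010000400000000f010000000
    (by decide +kernel) (by decide +kernel)

theorem ok33_9 : Ok K33 (Finset.univ.map e33) (({0, 8}, {1, 3}) :
    Finset (Fin 9) × Finset (Fin 9)) :=
  ok_of_tab K33 _ _ _ 12 0x1100000000000f00f0100000000000f00f0000000000000f000100000000000000ff000000100090000000000001000800000000f100000070000000f010000000000000f0010000000000000f0010000040000000f010000000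
    (by decide +kernel) (by decide +kernel)

theorem ok33_10 : Ok K33 (Finset.univ.map e33) (({0, 8}, {1, 4}) :
    Finset (Fin 9) × Finset (Fin 9)) :=
  ok_of_tab K33 _ _ _ 12 0x1100000000000f00f0100000000000f0000000000000000f0f0100000000000000ff000000100090000000000001000800000000f100000070000000f010000000000000f0010000000000000f0010000040000000f010000000
    (by decide +kernel) (by decide +kernel)

theorem ok33_11 : Ok K33 (Finset.univ.map e33) (({0, 8}, {3, 4}) :
    Finset (Fin 9) × Finset (Fin 9)) :=
  ok_of_tab K33 _ _ _ 12 0x1000000000000f00f1000000000000f0001000000000000f00010000000000000fff000000100090000000000001000800000000f100000070000000f010000000000000f0010000000000000f0010000400000000f010000000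
    (by decide +kernel) (by decide +kernel)

theorem ok33_12 : Ok K33 (Finset.univ.map e33) (({1, 3}, {0, 4}) :
    Finset (Fin 9) × Finset (Fin 9)) :=
  ok_of_tab K33 _ _ _ 12 0x1100000000000f00f0100000000000f0000100000000000f0f0000000000000000ff0000010000000000000000100090000000000001000800000000f100000070000000f0100000000000000f00100000400000000f10000000
    (by decide +kernel) (by decide +kernel)

theorem ok33_13 : Ok K33 (Finset.univ.map e33) (({1, 3}, {0, 8}) :
    Finset (Fin 9) × Finset (Fin 9)) :=
  ok_of_tab K33 _ _ _ 12 0x1110000000000000f0010000000000f00f0010000000000f00f0000000000000000ff0000010000000000000000100900000000000001008000000000f100000700000000f0100000000000000f00100000400000000f10000000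
    (by decide +kernel) (by decide +kernel)

theorem ok33_14 : Ok K33 (Finset.univ.map e33) (({1, 3}, {4, 8}) :
    Finset (Fin 9) × Finset (Fin 9)) :=
  ok_of_tab K33 _ _ _ 12 0x1100000000000000f0100000000000f0000100000000000f0f0010000000000000fff0000010000000000000000100900000000000001008000000000f100000700000000f0100000000000000f00100004000000000f10000000
    (by decide +kernel) (by decide +kernel)

theorem ok33_15 : Ok K33 (Finset.univ.map e33) (({1, 4}, {0, 3}) :
    Finset (Fin 9) × Finset (Fin 9)) :=
  ok_of_tab K33 _ _ _ 12 0x1100000000000f00f0100000000000f00f0100000000000f000000000000000000ff0000010000000000000000100090000000000001000800000000f100000070000000f0010000000000000f00100000400000000f10000000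
    (by decide +kernel) (by decide +kernel)

theorem ok33_16 : Ok K33 (Finset.univ.map e33) (({1, 4}, {0, 8}) :
    Finset (Fin 9) × Finset (Fin 9)) :=
  ok_of_tab K33 _ _ _ 12 0x1110000000000000f0010000000000f00f0010000000000f00f0000000000000000ff0000010000000000000000100900000000000001008000000000f100000700000000f0010000000000000f00100000400000000f10000000
    (by decide +kernel) (by decide +kernel)

theorem ok33_17 : Ok K33 (Finset.univ.map e33) (({1, 4}, {3, 8}) :
    Finset (Fin 9) × Finset (Fin 9)) :=
  ok_of_tab K33 _ _ _ 12 0x1100000000000000f0100000000000f00f0100000000000f000010000000000000fff0000010000000000000000100900000000000001008000000000f100000700000000f0010000000000000f00100004000000000f10000000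
    (by decide +kernel) (by decide +kernel)

theorem ok33_18 : Ok K33 (Finset.univ.map e33) (({1, 8}, {0, 3}) :
    Finset (Fin 9) × Finset (Fin 9)) :=
  ok_of_tab K33 _ _ _ 12 0x1100000000000f00f0100000000000f00f0100000000000f000000000000000000ff000000100090000000000001000800000000f100000070000000f010000000000000f0010000000000000f00100000400000000f10000000
    (by decide +kernel) (by decide +kernel)

theorem ok33_19 : Ok K33 (Finset.univ.map e33) (({1, 8}, {0, 4}) :
    Finset (Fin 9) × Finset (Fin 9)) :=
  ok_of_tab K33 _ _ _ 12 0x1100000000000f00f0100000000000f0000100000000000f0f0000000000000000ff000000100090000000000001000800000000f100000070000000f010000000000000f0010000000000000f00100000400000000f10000000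
    (by decide +kernel) (by decide +kernel)

theorem ok33_20 : Ok K33 (Finset.univ.map e33) (({1, 8}, {3, 4}) :
    Finset (Fin 9) × Finset (Fin 9)) :=
  ok_of_tab K33 _ _ _ 12 0x1000000000000f00f1000000000000f0001000000000000f00010000000000000fff000000100090000000000001000800000000f100000070000000f010000000000000f0010000000000000f00100004000000000f10000000
    (by decide +kernel) (by decide +kernel)

theorem ok33_21 : Ok K33 (Finset.univ.map e33) (({3, 4}, {0, 1}) :
    Finset (Fin 9) × Finset (Fin 9)) :=
  ok_of_tab K33 _ _ _ 12 0x1110000000000f00f0010000000000f00f0000000000000f00f0000000000000000f0000010000000000000000100090000000000001000800000000f1000000700000000f0010000004000000f0100000000000000f10000000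
    (by decide +kernel) (by decide +kernel)

theorem ok33_22 : Ok K33 (Finset.univ.map e33) (({3, 4}, {0, 8}) :
    Finset (Fin 9) × Finset (Fin 9)) :=
  ok_of_tab K33 _ _ _ 12 0x1110000000000000f0010000000000f00f0010000000000f00f0000000000000000ff0000010000000000000000100900000000000001008000000000f1000007000000000f0010000040000000f0100000000000000f10000000
    (by decide +kernel) (by decide +kernel)

theorem ok33_23 : Ok K33 (Finset.univ.map e33) (({3, 4}, {1, 8}) :
    Finset (Fin 9) × Finset (Fin 9)) :=
  ok_of_tab K33 _ _ _ 12 0x1110000000000000f0010000000000f00f0000000000000f00f0100000000000000ff0000010000000000000000100900000000000001008000000000f1000007000000000f0010000040000000f0100000000000000f10000000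
    (by decide +kernel) (by decide +kernel)

theorem ok33_24 : Ok K33 (Finset.univ.map e33) (({3, 8}, {0, 1}) :
    Finset (Fin 9) × Finset (Fin 9)) :=
  ok_of_tab K33 _ _ _ 12 0x1110000000000f00f0010000000000f00f0000000000000f00f0000000000000000f000000100090000000000001000800000000f100000070000000f0100000000000000f0010000004000000f0100000000000000f10000000
    (by decide +kernel) (by decide +kernel)

theorem ok33_25 : Ok K33 (Finset.univ.map e33) (({3, 8}, {0, 4}) :
    Finset (Fin 9) × Finset (Fin 9)) :=
  ok_of_tab K33 _ _ _ 12 0x1100000000000f00f0100000000000f0000100000000000f0f0000000000000000ff000000100090000000000001000800000000f100000070000000f0100000000000000f0010000040000000f0100000000000000f10000000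
    (by decide +kernel) (by decide +kernel)

theorem ok33_26 : Ok K33 (Finset.univ.map e33) (({3, 8}, {1, 4}) :
    Finset (Fin 9) × Finset (Fin 9)) :=
  ok_of_tab K33 _ _ _ 12 0x1100000000000f00f0100000000000f0000000000000000f0f0100000000000000ff000000100090000000000001000800000000f100000070000000f0100000000000000f0010000040000000f0100000000000000f10000000
    (by decide +kernel) (by decide +kernel)

theorem ok33_27 : Ok K33 (Finset.univ.map e33) (({4, 8}, {0, 1}) :
    Finset (Fin 9) × Finset (Fin 9)) :=
  ok_of_tab K33 _ _ _ 12 0x1110000000000f00f0010000000000f00f0000000000000f00f0000000000000000f000000100090000000000001000800000000f100000070000000f0010000000000000f0010000004000000f0100000000000000f10000000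
    (by decide +kernel) (by decide +kernel)

theorem ok33_28 : Ok K33 (Finset.univ.map e33) (({4, 8}, {0, 3}) :
    Finset (Fin 9) × Finset (Fin 9)) :=
  ok_of_tab K33 _ _ _ 12 0x1100000000000f00f0100000000000f00f0100000000000f000000000000000000ff000000100090000000000001000800000000f100000070000000f0010000000000000f0010000040000000f0100000000000000f10000000
    (by decide +kernel) (by decide +kernel)

theorem ok33_29 : Ok K33 (Finset.univ.map e33) (({4, 8}, {1, 3}) :
    Finset (Fin 9) × Finset (Fin 9)) :=
  ok_of_tab K33 _ _ _ 12 0x1100000000000f00f0100000000000f00f0000000000000f000100000000000000ff000000100090000000000001000800000000f100000070000000f0010000000000000f0010000040000000f0100000000000000f10000000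
    (by decide +kernel) (by decide +kernel)

theorem ok33_30 : Ok K33 (Finset.univ.map e33) (({0, 1, 3}, {0, 4, 8}) :
    Finset (Fin 9) × Finset (Fin 9)) :=
  ok_of_tab K33 _ _ _ 11 0x1100000000000000f0100000000000f0000100000000000f0f0000000000000000ff00000010000000000000000100900000000000001008000000000f100000700000000f0100000000000000f001000040
    (by decide +kernel) (by decide +kernel)

theorem ok33_31 : Ok K33 (Finset.univ.map e33) (({0, 1, 3}, {1, 4, 8}) :
    Finset (Fin 9) × Finset (Fin 9)) :=
  ok_of_tab K33 _ _ _ 11 0x1100000000000000f0100000000000f0000000000000000f0f0100000000000000ff00000010000000000000000100900000000000001008000000000f100000700000000f0100000000000000f001000040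
    (by decide +kernel) (by decide +kernel)

theorem ok33_32 : Ok K33 (Finset.univ.map e33) (({0, 1, 3}, {3, 4, 8}) :
    Finset (Fin 9) × Finset (Fin 9)) :=
  ok_of_tab K33 _ _ _ 11 0x1000000000000000f1000000000000f0001000000000000f00010000000000000fff00000010000000000000000100900000000000001008000000000f100000700000000f0100000000000000f001000400
    (by decide +kernel) (by decide +kernel)

theorem ok33_33 : Ok K33 (Finset.univ.map e33) (({0, 1, 4}, {0, 3, 8}) :
    Finset (Fin 9) × Finset (Fin 9)) :=
  ok_of_tab K33 _ _ _ 11 0x1100000000000000f0100000000000f00f0100000000000f000000000000000000ff00000010000000000000000100900000000000001008000000000f100000700000000f0010000000000000f001000040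
    (by decide +kernel) (by decide +kernel)

theorem ok33_34 : Ok K33 (Finset.univ.map e33) (({0, 1, 4}, {1, 3, 8}) :
    Finset (Fin 9) × Finset (Fin 9)) :=
  ok_of_tab K33 _ _ _ 11 0x1100000000000000f0100000000000f00f0000000000000f000100000000000000ff00000010000000000000000100900000000000001008000000000f100000700000000f0010000000000000f001000040
    (by decide +kernel) (by decide +kernel)

theorem ok33_35 : Ok K33 (Finset.univ.map e33) (({0, 1, 4}, {3, 4, 8}) :
    Finset (Fin 9) × Finset (Fin 9)) :=
  ok_of_tab K33 _ _ _ 11 0x1000000000000000f1000000000000f0001000000000000f00010000000000000fff00000010000000000000000100900000000000001008000000000f100000700000000f0010000000000000f001000400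
    (by decide +kernel) (by decide +kernel)

theorem ok33_36 : Ok K33 (Finset.univ.map e33) (({0, 1, 8}, {0, 3, 4}) :
    Finset (Fin 9) × Finset (Fin 9)) :=
  ok_of_tab K33 _ _ _ 11 0x1000000000000f00f1000000000000f0001000000000000f00000000000000000ff0000000100090000000000001000800000000f100000070000000f010000000000000f0010000000000000f001000040
    (by decide +kernel) (by decide +kernel)

theorem ok33_37 : Ok K33 (Finset.univ.map e33) (({0, 1, 8}, {1, 3, 4}) :
    Finset (Fin 9) × Finset (Fin 9)) :=
  ok_of_tab K33 _ _ _ 11 0x1000000000000f00f1000000000000f0000000000000000f00100000000000000ff0000000100090000000000001000800000000f100000070000000f010000000000000f0010000000000000f001000040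
    (by decide +kernel) (by decide +kernel)

theorem ok33_38 : Ok K33 (Finset.univ.map e33) (({0, 1, 8}, {3, 4, 8}) :
    Finset (Fin 9) × Finset (Fin 9)) :=
  ok_of_tab K33 _ _ _ 11 0x1000000000000000f1000000000000f0001000000000000f00010000000000000fff0000000100900000000000001008000000000f100000700000000f010000000000000f0010000000000000f001000400
    (by decide +kernel) (by decide +kernel)

theorem ok33_39 : Ok K33 (Finset.univ.map e33) (({0, 3, 4}, {0, 1, 8}) :
    Finset (Fin 9) × Finset (Fin 9)) :=
  ok_of_tab K33 _ _ _ 11 0x1110000000000000f0010000000000f00f0000000000000f00f0000000000000000f00000010000000000000000100900000000000001008000000000f1000007000000000f0010000040000000f01000000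
    (by decide +kernel) (by decide +kernel)

theorem ok33_40 : Ok K33 (Finset.univ.map e33) (({0, 3, 4}, {1, 3, 8}) :
    Finset (Fin 9) × Finset (Fin 9)) :=
  ok_of_tab K33 _ _ _ 11 0x1100000000000000f0100000000000f00f0000000000000f000100000000000000ff00000010000000000000000100900000000000001008000000000f1000007000000000f0010000400000000f01000000
    (by decide +kernel) (by decide +kernel)

theorem ok33_41 : Ok K33 (Finset.univ.map e33) (({0, 3, 4}, {1, 4, 8}) :
    Finset (Fin 9) × Finset (Fin 9)) :=
  ok_of_tab K33 _ _ _ 11 0x1100000000000000f0100000000000f0000000000000000f0f0100000000000000ff00000010000000000000000100900000000000001008000000000f1000007000000000f0010000400000000f01000000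
    (by decide +kernel) (by decide +kernel)

theorem ok33_42 : Ok K33 (Finset.univ.map e33) (({0, 3, 8}, {0, 1, 4}) :
    Finset (Fin 9) × Finset (Fin 9)) :=
  ok_of_tab K33 _ _ _ 11 0x1100000000000f00f0100000000000f0000000000000000f0f0000000000000000f0000000100090000000000001000800000000f100000070000000f0100000000000000f0010000040000000f01000000
    (by decide +kernel) (by decide +kernel)

theorem ok33_43 : Ok K33 (Finset.univ.map e33) (({0, 3, 8}, {1, 3, 4}) :
    Finset (Fin 9) × Finset (Fin 9)) :=
  ok_of_tab K33 _ _ _ 11 0x1000000000000f00f1000000000000f0000000000000000f00100000000000000ff0000000100090000000000001000800000000f100000070000000f0100000000000000f0010000400000000f01000000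
    (by decide +kernel) (by decide +kernel)

theorem ok33_44 : Ok K33 (Finset.univ.map e33) (({0, 3, 8}, {1, 4, 8}) :
    Finset (Fin 9) × Finset (Fin 9)) :=
  ok_of_tab K33 _ _ _ 11 0x1100000000000000f0100000000000f0000000000000000f0f0100000000000000ff0000000100900000000000001008000000000f100000700000000f0100000000000000f0010000400000000f01000000
    (by decide +kernel) (by decide +kernel)

theorem ok33_45 : Ok K33 (Finset.univ.map e33) (({0, 4, 8}, {0, 1, 3}) :
    Finset (Fin 9) × Finset (Fin 9)) :=
  ok_of_tab K33 _ _ _ 11 0x1100000000000f00f0100000000000f00f0000000000000f000000000000000000f0000000100090000000000001000800000000f100000070000000f0010000000000000f0010000040000000f01000000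
    (by decide +kernel) (by decide +kernel)

theorem ok33_46 : Ok K33 (Finset.univ.map e33) (({0, 4, 8}, {1, 3, 4}) :
    Finset (Fin 9) × Finset (Fin 9)) :=
  ok_of_tab K33 _ _ _ 11 0x1000000000000f00f1000000000000f0000000000000000f00100000000000000ff0000000100090000000000001000800000000f100000070000000f0010000000000000f0010000400000000f01000000
    (by decide +kernel) (by decide +kernel)

theorem ok33_47 : Ok K33 (Finset.univ.map e33) (({0, 4, 8}, {1, 3, 8}) :
    Finset (Fin 9) × Finset (Fin 9)) :=
  ok_of_tab K33 _ _ _ 11 0x1100000000000000f0100000000000f00f0000000000000f000100000000000000ff0000000100900000000000001008000000000f100000700000000f0010000000000000f0010000400000000f01000000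
    (by decide +kernel) (by decide +kernel)

theorem ok33_48 : Ok K33 (Finset.univ.map e33) (({1, 3, 4}, {0, 1, 8}) :
    Finset (Fin 9) × Finset (Fin 9)) :=
  ok_of_tab K33 _ _ _ 11 0x1110000000000000f0010000000000f00f0000000000000f00f0000000000000000f00000010000000000000000100900000000000001008000000000f1000007000000000f00100000400000000f1000000
    (by decide +kernel) (by decide +kernel)

theorem ok33_49 : Ok K33 (Finset.univ.map e33) (({1, 3, 4}, {0, 3, 8}) :
    Finset (Fin 9) × Finset (Fin 9)) :=
  ok_of_tab K33 _ _ _ 11 0x1100000000000000f0100000000000f00f0100000000000f000000000000000000ff00000010000000000000000100900000000000001008000000000f1000007000000000f00100004000000000f1000000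
    (by decide +kernel) (by decide +kernel)

theorem ok33_50 : Ok K33 (Finset.univ.map e33) (({1, 3, 4}, {0, 4, 8}) :
    Finset (Fin 9) × Finset (Fin 9)) :=
  ok_of_tab K33 _ _ _ 11 0x1100000000000000f0100000000000f0000100000000000f0f0000000000000000ff00000010000000000000000100900000000000001008000000000f1000007000000000f00100004000000000f1000000
    (by decide +kernel) (by decide +kernel)

theorem ok33_51 : Ok K33 (Finset.univ.map e33) (({1, 3, 8}, {0, 1, 4}) :
    Finset (Fin 9) × Finset (Fin 9)) :=
  ok_of_tab K33 _ _ _ 11 0x1100000000000f00f0100000000000f0000000000000000f0f0000000000000000f0000000100090000000000001000800000000f100000070000000f0100000000000000f00100000400000000f1000000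
    (by decide +kernel) (by decide +kernel)

theorem ok33_52 : Ok K33 (Finset.univ.map e33) (({1, 3, 8}, {0, 3, 4}) :
    Finset (Fin 9) × Finset (Fin 9)) :=
  ok_of_tab K33 _ _ _ 11 0x1000000000000f00f1000000000000f0001000000000000f00000000000000000ff0000000100090000000000001000800000000f100000070000000f0100000000000000f00100004000000000f1000000
    (by decide +kernel) (by decide +kernel)

theorem ok33_53 : Ok K33 (Finset.univ.map e33) (({1, 3, 8}, {0, 4, 8}) :
    Finset (Fin 9) × Finset (Fin 9)) :=
  ok_of_tab K33 _ _ _ 11 0x1100000000000000f0100000000000f0000100000000000f0f0000000000000000ff0000000100900000000000001008000000000f100000700000000f0100000000000000f00100004000000000f1000000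
    (by decide +kernel) (by decide +kernel)

theorem ok33_54 : Ok K33 (Finset.univ.map e33) (({1, 4, 8}, {0, 1, 3}) :
    Finset (Fin 9) × Finset (Fin 9)) :=
  ok_of_tab K33 _ _ _ 11 0x1100000000000f00f0100000000000f00f0000000000000f000000000000000000f0000000100090000000000001000800000000f100000070000000f0010000000000000f00100000400000000f1000000
    (by decide +kernel) (by decide +kernel)

theorem ok33_55 : Ok K33 (Finset.univ.map e33) (({1, 4, 8}, {0, 3, 4}) :
    Finset (Fin 9) × Finset (Fin 9)) :=
  ok_of_tab K33 _ _ _ 11 0x1000000000000f00f1000000000000f0001000000000000f00000000000000000ff0000000100090000000000001000800000000f100000070000000f0010000000000000f00100004000000000f1000000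
    (by decide +kernel) (by decide +kernel)

theorem ok33_56 : Ok K33 (Finset.univ.map e33) (({1, 4, 8}, {0, 3, 8}) :
    Finset (Fin 9) × Finset (Fin 9)) :=
  ok_of_tab K33 _ _ _ 11 0x1100000000000000f0100000000000f00f0100000000000f000000000000000000ff0000000100900000000000001008000000000f100000700000000f0010000000000000f00100004000000000f1000000
    (by decide +kernel) (by decide +kernel)

theorem ok33_57 : Ok K33 (Finset.univ.map e33) (({3, 4, 8}, {0, 1, 3}) :
    Finset (Fin 9) × Finset (Fin 9)) :=
  ok_of_tab K33 _ _ _ 11 0x1100000000000f00f0100000000000f00f0000000000000f000000000000000000f0000000100090000000000001000800000000f1000000700000000f0010000040000000f0100000000000000f1000000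
    (by decide +kernel) (by decide +kernel)

theorem ok33_58 : Ok K33 (Finset.univ.map e33) (({3, 4, 8}, {0, 1, 4}) :
    Finset (Fin 9) × Finset (Fin 9)) :=
  ok_of_tab K33 _ _ _ 11 0x1100000000000f00f0100000000000f0000000000000000f0f0000000000000000f0000000100090000000000001000800000000f1000000700000000f0010000040000000f0100000000000000f1000000
    (by decide +kernel) (by decide +kernel)

theorem ok33_59 : Ok K33 (Finset.univ.map e33) (({3, 4, 8}, {0, 1, 8}) :
    Finset (Fin 9) × Finset (Fin 9)) :=
  ok_of_tab K33 _ _ _ 11 0x1110000000000000f0010000000000f00f0000000000000f00f0000000000000000f0000000100900000000000001008000000000f1000007000000000f0010000040000000f0100000000000000f1000000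
    (by decide +kernel) (by decide +kernel)

theorem ok33 : ∀ p ∈ L33, Ok K33 (Finset.univ.map e33) p := by
  unfold L33
  refine List.forall_mem_cons.2 ⟨ok33_0, ?_⟩
  refine List.forall_mem_cons.2 ⟨ok33_1, ?_⟩
  refine List.forall_mem_cons.2 ⟨ok33_2, ?_⟩
  refine List.forall_mem_cons.2 ⟨ok33_3, ?_⟩
  refine List.forall_mem_cons.2 ⟨ok33_4, ?_⟩
  refine List.forall_mem_cons.2 ⟨ok33_5, ?_⟩
  refine List.forall_mem_cons.2 ⟨ok33_6, ?_⟩
  refine List.forall_mem_cons.2 ⟨ok33_7, ?_⟩
  refine List.forall_mem_cons.2 ⟨ok33_8, ?_⟩
  refine List.forall_mem_cons.2 ⟨ok33_9, ?_⟩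
  refine List.forall_mem_cons.2 ⟨ok33_10, ?_⟩
  refine List.forall_mem_cons.2 ⟨ok33_11, ?_⟩
  refine List.forall_mem_cons.2 ⟨ok33_12, ?_⟩
  refine List.forall_mem_cons.2 ⟨ok33_13, ?_⟩
  refine List.forall_mem_cons.2 ⟨ok33_14, ?_⟩
  refine List.forall_mem_cons.2 ⟨ok33_15, ?_⟩
  refine List.forall_mem_cons.2 ⟨ok33_16, ?_⟩
  refine List.forall_mem_cons.2 ⟨ok33_17, ?_⟩
  refine List.forall_mem_cons.2 ⟨ok33_18, ?_⟩
  refine List.forall_mem_cons.2 ⟨ok33_19, ?_⟩
  refine List.forall_mem_cons.2 ⟨ok33_20, ?_⟩
  refine List.forall_mem_cons.2 ⟨ok33_21, ?_⟩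
  refine List.forall_mem_cons.2 ⟨ok33_22, ?_⟩
  refine List.forall_mem_cons.2 ⟨ok33_23, ?_⟩
  refine List.forall_mem_cons.2 ⟨ok33_24, ?_⟩
  refine List.forall_mem_cons.2 ⟨ok33_25, ?_⟩
  refine List.forall_mem_cons.2 ⟨ok33_26, ?_⟩
  refine List.forall_mem_cons.2 ⟨ok33_27, ?_⟩
  refine List.forall_mem_cons.2 ⟨ok33_28, ?_⟩
  refine List.forall_mem_cons.2 ⟨ok33_29, ?_⟩
  refine List.forall_mem_cons.2 ⟨ok33_30, ?_⟩
  refine List.forall_mem_cons.2 ⟨ok33_31, ?_⟩
  refine List.forall_mem_cons.2 ⟨ok33_32, ?_⟩
  refine List.forall_mem_cons.2 ⟨ok33_33, ?_⟩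
  refine List.forall_mem_cons.2 ⟨ok33_34, ?_⟩
  refine List.forall_mem_cons.2 ⟨ok33_35, ?_⟩
  refine List.forall_mem_cons.2 ⟨ok33_36, ?_⟩
  refine List.forall_mem_cons.2 ⟨ok33_37, ?_⟩
  refine List.forall_mem_cons.2 ⟨ok33_38, ?_⟩
  refine List.forall_mem_cons.2 ⟨ok33_39, ?_⟩
  refine List.forall_mem_cons.2 ⟨ok33_40, ?_⟩
  refine List.forall_mem_cons.2 ⟨ok33_41, ?_⟩
  refine List.forall_mem_cons.2 ⟨ok33_42, ?_⟩
  refine List.forall_mem_cons.2 ⟨ok33_43, ?_⟩
  refine List.forall_mem_cons.2 ⟨ok33_44, ?_⟩
  refine List.forall_mem_cons.2 ⟨ok33_45, ?_⟩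
  refine List.forall_mem_cons.2 ⟨ok33_46, ?_⟩
  refine List.forall_mem_cons.2 ⟨ok33_47, ?_⟩
  refine List.forall_mem_cons.2 ⟨ok33_48, ?_⟩
  refine List.forall_mem_cons.2 ⟨ok33_49, ?_⟩
  refine List.forall_mem_cons.2 ⟨ok33_50, ?_⟩
  refine List.forall_mem_cons.2 ⟨ok33_51, ?_⟩
  refine List.forall_mem_cons.2 ⟨ok33_52, ?_⟩
  refine List.forall_mem_cons.2 ⟨ok33_53, ?_⟩
  refine List.forall_mem_cons.2 ⟨ok33_54, ?_⟩
  refine List.forall_mem_cons.2 ⟨ok33_55, ?_⟩
  refine List.forall_mem_cons.2 ⟨ok33_56, ?_⟩
  refine List.forall_mem_cons.2 ⟨ok33_57, ?_⟩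
  refine List.forall_mem_cons.2 ⟨ok33_58, ?_⟩
  refine List.forall_mem_cons.2 ⟨ok33_59, ?_⟩
  exact fun p hp => absurd hp (List.not_mem_nil)

/-- `K_5` -/
def K5 : Graph where
  nv := 4
  ne := 10
  src := ![0, 0, 1, 0, 1, 2, 0, 1, 2, 3]
  tgt := ![1, 2, 2, 3, 3, 3, 4, 4, 4, 4]

/-- the 5-cycle `0 1 3 4 2` -/
def e5 : Fin 5 ↪ Fin K5.ne := ⟨(![0, 1, 4, 8, 9] : Fin 5 → Fin 10), by decide⟩

/-- the pairs of sets of the Dodgsons of `e5` -/
def L5 : List (Finset (Fin 10) × Finset (Fin 10)) :=
  [({0, 1}, {4, 8}), ({0, 1}, {4, 9}), ({0, 1}, {8, 9}), ({0, 4}, {1, 8}),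
    ({0, 4}, {1, 9}), ({0, 4}, {8, 9}), ({0, 8}, {1, 4}), ({0, 8}, {1, 9}),
    ({0, 8}, {4, 9}), ({0, 9}, {1, 4}), ({0, 9}, {1, 8}), ({0, 9}, {4, 8}),
    ({1, 4}, {0, 8}), ({1, 4}, {0, 9}), ({1, 4}, {8, 9}), ({1, 8}, {0, 4}),
    ({1, 8}, {0, 9}), ({1, 8}, {4, 9}), ({1, 9}, {0, 4}), ({1, 9}, {0, 8}),
    ({1, 9}, {4, 8}), ({4, 8}, {0, 1}), ({4, 8}, {0, 9}), ({4, 8}, {1, 9}),
    ({4, 9}, {0, 1}), ({4, 9}, {0, 8}), ({4, 9}, {1, 8}), ({8, 9}, {0, 1}),
    ({8, 9}, {0, 4}), ({8, 9}, {1, 4}), ({0, 1, 4}, {0, 8, 9}), ({0, 1, 4}, {1, 8, 9}),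
    ({0, 1, 4}, {4, 8, 9}), ({0, 1, 8}, {0, 4, 9}), ({0, 1, 8}, {1, 4, 9}), ({0, 1, 8}, {4, 8, 9}),
    ({0, 1, 9}, {0, 4, 8}), ({0, 1, 9}, {1, 4, 8}), ({0, 1, 9}, {4, 8, 9}), ({0, 4, 8}, {0, 1, 9}),
    ({0, 4, 8}, {1, 4, 9}), ({0, 4, 8}, {1, 8, 9}), ({0, 4, 9}, {0, 1, 8}), ({0, 4, 9}, {1, 4, 8}),
    ({0, 4, 9}, {1, 8, 9}), ({0, 8, 9}, {0, 1, 4}), ({0, 8, 9}, {1, 4, 8}), ({0, 8, 9}, {1, 4, 9}),
    ({1, 4, 8}, {0, 1, 9}), ({1, 4, 8}, {0, 4, 9}), ({1, 4, 8}, {0, 8, 9}), ({1, 4, 9}, {0, 1, 8}),
    ({1, 4, 9}, {0, 4, 8}), ({1, 4, 9}, {0, 8, 9}), ({1, 8, 9}, {0, 1, 4}), ({1, 8, 9}, {0, 4, 8}),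
    ({1, 8, 9}, {0, 4, 9}), ({4, 8, 9}, {0, 1, 4}), ({4, 8, 9}, {0, 1, 8}), ({4, 8, 9}, {0, 1, 9})]

theorem covers5 : Covers K5 (Finset.univ.map e5) L5 := by decide +kernel

theorem ok5_0 : Ok K5 (Finset.univ.map e5) (({0, 1}, {4, 8}) :
    Finset (Fin 10) × Finset (Fin 10)) :=
  ok_of_tab K5 _ _ _ 12 0xf001100000000000000f0110000000000f000f010000000000f0f0ff00001000000000000000010000000000000000100900000000000001008000000000f100000700000000f010000000000000f0010000500000000f1000000400
    (by decide +kernel) (by decide +kernel)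

theorem ok5_1 : Ok K5 (Finset.univ.map e5) (({0, 1}, {4, 9}) :
    Finset (Fin 10) × Finset (Fin 10)) :=
  ok_of_tab K5 _ _ _ 12 0x1100000000000f00f0110000000000f000f010000000000f0f0ff00001000000000000000010000000000000000100900000000000001008000000000f100000700000000f010000000000000f0010000500000000f1000000400
    (by decide +kernel) (by decide +kernel)

theorem ok5_2 : Ok K5 (Finset.univ.map e5) (({0, 1}, {8, 9}) :
    Finset (Fin 10) × Finset (Fin 10)) :=
  ok_of_tab K5 _ _ _ 12 0x1110000000000000f0011000000000f00f0f01000000000f00f0ff00001000000000000000010000000000000000109000000000000001080000000000f100007000000000f010000000000000f0010000500000000f1000000400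
    (by decide +kernel) (by decide +kernel)

theorem ok5_3 : Ok K5 (Finset.univ.map e5) (({0, 4}, {1, 8}) :
    Finset (Fin 10) × Finset (Fin 10)) :=
  ok_of_tab K5 _ _ _ 12 0xf001110000000000000f0010000000000f00f0f10000000000f00f0f00001000000000000000010000000000000000100900000000000001008000000000f100000700000000f0010000050000000f100000004000000f0100000000
    (by decide +kernel) (by decide +kernel)

theorem ok5_4 : Ok K5 (Finset.univ.map e5) (({0, 4}, {1, 9}) :
    Finset (Fin 10) × Finset (Fin 10)) :=
  ok_of_tab K5 _ _ _ 12 0x1110000000000f00f0010000000000f00f0f10000000000f00f0f00001000000000000000010000000000000000100900000000000001008000000000f100000700000000f0010000050000000f100000004000000f0100000000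
    (by decide +kernel) (by decide +kernel)

theorem ok5_5 : Ok K5 (Finset.univ.map e5) (({0, 4}, {8, 9}) :
    Finset (Fin 10) × Finset (Fin 10)) :=
  ok_of_tab K5 _ _ _ 12 0x1110000000000000f0011000000000f00f0f01000000000f00f0ff00001000000000000000010000000000000000109000000000000001080000000000f100007000000000f0010000500000000f100000040000000f0100000000
    (by decide +kernel) (by decide +kernel)

theorem ok5_6 : Ok K5 (Finset.univ.map e5) (({0, 8}, {1, 4}) :
    Finset (Fin 10) × Finset (Fin 10)) :=
  ok_of_tab K5 _ _ _ 12 0xf0001100000000000f00f0100000000000f000f100000000000f0f0f0000100000000000000000100090000000000001000800000000f100000070000000f010000000000000f0010000050000000f100000004000000f0100000000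
    (by decide +kernel) (by decide +kernel)

theorem ok5_7 : Ok K5 (Finset.univ.map e5) (({0, 8}, {1, 9}) :
    Finset (Fin 10) × Finset (Fin 10)) :=
  ok_of_tab K5 _ _ _ 12 0x1110000000000f00f0010000000000f00f0f10000000000f00f0f0000100000000000000000100900000000000001008000000000f100000700000000f010000000000000f0010000050000000f100000004000000f0100000000
    (by decide +kernel) (by decide +kernel)

theorem ok5_8 : Ok K5 (Finset.univ.map e5) (({0, 8}, {4, 9}) :
    Finset (Fin 10) × Finset (Fin 10)) :=
  ok_of_tab K5 _ _ _ 12 0x1100000000000f00f0110000000000f000f010000000000f0f0ff0000100000000000000000100900000000000001008000000000f100000700000000f010000000000000f0010000500000000f100000040000000f0100000000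
    (by decide +kernel) (by decide +kernel)

theorem ok5_9 : Ok K5 (Finset.univ.map e5) (({0, 9}, {1, 4}) :
    Finset (Fin 10) × Finset (Fin 10)) :=
  ok_of_tab K5 _ _ _ 12 0xf0001100000000000f00f0100000000000f000f100000000000f0f0f0000010000000000000000100090000000000001000800000000f100000070000000f010000000000000f0010000050000000f100000004000000f0100000000
    (by decide +kernel) (by decide +kernel)

theorem ok5_10 : Ok K5 (Finset.univ.map e5) (({0, 9}, {1, 8}) :
    Finset (Fin 10) × Finset (Fin 10)) :=
  ok_of_tab K5 _ _ _ 12 0xf001110000000000000f0010000000000f00f0f10000000000f00f0f0000010000000000000000100900000000000001008000000000f100000700000000f010000000000000f0010000050000000f100000004000000f0100000000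
    (by decide +kernel) (by decide +kernel)

theorem ok5_11 : Ok K5 (Finset.univ.map e5) (({0, 9}, {4, 8}) :
    Finset (Fin 10) × Finset (Fin 10)) :=
  ok_of_tab K5 _ _ _ 12 0xf001100000000000000f0110000000000f000f010000000000f0f0ff0000010000000000000000100900000000000001008000000000f100000700000000f010000000000000f0010000500000000f100000040000000f0100000000
    (by decide +kernel) (by decide +kernel)

theorem ok5_12 : Ok K5 (Finset.univ.map e5) (({1, 4}, {0, 8}) :
    Finset (Fin 10) × Finset (Fin 10)) :=
  ok_of_tab K5 _ _ _ 12 0xf001110000000000000f0011000000000f00f0f00000000000f00f0f00001000000000000000010000000000000000100900000000000001008000000000f100000700000000f0010000050000000f1000000040000000f100000000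
    (by decide +kernel) (by decide +kernel)

theorem ok5_13 : Ok K5 (Finset.univ.map e5) (({1, 4}, {0, 9}) :
    Finset (Fin 10) × Finset (Fin 10)) :=
  ok_of_tab K5 _ _ _ 12 0x1110000000000f00f0011000000000f00f0f00000000000f00f0f00001000000000000000010000000000000000100900000000000001008000000000f100000700000000f0010000050000000f1000000040000000f100000000
    (by decide +kernel) (by decide +kernel)

theorem ok5_14 : Ok K5 (Finset.univ.map e5) (({1, 4}, {8, 9}) :
    Finset (Fin 10) × Finset (Fin 10)) :=
  ok_of_tab K5 _ _ _ 12 0x1110000000000000f0011000000000f00f0f01000000000f00f0ff00001000000000000000010000000000000000109000000000000001080000000000f100007000000000f0010000500000000f1000000400000000f100000000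
    (by decide +kernel) (by decide +kernel)

theorem ok5_15 : Ok K5 (Finset.univ.map e5) (({1, 8}, {0, 4}) :
    Finset (Fin 10) × Finset (Fin 10)) :=
  ok_of_tab K5 _ _ _ 12 0xf0001100000000000f00f0110000000000f000f000000000000f0f0f0000100000000000000000100090000000000001000800000000f100000070000000f010000000000000f0010000050000000f1000000040000000f100000000
    (by decide +kernel) (by decide +kernel)

theorem ok5_16 : Ok K5 (Finset.univ.map e5) (({1, 8}, {0, 9}) :
    Finset (Fin 10) × Finset (Fin 10)) :=
  ok_of_tab K5 _ _ _ 12 0x1110000000000f00f0011000000000f00f0f00000000000f00f0f0000100000000000000000100900000000000001008000000000f100000700000000f010000000000000f0010000050000000f1000000040000000f100000000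
    (by decide +kernel) (by decide +kernel)

theorem ok5_17 : Ok K5 (Finset.univ.map e5) (({1, 8}, {4, 9}) :
    Finset (Fin 10) × Finset (Fin 10)) :=
  ok_of_tab K5 _ _ _ 12 0x1100000000000f00f0110000000000f000f010000000000f0f0ff0000100000000000000000100900000000000001008000000000f100000700000000f010000000000000f0010000500000000f1000000400000000f100000000
    (by decide +kernel) (by decide +kernel)

theorem ok5_18 : Ok K5 (Finset.univ.map e5) (({1, 9}, {0, 4}) :
    Finset (Fin 10) × Finset (Fin 10)) :=
  ok_of_tab K5 _ _ _ 12 0xf0001100000000000f00f0110000000000f000f000000000000f0f0f0000010000000000000000100090000000000001000800000000f100000070000000f010000000000000f0010000050000000f1000000040000000f100000000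
    (by decide +kernel) (by decide +kernel)

theorem ok5_19 : Ok K5 (Finset.univ.map e5) (({1, 9}, {0, 8}) :
    Finset (Fin 10) × Finset (Fin 10)) :=
  ok_of_tab K5 _ _ _ 12 0xf001110000000000000f0011000000000f00f0f00000000000f00f0f0000010000000000000000100900000000000001008000000000f100000700000000f010000000000000f0010000050000000f1000000040000000f100000000
    (by decide +kernel) (by decide +kernel)

theorem ok5_20 : Ok K5 (Finset.univ.map e5) (({1, 9}, {4, 8}) :
    Finset (Fin 10) × Finset (Fin 10)) :=
  ok_of_tab K5 _ _ _ 12 0xf001100000000000000f0110000000000f000f010000000000f0f0ff0000010000000000000000100900000000000001008000000000f100000700000000f010000000000000f0010000500000000f1000000400000000f100000000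
    (by decide +kernel) (by decide +kernel)

theorem ok5_21 : Ok K5 (Finset.univ.map e5) (({4, 8}, {0, 1}) :
    Finset (Fin 10) × Finset (Fin 10)) :=
  ok_of_tab K5 _ _ _ 12 0xf0001110000000000f00f0010000000000f00f0f00000000000f00f00000100000000000000000100090000000000001000800000000f100000070000000f0010000005000000f100000000400000f0100000000000000f100000000
    (by decide +kernel) (by decide +kernel)

theorem ok5_22 : Ok K5 (Finset.univ.map e5) (({4, 8}, {0, 9}) :
    Finset (Fin 10) × Finset (Fin 10)) :=
  ok_of_tab K5 _ _ _ 12 0x1110000000000f00f0011000000000f00f0f00000000000f00f0f0000100000000000000000100900000000000001008000000000f100000700000000f0010000050000000f100000004000000f0100000000000000f100000000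
    (by decide +kernel) (by decide +kernel)

theorem ok5_23 : Ok K5 (Finset.univ.map e5) (({4, 8}, {1, 9}) :
    Finset (Fin 10) × Finset (Fin 10)) :=
  ok_of_tab K5 _ _ _ 12 0x1110000000000f00f0010000000000f00f0f10000000000f00f0f0000100000000000000000100900000000000001008000000000f100000700000000f0010000050000000f100000004000000f0100000000000000f100000000
    (by decide +kernel) (by decide +kernel)

theorem ok5_24 : Ok K5 (Finset.univ.map e5) (({4, 9}, {0, 1}) :
    Finset (Fin 10) × Finset (Fin 10)) :=
  ok_of_tab K5 _ _ _ 12 0xf0001110000000000f00f0010000000000f00f0f00000000000f00f00000010000000000000000100090000000000001000800000000f100000070000000f0010000005000000f100000000400000f0100000000000000f100000000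
    (by decide +kernel) (by decide +kernel)

theorem ok5_25 : Ok K5 (Finset.univ.map e5) (({4, 9}, {0, 8}) :
    Finset (Fin 10) × Finset (Fin 10)) :=
  ok_of_tab K5 _ _ _ 12 0xf001110000000000000f0011000000000f00f0f00000000000f00f0f0000010000000000000000100900000000000001008000000000f100000700000000f0010000050000000f100000004000000f0100000000000000f100000000
    (by decide +kernel) (by decide +kernel)

theorem ok5_26 : Ok K5 (Finset.univ.map e5) (({4, 9}, {1, 8}) :
    Finset (Fin 10) × Finset (Fin 10)) :=
  ok_of_tab K5 _ _ _ 12 0xf001110000000000000f0010000000000f00f0f10000000000f00f0f0000010000000000000000100900000000000001008000000000f100000700000000f0010000050000000f100000004000000f0100000000000000f100000000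
    (by decide +kernel) (by decide +kernel)

theorem ok5_27 : Ok K5 (Finset.univ.map e5) (({8, 9}, {0, 1}) :
    Finset (Fin 10) × Finset (Fin 10)) :=
  ok_of_tab K5 _ _ _ 12 0xf0001110000000000f00f0010000000000f00f0f00000000000f00f0000000100090000000000001000800000000f100000070000000f010000000000000f0010000005000000f100000000400000f0100000000000000f100000000
    (by decide +kernel) (by decide +kernel)

theorem ok5_28 : Ok K5 (Finset.univ.map e5) (({8, 9}, {0, 4}) :
    Finset (Fin 10) × Finset (Fin 10)) :=
  ok_of_tab K5 _ _ _ 12 0xf0001100000000000f00f0110000000000f000f000000000000f0f0f000000100090000000000001000800000000f100000070000000f010000000000000f0010000050000000f100000004000000f0100000000000000f100000000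
    (by decide +kernel) (by decide +kernel)

theorem ok5_29 : Ok K5 (Finset.univ.map e5) (({8, 9}, {1, 4}) :
    Finset (Fin 10) × Finset (Fin 10)) :=
  ok_of_tab K5 _ _ _ 12 0xf0001100000000000f00f0100000000000f000f100000000000f0f0f000000100090000000000001000800000000f100000070000000f010000000000000f0010000050000000f100000004000000f0100000000000000f100000000
    (by decide +kernel) (by decide +kernel)

theorem ok5_30 : Ok K5 (Finset.univ.map e5) (({0, 1, 4}, {0, 8, 9}) :
    Finset (Fin 10) × Finset (Fin 10)) :=
  ok_of_tab K5 _ _ _ 11 0x1110000000000000f0011000000000f00f0f00000000000f00f0f000001000000000000000010000000000000000109000000000000001080000000000f100007000000000f0010000500000000f100000040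
    (by decide +kernel) (by decide +kernel)

theorem ok5_31 : Ok K5 (Finset.univ.map e5) (({0, 1, 4}, {1, 8, 9}) :
    Finset (Fin 10) × Finset (Fin 10)) :=
  ok_of_tab K5 _ _ _ 11 0x1110000000000000f0010000000000f00f0f10000000000f00f0f000001000000000000000010000000000000000109000000000000001080000000000f100007000000000f0010000500000000f100000040
    (by decide +kernel) (by decide +kernel)

theorem ok5_32 : Ok K5 (Finset.univ.map e5) (({0, 1, 4}, {4, 8, 9}) :
    Finset (Fin 10) × Finset (Fin 10)) :=
  ok_of_tab K5 _ _ _ 11 0x1100000000000000f0110000000000f000f010000000000f0f0ff000001000000000000000010000000000000000109000000000000001080000000000f100007000000000f0010005000000000f100000400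
    (by decide +kernel) (by decide +kernel)

theorem ok5_33 : Ok K5 (Finset.univ.map e5) (({0, 1, 8}, {0, 4, 9}) :
    Finset (Fin 10) × Finset (Fin 10)) :=
  ok_of_tab K5 _ _ _ 11 0x1100000000000f00f0110000000000f000f000000000000f0f0f00000100000000000000000100900000000000001008000000000f100000700000000f010000000000000f0010000500000000f100000040
    (by decide +kernel) (by decide +kernel)

theorem ok5_34 : Ok K5 (Finset.univ.map e5) (({0, 1, 8}, {1, 4, 9}) :
    Finset (Fin 10) × Finset (Fin 10)) :=
  ok_of_tab K5 _ _ _ 11 0x1100000000000f00f0100000000000f000f100000000000f0f0f00000100000000000000000100900000000000001008000000000f100000700000000f010000000000000f0010000500000000f100000040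
    (by decide +kernel) (by decide +kernel)

theorem ok5_35 : Ok K5 (Finset.univ.map e5) (({0, 1, 8}, {4, 8, 9}) :
    Finset (Fin 10) × Finset (Fin 10)) :=
  ok_of_tab K5 _ _ _ 11 0x1100000000000000f0110000000000f000f010000000000f0f0ff00000100000000000000000109000000000000001080000000000f100007000000000f010000000000000f0010005000000000f100000400
    (by decide +kernel) (by decide +kernel)

theorem ok5_36 : Ok K5 (Finset.univ.map e5) (({0, 1, 9}, {0, 4, 8}) :
    Finset (Fin 10) × Finset (Fin 10)) :=
  ok_of_tab K5 _ _ _ 11 0xf001100000000000000f0110000000000f000f000000000000f0f0f00000010000000000000000100900000000000001008000000000f100000700000000f010000000000000f0010000500000000f100000040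
    (by decide +kernel) (by decide +kernel)

theorem ok5_37 : Ok K5 (Finset.univ.map e5) (({0, 1, 9}, {1, 4, 8}) :
    Finset (Fin 10) × Finset (Fin 10)) :=
  ok_of_tab K5 _ _ _ 11 0xf001100000000000000f0100000000000f000f100000000000f0f0f00000010000000000000000100900000000000001008000000000f100000700000000f010000000000000f0010000500000000f100000040
    (by decide +kernel) (by decide +kernel)

theorem ok5_38 : Ok K5 (Finset.univ.map e5) (({0, 1, 9}, {4, 8, 9}) :
    Finset (Fin 10) × Finset (Fin 10)) :=
  ok_of_tab K5 _ _ _ 11 0x1100000000000000f0110000000000f000f010000000000f0f0ff00000010000000000000000109000000000000001080000000000f100007000000000f010000000000000f0010005000000000f100000400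
    (by decide +kernel) (by decide +kernel)

theorem ok5_39 : Ok K5 (Finset.univ.map e5) (({0, 4, 8}, {0, 1, 9}) :
    Finset (Fin 10) × Finset (Fin 10)) :=
  ok_of_tab K5 _ _ _ 11 0x1110000000000f00f0010000000000f00f0f00000000000f00f000000100000000000000000100900000000000001008000000000f100000700000000f0010000050000000f100000004000000f010000000
    (by decide +kernel) (by decide +kernel)

theorem ok5_40 : Ok K5 (Finset.univ.map e5) (({0, 4, 8}, {1, 4, 9}) :
    Finset (Fin 10) × Finset (Fin 10)) :=
  ok_of_tab K5 _ _ _ 11 0x1100000000000f00f0100000000000f000f100000000000f0f0f00000100000000000000000100900000000000001008000000000f100000700000000f0010000500000000f100000040000000f010000000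
    (by decide +kernel) (by decide +kernel)

theorem ok5_41 : Ok K5 (Finset.univ.map e5) (({0, 4, 8}, {1, 8, 9}) :
    Finset (Fin 10) × Finset (Fin 10)) :=
  ok_of_tab K5 _ _ _ 11 0x1110000000000000f0010000000000f00f0f10000000000f00f0f00000100000000000000000109000000000000001080000000000f100007000000000f0010000500000000f100000040000000f010000000
    (by decide +kernel) (by decide +kernel)

theorem ok5_42 : Ok K5 (Finset.univ.map e5) (({0, 4, 9}, {0, 1, 8}) :
    Finset (Fin 10) × Finset (Fin 10)) :=
  ok_of_tab K5 _ _ _ 11 0xf001110000000000000f0010000000000f00f0f00000000000f00f000000010000000000000000100900000000000001008000000000f100000700000000f0010000050000000f100000004000000f010000000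
    (by decide +kernel) (by decide +kernel)

theorem ok5_43 : Ok K5 (Finset.univ.map e5) (({0, 4, 9}, {1, 4, 8}) :
    Finset (Fin 10) × Finset (Fin 10)) :=
  ok_of_tab K5 _ _ _ 11 0xf001100000000000000f0100000000000f000f100000000000f0f0f00000010000000000000000100900000000000001008000000000f100000700000000f0010000500000000f100000040000000f010000000
    (by decide +kernel) (by decide +kernel)

theorem ok5_44 : Ok K5 (Finset.univ.map e5) (({0, 4, 9}, {1, 8, 9}) :
    Finset (Fin 10) × Finset (Fin 10)) :=
  ok_of_tab K5 _ _ _ 11 0x1110000000000000f0010000000000f00f0f10000000000f00f0f00000010000000000000000109000000000000001080000000000f100007000000000f0010000500000000f100000040000000f010000000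
    (by decide +kernel) (by decide +kernel)

theorem ok5_45 : Ok K5 (Finset.univ.map e5) (({0, 8, 9}, {0, 1, 4}) :
    Finset (Fin 10) × Finset (Fin 10)) :=
  ok_of_tab K5 _ _ _ 11 0xf0001100000000000f00f0100000000000f000f000000000000f0f00000000100090000000000001000800000000f100000070000000f010000000000000f0010000050000000f100000004000000f010000000
    (by decide +kernel) (by decide +kernel)

theorem ok5_46 : Ok K5 (Finset.univ.map e5) (({0, 8, 9}, {1, 4, 8}) :
    Finset (Fin 10) × Finset (Fin 10)) :=
  ok_of_tab K5 _ _ _ 11 0xf001100000000000000f0100000000000f000f100000000000f0f0f0000000100900000000000001008000000000f100000700000000f010000000000000f0010000500000000f100000040000000f010000000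
    (by decide +kernel) (by decide +kernel)

theorem ok5_47 : Ok K5 (Finset.univ.map e5) (({0, 8, 9}, {1, 4, 9}) :
    Finset (Fin 10) × Finset (Fin 10)) :=
  ok_of_tab K5 _ _ _ 11 0x1100000000000f00f0100000000000f000f100000000000f0f0f0000000100900000000000001008000000000f100000700000000f010000000000000f0010000500000000f100000040000000f010000000
    (by decide +kernel) (by decide +kernel)

theorem ok5_48 : Ok K5 (Finset.univ.map e5) (({1, 4, 8}, {0, 1, 9}) :
    Finset (Fin 10) × Finset (Fin 10)) :=
  ok_of_tab K5 _ _ _ 11 0x1110000000000f00f0010000000000f00f0f00000000000f00f000000100000000000000000100900000000000001008000000000f100000700000000f0010000050000000f1000000040000000f10000000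
    (by decide +kernel) (by decide +kernel)

theorem ok5_49 : Ok K5 (Finset.univ.map e5) (({1, 4, 8}, {0, 4, 9}) :
    Finset (Fin 10) × Finset (Fin 10)) :=
  ok_of_tab K5 _ _ _ 11 0x1100000000000f00f0110000000000f000f000000000000f0f0f00000100000000000000000100900000000000001008000000000f100000700000000f0010000500000000f1000000400000000f10000000
    (by decide +kernel) (by decide +kernel)

theorem ok5_50 : Ok K5 (Finset.univ.map e5) (({1, 4, 8}, {0, 8, 9}) :
    Finset (Fin 10) × Finset (Fin 10)) :=
  ok_of_tab K5 _ _ _ 11 0x1110000000000000f0011000000000f00f0f00000000000f00f0f00000100000000000000000109000000000000001080000000000f100007000000000f0010000500000000f1000000400000000f10000000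
    (by decide +kernel) (by decide +kernel)

theorem ok5_51 : Ok K5 (Finset.univ.map e5) (({1, 4, 9}, {0, 1, 8}) :
    Finset (Fin 10) × Finset (Fin 10)) :=
  ok_of_tab K5 _ _ _ 11 0xf001110000000000000f0010000000000f00f0f00000000000f00f000000010000000000000000100900000000000001008000000000f100000700000000f0010000050000000f1000000040000000f10000000
    (by decide +kernel) (by decide +kernel)

theorem ok5_52 : Ok K5 (Finset.univ.map e5) (({1, 4, 9}, {0, 4, 8}) :
    Finset (Fin 10) × Finset (Fin 10)) :=
  ok_of_tab K5 _ _ _ 11 0xf001100000000000000f0110000000000f000f000000000000f0f0f00000010000000000000000100900000000000001008000000000f100000700000000f0010000500000000f1000000400000000f10000000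
    (by decide +kernel) (by decide +kernel)

theorem ok5_53 : Ok K5 (Finset.univ.map e5) (({1, 4, 9}, {0, 8, 9}) :
    Finset (Fin 10) × Finset (Fin 10)) :=
  ok_of_tab K5 _ _ _ 11 0x1110000000000000f0011000000000f00f0f00000000000f00f0f00000010000000000000000109000000000000001080000000000f100007000000000f0010000500000000f1000000400000000f10000000
    (by decide +kernel) (by decide +kernel)

theorem ok5_54 : Ok K5 (Finset.univ.map e5) (({1, 8, 9}, {0, 1, 4}) :
    Finset (Fin 10) × Finset (Fin 10)) :=
  ok_of_tab K5 _ _ _ 11 0xf0001100000000000f00f0100000000000f000f000000000000f0f00000000100090000000000001000800000000f100000070000000f010000000000000f0010000050000000f1000000040000000f10000000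
    (by decide +kernel) (by decide +kernel)

theorem ok5_55 : Ok K5 (Finset.univ.map e5) (({1, 8, 9}, {0, 4, 8}) :
    Finset (Fin 10) × Finset (Fin 10)) :=
  ok_of_tab K5 _ _ _ 11 0xf001100000000000000f0110000000000f000f000000000000f0f0f0000000100900000000000001008000000000f100000700000000f010000000000000f0010000500000000f1000000400000000f10000000
    (by decide +kernel) (by decide +kernel)

theorem ok5_56 : Ok K5 (Finset.univ.map e5) (({1, 8, 9}, {0, 4, 9}) :
    Finset (Fin 10) × Finset (Fin 10)) :=
  ok_of_tab K5 _ _ _ 11 0x1100000000000f00f0110000000000f000f000000000000f0f0f0000000100900000000000001008000000000f100000700000000f010000000000000f0010000500000000f1000000400000000f10000000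
    (by decide +kernel) (by decide +kernel)

theorem ok5_57 : Ok K5 (Finset.univ.map e5) (({4, 8, 9}, {0, 1, 4}) :
    Finset (Fin 10) × Finset (Fin 10)) :=
  ok_of_tab K5 _ _ _ 11 0xf0001100000000000f00f0100000000000f000f000000000000f0f00000000100090000000000001000800000000f100000070000000f0010000050000000f100000004000000f0100000000000000f10000000
    (by decide +kernel) (by decide +kernel)

theorem ok5_58 : Ok K5 (Finset.univ.map e5) (({4, 8, 9}, {0, 1, 8}) :
    Finset (Fin 10) × Finset (Fin 10)) :=
  ok_of_tab K5 _ _ _ 11 0xf001110000000000000f0010000000000f00f0f00000000000f00f00000000100900000000000001008000000000f100000700000000f0010000050000000f100000004000000f0100000000000000f10000000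
    (by decide +kernel) (by decide +kernel)

theorem ok5_59 : Ok K5 (Finset.univ.map e5) (({4, 8, 9}, {0, 1, 9}) :
    Finset (Fin 10) × Finset (Fin 10)) :=
  ok_of_tab K5 _ _ _ 11 0x1110000000000f00f0010000000000f00f0f00000000000f00f00000000100900000000000001008000000000f100000700000000f0010000050000000f100000004000000f0100000000000000f10000000
    (by decide +kernel) (by decide +kernel)

theorem ok5 : ∀ p ∈ L5, Ok K5 (Finset.univ.map e5) p := by
  unfold L5
  refine List.forall_mem_cons.2 ⟨ok5_0, ?_⟩
  refine List.forall_mem_cons.2 ⟨ok5_1, ?_⟩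
  refine List.forall_mem_cons.2 ⟨ok5_2, ?_⟩
  refine List.forall_mem_cons.2 ⟨ok5_3, ?_⟩
  refine List.forall_mem_cons.2 ⟨ok5_4, ?_⟩
  refine List.forall_mem_cons.2 ⟨ok5_5, ?_⟩
  refine List.forall_mem_cons.2 ⟨ok5_6, ?_⟩
  refine List.forall_mem_cons.2 ⟨ok5_7, ?_⟩
  refine List.forall_mem_cons.2 ⟨ok5_8, ?_⟩
  refine List.forall_mem_cons.2 ⟨ok5_9, ?_⟩
  refine List.forall_mem_cons.2 ⟨ok5_10, ?_⟩
  refine List.forall_mem_cons.2 ⟨ok5_11, ?_⟩
  refine List.forall_mem_cons.2 ⟨ok5_12, ?_⟩
  refine List.forall_mem_cons.2 ⟨ok5_13, ?_⟩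
  refine List.forall_mem_cons.2 ⟨ok5_14, ?_⟩
  refine List.forall_mem_cons.2 ⟨ok5_15, ?_⟩
  refine List.forall_mem_cons.2 ⟨ok5_16, ?_⟩
  refine List.forall_mem_cons.2 ⟨ok5_17, ?_⟩
  refine List.forall_mem_cons.2 ⟨ok5_18, ?_⟩
  refine List.forall_mem_cons.2 ⟨ok5_19, ?_⟩
  refine List.forall_mem_cons.2 ⟨ok5_20, ?_⟩
  refine List.forall_mem_cons.2 ⟨ok5_21, ?_⟩
  refine List.forall_mem_cons.2 ⟨ok5_22, ?_⟩
  refine List.forall_mem_cons.2 ⟨ok5_23, ?_⟩
  refine List.forall_mem_cons.2 ⟨ok5_24, ?_⟩
  refine List.forall_mem_cons.2 ⟨ok5_25, ?_⟩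
  refine List.forall_mem_cons.2 ⟨ok5_26, ?_⟩
  refine List.forall_mem_cons.2 ⟨ok5_27, ?_⟩
  refine List.forall_mem_cons.2 ⟨ok5_28, ?_⟩
  refine List.forall_mem_cons.2 ⟨ok5_29, ?_⟩
  refine List.forall_mem_cons.2 ⟨ok5_30, ?_⟩
  refine List.forall_mem_cons.2 ⟨ok5_31, ?_⟩
  refine List.forall_mem_cons.2 ⟨ok5_32, ?_⟩
  refine List.forall_mem_cons.2 ⟨ok5_33, ?_⟩
  refine List.forall_mem_cons.2 ⟨ok5_34, ?_⟩
  refine List.forall_mem_cons.2 ⟨ok5_35, ?_⟩
  refine List.forall_mem_cons.2 ⟨ok5_36, ?_⟩
  refine List.forall_mem_cons.2 ⟨ok5_37, ?_⟩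
  refine List.forall_mem_cons.2 ⟨ok5_38, ?_⟩
  refine List.forall_mem_cons.2 ⟨ok5_39, ?_⟩
  refine List.forall_mem_cons.2 ⟨ok5_40, ?_⟩
  refine List.forall_mem_cons.2 ⟨ok5_41, ?_⟩
  refine List.forall_mem_cons.2 ⟨ok5_42, ?_⟩
  refine List.forall_mem_cons.2 ⟨ok5_43, ?_⟩
  refine List.forall_mem_cons.2 ⟨ok5_44, ?_⟩
  refine List.forall_mem_cons.2 ⟨ok5_45, ?_⟩
  refine List.forall_mem_cons.2 ⟨ok5_46, ?_⟩
  refine List.forall_mem_cons.2 ⟨ok5_47, ?_⟩
  refine List.forall_mem_cons.2 ⟨ok5_48, ?_⟩
  refine List.forall_mem_cons.2 ⟨ok5_49, ?_⟩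
  refine List.forall_mem_cons.2 ⟨ok5_50, ?_⟩
  refine List.forall_mem_cons.2 ⟨ok5_51, ?_⟩
  refine List.forall_mem_cons.2 ⟨ok5_52, ?_⟩
  refine List.forall_mem_cons.2 ⟨ok5_53, ?_⟩
  refine List.forall_mem_cons.2 ⟨ok5_54, ?_⟩
  refine List.forall_mem_cons.2 ⟨ok5_55, ?_⟩
  refine List.forall_mem_cons.2 ⟨ok5_56, ?_⟩
  refine List.forall_mem_cons.2 ⟨ok5_57, ?_⟩
  refine List.forall_mem_cons.2 ⟨ok5_58, ?_⟩
  refine List.forall_mem_cons.2 ⟨ok5_59, ?_⟩
  exact fun p hp => absurd hp (List.not_mem_nil)

theorem not_splits (e : Fin 5 ↪ Fin G.ne) (L : List (Finset (Fin G.ne) × Finset (Fin G.ne)))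
    (h1 : Covers G (Finset.univ.map e) L) (h2 : ∀ p ∈ L, Ok G (Finset.univ.map e) p) :
    ¬ Splits G e := by
  rintro ⟨I, J, K, hU, hc, h0⟩
  have hI : I ⊆ Finset.univ.map e := by
    rw [← hU]; intro a ha; simp [ha]
  have hJ : J ⊆ Finset.univ.map e := by
    rw [← hU]; intro a ha; simp [ha]
  have hS : (Finset.univ.map e).card = 5 := by simp
  have hK : K = Finset.univ.map e \ (I ∪ J) := by
    rcases hc with ⟨h1, h2, h3, h4⟩ | ⟨h1, h2, h3, h4⟩
    · have hd : (I ∪ J).card = 4 := by
        have := Finset.card_union_add_card_inter I J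
        rw [h3, Finset.card_empty] at this
        omega
      have hsub : Finset.univ.map e \ (I ∪ J) ⊆ K := by
        intro a ha
        rw [← hU, Finset.mem_sdiff, Finset.mem_union] at ha
        exact ha.1.resolve_left ha.2
      symm
      apply Finset.eq_of_subset_of_card_le hsub
      rw [Finset.card_sdiff_of_subset (Finset.union_subset hI hJ), hS, hd, h4]
    · rw [h4, Finset.union_empty] at hU
      rw [h4, hU, Finset.sdiff_self]
  have h6 := h2 _ (h1 I (Finset.mem_powerset.2 hI) J (Finset.mem_powerset.2 hJ) (by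
      rcases hc with ⟨h1, h2, h3, h4⟩ | ⟨h1, h2, h3, h4⟩
      · exact Or.inl ⟨h1, h2, h3⟩
      · exact Or.inr ⟨h1, h2, h3⟩))
  unfold Ok at h6
  dsimp only at h6
  rw [← hK] at h6
  exact h6 h0

/-! ### degrees -/

variable {G}

theorem degreeOf_le_of_dvd {σ : Type*} {p q : MvPolynomial σ ℤ} (h : q ∣ p) (hp : p ≠ 0)
    (e : σ) : degreeOf e q ≤ degreeOf e p := by
  obtain ⟨r, rfl⟩ := h
  have hq : q ≠ 0 := left_ne_zero_of_mul hp
  have hr : r ≠ 0 := right_ne_zero_of_mul hp
  rw [degreeOf_mul_eq hq hr]
  omega

theorem degreeOf_monomials {n : ℕ} (e : Fin n) (s : Finset (Fin n)) :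
    degreeOf e (∏ i ∈ s, (X i : MvPolynomial (Fin n) ℤ)) ≤ 1 := by
  refine (degreeOf_prod_le e s _).trans ?_
  have : ∀ i ∈ s, degreeOf e (X i : MvPolynomial (Fin n) ℤ) ≤ if i = e then 1 else 0 := by
    intro i _
    rw [degreeOf_X]
    split_ifs with h1 h2 h2
    · exact le_refl _
    · exact absurd h1.symm h2
    · exact absurd h2.symm h1
    · exact le_refl _
  refine (Finset.sum_le_sum this).trans ?_
  rw [Finset.sum_ite_eq']
  split_ifs <;> norm_num

theorem degreeOf_add_le' {n : ℕ} (e : Fin n) (p q : MvPolynomial (Fin n) ℤ)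
    (hp : degreeOf e p ≤ 1) (hq : degreeOf e q ≤ 1) : degreeOf e (p + q) ≤ 1 :=
  (degreeOf_add_le e p q).trans (max_le hp hq)

theorem degreeOf_sub_le' {n : ℕ} (e : Fin n) (p q : MvPolynomial (Fin n) ℤ)
    (hp : degreeOf e p ≤ 1) (hq : degreeOf e q ≤ 1) : degreeOf e (p - q) ≤ 1 :=
  (degreeOf_sub_le e p q).trans (max_le hp hq)

/-! ### the five-invariants -/

theorem d33_0 : dterms K33 {e33 0, e33 1} {e33 2, e33 3} {e33 4} =
    [(1, [6, 7])] :=
  (dterms_tab K33 _ _ _ 12 0x1000000000000f00f1000000000000f0001000000000000f00010000000000000fff0000010000000000000000100090000000000001000800000000f100000070000000f010000000000000f0010000000000000f0010000400 (by decide +kernel)).trans (by decide +kernel)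

theorem d33_1 : dterms K33 {e33 0, e33 2, e33 4} {e33 1, e33 3, e33 4} ∅ =
    [(1, [2]), (1, [5])] :=
  (dterms_tab K33 _ _ _ 11 0x1100000000000000f0100000000000f0000000000000000f0f0100000000000000ff0000000100900000000000001008000000000f100000700000000f0100000000000000f0010000400000000f01000000 (by decide +kernel)).trans (by decide +kernel)

theorem d33_2 : dterms K33 {e33 0, e33 2} {e33 1, e33 3} {e33 4} =
    [(1, [2, 5])] :=
  (dterms_tab K33 _ _ _ 12 0x1100000000000f00f0100000000000f0000000000000000f0f0100000000000000ff0000010000000000000000100090000000000001000800000000f100000070000000f0100000000000000f0010000040000000f010000000 (by decide +kernel)).trans (by decide +kernel)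

theorem d33_3 : dterms K33 {e33 0, e33 1, e33 4} {e33 2, e33 3, e33 4} ∅ =
    [(1, [6]), (1, [7])] :=
  (dterms_tab K33 _ _ _ 11 0x1000000000000000f1000000000000f0001000000000000f00010000000000000fff0000000100900000000000001008000000000f100000700000000f010000000000000f0010000000000000f001000400 (by decide +kernel)).trans (by decide +kernel)

theorem l33 : ((outside K33 {e33 2, e33 3}).length = (outside K33 {e33 0, e33 1}).length ∧
    (outside K33 {e33 1, e33 3, e33 4}).length = (outside K33 {e33 0, e33 2, e33 4}).length) ∧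
    (outside K33 {e33 1, e33 3}).length = (outside K33 {e33 0, e33 2}).length ∧
    (outside K33 {e33 2, e33 3, e33 4}).length = (outside K33 {e33 0, e33 1, e33 4}).length := by
  decide +kernel

theorem d5_0 : dterms K5 {e5 0, e5 1} {e5 2, e5 3} {e5 4} =
    [(-1, [2, 3, 5, 7]), (-1, [2, 5, 6, 7])] :=
  (dterms_tab K5 _ _ _ 12 0xf001100000000000000f0110000000000f000f010000000000f0f0ff00001000000000000000010000000000000000100900000000000001008000000000f100000700000000f010000000000000f0010000500000000f1000000400 (by decide +kernel)).trans (by decide +kernel)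

theorem d5_1 : dterms K5 {e5 0, e5 2, e5 4} {e5 1, e5 3, e5 4} ∅ =
    [(1, [2, 3, 6]), (1, [3, 6, 7]), (-1, [3, 6, 7]), (-1, [5, 6, 7]), (1, [5, 6, 7])] :=
  (dterms_tab K5 _ _ _ 11 0x1110000000000000f0010000000000f00f0f10000000000f00f0f00000010000000000000000109000000000000001080000000000f100007000000000f0010000500000000f100000040000000f010000000 (by decide +kernel)).trans (by decide +kernel)

theorem d5_2 : dterms K5 {e5 0, e5 2} {e5 1, e5 3} {e5 4} =
    [(-1, [3, 5, 6, 7])] :=
  (dterms_tab K5 _ _ _ 12 0xf001110000000000000f0010000000000f00f0f10000000000f00f0f00001000000000000000010000000000000000100900000000000001008000000000f100000700000000f0010000050000000f100000004000000f0100000000 (by decide +kernel)).trans (by decide +kernel)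

theorem d5_3 : dterms K5 {e5 0, e5 1, e5 4} {e5 2, e5 3, e5 4} ∅ =
    [(-1, [2, 3, 7]), (1, [2, 6, 7]), (-1, [2, 6, 7]), (-1, [2, 5, 6]), (-1, [2, 5, 7]),
      (-1, [5, 6, 7]), (1, [5, 6, 7])] :=
  (dterms_tab K5 _ _ _ 11 0x1100000000000000f0110000000000f000f010000000000f0f0ff00000010000000000000000109000000000000001080000000000f100007000000000f010000000000000f0010005000000000f100000400 (by decide +kernel)).trans (by decide +kernel)

theorem l5 : ((outside K5 {e5 2, e5 3}).length = (outside K5 {e5 0, e5 1}).length ∧
    (outside K5 {e5 1, e5 3, e5 4}).length = (outside K5 {e5 0, e5 2, e5 4}).length) ∧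
    (outside K5 {e5 1, e5 3}).length = (outside K5 {e5 0, e5 2}).length ∧
    (outside K5 {e5 2, e5 3, e5 4}).length = (outside K5 {e5 0, e5 1, e5 4}).length := by
  decide +kernel

end Pool.Agent.Q102.FiveInv
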