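import Mathlib
import Pool.Agent.Q102.DistTable

/-!
# Geodesics of the integer grid and sets with few points on a common geodesic
-/

set_option autoImplicit false

open SimpleGraph Finset

namespace Pool.Agent.Q102.Grid

variable {n : ℕ}

/-- The `n`-dimensional infinite grid: two points of `ℤ ^ n` are adjacent when they differ by `1` in
exactly one coordinate. -/
def grid (n : ℕ) : SimpleGraph (Fin n → ℤ) where
  Adj x y := ∃ i, |x i - y i| = 1 ∧ ∀ j, j ≠ i → x j = y j
  symm := ⟨fun x y ⟨i, h, hj⟩ => ⟨i, by rw [abs_sub_comm]; exact h, fun j h' => (hj j h').symm⟩⟩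
  loopless := ⟨fun x ⟨i, h, _⟩ => by simp at h⟩

/-- The `ℓ¹` distance. -/
def D (x y : Fin n → ℤ) : ℕ := ∑ j, (x j - y j).natAbs

theorem D_self (x : Fin n → ℤ) : D x x = 0 := by simp [D]

theorem D_triangle (x y z : Fin n → ℤ) : D x z ≤ D x y + D y z := by
  rw [D, D, D, ← sum_add_distrib]
  exact sum_le_sum fun j _ => by omega

theorem D_adj {x y : Fin n → ℤ} (h : (grid n).Adj x y) : D x y = 1 := by
  obtain ⟨i, h, hj⟩ := h
  rw [D, Finset.sum_eq_single i]
  · have h1 : ((x i - y i).natAbs : ℤ) = 1 := by
      rw [← Int.abs_eq_natAbs]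
      exact h
    exact_mod_cast h1
  · intro j _ hji
    rw [hj j hji]
    simp
  · simp

theorem exists_step (x y : Fin n → ℤ) (h : x ≠ y) : ∃ w, (grid n).Adj x w ∧ D w y + 1 = D x y := by
  obtain ⟨i, hi⟩ : ∃ i, x i ≠ y i := by
    by_contra hcon
    push Not at hcon
    exact h (funext hcon)
  have key : ∀ e : ℤ, |e| = 1 → (x i + e - y i).natAbs + 1 = (x i - y i).natAbs →
      ∃ w, (grid n).Adj x w ∧ D w y + 1 = D x y := by
    intro e he he'
    refine ⟨Function.update x i (x i + e), ⟨i, by simp [he], fun j hj => by simp [hj]⟩, ?_⟩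
    rw [D, D, ← Finset.add_sum_erase _ _ (mem_univ i), ← Finset.add_sum_erase _ _ (mem_univ i)]
    have h1 : ∑ j ∈ univ.erase i, (Function.update x i (x i + e) j - y j).natAbs =
        ∑ j ∈ univ.erase i, (x j - y j).natAbs := by
      refine sum_congr rfl fun j hj => ?_
      rw [Function.update_of_ne (mem_erase.mp hj).1]
    rw [h1, Function.update_self]
    omega
  rcases lt_or_gt_of_ne hi with h1 | h1
  · exact key 1 (by simp) (by omega)
  · exact key (-1) (by simp) (by omega)

theorem dist_eq (x y : Fin n → ℤ) : (grid n).dist x y = D x y := by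
  refine Pool.Agent.Q102.DistTable.dist_eq D_self exists_step ?_ x y
  intro u w v h
  have h1 := D_triangle u w v
  rw [D_adj h] at h1
  omega

theorem connected (n : ℕ) : (grid n).Connected :=
  Pool.Agent.Q102.DistTable.connected D_self exists_step

/-- Points along a walk. -/
theorem D_getVert {a b : Fin n → ℤ} (p : (grid n).Walk a b) (i k : ℕ) (h : i + k ≤ p.length) :
    D (p.getVert i) (p.getVert (i + k)) ≤ k := by
  induction k with
  | zero => simp [D_self]
  | succ k ih =>
    have h1 := ih (by omega)
    have h2 := p.adj_getVert_succ (i := i + k) (by omega)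
    have h3 := D_triangle (p.getVert i) (p.getVert (i + k)) (p.getVert (i + k + 1))
    rw [D_adj h2] at h3
    have h4 : i + (k + 1) = i + k + 1 := by ring
    rw [h4]
    omega

/-- `R τ x y`: going from `x` to `y` the coordinates move (weakly) in the directions `τ`. -/
def R (τ : Fin n → Bool) (x y : Fin n → ℤ) : Prop :=
  ∀ j, (τ j = true → x j ≤ y j) ∧ (τ j = false → y j ≤ x j)

theorem R_refl (τ : Fin n → Bool) (x : Fin n → ℤ) : R τ x x := fun _ => ⟨fun _ => le_rfl, fun _ => le_rfl⟩

theorem R_trans {τ : Fin n → Bool} {x y z : Fin n → ℤ} (h : R τ x y) (h' : R τ y z) : R τ x z :=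
  fun j => ⟨fun hj => ((h j).1 hj).trans ((h' j).1 hj), fun hj => ((h' j).2 hj).trans ((h j).2 hj)⟩

theorem R_antisymm {τ : Fin n → Bool} {x y : Fin n → ℤ} (h : R τ x y) (h' : R τ y x) : x = y := by
  funext j
  cases hj : τ j with
  | true => exact le_antisymm ((h j).1 hj) ((h' j).1 hj)
  | false => exact le_antisymm ((h' j).2 hj) ((h j).2 hj)

theorem R_not {τ : Fin n → Bool} {x y : Fin n → ℤ} (h : R τ x y) : R (fun j => !τ j) y x := by
  intro j
  constructor
  · intro hj
    exact (h j).2 (by simpa using hj)
  · intro hj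
    exact (h j).1 (by simpa using hj)

/-- The signed sum of the coordinates. -/
def f (τ : Fin n → Bool) (x : Fin n → ℤ) : ℤ := ∑ j, if τ j then x j else - x j

theorem D_eq_of_R {τ : Fin n → Bool} {x y : Fin n → ℤ} (h : R τ x y) :
    (D x y : ℤ) = f τ y - f τ x := by
  rw [D, f, f, ← sum_sub_distrib, Nat.cast_sum]
  refine sum_congr rfl fun j _ => ?_
  cases hj : τ j with
  | true =>
    have := (h j).1 hj
    simp only [if_true]
    omega
  | false =>
    have := (h j).2 hj
    simp only [Bool.false_eq_true, if_false]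
    omega

theorem D_pos {x y : Fin n → ℤ} (h : x ≠ y) : 0 < D x y := by
  obtain ⟨w, -, hw⟩ := exists_step x y h
  omega

/-- Vertices on a geodesic are comparable. -/
theorem comparable_of_geodesic {a b : Fin n → ℤ} (p : (grid n).Walk a b)
    (hp : p.length = (grid n).dist a b) :
    ∃ τ : Fin n → Bool, ∀ x ∈ p.support, ∀ y ∈ p.support, R τ x y ∨ R τ y x := by
  rw [dist_eq] at hp
  refine ⟨fun j => decide (a j ≤ b j), ?_⟩
  have key : ∀ i l, i ≤ l → l ≤ p.length →
      R (fun j => decide (a j ≤ b j)) (p.getVert i) (p.getVert l) := by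
    intro i l hil hl
    have h1 := D_getVert p 0 i (by omega)
    have h2 := D_getVert p i (l - i) (by omega)
    have h3 := D_getVert p l (p.length - l) (by omega)
    rw [zero_add, Walk.getVert_zero] at h1
    rw [Nat.add_sub_cancel' hil] at h2
    rw [Nat.add_sub_cancel' hl, Walk.getVert_length] at h3
    generalize p.getVert i = x at *
    generalize p.getVert l = y at *
    have h4 : D a x + D x y + D y b ≤ D a b := by omega
    have h5 : ∀ j ∈ (univ : Finset (Fin n)), (a j - b j).natAbs ≤
        (a j - x j).natAbs + (x j - y j).natAbs + (y j - b j).natAbs := fun j _ => by omega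
    have h6 : ∑ j, (a j - b j).natAbs = ∑ j, ((a j - x j).natAbs + (x j - y j).natAbs +
        (y j - b j).natAbs) := by
      apply le_antisymm (sum_le_sum h5)
      rw [sum_add_distrib, sum_add_distrib]
      exact h4
    have h7 := (sum_eq_sum_iff_of_le h5).mp h6
    intro j
    have h8 := h7 j (mem_univ j)
    simp only [decide_eq_true_eq, decide_eq_false_iff_not, not_le]
    constructor
    · intro h
      omega
    · intro h
      omega
  intro x hx y hy
  obtain ⟨i, rfl, hi⟩ := Walk.mem_support_iff_exists_getVert.mp hx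
  obtain ⟨l, rfl, hl⟩ := Walk.mem_support_iff_exists_getVert.mp hy
  rcases le_total i l with h | h
  · exact Or.inl (key i l h hl)
  · exact Or.inr (key l i h hi)

/-- Pairwise comparable points lie on a geodesic. -/
theorem geodesic_of_chain {τ : Fin n → Bool} : ∀ (m : ℕ) (T : Finset (Fin n → ℤ)), T.card = m + 1 →
    (∀ x ∈ T, ∀ y ∈ T, R τ x y ∨ R τ y x) →
    ∃ a b, b ∈ T ∧ (∀ x ∈ T, R τ a x ∧ R τ x b) ∧ ∃ p : (grid n).Walk a b,
      p.length = D a b ∧ ∀ x ∈ T, x ∈ p.support := by
  intro m
  induction m with
  | zero =>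
    intro T hT _
    obtain ⟨a, rfl⟩ := card_eq_one.mp hT
    refine ⟨a, a, by simp, ?_, Walk.nil, by simp [D_self], by simp⟩
    intro x hx
    rw [mem_singleton.mp hx]
    exact ⟨R_refl _ _, R_refl _ _⟩
  | succ m ih =>
    intro T hT hcomp
    have hne : T.Nonempty := by
      rw [← card_pos]
      omega
    obtain ⟨b, hb, hmax⟩ := exists_max_image T (f τ) hne
    have htop : ∀ x ∈ T, R τ x b := by
      intro x hx
      rcases hcomp x hx b hb with h | h
      · exact h
      · by_cases hxb : x = b
        · rw [hxb]
          exact R_refl _ _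
        · have h1 := D_eq_of_R h
          have h2 := D_pos (Ne.symm hxb)
          have h3 := hmax x hx
          omega
    have hcard : (T.erase b).card = m + 1 := by
      rw [card_erase_of_mem hb, hT]
      rfl
    obtain ⟨a, b', hb', hab, p, hp, hpT⟩ := ih (T.erase b) hcard
      fun x hx y hy => hcomp x (mem_of_mem_erase hx) y (mem_of_mem_erase hy)
    have hb'b : R τ b' b := htop b' (mem_of_mem_erase hb')
    have hab' : R τ a b' := (hab b' hb').1
    obtain ⟨q, hq⟩ := (connected n).exists_walk_length_eq_dist b' b
    rw [dist_eq] at hq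
    refine ⟨a, b, hb, ?_, p.append q, ?_, ?_⟩
    · intro x hx
      refine ⟨?_, htop x hx⟩
      by_cases hxb : x = b
      · rw [hxb]
        exact R_trans hab' hb'b
      · exact (hab x (mem_erase.mpr ⟨hxb, hx⟩)).1
    · rw [Walk.length_append, hp, hq]
      have h1 := D_eq_of_R hab'
      have h2 := D_eq_of_R hb'b
      have h3 := D_eq_of_R (R_trans hab' hb'b)
      omega
    · intro x hx
      rw [Walk.mem_support_append_iff]
      by_cases hxb : x = b
      · right
        rw [hxb]
        exact q.end_mem_support
      · exact Or.inl (hpT x (mem_erase.mpr ⟨hxb, hx⟩))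

/-- A pigeonhole principle for several partial orders. -/
theorem card_le_of_orders {α ι : Type*} [Fintype ι] [DecidableEq α] (S : Finset α)
    (Q : ι → α → α → Prop) (hrefl : ∀ i x, Q i x x)
    (htrans : ∀ i x y z, Q i x y → Q i y z → Q i x z) (hanti : ∀ i x y, Q i x y → Q i y x → x = y)
    (hcomp : ∀ x ∈ S, ∀ y ∈ S, x ≠ y → ∃ i, Q i x y ∨ Q i y x) (k : ℕ)
    (hchain : ∀ i, ∀ T ⊆ S, (∀ x ∈ T, ∀ y ∈ T, Q i x y ∨ Q i y x) → T.card ≤ k) :
    S.card ≤ k ^ Fintype.card ι := by
  classical
  -- chains with top element `x`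
  let C : ι → α → Finset (Finset α) := fun i x => S.powerset.filter fun T =>
    x ∈ T ∧ (∀ y ∈ T, Q i y x) ∧ ∀ y ∈ T, ∀ z ∈ T, Q i y z ∨ Q i z y
  let L : ι → α → ℕ := fun i x => (C i x).sup card
  have hmem : ∀ i x T, T ∈ C i x ↔ T ⊆ S ∧ x ∈ T ∧ (∀ y ∈ T, Q i y x) ∧
      ∀ y ∈ T, ∀ z ∈ T, Q i y z ∨ Q i z y := by
    intro i x T
    simp only [C, mem_filter, mem_powerset]
  have hL1 : ∀ i, ∀ x ∈ S, 1 ≤ L i x := by
    intro i x hx
    have h1 : ({x} : Finset α) ∈ C i x := by
      rw [hmem]
      refine ⟨by simpa using hx, by simp, ?_, ?_⟩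
      · intro y hy
        rw [mem_singleton.mp hy]
        exact hrefl i x
      · intro y hy z hz
        rw [mem_singleton.mp hy, mem_singleton.mp hz]
        exact Or.inl (hrefl i x)
    have h2 : ({x} : Finset α).card ≤ L i x := le_sup (f := card) h1
    rwa [card_singleton] at h2
  have hLk : ∀ i x, L i x ≤ k := by
    intro i x
    refine Finset.sup_le fun T hT => ?_
    rw [hmem] at hT
    exact hchain i T hT.1 hT.2.2.2
  have hlt : ∀ i, ∀ x ∈ S, ∀ y ∈ S, x ≠ y → Q i x y → L i x < L i y := by
    intro i x hx y hy hxy hQ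
    have hne : (C i x).Nonempty := by
      refine ⟨{x}, ?_⟩
      rw [hmem]
      refine ⟨by simpa using hx, by simp, ?_, ?_⟩
      · intro y hy
        rw [mem_singleton.mp hy]
        exact hrefl i x
      · intro y hy z hz
        rw [mem_singleton.mp hy, mem_singleton.mp hz]
        exact Or.inl (hrefl i x)
    obtain ⟨T, hT, hTmax⟩ := exists_mem_eq_sup (C i x) hne card
    have hLx : L i x = T.card := hTmax
    rw [hmem] at hT
    obtain ⟨hTS, hxT, htop, hch⟩ := hT
    have hyT : y ∉ T := fun h => hxy (hanti i x y hQ (htop y h))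
    have h1 : insert y T ∈ C i y := by
      rw [hmem]
      have h2 : ∀ z ∈ insert y T, Q i z y := by
        intro z hz
        rcases mem_insert.mp hz with rfl | hz
        · exact hrefl i _
        · exact htrans i z x y (htop z hz) hQ
      refine ⟨insert_subset hy hTS, mem_insert_self _ _, h2, ?_⟩
      intro z hz w hw
      rcases mem_insert.mp hz with rfl | hz'
      · exact Or.inr (h2 w hw)
      · rcases mem_insert.mp hw with rfl | hw'
        · exact Or.inl (h2 z hz)
        · exact hch z hz' w hw'
    have h3 := le_sup (f := card) h1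
    rw [card_insert_of_notMem hyT] at h3
    rw [hLx]
    exact h3
  have hcard : (univ : Finset (ι → Fin k)).card = k ^ Fintype.card ι := by
    rw [card_univ, Fintype.card_fun, Fintype.card_fin]
  rcases S.eq_empty_or_nonempty with rfl | ⟨x₀, hx₀⟩
  · simp
  rw [← hcard]
  refine card_le_card_of_injOn (fun x i => if h : L i x - 1 < k then ⟨L i x - 1, h⟩ else
    ⟨0, ?_⟩) (by simp) ?_
  · have := hL1 i x₀ hx₀
    have := hLk i x₀
    omega
  · intro x hx y hy hxy
    by_contra hne
    obtain ⟨i, hi⟩ := hcomp x hx y hy hne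
    have h1 := congrFun hxy i
    have a1 := hL1 i x hx
    have a2 := hLk i x
    have a3 := hL1 i y hy
    have a4 := hLk i y
    simp only at h1
    rw [dif_pos (by omega), dif_pos (by omega), Fin.mk.injEq] at h1
    rcases hi with hi | hi
    · have := hlt i x hx y hy hne hi
      omega
    · have := hlt i y hy x hx (Ne.symm hne) hi
      omega

/-- Two points are comparable for some direction moving forward in the first coordinate. -/
theorem exists_R (x y : Fin (n + 1) → ℤ) :
    ∃ τ : Fin (n + 1) → Bool, τ 0 = true ∧ (R τ x y ∨ R τ y x) := by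
  rcases le_total (x 0) (y 0) with h | h
  · refine ⟨fun j => decide (x j ≤ y j), by simpa using h, Or.inl ?_⟩
    intro j
    simp only [decide_eq_true_eq, decide_eq_false_iff_not, not_le]
    exact ⟨fun h => h, fun h => h.le⟩
  · refine ⟨fun j => decide (y j ≤ x j), by simpa using h, Or.inr ?_⟩
    intro j
    simp only [decide_eq_true_eq, decide_eq_false_iff_not, not_le]
    exact ⟨fun h => h, fun h => h.le⟩

/-- The directions moving forward in the first coordinate. -/
abbrev Dir (n : ℕ) : Type := {τ : Fin (n + 1) → Bool // τ 0 = true}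

theorem card_Dir (n : ℕ) : Fintype.card (Dir n) = 2 ^ n := by
  have e : Dir n ≃ (Fin n → Bool) := {
    toFun := fun τ j => τ.1 j.succ
    invFun := fun s => ⟨Fin.cons true s, rfl⟩
    left_inv := by
      rintro ⟨τ, hτ⟩
      apply Subtype.ext
      funext j
      refine Fin.cases ?_ (fun i => ?_) j
      · simp [hτ]
      · simp
    right_inv := by
      intro s
      funext j
      simp }
  rw [Fintype.card_congr e]
  simp

/-- The upper bound. -/
theorem card_le (S : Finset (Fin (n + 1) → ℤ)) (k : ℕ)
    (hchain : ∀ τ, ∀ T ⊆ S, (∀ x ∈ T, ∀ y ∈ T, R τ x y ∨ R τ y x) → T.card ≤ k) :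
    S.card ≤ k ^ 2 ^ n := by
  classical
  rw [← card_Dir n]
  refine card_le_of_orders S (fun (τ : Dir n) x y => R τ.1 x y) (fun τ x => R_refl _ _)
    (fun τ x y z h h' => R_trans h h') (fun τ x y h h' => R_antisymm h h') ?_ k
    (fun τ T hT h => hchain τ.1 T hT h)
  intro x _ y _ _
  obtain ⟨τ, h1, h2⟩ := exists_R x y
  exact ⟨⟨τ, h1⟩, h2⟩

/-- The sign of a direction. -/
def sg (b : Bool) : ℤ := if b then 1 else -1

/-- The construction: for a set `A` of directions, no two of them opposite, there are `k ^ |A|` points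
such that all pairs are comparable only in directions of `A` and chains have at most `k`
elements; moreover different points differ by at least `g` in every coordinate. -/
theorem exists_points (k g : ℕ) (hk : 1 ≤ k) (A : Finset (Fin (n + 1) → Bool))
    (hA : ∀ σ ∈ A, (fun j => !σ j) ∉ A) :
    ∃ X : Finset (Fin (n + 1) → ℤ), X.card = k ^ A.card ∧
      (∀ x ∈ X, ∀ y ∈ X, x ≠ y → ∀ τ, R τ x y → τ ∈ A ∨ (fun j => !τ j) ∈ A) ∧
      (∀ τ, ∀ T ⊆ X, (∀ x ∈ T, ∀ y ∈ T, R τ x y ∨ R τ y x) → T.card ≤ k) ∧
      ∀ x ∈ X, ∀ y ∈ X, x ≠ y → ∀ j, (g : ℤ) ≤ |x j - y j| := by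
  classical
  induction A using Finset.induction_on with
  | empty =>
    refine ⟨{0}, by simp, ?_, ?_, ?_⟩
    · intro x hx y hy hxy
      exact absurd ((mem_singleton.mp hx).trans (mem_singleton.mp hy).symm) hxy
    · intro τ T hT _
      exact (card_le_card hT).trans (by simpa using hk)
    · intro x hx y hy hxy
      exact absurd ((mem_singleton.mp hx).trans (mem_singleton.mp hy).symm) hxy
  | insert σ A hσ ih =>
    obtain ⟨X, hXc, hXR, hXT, hXg⟩ := ih (fun τ hτ h => hA τ (mem_insert_of_mem hτ)
      (mem_insert_of_mem h))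
    have hσ' : (fun j => !σ j) ∉ A := fun h => hA σ (mem_insert_self _ _) (mem_insert_of_mem h)
    -- a bound for the coordinates
    obtain ⟨M, hM⟩ : ∃ M : ℤ, 0 ≤ M ∧ ∀ x ∈ X, ∀ j, |x j| ≤ M := by
      refine ⟨∑ x ∈ X, ∑ j, |x j|, sum_nonneg fun x _ => sum_nonneg fun j _ => abs_nonneg _, ?_⟩
      intro x hx j
      calc |x j| ≤ ∑ j, |x j| := single_le_sum (f := fun j => |x j|) (fun j _ => abs_nonneg _)
            (mem_univ j)
        _ ≤ ∑ x ∈ X, ∑ j, |x j| := single_le_sum (f := fun x : Fin (n + 1) → ℤ => ∑ j, |x j|)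
            (fun x _ => sum_nonneg fun j _ => abs_nonneg _) hx
    obtain ⟨hM0, hM⟩ := hM
    set L : ℤ := 2 * M + g + 1 with hL
    let φ : Fin k × (Fin (n + 1) → ℤ) → (Fin (n + 1) → ℤ) :=
      fun p j => p.2 j + (p.1.val : ℤ) * L * sg (σ j)
    -- different copies are far apart in the direction `σ`
    have hfar : ∀ d d' : Fin k, d < d' → ∀ x ∈ X, ∀ y ∈ X, ∀ j,
        (σ j = true → (g : ℤ) < φ (d', y) j - φ (d, x) j) ∧
        (σ j = false → (g : ℤ) < φ (d, x) j - φ (d', y) j) := by
      intro d d' hdd x hx y hy j
      have h1 := hM x hx j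
      have h2 := hM y hy j
      rw [abs_le] at h1 h2
      have h3 : (d.val : ℤ) + 1 ≤ d'.val := by exact_mod_cast hdd
      have h4 : L ≤ ((d'.val : ℤ) - d.val) * L := by nlinarith
      constructor
      · intro hj
        simp only [φ, hj, sg, if_true]
        nlinarith
      · intro hj
        simp only [φ, hj, sg, Bool.false_eq_true, if_false]
        nlinarith
    have hsame : ∀ (d : Fin k) (x y : Fin (n + 1) → ℤ) (j : Fin (n + 1)),
        φ (d, x) j - φ (d, y) j = x j - y j := by
      intro d x y j
      simp only [φ]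
      ring
    have hinj : Set.InjOn φ ((univ : Finset (Fin k)) ×ˢ X : Finset _) := by
      rintro ⟨d, x⟩ hx ⟨d', y⟩ hy hxy
      rw [mem_coe, mem_product] at hx hy
      have hdd : d = d' := by
        by_contra hne
        rcases lt_or_gt_of_ne hne with h | h
        · have h1 := hfar d d' h x hx.2 y hy.2 0
          rw [← hxy] at h1
          cases hj : σ 0 with
          | true =>
            have := h1.1 hj
            simp at this
            omega
          | false =>
            have := h1.2 hj
            simp at this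
            omega
        · have h1 := hfar d' d h y hy.2 x hx.2 0
          rw [← hxy] at h1
          cases hj : σ 0 with
          | true =>
            have := h1.1 hj
            simp at this
            omega
          | false =>
            have := h1.2 hj
            simp at this
            omega
      subst hdd
      have hxy' : x = y := by
        funext j
        have h1 := hsame d x y j
        rw [hxy] at h1
        simp only [sub_self] at h1
        omega
      rw [hxy']
    -- comparability in different copies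
    have hdiff : ∀ d d' : Fin k, d < d' → ∀ x ∈ X, ∀ y ∈ X, ∀ τ,
        (R τ (φ (d, x)) (φ (d', y)) → τ = σ) ∧
        (R τ (φ (d', y)) (φ (d, x)) → τ = fun j => !σ j) := by
      intro d d' hdd x hx y hy τ
      constructor
      · intro h
        funext j
        have h1 := hfar d d' hdd x hx y hy j
        have h2 := h j
        cases hτ : τ j <;> cases hs : σ j
        · rfl
        · have := h1.1 hs
          have := h2.2 hτ
          omega
        · have := h1.2 hs
          have := h2.1 hτ
          omega
        · rfl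
      · intro h
        funext j
        have h1 := hfar d d' hdd x hx y hy j
        have h2 := h j
        cases hτ : τ j <;> cases hs : σ j
        · have := h1.2 hs
          have := h2.2 hτ
          omega
        · rfl
        · rfl
        · have := h1.1 hs
          have := h2.1 hτ
          omega
    have hRsame : ∀ (d : Fin k) (x y : Fin (n + 1) → ℤ) τ,
        R τ (φ (d, x)) (φ (d, y)) ↔ R τ x y := by
      intro d x y τ
      have h1 := hsame d x y
      constructor
      · intro h j
        have h2 := h1 j
        refine ⟨fun hj => ?_, fun hj => ?_⟩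
        · have := (h j).1 hj
          omega
        · have := (h j).2 hj
          omega
      · intro h j
        have h2 := h1 j
        refine ⟨fun hj => ?_, fun hj => ?_⟩
        · have := (h j).1 hj
          omega
        · have := (h j).2 hj
          omega
    have hnn : ∀ τ : Fin (n + 1) → Bool, (fun j => !(fun j => !τ j) j) = τ := by
      intro τ
      funext j
      simp
    refine ⟨((univ : Finset (Fin k)) ×ˢ X).image φ, ?_, ?_, ?_, ?_⟩
    · rw [card_image_of_injOn hinj, card_product, card_univ, Fintype.card_fin, hXc,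
        card_insert_of_notMem hσ, pow_succ, mul_comm]
    · intro u hu v hv huv τ hR
      obtain ⟨⟨d, x⟩, hx, rfl⟩ := mem_image.mp hu
      obtain ⟨⟨d', y⟩, hy, rfl⟩ := mem_image.mp hv
      rw [mem_product] at hx hy
      rcases lt_trichotomy d d' with h | rfl | h
      · left
        rw [(hdiff d d' h x hx.2 y hy.2 τ).1 hR]
        exact mem_insert_self _ _
      · rw [hRsame] at hR
        have hxy : x ≠ y := by
          rintro rfl
          exact huv rfl
        exact (hXR x hx.2 y hy.2 hxy τ hR).imp mem_insert_of_mem mem_insert_of_mem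
      · right
        rw [(hdiff d' d h y hy.2 x hx.2 τ).2 hR, hnn]
        exact mem_insert_self _ _
    · intro τ T hT hcomp
      by_cases hτ : τ = σ ∨ τ = fun j => !σ j
      · -- at most one point in each copy
        have hT1 : ∀ u ∈ T, ∃ d : Fin k, ∃ x ∈ X, φ (d, x) = u := by
          intro u hu
          obtain ⟨⟨d, x⟩, hx, rfl⟩ := mem_image.mp (hT hu)
          exact ⟨d, x, (mem_product.mp hx).2, rfl⟩
        have hFin : Nonempty (Fin k) := ⟨⟨0, hk⟩⟩
        choose! dd hd using hT1
        have hinj' : Set.InjOn dd (T : Set (Fin (n + 1) → ℤ)) := by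
          intro u hu v hv huv
          rw [mem_coe] at hu hv
          obtain ⟨x, hx, hxu⟩ := hd u hu
          obtain ⟨y, hy, hyv⟩ := hd v hv
          rw [← huv] at hyv
          by_contra hne
          have hxy : x ≠ y := by
            rintro rfl
            exact hne (hxu.symm.trans hyv)
          have hτA : ¬ (τ ∈ A ∨ (fun j => !τ j) ∈ A) := by
            rcases hτ with rfl | rfl
            · exact fun h => h.elim hσ hσ'
            · rw [hnn]
              exact fun h => h.elim hσ' hσ
          have hc := hcomp u hu v hv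
          rw [← hxu, ← hyv, hRsame, hRsame] at hc
          rcases hc with hc | hc
          · exact hτA (hXR x hx y hy hxy τ hc)
          · exact hτA (hXR y hy x hx hxy.symm τ hc)
        have h1 := card_le_card_of_injOn (t := (univ : Finset (Fin k))) dd (by simp) hinj'
        simpa using h1
      · -- all points in the same copy
        rw [not_or] at hτ
        rcases T.eq_empty_or_nonempty with rfl | ⟨u₀, hu₀⟩
        · simp
        obtain ⟨⟨d₀, x₀⟩, hx₀, hxu₀⟩ := mem_image.mp (hT hu₀)
        rw [mem_product] at hx₀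
        have hall : ∀ u ∈ T, ∃ x ∈ X, φ (d₀, x) = u := by
          intro u hu
          obtain ⟨⟨d, x⟩, hx, hxu⟩ := mem_image.mp (hT hu)
          rw [mem_product] at hx
          have hd : d = d₀ := by
            by_contra hne
            have hc := hcomp u hu u₀ hu₀
            rw [← hxu, ← hxu₀] at hc
            rcases lt_or_gt_of_ne hne with h | h
            · rcases hc with hc | hc
              · exact hτ.1 ((hdiff d d₀ h x hx.2 x₀ hx₀.2 τ).1 hc)
              · exact hτ.2 ((hdiff d d₀ h x hx.2 x₀ hx₀.2 τ).2 hc)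
            · rcases hc with hc | hc
              · exact hτ.2 ((hdiff d₀ d h x₀ hx₀.2 x hx.2 τ).2 hc)
              · exact hτ.1 ((hdiff d₀ d h x₀ hx₀.2 x hx.2 τ).1 hc)
          subst hd
          exact ⟨x, hx.2, hxu⟩
        choose! ψ hψ hψ' using hall
        have hinj' : Set.InjOn ψ (T : Set (Fin (n + 1) → ℤ)) := by
          intro u hu v hv huv
          rw [← hψ' u hu, ← hψ' v hv, huv]
        rw [← card_image_of_injOn hinj']
        apply hXT τ
        · intro x hx
          obtain ⟨u, hu, rfl⟩ := mem_image.mp hx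
          exact hψ u hu
        · intro x hx y hy
          obtain ⟨u, hu, rfl⟩ := mem_image.mp hx
          obtain ⟨v, hv, rfl⟩ := mem_image.mp hy
          rw [← hRsame d₀ (ψ u) (ψ v), ← hRsame d₀ (ψ v) (ψ u), hψ' u hu, hψ' v hv]
          exact hcomp u hu v hv
    · intro u hu v hv huv j
      obtain ⟨⟨d, x⟩, hx, rfl⟩ := mem_image.mp hu
      obtain ⟨⟨d', y⟩, hy, rfl⟩ := mem_image.mp hv
      rw [mem_product] at hx hy
      rw [le_abs]
      rcases lt_trichotomy d d' with h | rfl | h
      · have h1 := hfar d d' h x hx.2 y hy.2 j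
        cases hj : σ j with
        | true =>
          have := h1.1 hj
          right
          omega
        | false =>
          have := h1.2 hj
          left
          omega
      · rw [hsame]
        have hxy : x ≠ y := by
          rintro rfl
          exact huv rfl
        exact le_abs.mp (hXg x hx.2 y hy.2 hxy j)
      · have h1 := hfar d' d h y hy.2 x hx.2 j
        cases hj : σ j with
        | true =>
          have := h1.1 hj
          left
          omega
        | false =>
          have := h1.2 hj
          right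
          omega

/-- The directions moving forward in the first coordinate. -/
theorem exists_points_max (n k g : ℕ) (hk : 1 ≤ k) :
    ∃ X : Finset (Fin (n + 1) → ℤ), X.card = k ^ 2 ^ n ∧
      (∀ τ, ∀ T ⊆ X, (∀ x ∈ T, ∀ y ∈ T, R τ x y ∨ R τ y x) → T.card ≤ k) ∧
      ∀ x ∈ X, ∀ y ∈ X, x ≠ y → ∀ j, (g : ℤ) ≤ |x j - y j| := by
  obtain ⟨X, h1, -, h2, h3⟩ := exists_points (n := n) k g hk
    (univ.filter fun τ : Fin (n + 1) → Bool => τ 0 = true) (by
      intro σ hσ h
      rw [mem_filter] at hσ h
      simp [hσ.2] at h)
  refine ⟨X, ?_, h2, h3⟩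
  rw [h1, ← card_Dir n, Fintype.card_subtype]

end Pool.Agent.Q102.Grid
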