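import Mathlib

/-!
Spanning trees with many leaves from connected sets with many pendant neighbours.
-/

namespace Pool.Agent.Q102.LeafPath

open Finset Classical

variable {V : Type*} [Fintype V] {G : SimpleGraph V}

/-- number of leaves -/
noncomputable def numLeaves (T : SimpleGraph V) : ℕ := #{v | T.degree v = 1}

/-- adjacency within `K` -/
def AdjIn (G : SimpleGraph V) (K : Finset V) (u w : V) : Prop := G.Adj u w ∧ u ∈ K ∧ w ∈ K

/-- every vertex of `K` can be reached from `a ∈ K` within `K` -/
def ConnFrom (G : SimpleGraph V) (K : Finset V) (a : V) : Prop :=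
  a ∈ K ∧ ∀ k ∈ K, Relation.ReflTransGen (AdjIn G K) a k

theorem exists_tree_aux {a : V} {K Λ : Finset V} (hK : ConnFrom G K a) (hd : Disjoint K Λ)
    (hdom : ∀ y ∈ Λ, ∃ k ∈ K, G.Adj k y) (hall : ∀ v, v ∈ K ∨ v ∈ Λ) :
    ∃ T ≤ G, T.IsTree ∧ #Λ ≤ numLeaves T := by
  have hf : ∀ y, ∃ k, y ∈ Λ → k ∈ K ∧ G.Adj k y := by
    intro y
    by_cases hy : y ∈ Λ
    · obtain ⟨k, hk, hky⟩ := hdom y hy
      exact ⟨k, fun _ => ⟨hk, hky⟩⟩
    · exact ⟨a, fun h => absurd h hy⟩
  choose f hf using hf
  rw [Finset.disjoint_left] at hd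
  let G' : SimpleGraph V :=
    { Adj := fun u w => G.Adj u w ∧ ((u ∈ K ∧ w ∈ K) ∨ (u ∈ Λ ∧ w = f u) ∨ (w ∈ Λ ∧ u = f w))
      symm := ⟨fun u w h => by
        refine ⟨h.1.symm, ?_⟩
        rcases h.2 with h | h | h
        · exact Or.inl ⟨h.2, h.1⟩
        · exact Or.inr (Or.inr h)
        · exact Or.inr (Or.inl h)⟩
      loopless := ⟨fun u h => h.1.ne rfl⟩ }
  have hle : G' ≤ G := fun u w h => h.1
  have hreachK : ∀ k ∈ K, G'.Reachable a k := by
    intro k hk
    have := hK.2 k hk
    induction this with
    | refl => exact SimpleGraph.Reachable.refl _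
    | tail _ h ih =>
      have hadj : G'.Adj _ _ := ⟨h.1, Or.inl ⟨h.2.1, h.2.2⟩⟩
      exact (ih h.2.1).trans hadj.reachable
  have hreach : ∀ v, G'.Reachable a v := by
    intro v
    rcases hall v with h | h
    · exact hreachK v h
    · obtain ⟨h1, h2⟩ := hf v h
      have hadj : G'.Adj (f v) v := ⟨h2, Or.inr (Or.inr ⟨h, rfl⟩)⟩
      exact (hreachK _ h1).trans hadj.reachable
  have hconn : G'.Connected := by
    rw [SimpleGraph.connected_iff]
    exact ⟨fun u w => (hreach u).symm.trans (hreach w), ⟨a⟩⟩
  obtain ⟨T, hT, htree⟩ := hconn.exists_isTree_le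
  refine ⟨T, hT.trans hle, htree, ?_⟩
  unfold numLeaves
  apply Finset.card_le_card
  intro y hy
  rw [Finset.mem_filter]
  refine ⟨Finset.mem_univ _, ?_⟩
  apply le_antisymm
  · rw [← SimpleGraph.card_neighborFinset_eq_degree]
    have hsub : T.neighborFinset y ⊆ {f y} := by
      intro w hw
      rw [SimpleGraph.mem_neighborFinset] at hw
      rw [Finset.mem_singleton]
      rcases (hT hw).2 with h | h | h
      · exact absurd hy (hd h.1)
      · exact h.2
      · exfalso
        have := (hf w h.1).1
        rw [← h.2] at this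
        exact hd this hy
    exact (Finset.card_le_card hsub).trans (by simp)
  · have hay : a ≠ y := by
      rintro rfl
      exact hd hK.1 hy
    have : Nontrivial V := ⟨a, y, hay⟩
    exact htree.connected.preconnected.degree_pos_of_nontrivial y

theorem exists_cross (hG : G.Connected) (S : Finset V) {a b : V} (ha : a ∈ S) (hb : b ∉ S) :
    ∃ u ∈ S, ∃ w, w ∉ S ∧ G.Adj u w := by
  obtain ⟨p⟩ := hG.preconnected a b
  induction p with
  | nil => exact absurd ha hb
  | @cons u w x h p ih =>
    by_cases hw : w ∈ S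
    · exact ih hw hb
    · exact ⟨u, ha, w, hw, h⟩

theorem exists_tree (hG : G.Connected) {a : V} : ∀ (m : ℕ) (K Λ : Finset V),
    #(Finset.univ \ (K ∪ Λ)) = m → ConnFrom G K a → Disjoint K Λ →
    (∀ y ∈ Λ, ∃ k ∈ K, G.Adj k y) → ∃ T ≤ G, T.IsTree ∧ #Λ ≤ numLeaves T := by
  intro m
  induction m with
  | zero =>
    intro K Λ hm hK hd hdom
    refine exists_tree_aux hK hd hdom ?_
    intro v
    rw [Finset.card_eq_zero, Finset.sdiff_eq_empty_iff_subset] at hm
    have := hm (Finset.mem_univ v)
    rwa [Finset.mem_union] at this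
  | succ m ih =>
    intro K Λ hm hK hd hdom
    obtain ⟨b, hb⟩ : (Finset.univ \ (K ∪ Λ)).Nonempty := by
      rw [← Finset.card_pos]; omega
    rw [Finset.mem_sdiff] at hb
    obtain ⟨z, hz, y, hy, hzy⟩ := exists_cross hG (K ∪ Λ) (Finset.mem_union_left _ hK.1) hb.2
    rw [Finset.mem_union, not_or] at hy
    rw [Finset.disjoint_left] at hd
    have hcard : ∀ S : Finset V, S = insert y (K ∪ Λ) → #(Finset.univ \ S) = m := by
      rintro S rfl
      rw [Finset.card_sdiff_of_subset (Finset.subset_univ _)] at hm ⊢
      rw [Finset.card_insert_of_notMem (by rw [Finset.mem_union, not_or]; exact hy)]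
      omega
    by_cases hzK : z ∈ K
    · obtain ⟨T, h1, h2, h3⟩ := ih K (insert y Λ) (hcard _ (by rw [Finset.union_insert])) hK (by
        rw [Finset.disjoint_left]
        intro u hu hu'
        rw [Finset.mem_insert] at hu'
        rcases hu' with rfl | hu'
        · exact hy.1 hu
        · exact hd hu hu') (by
        intro u hu
        rw [Finset.mem_insert] at hu
        rcases hu with rfl | hu
        · exact ⟨z, hzK, hzy⟩
        · exact hdom u hu)
      exact ⟨T, h1, h2, (Finset.card_le_card (Finset.subset_insert _ _)).trans h3⟩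
    · have hzΛ : z ∈ Λ := by
        rw [Finset.mem_union] at hz
        exact hz.resolve_left hzK
      have hyz : y ≠ z := by rintro rfl; exact hy.2 hzΛ
      obtain ⟨T, h1, h2, h3⟩ := ih (insert z K) (insert y (Λ.erase z)) (hcard _ (by
        ext u
        simp only [Finset.mem_union, Finset.mem_insert, Finset.mem_erase]
        by_cases huz : u = z
        · subst huz; simp [hzΛ]
        · simp [huz]; tauto)) (by
        refine ⟨Finset.mem_insert_of_mem hK.1, ?_⟩
        have hmono : ∀ k ∈ K, Relation.ReflTransGen (AdjIn G (insert z K)) a k := by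
          intro k hk
          have h0 := hK.2 k hk
          induction h0 with
          | refl => exact Relation.ReflTransGen.refl
          | tail _ h ih' =>
            exact Relation.ReflTransGen.tail (ih' h.2.1)
              ⟨h.1, Finset.mem_insert_of_mem h.2.1, Finset.mem_insert_of_mem h.2.2⟩
        intro k hk
        rw [Finset.mem_insert] at hk
        rcases hk with rfl | hk
        · obtain ⟨k', hk', hadj⟩ := hdom k hzΛ
          exact Relation.ReflTransGen.tail (hmono k' hk')
            ⟨hadj, Finset.mem_insert_of_mem hk', Finset.mem_insert_self _ _⟩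
        · exact hmono k hk) (by
        rw [Finset.disjoint_left]
        intro u hu hu'
        rw [Finset.mem_insert] at hu hu'
        rw [Finset.mem_erase] at hu'
        rcases hu with rfl | hu <;> rcases hu' with rfl | hu'
        · exact hyz rfl
        · exact hu'.1 rfl
        · exact hy.1 hu
        · exact hd hu hu'.2) (by
        intro u hu
        rw [Finset.mem_insert, Finset.mem_erase] at hu
        rcases hu with rfl | hu
        · exact ⟨z, Finset.mem_insert_self _ _, hzy⟩
        · obtain ⟨k, hk, hadj⟩ := hdom u hu.2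
          exact ⟨k, Finset.mem_insert_of_mem hk, hadj⟩)
      refine ⟨T, h1, h2, le_trans ?_ h3⟩
      rw [Finset.card_insert_of_notMem (by
        rw [Finset.mem_erase, not_and]
        intro _
        exact hy.2), Finset.card_erase_of_mem hzΛ]
      omega

/-- a path with `p` vertices `v 0, …, v (p-1)` -/
structure Pth (G : SimpleGraph V) (p : ℕ) (v : ℕ → V) : Prop where
  inj : ∀ i j, i < p → j < p → v i = v j → i = j
  adj : ∀ i, i + 1 < p → G.Adj (v i) (v (i + 1))

namespace Pth

variable {p : ℕ} {v : ℕ → V}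

theorem rev (h : Pth G p v) : Pth G p (fun i => v (p - 1 - i)) where
  inj i j hi hj he := by
    have := h.inj _ _ (by omega) (by omega) he
    omega
  adj i hi := by
    have := h.adj (p - 1 - (i + 1)) (by omega)
    have e : p - 1 - (i + 1) + 1 = p - 1 - i := by omega
    rw [e] at this
    exact this.symm

theorem rot (h : Pth G p v) {j : ℕ} (h1 : 1 ≤ j) (hj : j < p) (hadj : G.Adj (v 0) (v j)) :
    Pth G p (fun i => if i < j then v (j - 1 - i) else v i) where
  inj i k hi hk he := by
    split_ifs at he with h1 h2 h2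
    · have := h.inj _ _ (by omega) (by omega) he; omega
    · have := h.inj _ _ (by omega) (by omega) he; omega
    · have := h.inj _ _ (by omega) (by omega) he; omega
    · exact h.inj _ _ (by omega) (by omega) he
  adj i hi := by
    by_cases h2 : i + 1 < j
    · rw [if_pos (by omega), if_pos h2]
      have := h.adj (j - 1 - (i + 1)) (by omega)
      have e : j - 1 - (i + 1) + 1 = j - 1 - i := by omega
      rw [e] at this
      exact this.symm
    · by_cases h3 : i + 1 = j
      · rw [if_pos (by omega), if_neg (by omega)]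
        have e : j - 1 - i = 0 := by omega
        rw [e, h3]; exact hadj
      · rw [if_neg (by omega), if_neg (by omega)]
        exact h.adj i hi

theorem cons (h : Pth G p v) {x : V} (hx : ∀ i < p, v i ≠ x) (hadj : G.Adj x (v 0)) :
    Pth G (p + 1) (fun i => if i = 0 then x else v (i - 1)) where
  inj i k hi hk he := by
    split_ifs at he with h1 h2 h2
    · omega
    · exact absurd he.symm (hx _ (by omega))
    · exact absurd he (hx _ (by omega))
    · have := h.inj _ _ (by omega) (by omega) he; omega
  adj i hi := by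
    by_cases h1 : i = 0
    · subst h1; simpa using hadj
    · rw [if_neg h1, if_neg (by omega)]
      have := h.adj (i - 1) (by omega)
      have e : i - 1 + 1 = i + 1 - 1 := by omega
      rwa [e] at this

theorem repl (h : Pth G p v) {x : V} (hx : ∀ i < p, v i ≠ x) (hadj : G.Adj x (v 1)) :
    Pth G p (fun i => if i = 0 then x else v i) where
  inj i k hi hk he := by
    split_ifs at he with h1 h2 h2
    · omega
    · exact absurd he.symm (hx _ (by omega))
    · exact absurd he (hx _ (by omega))
    · exact h.inj _ _ (by omega) (by omega) he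
  adj i hi := by
    by_cases h1 : i = 0
    · subst h1; simpa using hadj
    · rw [if_neg h1, if_neg (by omega)]
      exact h.adj i hi

theorem cyc (h : Pth G p v) {x : V} (hx : ∀ i < p, v i ≠ x) (hcl : G.Adj (v 0) (v (p - 1)))
    {i : ℕ} (hi : i < p) (hadj : G.Adj x (v i)) :
    Pth G (p + 1) (fun k => if k = 0 then x else v ((i + k - 1) % p)) where
  inj a b ha hb he := by
    have hp : 0 < p := by omega
    split_ifs at he with h1 h2 h2
    · omega
    · exact absurd he.symm (hx _ (Nat.mod_lt _ hp))
    · exact absurd he (hx _ (Nat.mod_lt _ hp))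
    · have h3 := h.inj _ _ (Nat.mod_lt _ hp) (Nat.mod_lt _ hp) he
      rcases lt_or_ge (i + a - 1) p with h4 | h4 <;> rcases lt_or_ge (i + b - 1) p with h5 | h5
      · rw [Nat.mod_eq_of_lt h4, Nat.mod_eq_of_lt h5] at h3; omega
      · rw [Nat.mod_eq_of_lt h4, Nat.mod_eq_sub_mod h5, Nat.mod_eq_of_lt (by omega)] at h3; omega
      · rw [Nat.mod_eq_of_lt h5, Nat.mod_eq_sub_mod h4, Nat.mod_eq_of_lt (by omega)] at h3; omega
      · rw [Nat.mod_eq_sub_mod h4, Nat.mod_eq_of_lt (a := i + a - 1 - p) (by omega),
          Nat.mod_eq_sub_mod h5, Nat.mod_eq_of_lt (a := i + b - 1 - p) (by omega)] at h3; omega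
  adj a ha := by
    have hp : 0 < p := by omega
    by_cases h1 : a = 0
    · subst h1
      rw [if_pos rfl, if_neg (by omega)]
      have : (i + (0 + 1) - 1) % p = i := by
        rw [show i + (0 + 1) - 1 = i by omega, Nat.mod_eq_of_lt hi]
      rw [this]; exact hadj
    · rw [if_neg h1, if_neg (by omega)]
      rw [show i + (a + 1) - 1 = i + a - 1 + 1 by omega]
      rcases lt_or_ge (i + a - 1) p with h4 | h4
      · rcases (by omega : i + a - 1 + 1 < p ∨ i + a - 1 + 1 = p) with h5 | h5
        · rw [Nat.mod_eq_of_lt h4, Nat.mod_eq_of_lt h5]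
          exact h.adj _ h5
        · rw [Nat.mod_eq_of_lt h4, h5, Nat.mod_self]
          rw [show i + a - 1 = p - 1 by omega]
          exact hcl.symm
      · rw [Nat.mod_eq_sub_mod h4, Nat.mod_eq_of_lt (a := i + a - 1 - p) (by omega),
          Nat.mod_eq_sub_mod (a := i + a - 1 + 1) (by omega),
          Nat.mod_eq_of_lt (a := i + a - 1 + 1 - p) (by omega)]
        have := h.adj (i + a - 1 - p) (by omega)
        rwa [show i + a - 1 - p + 1 = i + a - 1 + 1 - p by omega] at this

end Pth

/-- connectivity of a set of path vertices given by indices -/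
theorem conn_of_index {p : ℕ} {v : ℕ → V} (h : Pth G p v) {KI : Finset ℕ}
    (hK : ∀ i ∈ KI, i < p) (h0 : 0 ∈ KI)
    (hstep : ∀ i ∈ KI, 1 ≤ i → G.Adj (v 0) (v i) ∨ i - 1 ∈ KI) :
    ConnFrom G (KI.image v) (v 0) := by
  refine ⟨Finset.mem_image_of_mem _ h0, ?_⟩
  have key : ∀ i, i ∈ KI → Relation.ReflTransGen (AdjIn G (KI.image v)) (v 0) (v i) := by
    intro i
    induction i using Nat.strong_induction_on with
    | _ i ih =>
      intro hi
      rcases Nat.eq_zero_or_pos i with h1 | h1
      · subst h1; exact Relation.ReflTransGen.refl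
      · rcases hstep i hi h1 with h2 | h2
        · exact Relation.ReflTransGen.single
            ⟨h2, Finset.mem_image_of_mem _ h0, Finset.mem_image_of_mem _ hi⟩
        · refine Relation.ReflTransGen.tail (ih (i - 1) (by omega) h2)
            ⟨?_, Finset.mem_image_of_mem _ h2, Finset.mem_image_of_mem _ hi⟩
          have := h.adj (i - 1) (by have := hK i hi; omega)
          rwa [show i - 1 + 1 = i by omega] at this
  intro k hk
  obtain ⟨i, hi, rfl⟩ := Finset.mem_image.mp hk
  exact key i hi

/-- spanning trees from index sets on a path and one extra vertex `x` -/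
theorem tree_of_index (hG : G.Connected) {p : ℕ} {v : ℕ → V} (h : Pth G p v) {KI LI : Finset ℕ}
    {a : V} (hK : ∀ i ∈ KI, i < p) (hL : ∀ i ∈ LI, i < p) (hconn : ConnFrom G (KI.image v) a)
    (hd : Disjoint KI LI) (hdom : ∀ i ∈ LI, ∃ k ∈ KI, G.Adj (v k) (v i)) {x : V}
    (hx : ∀ i < p, v i ≠ x) (hxk : ∃ k ∈ KI, G.Adj (v k) x) :
    ∃ T ≤ G, T.IsTree ∧ #LI + 1 ≤ numLeaves T := by
  have hinj : Set.InjOn v (LI : Set ℕ) := fun i hi j hj he => h.inj i j (hL i hi) (hL j hj) he
  have hxL : x ∉ LI.image v := by
    intro hmem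
    obtain ⟨i, hi, he⟩ := Finset.mem_image.mp hmem
    exact hx i (hL i hi) he
  obtain ⟨T, h1, h2, h3⟩ := exists_tree hG _ (KI.image v) (insert x (LI.image v)) rfl hconn (by
    rw [Finset.disjoint_left]
    intro u hu hu'
    obtain ⟨i, hi, rfl⟩ := Finset.mem_image.mp hu
    rw [Finset.mem_insert] at hu'
    rcases hu' with hu' | hu'
    · exact hx i (hK i hi) hu'
    · obtain ⟨j, hj, he⟩ := Finset.mem_image.mp hu'
      have := h.inj _ _ (hL j hj) (hK i hi) he
      subst this
      exact (Finset.disjoint_left.mp hd) hi hj) (by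
    intro y hy
    rw [Finset.mem_insert] at hy
    rcases hy with rfl | hy
    · obtain ⟨k, hk, hadj⟩ := hxk
      exact ⟨v k, Finset.mem_image_of_mem _ hk, hadj⟩
    · obtain ⟨i, hi, rfl⟩ := Finset.mem_image.mp hy
      obtain ⟨k, hk, hadj⟩ := hdom i hi
      exact ⟨v k, Finset.mem_image_of_mem _ hk, hadj⟩)
  refine ⟨T, h1, h2, ?_⟩
  rwa [Finset.card_insert_of_notMem hxL, Finset.card_image_of_injOn hinj] at h3

end Pool.Agent.Q102.LeafPath
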