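import Mathlib
import Pool.Agent.Q102.LeafTree

/-!
Longest paths in graphs in which every spanning tree has at most `d + 1` leaves and all vertices
but one have degree at least `d`.
-/

namespace Pool.Agent.Q102.LeafPath

open Finset Classical

variable {V : Type*} [Fintype V] {G : SimpleGraph V}

structure Ctx (G : SimpleGraph V) (d p : ℕ) (w0 : V) : Prop where
  conn : G.Connected
  deg : ∀ u, u ≠ w0 → d ≤ G.degree u
  leaf : ∀ T ≤ G, T.IsTree → numLeaves T ≤ d + 1
  max : ∀ u, ¬ Pth G (p + 1) u

structure Good (G : SimpleGraph V) (p : ℕ) (x : V) (v : ℕ → V) : Prop where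
  pth : Pth G p v
  out : ∀ i, i < p → v i ≠ x
  att : ∃ i, i < p ∧ G.Adj x (v i)

namespace Good

variable {d p : ℕ} {w0 x : V} {v : ℕ → V}

theorem rev (h : Good G p x v) : Good G p x (fun i => v (p - 1 - i)) where
  pth := h.pth.rev
  out i hi := h.out _ (by omega)
  att := by
    obtain ⟨i, hi, hadj⟩ := h.att
    refine ⟨p - 1 - i, by omega, ?_⟩
    rwa [show p - 1 - (p - 1 - i) = i by omega]

theorem rot (h : Good G p x v) {j : ℕ} (h1 : 1 ≤ j) (hj : j < p) (hadj : G.Adj (v 0) (v j)) :
    Good G p x (fun i => if i < j then v (j - 1 - i) else v i) where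
  pth := h.pth.rot h1 hj hadj
  out i hi := by
    by_cases h2 : i < j
    · rw [if_pos h2]; exact h.out _ (by omega)
    · rw [if_neg h2]; exact h.out _ hi
  att := by
    obtain ⟨i, hi, hadj⟩ := h.att
    by_cases h2 : i < j
    · refine ⟨j - 1 - i, by omega, ?_⟩
      rw [if_pos (by omega), show j - 1 - (j - 1 - i) = i by omega]
      exact hadj
    · refine ⟨i, hi, ?_⟩
      rw [if_neg h2]; exact hadj

theorem nb (h : Good G p x v) (c : Ctx G d p w0) {y : V} (hy : G.Adj y (v 0)) :
    ∃ i, i < p ∧ v i = y := by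
  by_contra hcon
  push Not at hcon
  exact c.max _ (h.pth.cons hcon hy)

theorem nx (h : Good G p x v) (c : Ctx G d p w0) : ¬ G.Adj x (v 0) :=
  fun hy => c.max _ (h.pth.cons h.out hy)

theorem nc (h : Good G p x v) (c : Ctx G d p w0) : ¬ G.Adj (v 0) (v (p - 1)) := by
  intro hcl
  obtain ⟨i, hi, hadj⟩ := h.att
  exact c.max _ (h.pth.cyc h.out hcl hi hadj)

theorem three (h : Good G p x v) (c : Ctx G d p w0) : 3 ≤ p := by
  obtain ⟨i, hi, hadj⟩ := h.att
  by_contra hlt
  rcases (by omega : p = 1 ∨ p = 2) with h1 | h1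
  · subst h1
    have : i = 0 := by omega
    subst this
    exact h.nx c hadj
  · subst h1
    exact h.nc c (h.pth.adj 0 (by omega))

theorem nxl (h : Good G p x v) (c : Ctx G d p w0) : ¬ G.Adj x (v (p - 1)) := by
  have := h.rev.nx c
  simpa using this

theorem nbl (h : Good G p x v) (c : Ctx G d p w0) {y : V} (hy : G.Adj y (v (p - 1))) :
    ∃ i, i < p ∧ v i = y := by
  obtain ⟨i, hi, he⟩ := h.rev.nb c (y := y) (by simpa using hy)
  exact ⟨p - 1 - i, by omega, he⟩

end Good

/-- leaf indices -/
noncomputable def LI (G : SimpleGraph V) (p : ℕ) (v : ℕ → V) : Finset ℕ :=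
  insert (p - 1) ((range p).filter fun i => 1 ≤ i ∧ i + 1 < p ∧ G.Adj (v 0) (v (i + 1)))

theorem mem_LI {p : ℕ} {v : ℕ → V} {i : ℕ} :
    i ∈ LI G p v ↔ i = p - 1 ∨ (1 ≤ i ∧ i + 1 < p ∧ G.Adj (v 0) (v (i + 1))) := by
  unfold LI
  rw [Finset.mem_insert, Finset.mem_filter, Finset.mem_range]
  constructor
  · rintro (h | h)
    · exact Or.inl h
    · exact Or.inr h.2
  · rintro (h | h)
    · exact Or.inl h
    · exact Or.inr ⟨by omega, h⟩

theorem degree_eq {p : ℕ} {v : ℕ → V} (h : Pth G p v) {u : V}
    (hnb : ∀ y, G.Adj y u → ∃ i, i < p ∧ v i = y) :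
    G.degree u = #((range p).filter fun i => G.Adj u (v i)) := by
  have : G.neighborFinset u = ((range p).filter fun i => G.Adj u (v i)).image v := by
    ext y
    rw [SimpleGraph.mem_neighborFinset, Finset.mem_image]
    constructor
    · intro hy
      obtain ⟨i, hi, rfl⟩ := hnb y hy.symm
      exact ⟨i, by rw [Finset.mem_filter, Finset.mem_range]; exact ⟨hi, hy⟩, rfl⟩
    · rintro ⟨i, hi, rfl⟩
      rw [Finset.mem_filter] at hi
      exact hi.2
  rw [← SimpleGraph.card_neighborFinset_eq_degree, this, Finset.card_image_of_injOn]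
  intro i hi j hj he
  have hi' := Finset.mem_coe.mp hi
  have hj' := Finset.mem_coe.mp hj
  rw [Finset.mem_filter, Finset.mem_range] at hi' hj'
  exact h.inj i j hi'.1 hj'.1 he

theorem card_LI {d p : ℕ} {w0 x : V} {v : ℕ → V} (h : Good G p x v) (c : Ctx G d p w0) :
    #(LI G p v) = G.degree (v 0) := by
  have hp := h.three c
  rw [degree_eq h.pth (fun y hy => h.nb c hy)]
  have hnc := h.nc c
  have h01 := h.pth.adj 0 (by omega)
  apply Finset.card_bij' (fun a _ => if a = p - 1 then 1 else a + 1)
    (fun b _ => if b = 1 then p - 1 else b - 1)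
  · intro a ha
    rw [mem_LI] at ha
    rw [Finset.mem_filter, Finset.mem_range]
    split_ifs with h1
    · exact ⟨by omega, h01⟩
    · rcases ha with ha | ha
      · exact absurd ha h1
      · exact ⟨by omega, ha.2.2⟩
  · intro b hb
    rw [Finset.mem_filter, Finset.mem_range] at hb
    rw [mem_LI]
    split_ifs with h1
    · exact Or.inl rfl
    · right
      have hb0 : b ≠ 0 := by rintro rfl; exact hb.2.ne rfl
      have hb1 : b - 1 + 1 = b := by omega
      rw [hb1]
      exact ⟨by omega, by omega, hb.2⟩
  · intro a ha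
    rw [mem_LI] at ha
    split_ifs <;> omega
  · intro b hb
    rw [Finset.mem_filter, Finset.mem_range] at hb
    have hb0 : b ≠ 0 := by rintro rfl; exact hb.2.ne rfl
    split_ifs <;> omega

section main

variable {d p : ℕ} {w0 x : V} {v : ℕ → V}

theorem att_notMem (h : Good G p x v) (c : Ctx G d p w0) {i0 : ℕ}
    (hadj : G.Adj x (v i0)) : i0 ∉ LI G p v := by
  intro hmem
  rw [mem_LI] at hmem
  rcases hmem with rfl | ⟨h1, h2, h3⟩
  · exact h.nxl c hadj
  · have := (h.rot (j := i0 + 1) (by omega) h2 h3).nx c
    apply this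
    simpa using hadj

/-- the first tree: `deg v₀ ≤ d` -/
theorem deg_le (h : Good G p x v) (c : Ctx G d p w0) : G.degree (v 0) ≤ d := by
  have hp := h.three c
  obtain ⟨i0, hi0, hadj⟩ := h.att
  have hi0' := att_notMem h c hadj
  obtain ⟨T, h1, h2, h3⟩ := tree_of_index c.conn h.pth (KI := (range p) \ LI G p v)
    (LI := LI G p v) (a := v 0) (x := x) (by
      intro i hi; rw [Finset.mem_sdiff, Finset.mem_range] at hi; exact hi.1) (by
      intro i hi; rw [mem_LI] at hi; omega) (by
      apply conn_of_index h.pth
      · intro i hi; rw [Finset.mem_sdiff, Finset.mem_range] at hi; exact hi.1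
      · rw [Finset.mem_sdiff, Finset.mem_range, mem_LI]; omega
      · intro i hi h1
        rw [Finset.mem_sdiff, Finset.mem_range] at hi
        by_cases h2 : i - 1 ∈ LI G p v
        · left
          rw [mem_LI] at h2
          rcases h2 with h2 | h2
          · omega
          · have := h2.2.2
            rwa [show i - 1 + 1 = i by omega] at this
        · right
          rw [Finset.mem_sdiff, Finset.mem_range]
          exact ⟨by omega, h2⟩) Finset.sdiff_disjoint (by
      intro i hi
      have hi' := mem_LI.mp hi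
      by_cases h2 : i - 1 ∈ LI G p v
      · refine ⟨0, ?_, ?_⟩
        · rw [Finset.mem_sdiff, Finset.mem_range, mem_LI]; omega
        · rw [mem_LI] at h2
          rcases h2 with h2 | h2
          · omega
          · have := h2.2.2
            rwa [show i - 1 + 1 = i by omega] at this
      · refine ⟨i - 1, ?_, ?_⟩
        · rw [Finset.mem_sdiff, Finset.mem_range]
          exact ⟨by omega, h2⟩
        · have := h.pth.adj (i - 1) (by omega)
          rwa [show i - 1 + 1 = i by omega] at this) h.out
    ⟨i0, by rw [Finset.mem_sdiff, Finset.mem_range]; exact ⟨hi0, hi0'⟩, hadj.symm⟩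
  have := c.leaf T h1 h2
  rw [card_LI h c] at h3
  omega

/-- the second tree -/
theorem nb_mem (h : Good G p x v) (c : Ctx G d p w0) (hv0 : v 0 ≠ w0) {m i0 : ℕ} (hm2 : 2 ≤ m)
    (hm : m ∈ LI G p v) (hnadj : ¬ G.Adj (v 0) (v m)) (hi0 : i0 < p) (hadj : G.Adj x (v i0))
    (hne : i0 ≠ m - 1) {z : ℕ} (hz : z < p) (hmz : G.Adj (v m) (v z)) :
    z ∈ LI G p v ∨ z = m - 1 := by
  by_contra hcon
  push Not at hcon
  obtain ⟨hz1, hz2⟩ := hcon
  have hp := h.three c
  have hi0' := att_notMem h c hadj
  have hmp : m < p := by rw [mem_LI] at hm; omega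
  have hm1 : m - 1 ∉ LI G p v := by
    intro hmem
    rw [mem_LI] at hmem
    rcases hmem with hmem | hmem
    · omega
    · have := hmem.2.2
      rw [show m - 1 + 1 = m by omega] at this
      exact hnadj this
  have hKI : ∀ i, i ∈ (range p) \ (insert (m - 1) (LI G p v)) ↔
      i < p ∧ i ≠ m - 1 ∧ i ∉ LI G p v := by
    intro i
    rw [Finset.mem_sdiff, Finset.mem_range, Finset.mem_insert, not_or]
  have h0 : 0 ∉ LI G p v := by rw [mem_LI]; omega
  obtain ⟨T, h1, h2, h3⟩ := tree_of_index c.conn h.pth
    (KI := (range p) \ (insert (m - 1) (LI G p v)))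
    (LI := insert (m - 1) (LI G p v)) (a := v 0) (x := x) (by
      intro i hi; rw [hKI] at hi; exact hi.1) (by
      intro i hi; rw [Finset.mem_insert, mem_LI] at hi; omega) (by
      apply conn_of_index h.pth
      · intro i hi; rw [hKI] at hi; exact hi.1
      · rw [hKI]; exact ⟨by omega, by omega, h0⟩
      · intro i hi h1
        rw [hKI] at hi
        by_cases h2 : i - 1 ∈ LI G p v
        · left
          rw [mem_LI] at h2
          rcases h2 with h2 | h2
          · omega
          · have := h2.2.2
            rwa [show i - 1 + 1 = i by omega] at this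
        · right
          rw [hKI]
          refine ⟨by omega, ?_, h2⟩
          intro he
          have : i = m := by omega
          subst this
          exact hi.2.2 hm) Finset.sdiff_disjoint (by
      intro i hi
      rw [Finset.mem_insert] at hi
      by_cases him : i = m
      · subst him
        exact ⟨z, by rw [hKI]; exact ⟨hz, hz2, hz1⟩, hmz.symm⟩
      · have hi' : 1 ≤ i ∧ i < p := by
          rcases hi with hi | hi
          · omega
          · rw [mem_LI] at hi; omega
        by_cases h2 : i - 1 ∈ LI G p v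
        · refine ⟨0, ?_, ?_⟩
          · rw [hKI]; exact ⟨by omega, by omega, h0⟩
          · rw [mem_LI] at h2
            rcases h2 with h2 | h2
            · omega
            · have := h2.2.2
              rwa [show i - 1 + 1 = i by omega] at this
        · refine ⟨i - 1, ?_, ?_⟩
          · rw [hKI]
            exact ⟨by omega, by omega, h2⟩
          · have := h.pth.adj (i - 1) (by omega)
            rwa [show i - 1 + 1 = i by omega] at this) h.out
    ⟨i0, by rw [hKI]; exact ⟨hi0, hne, hi0'⟩, hadj.symm⟩
  have h4 := c.leaf T h1 h2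
  rw [Finset.card_insert_of_notMem hm1, card_LI h c] at h3
  have := c.deg _ hv0
  omega

theorem adj_all (h : Good G p x v) (c : Ctx G d p w0) (hv0 : v 0 ≠ w0) {m i0 : ℕ} (hm2 : 2 ≤ m)
    (hm : m ∈ LI G p v) (hnadj : ¬ G.Adj (v 0) (v m)) (hi0 : i0 < p) (hadj : G.Adj x (v i0))
    (hne : i0 ≠ m - 1) (hnb : ∀ y, G.Adj y (v m) → ∃ i, i < p ∧ v i = y) (hvm : v m ≠ w0)
    {i : ℕ} (hi : i ∈ LI G p v) (him : i ≠ m) : G.Adj (v m) (v i) := by
  by_contra hcon
  have hmp : m < p := by rw [mem_LI] at hm; have := h.three c; omega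
  have h1 := c.deg _ hvm
  rw [degree_eq h.pth hnb] at h1
  have hsub : ((range p).filter fun i => G.Adj (v m) (v i)) ⊆
      insert (m - 1) (((LI G p v).erase m).erase i) := by
    intro z hz
    rw [Finset.mem_filter, Finset.mem_range] at hz
    rw [Finset.mem_insert, Finset.mem_erase, Finset.mem_erase]
    rcases nb_mem h c hv0 hm2 hm hnadj hi0 hadj hne hz.1 hz.2 with h2 | h2
    · right
      refine ⟨?_, ?_, h2⟩
      · rintro rfl; exact hcon hz.2
      · rintro rfl; exact hz.2.ne rfl
    · left; exact h2
  have h2 := Finset.card_le_card hsub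
  have h3 := Finset.card_insert_le (m - 1) (((LI G p v).erase m).erase i)
  have hi' : i ∈ (LI G p v).erase m := Finset.mem_erase.mpr ⟨him, hi⟩
  rw [Finset.card_erase_of_mem hi', Finset.card_erase_of_mem hm, card_LI h c] at h3
  have h4 := Finset.card_pos.mpr ⟨i, hi'⟩
  rw [Finset.card_erase_of_mem hm, card_LI h c] at h4
  have h5 := deg_le h c
  omega

/-- Case I -/
theorem caseI_aux (h : Good G p x v) (c : Ctx G d p w0) (hd : 2 ≤ d) (hv0 : v 0 ≠ w0)
    (hvl : v (p - 1) ≠ w0) {i0 : ℕ} (hi0 : i0 < p) (hadj : G.Adj x (v i0)) : i0 = p - 2 := by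
  by_contra hne
  have hp := h.three c
  have hm : p - 1 ∈ LI G p v := mem_LI.mpr (Or.inl rfl)
  have hcard : 2 ≤ #(LI G p v) := by
    rw [card_LI h c]; exact hd.trans (c.deg _ hv0)
  obtain ⟨i, hi, hne'⟩ := Finset.exists_mem_ne (by omega) (p - 1) (s := LI G p v)
  have h1 := adj_all h c hv0 (m := p - 1) (by omega) hm (h.nc c) hi0 hadj (by omega)
    (fun y hy => h.nbl c hy) hvl hi hne'
  rw [mem_LI] at hi
  rcases hi with hi | ⟨h2, h3, h4⟩
  · exact hne' hi
  · have h5 := (h.rot (j := i + 1) (by omega) h3 h4).nc c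
    apply h5
    rw [if_pos (by omega), if_neg (by omega)]
    simpa using h1.symm

theorem caseI (h : Good G p x v) (c : Ctx G d p w0) (hd : 2 ≤ d) (hv0 : v 0 ≠ w0) :
    v (p - 1) = w0 := by
  by_contra hvl
  have hp := h.three c
  obtain ⟨i0, hi0, hadj⟩ := h.att
  have h1 := caseI_aux h c hd hv0 hvl hi0 hadj
  have h2 := caseI_aux h.rev c hd (by simpa using hvl) (by simpa using hv0) (i0 := p - 1 - i0)
    (by omega) (by
      show G.Adj x (v (p - 1 - (p - 1 - i0)))
      rwa [show p - 1 - (p - 1 - i0) = i0 by omega])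
  have hp3 : p = 3 := by omega
  have h3 := c.deg _ hv0
  rw [degree_eq h.pth (fun y hy => h.nb c hy)] at h3
  have hsub : ((range p).filter fun i => G.Adj (v 0) (v i)) ⊆ {1} := by
    intro i hi
    rw [Finset.mem_filter, Finset.mem_range] at hi
    rw [Finset.mem_singleton]
    by_contra h1
    rcases (by omega : i = 0 ∨ i = p - 1) with h2 | h2
    · subst h2; exact hi.2.ne rfl
    · subst h2; exact h.nc c hi.2
  have := Finset.card_le_card hsub
  rw [Finset.card_singleton] at this
  omega

/-- the end `w0` has degree one -/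
theorem w0_nb (h : Good G p x v) (c : Ctx G d p w0) (hd : 2 ≤ d) (hv0 : v 0 ≠ w0) {j : ℕ}
    (hj : j < p) (hadj : G.Adj (v (p - 1)) (v j)) : j = p - 2 := by
  have hp := h.three c
  have hl := caseI h c hd hv0
  by_contra hne
  have hj1 : j ≠ p - 1 := by rintro rfl; exact hadj.ne rfl
  have h1 := h.rev.rot (j := p - 1 - j) (by omega) (by omega) (by
    show G.Adj (v (p - 1 - 0)) (v (p - 1 - (p - 1 - j)))
    rw [show p - 1 - 0 = p - 1 by omega, show p - 1 - (p - 1 - j) = j by omega]
    exact hadj)
  have h2 := caseI h1 c hd (by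
    rw [if_pos (by omega)]
    rw [← hl]
    intro he
    have := h.pth.inj _ _ (by omega) (by omega) he
    omega)
  rw [if_neg (by omega)] at h2
  apply hv0
  rw [← h2]
  congr 1
  omega

theorem closed (h : Good G p x v) (c : Ctx G d p w0) (hd : 2 ≤ d) (hv0 : v 0 ≠ w0)
    (hxw : x ≠ w0) {m : ℕ}
    (hm2 : 2 ≤ m) (hmp : m + 1 < p) (hadj : G.Adj (v 0) (v (m + 1))) : G.Adj (v 0) (v m) := by
  by_contra hnadj
  have hp := h.three c
  have hl := caseI h c hd hv0
  have hm : m ∈ LI G p v := mem_LI.mpr (Or.inr ⟨by omega, hmp, hadj⟩)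
  have hrot := h.rot (j := m + 1) (by omega) hmp hadj
  obtain ⟨i0, hi0, hx0, hne⟩ : ∃ i0, i0 < p ∧ G.Adj x (v i0) ∧ i0 ≠ m - 1 := by
    by_contra hcon
    push Not at hcon
    obtain ⟨i0, hi0, hx0⟩ := h.att
    have hi0' := hcon i0 hi0 hx0
    subst hi0'
    have hrepl := hrot.pth.repl (x := x) hrot.out (by
      rw [if_pos (by omega)]
      rwa [show m + 1 - 1 - 1 = m - 1 by omega])
    have hdeg := c.deg x hxw
    rw [degree_eq h.pth (u := x) (by
      intro y hy
      by_contra hy'
      push Not at hy'
      refine c.max _ (hrepl.cons (x := y) ?_ ?_)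
      · intro i hi
        split_ifs with h1 h2
        · exact hy.symm.ne
        · exact hy' _ (by omega)
        · exact hy' _ hi
      · rw [if_pos rfl]
        exact hy)] at hdeg
    have hsub : ((range p).filter fun i => G.Adj x (v i)) ⊆ {m - 1} := by
      intro i hi
      rw [Finset.mem_filter, Finset.mem_range] at hi
      rw [Finset.mem_singleton]
      exact hcon i hi.1 hi.2
    have := Finset.card_le_card hsub
    rw [Finset.card_singleton] at this
    omega
  have hvm : v m ≠ w0 := by
    rw [← hl]
    intro he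
    have := h.pth.inj _ _ (by omega) (by omega) he
    omega
  have h1 := adj_all h c hv0 hm2 hm hnadj hi0 hx0 hne (by
    intro y hy
    obtain ⟨i, hi, he⟩ := hrot.nb c (y := y) (by
      rw [if_pos (by omega)]
      simpa using hy)
    by_cases h2 : i < m + 1
    · rw [if_pos h2] at he
      exact ⟨m + 1 - 1 - i, by omega, he⟩
    · rw [if_neg h2] at he
      exact ⟨i, hi, he⟩) hvm (i := p - 1) (mem_LI.mpr (Or.inl rfl)) (by omega)
  have h2 := w0_nb h c hd hv0 (by omega) h1.symm
  have : m + 1 = p - 1 := by omega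
  rw [this] at hadj
  exact h.nc c hadj

theorem nb_iff (h : Good G p x v) (c : Ctx G d p w0) (hd : 2 ≤ d) (hv0 : v 0 ≠ w0)
    (hxw : x ≠ w0) : d + 1 < p ∧ ∀ i, 1 ≤ i → i ≤ d → G.Adj (v 0) (v i) := by
  have hp := h.three c
  have hdeg := c.deg _ hv0
  have hdeg' := degree_eq h.pth (fun y hy => h.nb c hy)
  rw [hdeg'] at hdeg
  -- downward closure
  have hdown : ∀ k i, i + k < p → 1 ≤ i → G.Adj (v 0) (v (i + k)) → G.Adj (v 0) (v i) := by
    intro k
    induction k with
    | zero => intro i _ _ h3; exact h3
    | succ k ih =>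
      intro i h1 h2 h3
      apply ih i (by omega) h2
      by_cases hik : i + k = 1
      · rw [hik]; exact h.pth.adj 0 (by omega)
      · exact closed h c hd hv0 hxw (by omega) (by omega) (by rwa [← add_assoc] at h3)
  -- if some index `i ∈ [1, d]` is not adjacent, all neighbours have index < i
  have hall : ∀ i, 1 ≤ i → i ≤ d → i < p → G.Adj (v 0) (v i) := by
    intro i h1 h2 h3
    by_contra hcon
    have hsub : ((range p).filter fun i => G.Adj (v 0) (v i)) ⊆ Finset.Ico 1 i := by
      intro j hj
      rw [Finset.mem_filter, Finset.mem_range] at hj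
      rw [Finset.mem_Ico]
      refine ⟨?_, ?_⟩
      · rcases Nat.eq_zero_or_pos j with h4 | h4
        · subst h4; exact absurd rfl hj.2.ne
        · exact h4
      · by_contra hji
        apply hcon
        apply hdown (j - i) i (by omega) h1
        rw [show i + (j - i) = j by omega]; exact hj.2
    have := Finset.card_le_card hsub
    rw [Nat.card_Ico] at this
    omega
  have hdp : d + 1 < p := by
    by_contra hlt
    exact h.nc c (hall (p - 1) (by omega) (by omega) (by omega))
  exact ⟨hdp, fun i h1 h2 => hall i h1 h2 (by omega)⟩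

theorem caseII (h : Good G p x v) (c : Ctx G d p w0) (hd : 2 ≤ d) (hv0 : v 0 ≠ w0)
    (hxw : x ≠ w0) : False := by
  have hp := h.three c
  have hl := caseI h c hd hv0
  obtain ⟨hdp, hnb⟩ := nb_iff h c hd hv0 hxw
  -- every index below d
  have hrot : ∀ i, i + 1 ≤ d → Good G p x (fun k => if k < i + 1 then v (i + 1 - 1 - k) else v k) :=
    fun i hi => h.rot (j := i + 1) (by omega) (by omega) (hnb _ (by omega) hi)
  have hadjd : ∀ i, i < d → G.Adj (v i) (v d) := by
    intro i hi
    have h1 := nb_iff (hrot i hi) c hd (by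
      rw [if_pos (by omega)]
      rw [← hl]
      intro he
      have := h.pth.inj _ _ (by omega) (by omega) he
      omega) hxw
    have h2 := h1.2 d (by omega) le_rfl
    rw [if_pos (by omega), if_neg (by omega)] at h2
    simpa using h2
  have hnx : ∀ i, i < d → ¬ G.Adj x (v i) := by
    intro i hi hadj
    apply (hrot i hi).nx c
    rw [if_pos (by omega)]
    simpa using hadj
  obtain ⟨i0, hi0, hadj⟩ := h.att
  obtain ⟨T, h1, h2, h3⟩ := tree_of_index c.conn h.pth (KI := Finset.Ico d (p - 1))
    (LI := insert (p - 1) (range d)) (a := v d) (x := x) (by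
      intro i hi; rw [Finset.mem_Ico] at hi; omega) (by
      intro i hi; rw [Finset.mem_insert, Finset.mem_range] at hi; omega) (by
      refine ⟨Finset.mem_image_of_mem _ (by rw [Finset.mem_Ico]; omega), ?_⟩
      have key : ∀ k, d + k < p - 1 →
          Relation.ReflTransGen (AdjIn G ((Finset.Ico d (p - 1)).image v)) (v d) (v (d + k)) := by
        intro k
        induction k with
        | zero => intro _; exact Relation.ReflTransGen.refl
        | succ k ih =>
          intro hk
          refine Relation.ReflTransGen.tail (ih (by omega)) ⟨?_, ?_, ?_⟩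
          · exact h.pth.adj (d + k) (by omega)
          · exact Finset.mem_image_of_mem _ (by rw [Finset.mem_Ico]; omega)
          · exact Finset.mem_image_of_mem _ (by rw [Finset.mem_Ico]; omega)
      intro k hk
      obtain ⟨i, hi, rfl⟩ := Finset.mem_image.mp hk
      rw [Finset.mem_Ico] at hi
      have := key (i - d) (by omega)
      rwa [show d + (i - d) = i by omega] at this) (by
      rw [Finset.disjoint_left]
      intro i hi hi'
      rw [Finset.mem_Ico] at hi
      rw [Finset.mem_insert, Finset.mem_range] at hi'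
      omega) (by
      intro i hi
      rw [Finset.mem_insert, Finset.mem_range] at hi
      rcases hi with rfl | hi
      · refine ⟨p - 2, by rw [Finset.mem_Ico]; omega, ?_⟩
        have := h.pth.adj (p - 2) (by omega)
        rwa [show p - 2 + 1 = p - 1 by omega] at this
      · exact ⟨d, by rw [Finset.mem_Ico]; omega, (hadjd i hi).symm⟩) h.out
    ⟨i0, by
      rw [Finset.mem_Ico]
      refine ⟨?_, ?_⟩
      · by_contra hlt
        exact hnx i0 (by omega) hadj
      · by_contra hge
        have : i0 = p - 1 := by omega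
        subst this
        exact h.nxl c hadj, hadj.symm⟩
  have h4 := c.leaf T h1 h2
  rw [Finset.card_insert_of_notMem (by rw [Finset.mem_range]; omega), Finset.card_range] at h3
  omega

theorem small (h : Good G p x v) (c : Ctx G d p w0) (hd : d ≤ 1) : False := by
  have hp := h.three c
  obtain ⟨i0, hi0, hadj⟩ := h.att
  obtain ⟨T, h1, h2, h3⟩ := tree_of_index c.conn h.pth (KI := Finset.Ico 1 (p - 1))
    (LI := {0, p - 1}) (a := v 1) (x := x) (by
      intro i hi; rw [Finset.mem_Ico] at hi; omega) (by
      intro i hi; rw [Finset.mem_insert, Finset.mem_singleton] at hi; omega) (by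
      refine ⟨Finset.mem_image_of_mem _ (by rw [Finset.mem_Ico]; omega), ?_⟩
      have key : ∀ k, 1 + k < p - 1 →
          Relation.ReflTransGen (AdjIn G ((Finset.Ico 1 (p - 1)).image v)) (v 1) (v (1 + k)) := by
        intro k
        induction k with
        | zero => intro _; exact Relation.ReflTransGen.refl
        | succ k ih =>
          intro hk
          refine Relation.ReflTransGen.tail (ih (by omega)) ⟨?_, ?_, ?_⟩
          · exact h.pth.adj (1 + k) (by omega)
          · exact Finset.mem_image_of_mem _ (by rw [Finset.mem_Ico]; omega)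
          · exact Finset.mem_image_of_mem _ (by rw [Finset.mem_Ico]; omega)
      intro k hk
      obtain ⟨i, hi, rfl⟩ := Finset.mem_image.mp hk
      rw [Finset.mem_Ico] at hi
      have := key (i - 1) (by omega)
      rwa [show 1 + (i - 1) = i by omega] at this) (by
      rw [Finset.disjoint_left]
      intro i hi hi'
      rw [Finset.mem_Ico] at hi
      rw [Finset.mem_insert, Finset.mem_singleton] at hi'
      omega) (by
      intro i hi
      rw [Finset.mem_insert, Finset.mem_singleton] at hi
      rcases hi with rfl | rfl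
      · exact ⟨1, by rw [Finset.mem_Ico]; omega, (h.pth.adj 0 (by omega)).symm⟩
      · refine ⟨p - 2, by rw [Finset.mem_Ico]; omega, ?_⟩
        have := h.pth.adj (p - 2) (by omega)
        rwa [show p - 2 + 1 = p - 1 by omega] at this) h.out
    ⟨i0, by
      rw [Finset.mem_Ico]
      refine ⟨?_, ?_⟩
      · by_contra hlt
        have : i0 = 0 := by omega
        subst this
        exact h.nx c hadj
      · by_contra hge
        have : i0 = p - 1 := by omega
        subst this
        exact h.nxl c hadj, hadj.symm⟩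
  have h4 := c.leaf T h1 h2
  rw [Finset.card_pair (by omega)] at h3
  omega

theorem no_good (h : Good G p x v) (c : Ctx G d p w0) : False := by
  rcases Nat.lt_or_ge d 2 with hd | hd
  · exact small h c (by omega)
  · have hp := h.three c
    by_cases hv0 : v 0 = w0
    · have hvl : v (p - 1) ≠ w0 := by
        rw [← hv0]
        intro he
        have := h.pth.inj _ _ (by omega) (by omega) he
        omega
      have hxw : x ≠ w0 := by
        rw [← hv0]
        exact (h.out 0 (by omega)).symm
      exact caseII h.rev c hd (by simpa using hvl) hxw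
    · have hl := caseI h c hd hv0
      have hxw : x ≠ w0 := by
        rw [← hl]
        exact (h.out (p - 1) (by omega)).symm
      exact caseII h c hd hv0 hxw

end main

end Pool.Agent.Q102.LeafPath
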