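import Mathlib

/-!
# Monophonic position number of circulant graphs: definitions and a criterion
-/

set_option autoImplicit false

open SimpleGraph

namespace Pool.Agent.Q102.MonoPos

section General

variable {V : Type*} (G : SimpleGraph V)

/-- The walk `p` is an induced path: a path without chords. -/
def IsInducedPath {u v : V} (p : G.Walk u v) : Prop :=
  p.IsPath ∧ ∀ i j : ℕ, i < j → j ≤ p.length → G.Adj (p.getVert i) (p.getVert j) → j = i + 1

/-- `S` is a monophonic position set: for distinct `u, v ∈ S`, no induced `u`-`v` path has an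
internal vertex in `S`. -/
def IsMPSet (S : Set V) : Prop :=
  ∀ u ∈ S, ∀ v ∈ S, u ≠ v → ∀ p : G.Walk u v, IsInducedPath G p →
    ∀ w ∈ S, w ∈ p.support → w = u ∨ w = v

/-- The monophonic position number: the largest size of a monophonic position set. -/
noncomputable def mp : ℕ := sSup {k : ℕ | ∃ S : Set V, IsMPSet G S ∧ S.ncard = k}

variable {G}

theorem induced2 {a b c : V} (h1 : G.Adj a b) (h2 : G.Adj b c) (hac : a ≠ c)
    (h : ¬ G.Adj a c) : IsInducedPath G (Walk.cons h1 (Walk.cons h2 Walk.nil)) := by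
  refine ⟨?_, ?_⟩
  · simp [Walk.isPath_def, h1.ne, h2.ne, hac]
  · intro i j hij hj hadj
    simp only [Walk.length_cons, Walk.length_nil] at hj
    have hj' : j ≤ 2 := by omega
    interval_cases j <;> interval_cases i <;> first | rfl | (exfalso; exact h hadj)

theorem induced3 {a b c d : V} (h1 : G.Adj a b) (h2 : G.Adj b c) (h3 : G.Adj c d)
    (hac : ¬ G.Adj a c) (had : ¬ G.Adj a d) (hbd : ¬ G.Adj b d) :
    IsInducedPath G (Walk.cons h1 (Walk.cons h2 (Walk.cons h3 Walk.nil))) := by
  have nac : a ≠ c := by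
    rintro rfl
    exact had h3
  have nad : a ≠ d := by
    rintro rfl
    exact hbd h1.symm
  have nbd : b ≠ d := by
    rintro rfl
    exact had h1
  refine ⟨?_, ?_⟩
  · simp [Walk.isPath_def, h1.ne, h2.ne, h3.ne, nac, nad, nbd]
  · intro i j hij hj hadj
    simp only [Walk.length_cons, Walk.length_nil] at hj
    have hj' : j ≤ 3 := by omega
    interval_cases j <;> interval_cases i <;>
      first | rfl | (exfalso; exact hac hadj) | (exfalso; exact had hadj) |
        (exfalso; exact hbd hadj)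

theorem induced4 {a b c d e : V} (h1 : G.Adj a b) (h2 : G.Adj b c) (h3 : G.Adj c d)
    (h4 : G.Adj d e) (hac : ¬ G.Adj a c) (had : ¬ G.Adj a d) (hae : ¬ G.Adj a e)
    (hbd : ¬ G.Adj b d) (hbe : ¬ G.Adj b e) (hce : ¬ G.Adj c e) :
    IsInducedPath G (Walk.cons h1 (Walk.cons h2 (Walk.cons h3 (Walk.cons h4 Walk.nil)))) := by
  have nac : a ≠ c := by
    rintro rfl
    exact had h3
  have nad : a ≠ d := by
    rintro rfl
    exact hbd h1.symm
  have nae : a ≠ e := by
    rintro rfl
    exact hbe h1.symm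
  have nbd : b ≠ d := by
    rintro rfl
    exact had h1
  have nbe : b ≠ e := by
    rintro rfl
    exact hae h1
  have nce : c ≠ e := by
    rintro rfl
    exact hbe h2
  refine ⟨?_, ?_⟩
  · simp [Walk.isPath_def, h1.ne, h2.ne, h3.ne, h4.ne, nac, nad, nae, nbd, nbe, nce]
  · intro i j hij hj hadj
    simp only [Walk.length_cons, Walk.length_nil] at hj
    have hj' : j ≤ 4 := by omega
    interval_cases j <;> interval_cases i <;>
      first | rfl | (exfalso; exact hac hadj) | (exfalso; exact had hadj) |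
        (exfalso; exact hae hadj) | (exfalso; exact hbd hadj) | (exfalso; exact hbe hadj) |
        (exfalso; exact hce hadj)

/-- `y` lies in the middle of an induced path `x - m - y - m' - z`. -/
def Mid (G : SimpleGraph V) (x y z : V) : Prop :=
  (∃ m, G.Adj x m ∧ G.Adj m y ∧ ¬ G.Adj m z) ∧ ∃ m', G.Adj y m' ∧ G.Adj m' z ∧ ¬ G.Adj m' x

/-- The criterion. -/
structure Good (G : SimpleGraph V) : Prop where
  tri : ∀ a b c, G.Adj a b → G.Adj b c → ¬ G.Adj a c
  two : ∀ a b, a ≠ b → ¬ G.Adj a b → ∃ m, G.Adj a m ∧ G.Adj m b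
  three : ∀ x y z, x ≠ y → y ≠ z → x ≠ z → ¬ G.Adj x y → ¬ G.Adj y z → ¬ G.Adj x z →
    Mid G x y z ∨ Mid G y z x ∨ Mid G z x y

theorem Good.not_mpSet_mid (hG : Good G) {S : Set V} (hS : IsMPSet G S) {x y z : V} (hx : x ∈ S)
    (hy : y ∈ S) (hz : z ∈ S) (hxy : x ≠ y) (hyz : y ≠ z) (hxz : x ≠ z) (nxy : ¬ G.Adj x y)
    (nyz : ¬ G.Adj y z) (nxz : ¬ G.Adj x z) : ¬ Mid G x y z := by
  rintro ⟨⟨m, h1, h2, h3⟩, ⟨m', h4, h5, h6⟩⟩
  have hmm : ¬ G.Adj m m' := hG.tri _ _ _ h2 h4
  have hp := induced4 h1 h2 h4 h5 nxy (fun h => h6 h.symm) nxz hmm h3 nyz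
  rcases hS x hx z hz hxz _ hp y hy (by simp) with h | h
  · exact hxy h.symm
  · exact hyz h

/-- One edge `x ~ y`. -/
theorem Good.not_mpSet_one (hG : Good G) {S : Set V} (hS : IsMPSet G S) {x y z : V} (hx : x ∈ S)
    (hy : y ∈ S) (hz : z ∈ S) (hxy : x ≠ y) (hyz : y ≠ z) (hxz : x ≠ z) (axy : G.Adj x y) :
    False := by
  by_cases nyz : G.Adj y z
  · have hp := induced2 axy nyz hxz (hG.tri _ _ _ axy nyz)
    rcases hS x hx z hz hxz _ hp y hy (by simp) with h | h
    · exact hxy h.symm
    · exact hyz h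
  · by_cases nxz : G.Adj x z
    · have hp := induced2 axy.symm nxz hyz nyz
      rcases hS y hy z hz hyz _ hp x hx (by simp) with h | h
      · exact hxy h
      · exact hxz h
    · obtain ⟨m, h1, h2⟩ := hG.two y z hyz nyz
      have hp := induced3 axy h1 h2 (hG.tri _ _ _ axy h1) nxz nyz
      rcases hS x hx z hz hxz _ hp y hy (by simp) with h | h
      · exact hxy h.symm
      · exact hyz h

theorem Good.not_mpSet (hG : Good G) {S : Set V} (hS : IsMPSet G S) {x y z : V} (hx : x ∈ S)
    (hy : y ∈ S) (hz : z ∈ S) (hxy : x ≠ y) (hyz : y ≠ z) (hxz : x ≠ z) : False := by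
  by_cases axy : G.Adj x y
  · exact hG.not_mpSet_one hS hx hy hz hxy hyz hxz axy
  by_cases ayz : G.Adj y z
  · exact hG.not_mpSet_one hS hy hz hx hyz hxz.symm hxy.symm ayz
  by_cases axz : G.Adj x z
  · exact hG.not_mpSet_one hS hx hz hy hxz hyz.symm hxy axz
  rcases hG.three x y z hxy hyz hxz axy ayz axz with h | h | h
  · exact hG.not_mpSet_mid hS hx hy hz hxy hyz hxz axy ayz axz h
  · exact hG.not_mpSet_mid hS hy hz hx hyz hxz.symm hxy.symm ayz (fun h => axz h.symm)
      (fun h => axy h.symm) h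
  · exact hG.not_mpSet_mid hS hz hx hy hxz.symm hxy hyz.symm (fun h => axz h.symm) axy
      (fun h => ayz h.symm) h

theorem bddAbove_mp [Finite V] (G : SimpleGraph V) :
    BddAbove {k : ℕ | ∃ S : Set V, IsMPSet G S ∧ S.ncard = k} := by
  refine ⟨Nat.card V, ?_⟩
  rintro _ ⟨S, -, rfl⟩
  exact Set.ncard_le_card S

theorem Good.mp_eq_two [Finite V] [Nontrivial V] (hG : Good G) : mp G = 2 := by
  apply le_antisymm
  · refine csSup_le ⟨0, ∅, fun u hu => absurd hu (Set.notMem_empty _), Set.ncard_empty _⟩ ?_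
    rintro k ⟨S, hS, rfl⟩
    by_contra hlt
    push Not at hlt
    obtain ⟨x, y, z, hx, hy, hz, hxy, hxz, hyz⟩ := (Set.two_lt_ncard_iff).mp hlt
    exact hG.not_mpSet hS hx hy hz hxy hyz hxz
  · obtain ⟨x, y, hxy⟩ := exists_pair_ne V
    refine le_csSup (bddAbove_mp G) ⟨{x, y}, ?_, Set.ncard_pair hxy⟩
    rintro u hu v hv huv p - w hw -
    simp only [Set.mem_insert_iff, Set.mem_singleton_iff] at hu hv hw
    rcases hu with rfl | rfl <;> rcases hv with rfl | rfl <;> rcases hw with rfl | rfl <;> simp_all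

theorem Good.diam_eq_two [Finite V] [Nontrivial V] (hG : Good G) (hne : ∃ a b, a ≠ b ∧ ¬ G.Adj a b) :
    G.diam = 2 := by
  have h1 : ∀ u v, G.edist u v ≤ 2 := by
    intro u v
    by_cases huv : u = v
    · subst huv
      simp
    · by_cases hadj : G.Adj u v
      · have := (Walk.cons hadj Walk.nil).edist_le
        refine this.trans ?_
        simp
      · obtain ⟨m, h1, h2⟩ := hG.two u v huv hadj
        have := (Walk.cons h1 (Walk.cons h2 Walk.nil)).edist_le
        refine this.trans ?_
        simp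
  have h2 : G.ediam ≤ 2 := ediam_le_of_edist_le h1
  have h3 : G.ediam ≠ ⊤ := ne_top_of_le_ne_top (by simp) h2
  have h4 : G.diam ≤ 2 := by
    unfold SimpleGraph.diam
    exact ENat.toNat_le_of_le_natCast h2
  have h5 : G.diam ≠ 0 := diam_ne_zero_of_ediam_ne_top h3
  have h6 : G.diam ≠ 1 := by
    intro h
    rw [diam_eq_one] at h
    obtain ⟨a, b, hab, hn⟩ := hne
    rw [h] at hn
    exact hn hab
  omega

/-- Three pairwise adjacent vertices. -/
theorem three_le_mp_of_triangle [Finite V] {a b c : V} (hab : G.Adj a b) (hbc : G.Adj b c)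
    (hac : G.Adj a c) : 3 ≤ mp G := by
  refine le_csSup (bddAbove_mp G) ⟨{a, b, c}, ?_, ?_⟩
  · intro u hu v hv huv p hp w hw hwp
    have hadj : G.Adj u v := by
      simp only [Set.mem_insert_iff, Set.mem_singleton_iff] at hu hv
      rcases hu with rfl | rfl | rfl <;> rcases hv with rfl | rfl | rfl <;>
        first | exact absurd rfl huv | assumption | exact SimpleGraph.Adj.symm (by assumption)
    have hlen : p.length = 1 := by
      have h0 : 0 < p.length := by
        rw [Nat.pos_iff_ne_zero]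
        intro h0
        exact huv (Walk.eq_of_length_eq_zero h0)
      have := hp.2 0 p.length h0 le_rfl (by
        rw [Walk.getVert_zero, Walk.getVert_length]
        exact hadj)
      omega
    rw [Walk.mem_support_iff_exists_getVert] at hwp
    obtain ⟨i, hi, hi'⟩ := hwp
    have : i = 0 ∨ i = p.length := by omega
    rcases this with rfl | rfl
    · left
      rw [← hi, Walk.getVert_zero]
    · right
      rw [← hi, Walk.getVert_length]
  · rw [Set.ncard_eq_three]
    exact ⟨a, b, c, hab.ne, hac.ne, hbc.ne, rfl⟩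

/-- Three vertices with the same neighbourhoods. -/
theorem three_le_mp_of_twins [Finite V] {a b c : V} (hab : a ≠ b) (hbc : b ≠ c) (hac : a ≠ c)
    (h1 : ∀ x, G.Adj a x ↔ G.Adj b x) (h2 : ∀ x, G.Adj a x ↔ G.Adj c x) : 3 ≤ mp G := by
  refine le_csSup (bddAbove_mp G) ⟨{a, b, c}, ?_, ?_⟩
  · intro u hu v hv huv p hp w hw hwp
    have hN : ∀ t ∈ ({a, b, c} : Set V), ∀ x, G.Adj t x ↔ G.Adj a x := by
      intro t ht x
      simp only [Set.mem_insert_iff, Set.mem_singleton_iff] at ht
      rcases ht with rfl | rfl | rfl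
      · exact Iff.rfl
      · exact (h1 x).symm
      · exact (h2 x).symm
    have h0 : 0 < p.length := by
      rw [Nat.pos_iff_ne_zero]
      intro h0
      exact huv (Walk.eq_of_length_eq_zero h0)
    have hu1 : G.Adj u (p.getVert 1) := by
      have := p.adj_getVert_succ h0
      rwa [Walk.getVert_zero] at this
    have hv1 : G.Adj v (p.getVert 1) := (hN v hv _).mpr ((hN u hu _).mp hu1)
    have hlen : p.length = 2 := by
      have hne1 : p.length ≠ 1 := by
        intro h
        rw [← h, Walk.getVert_length] at hv1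
        exact G.loopless.irrefl _ hv1
      have := hp.2 1 p.length (by omega) le_rfl (by
        rw [Walk.getVert_length]
        exact hv1.symm)
      omega
    rw [Walk.mem_support_iff_exists_getVert] at hwp
    obtain ⟨i, hi, hi'⟩ := hwp
    have : i = 0 ∨ i = p.length ∨ i = 1 := by omega
    rcases this with rfl | rfl | rfl
    · left
      rw [← hi, Walk.getVert_zero]
    · right
      rw [← hi, Walk.getVert_length]
    · exfalso
      rw [hi] at hu1
      have := (hN w hw _).mpr ((hN u hu _).mp hu1)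
      exact G.loopless.irrefl _ this
  · rw [Set.ncard_eq_three]
    exact ⟨a, b, c, hab, hac, hbc, rfl⟩

end General

end Pool.Agent.Q102.MonoPos
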