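import Mathlib
import Pool.Agent.Q102.MonoPos

/-!
# Circulant graphs of diameter two with monophonic position number two
-/

set_option autoImplicit false

open SimpleGraph

namespace Pool.Agent.Q102.MonoPos

/-- The symmetrised form of `Mid`. -/
def Mid3 {V : Type*} (G : SimpleGraph V) (x y z : V) : Prop := Mid G x y z ∨ Mid G y z x ∨ Mid G z x y

theorem Mid.symm {V : Type*} {G : SimpleGraph V} {x y z : V} (h : Mid G x y z) : Mid G z y x := by
  obtain ⟨⟨m, h1, h2, h3⟩, ⟨m', h4, h5, h6⟩⟩ := h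
  exact ⟨⟨m', h5.symm, h4.symm, h6⟩, ⟨m, h2.symm, h1.symm, h3⟩⟩

theorem Mid3.rot {V : Type*} {G : SimpleGraph V} {x y z : V} (h : Mid3 G x y z) :
    Mid3 G y z x := by
  unfold Mid3 at h ⊢
  tauto

theorem Mid3.swap {V : Type*} {G : SimpleGraph V} {x y z : V} (h : Mid3 G x y z) :
    Mid3 G x z y := by
  rcases h with h | h | h
  · exact Or.inr (Or.inl h.symm)
  · exact Or.inl h.symm
  · exact Or.inr (Or.inr h.symm)

section Circ

variable {n : ℕ} {s : Set (ZMod n)}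

theorem adj_iff (hs : ∀ x ∈ s, -x ∈ s) (h0 : (0 : ZMod n) ∉ s) (u v : ZMod n) :
    (circulantGraph s).Adj u v ↔ v - u ∈ s := by
  rw [circulantGraph_adj]
  constructor
  · rintro ⟨-, h | h⟩
    · have := hs _ h
      rwa [neg_sub] at this
    · exact h
  · intro h
    refine ⟨?_, Or.inr h⟩
    rintro rfl
    rw [sub_self] at h
    exact h0 h

theorem mid3_translate (x y z d : ZMod n) (h : Mid3 (circulantGraph s) x y z) :
    Mid3 (circulantGraph s) (x + d) (y + d) (z + d) := by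
  have key : ∀ x y z : ZMod n, Mid (circulantGraph s) x y z →
      Mid (circulantGraph s) (x + d) (y + d) (z + d) := by
    rintro x y z ⟨⟨m, h1, h2, h3⟩, ⟨m', h4, h5, h6⟩⟩
    refine ⟨⟨m + d, ?_, ?_, ?_⟩, ⟨m' + d, ?_, ?_, ?_⟩⟩
    · rwa [circulantGraph_adj_translate]
    · rwa [circulantGraph_adj_translate]
    · rwa [circulantGraph_adj_translate]
    · rwa [circulantGraph_adj_translate]
    · rwa [circulantGraph_adj_translate]
    · rwa [circulantGraph_adj_translate]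
  rcases h with h | h | h
  · exact Or.inl (key _ _ _ h)
  · exact Or.inr (Or.inl (key _ _ _ h))
  · exact Or.inr (Or.inr (key _ _ _ h))

/-- A criterion at the vertex `0`. -/
theorem good_of_zero (hs : ∀ x ∈ s, -x ∈ s) (h0 : (0 : ZMod n) ∉ s)
    (h1 : ∀ a ∈ s, ∀ b ∈ s, a + b ∉ s) (h2 : ∀ a, a ≠ 0 → a ∉ s → ∃ m ∈ s, a - m ∈ s)
    (h3 : ∀ a b : ZMod n, a ≠ 0 → b ≠ 0 → a ≠ b → a ∉ s → b ∉ s → b - a ∉ s →
      Mid3 (circulantGraph s) 0 a b) : Good (circulantGraph s) := by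
  refine ⟨?_, ?_, ?_⟩
  · intro a b c hab hbc hac
    rw [adj_iff hs h0] at hab hbc hac
    apply h1 _ hab _ hbc
    rwa [show b - a + (c - b) = c - a by ring]
  · intro a b hab hn
    rw [adj_iff hs h0] at hn
    obtain ⟨m, hm, hm'⟩ := h2 (b - a) (sub_ne_zero.mpr hab.symm) hn
    refine ⟨a + m, ?_, ?_⟩
    · rw [adj_iff hs h0]
      rwa [show a + m - a = m by ring]
    · rw [adj_iff hs h0]
      rwa [show b - (a + m) = b - a - m by ring]
  · intro x y z hxy hyz hxz nxy nyz nxz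
    rw [adj_iff hs h0] at nxy nyz nxz
    have h := h3 (y - x) (z - x) (sub_ne_zero.mpr hxy.symm) (sub_ne_zero.mpr hxz.symm)
      (fun h => hyz (sub_left_injective h)) nxy nxz (by rwa [show z - x - (y - x) = z - y by ring])
    have h' := mid3_translate _ _ _ x h
    rwa [zero_add, sub_add_cancel, sub_add_cancel] at h'

end Circ

/-! ### The interval family -/

/-- Adjacency of `u, v ∈ {0, ..., n-1}` in terms of natural numbers. -/
def AN (n k u v : ℕ) : Prop :=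
  (k ≤ u - v ∧ u - v < 2 * k) ∨ (k ≤ n - (u - v) ∧ n - (u - v) < 2 * k) ∨
    (k ≤ v - u ∧ v - u < 2 * k) ∨ (k ≤ n - (v - u) ∧ n - (v - u) < 2 * k)

/-- The connection set `{±k, ..., ±(2k-1)}`. -/
def sk (n k : ℕ) : Set (ZMod n) :=
  {x | (k ≤ x.val ∧ x.val < 2 * k) ∨ (k ≤ n - x.val ∧ n - x.val < 2 * k)}

section Interval

variable {n k : ℕ} (hk : 2 ≤ k) (hn1 : 6 * k - 1 ≤ n) (hn2 : n ≤ 8 * k - 3)

include hk hn1

theorem val_cast {u : ℕ} (hu : u < n) : ((u : ℕ) : ZMod n).val = u := ZMod.val_natCast_of_lt hu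

theorem neg_mem_sk (x : ZMod n) (hx : x ∈ sk n k) : -x ∈ sk n k := by
  have : NeZero n := ⟨by omega⟩
  have hlt := ZMod.val_lt x
  simp only [sk, Set.mem_ofPred_eq] at hx ⊢
  rw [ZMod.neg_val]
  split_ifs with h
  · rw [h, ZMod.val_zero] at hx
    omega
  · omega

theorem zero_notMem_sk : (0 : ZMod n) ∉ sk n k := by
  have : NeZero n := ⟨by omega⟩
  simp only [sk, Set.mem_ofPred_eq, ZMod.val_zero]
  omega

theorem adj_cast {u v : ℕ} (hu : u < n) (hv : v < n) :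
    (circulantGraph (sk n k)).Adj (u : ZMod n) (v : ZMod n) ↔ AN n k u v := by
  have : NeZero n := ⟨by omega⟩
  rw [adj_iff (neg_mem_sk hk hn1) (zero_notMem_sk hk hn1)]
  rcases le_or_gt u v with h | h
  · have h1 : ((v : ZMod n) - (u : ZMod n)) = ((v - u : ℕ) : ZMod n) := by
      rw [Nat.cast_sub h]
    rw [h1]
    simp only [sk, Set.mem_ofPred_eq, ZMod.val_natCast_of_lt (show v - u < n by omega)]
    unfold AN
    omega
  · have h1 : ((v : ZMod n) - (u : ZMod n)) = ((n - (u - v) : ℕ) : ZMod n) := by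
      rw [Nat.cast_sub (by omega), Nat.cast_sub h.le, ZMod.natCast_self]
      ring
    rw [h1]
    simp only [sk, Set.mem_ofPred_eq, ZMod.val_natCast_of_lt (show n - (u - v) < n by omega)]
    unfold AN
    omega

theorem mid_cast {x y z m m' : ℕ} (hx : x < n) (hy : y < n) (hz : z < n) (hm : m < n)
    (hm' : m' < n) (h1 : AN n k x m) (h2 : AN n k m y) (h3 : ¬ AN n k m z) (h4 : AN n k y m')
    (h5 : AN n k m' z) (h6 : ¬ AN n k m' x) :
    Mid (circulantGraph (sk n k)) (x : ZMod n) (y : ZMod n) (z : ZMod n) := by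
  refine ⟨⟨(m : ZMod n), ?_, ?_, ?_⟩, ⟨(m' : ZMod n), ?_, ?_, ?_⟩⟩
  · rwa [adj_cast hk hn1 hx hm]
  · rwa [adj_cast hk hn1 hm hy]
  · rwa [adj_cast hk hn1 hm hz]
  · rwa [adj_cast hk hn1 hy hm']
  · rwa [adj_cast hk hn1 hm' hz]
  · rwa [adj_cast hk hn1 hm' hx]

theorem AN_iff {u v : ℕ} (huv : u ≤ v) (hv : v < n) :
    AN n k u v ↔ (u + k ≤ v ∧ v < u + 2 * k) ∨ (v + k ≤ u + n ∧ u + n < v + 2 * k) := by
  unfold AN
  omega

theorem AN_symm {u v : ℕ} (h : AN n k u v) : AN n k v u := by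
  unfold AN at h ⊢
  tauto

theorem tri_nat {u v w : ℕ} (huv : u ≤ v) (hvw : v ≤ w) (hw : w < n) (h1 : AN n k u v)
    (h2 : AN n k v w) (h3 : AN n k u w) : False := by
  rw [AN_iff hk hn1 huv (by omega)] at h1
  rw [AN_iff hk hn1 hvw hw] at h2
  rw [AN_iff hk hn1 (huv.trans hvw) hw] at h3
  omega

/-- Three vertices on a short arc. -/
theorem typeA {a b : ℕ} (ha : 0 < a) (hab : a < b) (hb : b < k) :
    Mid3 (circulantGraph (sk n k)) ((0 : ℕ) : ZMod n) (a : ZMod n) (b : ZMod n) := by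
  refine Or.inl (mid_cast hk hn1 (m := k + a) (m' := n + a - k) (by omega) (by omega) (by omega)
    (by omega) (by omega) ?_ ?_ ?_ ?_ ?_ ?_) <;> unfold AN <;> omega

include hn2

/-- Three vertices far from each other. -/
theorem typeC {a b : ℕ} (ha : 2 * k ≤ a) (hab : a + 2 * k ≤ b) (hb : b + 2 * k ≤ n) :
    Mid3 (circulantGraph (sk n k)) ((0 : ℕ) : ZMod n) (a : ZMod n) (b : ZMod n) := by
  refine Or.inl (mid_cast hk hn1 (m := max k (a + 1 - 2 * k)) (m' := max (a + k) (b + 1 - 2 * k))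
    (by omega) (by omega) (by omega)
    (by omega) (by omega) ?_ ?_ ?_ ?_ ?_ ?_) <;> unfold AN <;> omega

/-- Two vertices near each other, the third far away. -/
theorem typeB {a b : ℕ} (ha : 0 < a) (hak : a < k) (hab : 2 * k + a ≤ b) (hb : b + 2 * k ≤ n) :
    Mid3 (circulantGraph (sk n k)) ((0 : ℕ) : ZMod n) (a : ZMod n) (b : ZMod n) := by
  have hcases : ((3 * k + a ≤ b ∨ b + 2 ≤ 3 * k ∨ 3 * k ≤ n - b ∨ n + a - b + 2 ≤ 3 * k) ∧
      ((b + 2 ≤ 3 * k + a ∨ (3 * k ≤ n + a - b ∧ n + a - b + 2 ≤ 4 * k + a)) ∨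
        ((3 * k ≤ b ∧ b + 2 ≤ 4 * k + a) ∨ n + a - b + 2 ≤ 3 * k + a))) ∨
      ((b + 2 ≤ 3 * k + a ∨ (3 * k ≤ n + a - b ∧ n + a - b + 2 ≤ 4 * k + a)) ∧
        ((3 * k ≤ b ∧ b + 2 ≤ 4 * k + a) ∨ n + a - b + 2 ≤ 3 * k + a)) := by
    by_cases hA : 3 * k + a ≤ b ∨ b + 2 ≤ 3 * k ∨ 3 * k ≤ n - b ∨ n + a - b + 2 ≤ 3 * k
    · refine Or.inl ⟨hA, ?_⟩
      clear hA
      by_cases hB : b + 2 ≤ 3 * k + a
      · exact Or.inl (Or.inl hB)
      · by_cases hC : b + 2 ≤ 4 * k + a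
        · exact Or.inr (Or.inl ⟨by omega, hC⟩)
        · by_cases hD : 3 * k ≤ n + a - b
          · exact Or.inl (Or.inr ⟨hD, by omega⟩)
          · exact Or.inr (Or.inr (by omega))
    · refine Or.inr ?_
      push Not at hA
      obtain ⟨h1, h2, h3, h4⟩ := hA
      constructor
      · by_cases hB : b + 2 ≤ 3 * k + a
        · exact Or.inl hB
        · exact Or.inr ⟨by omega, by omega⟩
      · by_cases hB : n + a - b + 2 ≤ 3 * k + a
        · exact Or.inr hB
        · exact Or.inl ⟨by omega, by omega⟩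
  -- a common neighbour of `0` and `a` which is not adjacent to `b`
  have hα : 3 * k + a ≤ b ∨ b + 2 ≤ 3 * k ∨ 3 * k ≤ n - b ∨ n + a - b + 2 ≤ 3 * k →
      ∃ m < n, AN n k 0 m ∧ AN n k m a ∧ ¬ AN n k m b := by
    rintro (h | h | h | h)
    · exact ⟨k + a, by omega, by unfold AN; omega, by unfold AN; omega, by unfold AN; omega⟩
    · exact ⟨2 * k - 1, by omega, by unfold AN; omega, by unfold AN; omega, by unfold AN; omega⟩
    · exact ⟨n - k, by omega, by unfold AN; omega, by unfold AN; omega, by unfold AN; omega⟩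
    · exact ⟨n + a + 1 - 2 * k, by omega, by unfold AN; omega, by unfold AN; omega,
        by unfold AN; omega⟩
  -- a common neighbour of `0` and `b` which is not adjacent to `a`
  have hβ : b + 2 ≤ 3 * k + a ∨ (3 * k ≤ n + a - b ∧ n + a - b + 2 ≤ 4 * k + a) →
      ∃ m < n, AN n k 0 m ∧ AN n k m b ∧ ¬ AN n k m a := by
    rintro (h | ⟨h, h'⟩)
    · exact ⟨max k (b + 1 - 2 * k), by omega, by unfold AN; omega, by unfold AN; omega,
        by unfold AN; omega⟩
    · exact ⟨n + a - min (2 * k - 1 + a) (n + a - b - k), by omega, by unfold AN; omega,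
        by unfold AN; omega, by unfold AN; omega⟩
  -- a common neighbour of `a` and `b` which is not adjacent to `0`
  have hγ : (3 * k ≤ b ∧ b + 2 ≤ 4 * k + a) ∨ n + a - b + 2 ≤ 3 * k + a →
      ∃ m < n, AN n k a m ∧ AN n k m b ∧ ¬ AN n k m 0 := by
    rintro (⟨h, h'⟩ | h)
    · exact ⟨min (2 * k - 1 + a) (b - k), by omega, by unfold AN; omega, by unfold AN; omega,
        by unfold AN; omega⟩
    · exact ⟨n + a - max k (n + a - b + 1 - 2 * k), by omega, by unfold AN; omega,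
        by unfold AN; omega, by unfold AN; omega⟩
  have hsymm : ∀ u v, AN n k u v → AN n k v u := by
    intro u v h
    unfold AN at h ⊢
    omega
  rcases hcases with ⟨h1, h2 | h2⟩ | ⟨h1, h2⟩
  · -- `0` in the middle
    obtain ⟨m, hm, m1, m2, m3⟩ := hα h1
    obtain ⟨p, hp, p1, p2, p3⟩ := hβ h2
    refine Or.inr (Or.inr ?_)
    exact mid_cast hk hn1 (m := p) (m' := m) (by omega) (by omega) (by omega) hp hm
      (hsymm _ _ p2) (hsymm _ _ p1) p3 m1 m2 m3
  · -- `a` in the middle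
    obtain ⟨m, hm, m1, m2, m3⟩ := hα h1
    obtain ⟨p, hp, p1, p2, p3⟩ := hγ h2
    refine Or.inl ?_
    exact mid_cast hk hn1 (m := m) (m' := p) (by omega) (by omega) (by omega) hm hp
      m1 m2 m3 p1 p2 p3
  · -- `b` in the middle
    obtain ⟨m, hm, m1, m2, m3⟩ := hβ h1
    obtain ⟨p, hp, p1, p2, p3⟩ := hγ h2
    refine Or.inr (Or.inl ?_)
    exact mid_cast hk hn1 (m := p) (m' := m) (by omega) (by omega) (by omega) hp hm
      p1 p2 p3 (hsymm _ _ m2) (hsymm _ _ m1) m3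

/-- The three cases together. -/
theorem type_of_gaps {a b : ℕ} (h : (0 < a ∧ a < b ∧ b < k) ∨
    (0 < a ∧ a < k ∧ 2 * k + a ≤ b ∧ b + 2 * k ≤ n) ∨
    (2 * k ≤ a ∧ a + 2 * k ≤ b ∧ b + 2 * k ≤ n)) :
    Mid3 (circulantGraph (sk n k)) ((0 : ℕ) : ZMod n) (a : ZMod n) (b : ZMod n) := by
  rcases h with ⟨h1, h2, h3⟩ | ⟨h1, h2, h3, h4⟩ | ⟨h1, h2, h3⟩
  · exact typeA hk hn1 h1 h2 h3
  · exact typeB hk hn1 hn2 h1 h2 h3 h4
  · exact typeC hk hn1 hn2 h1 h2 h3

/-- Three vertices in increasing order. -/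
theorem mid3_of_lt {u v w : ℕ} (huv : u < v) (hvw : v < w) (hw : w < n) (n1 : ¬ AN n k u v)
    (n2 : ¬ AN n k v w) (n3 : ¬ AN n k u w) :
    Mid3 (circulantGraph (sk n k)) (u : ZMod n) (v : ZMod n) (w : ZMod n) := by
  have : NeZero n := ⟨by omega⟩
  rw [AN_iff hk hn1 huv.le (by omega)] at n1
  rw [AN_iff hk hn1 hvw.le hw] at n2
  rw [AN_iff hk hn1 (huv.trans hvw).le hw] at n3
  obtain ⟨g1, rfl⟩ : ∃ g1, v = u + g1 := ⟨v - u, by omega⟩
  obtain ⟨g2, rfl⟩ : ∃ g2, w = u + g1 + g2 := ⟨w - (u + g1), by omega⟩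
  obtain ⟨g3, hg3⟩ : ∃ g3, n = g1 + g2 + g3 := ⟨n - (g1 + g2), by omega⟩
  have a1 : g1 < k ∨ 2 * k ≤ g1 := by omega
  have a2 : g2 < k ∨ 2 * k ≤ g2 := by omega
  have a3 : g3 < k ∨ 2 * k ≤ g3 := by omega
  have b1 : g2 + g3 < k ∨ 2 * k ≤ g2 + g3 := by omega
  have b2 : g3 + g1 < k ∨ 2 * k ≤ g3 + g1 := by omega
  have b3 : g1 + g2 < k ∨ 2 * k ≤ g1 + g2 := by omega
  clear n1 n2 n3
  have hgap : ((0 < g1 ∧ g1 < g1 + g2 ∧ g1 + g2 < k) ∨
      (0 < g1 ∧ g1 < k ∧ 2 * k + g1 ≤ g1 + g2 ∧ g1 + g2 + 2 * k ≤ n) ∨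
      (2 * k ≤ g1 ∧ g1 + 2 * k ≤ g1 + g2 ∧ g1 + g2 + 2 * k ≤ n)) ∨
      ((0 < g2 ∧ g2 < g2 + g3 ∧ g2 + g3 < k) ∨
      (0 < g2 ∧ g2 < k ∧ 2 * k + g2 ≤ g2 + g3 ∧ g2 + g3 + 2 * k ≤ n) ∨
      (2 * k ≤ g2 ∧ g2 + 2 * k ≤ g2 + g3 ∧ g2 + g3 + 2 * k ≤ n)) ∨
      ((0 < g3 ∧ g3 < g3 + g1 ∧ g3 + g1 < k) ∨
      (0 < g3 ∧ g3 < k ∧ 2 * k + g3 ≤ g3 + g1 ∧ g3 + g1 + 2 * k ≤ n) ∨
      (2 * k ≤ g3 ∧ g3 + 2 * k ≤ g3 + g1 ∧ g3 + g1 + 2 * k ≤ n)) := by
    rcases a1 with a1 | a1 <;> rcases a2 with a2 | a2 <;> rcases a3 with a3 | a3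
    · omega
    · exact Or.inl (Or.inl ⟨by omega, by omega, by omega⟩)
    · exact Or.inr (Or.inr (Or.inl ⟨by omega, by omega, by omega⟩))
    · exact Or.inl (Or.inr (Or.inl ⟨by omega, by omega, by omega, by omega⟩))
    · exact Or.inr (Or.inl (Or.inl ⟨by omega, by omega, by omega⟩))
    · exact Or.inr (Or.inl (Or.inr (Or.inl ⟨by omega, by omega, by omega, by omega⟩)))
    · exact Or.inr (Or.inr (Or.inr (Or.inl ⟨by omega, by omega, by omega, by omega⟩)))
    · exact Or.inl (Or.inr (Or.inr ⟨by omega, by omega, by omega⟩))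
  have hn0 : ((g1 + g2 + g3 : ℕ) : ZMod n) = 0 := by
    rw [← hg3]
    exact ZMod.natCast_self n
  push_cast at hn0
  rcases hgap with h | h | h
  · have h1 := mid3_translate _ _ _ (u : ZMod n) (type_of_gaps hk hn1 hn2 h)
    have e1 : (((0 : ℕ) : ZMod n) + (u : ZMod n)) = (u : ZMod n) := by simp
    have e2 : ((g1 : ZMod n) + (u : ZMod n)) = ((u + g1 : ℕ) : ZMod n) := by
      push_cast
      ring
    have e3 : (((g1 + g2 : ℕ) : ZMod n) + (u : ZMod n)) = ((u + g1 + g2 : ℕ) : ZMod n) := by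
      push_cast
      ring
    rwa [e1, e2, e3] at h1
  · have h1 := mid3_translate _ _ _ ((u + g1 : ℕ) : ZMod n) (type_of_gaps hk hn1 hn2 h)
    have e1 : (((0 : ℕ) : ZMod n) + ((u + g1 : ℕ) : ZMod n)) = ((u + g1 : ℕ) : ZMod n) := by simp
    have e2 : ((g2 : ZMod n) + ((u + g1 : ℕ) : ZMod n)) = ((u + g1 + g2 : ℕ) : ZMod n) := by
      push_cast
      ring
    have e3 : (((g2 + g3 : ℕ) : ZMod n) + ((u + g1 : ℕ) : ZMod n)) = (u : ZMod n) := by
      push_cast
      linear_combination hn0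
    rw [e1, e2, e3] at h1
    exact h1.rot.rot
  · have h1 := mid3_translate _ _ _ ((u + g1 + g2 : ℕ) : ZMod n) (type_of_gaps hk hn1 hn2 h)
    have e1 : (((0 : ℕ) : ZMod n) + ((u + g1 + g2 : ℕ) : ZMod n)) =
        ((u + g1 + g2 : ℕ) : ZMod n) := by simp
    have e2 : ((g3 : ZMod n) + ((u + g1 + g2 : ℕ) : ZMod n)) = (u : ZMod n) := by
      push_cast
      linear_combination hn0
    have e3 : (((g3 + g1 : ℕ) : ZMod n) + ((u + g1 + g2 : ℕ) : ZMod n)) =
        ((u + g1 : ℕ) : ZMod n) := by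
      push_cast
      linear_combination hn0
    rw [e1, e2, e3] at h1
    exact h1.rot

theorem good_sk : Good (circulantGraph (sk n k)) := by
  have : NeZero n := ⟨by omega⟩
  have hcast : ∀ x : ZMod n, ((x.val : ℕ) : ZMod n) = x := fun x => ZMod.natCast_zmod_val x
  have hadj : ∀ x y : ZMod n, (circulantGraph (sk n k)).Adj x y ↔ AN n k x.val y.val := by
    intro x y
    rw [← adj_cast hk hn1 (ZMod.val_lt x) (ZMod.val_lt y), hcast, hcast]
  refine ⟨?_, ?_, ?_⟩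
  · intro a b c hab hbc hac
    rw [hadj] at hab hbc hac
    have h1 := ZMod.val_lt a
    have h2 := ZMod.val_lt b
    have h3 := ZMod.val_lt c
    have hs : ∀ {u v}, AN n k u v → AN n k v u := fun h => AN_symm hk hn1 h
    rcases le_total a.val b.val with f1 | f1 <;> rcases le_total b.val c.val with f2 | f2 <;>
      rcases le_total a.val c.val with f3 | f3
    · exact tri_nat hk hn1 f1 f2 h3 hab hbc hac
    · exact tri_nat hk hn1 f1 f2 h3 hab hbc hac
    · exact tri_nat hk hn1 f3 f2 h2 hac (hs hbc) hab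
    · exact tri_nat hk hn1 f3 f1 h2 (hs hac) hab (hs hbc)
    · exact tri_nat hk hn1 f1 f3 h3 (hs hab) hac hbc
    · exact tri_nat hk hn1 f2 f3 h1 hbc (hs hac) (hs hab)
    · exact tri_nat hk hn1 f2 f1 h1 (hs hbc) (hs hab) (hs hac)
    · exact tri_nat hk hn1 f2 f1 h1 (hs hbc) (hs hab) (hs hac)
  · -- a common neighbour
    have key : ∀ u v : ℕ, u < v → v < n → ¬ AN n k u v → ∃ m < n, AN n k u m ∧ AN n k m v := by
      intro u v huv hv hn
      have hc : v - u < k ∨ (2 * k ≤ v - u ∧ v - u + 2 ≤ 4 * k) ∨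
          (2 * k ≤ n - (v - u) ∧ n - (v - u) + 2 ≤ 4 * k) ∨ n - (v - u) < k := by
        unfold AN at hn
        omega
      rcases hc with h | ⟨h, h'⟩ | ⟨h, h'⟩ | h
      · by_cases hw : v + k < n
        · exact ⟨v + k, hw, by unfold AN; omega, by unfold AN; omega⟩
        · exact ⟨v + k - n, by omega, by unfold AN; omega, by unfold AN; omega⟩
      · exact ⟨u + max k (v - u + 1 - 2 * k), by omega, by unfold AN; omega, by unfold AN; omega⟩
      · by_cases hw : v + max k (n - (v - u) + 1 - 2 * k) < n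
        · exact ⟨_, hw, by unfold AN; omega, by unfold AN; omega⟩
        · exact ⟨v + max k (n - (v - u) + 1 - 2 * k) - n, by omega, by unfold AN; omega,
            by unfold AN; omega⟩
      · exact ⟨u + k, by omega, by unfold AN; omega, by unfold AN; omega⟩
    intro a b hab hn
    rw [hadj] at hn
    have h1 := ZMod.val_lt a
    have h2 := ZMod.val_lt b
    have hne : a.val ≠ b.val := fun h => hab (ZMod.val_injective n h)
    rcases Nat.lt_or_ge a.val b.val with h | h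
    · obtain ⟨m, hm, m1, m2⟩ := key _ _ h h2 hn
      refine ⟨(m : ZMod n), ?_, ?_⟩
      · rw [hadj, ZMod.val_natCast_of_lt hm]
        exact m1
      · rw [hadj, ZMod.val_natCast_of_lt hm]
        exact m2
    · obtain ⟨m, hm, m1, m2⟩ := key b.val a.val (by omega) h1 (by
        unfold AN at hn ⊢
        omega)
      refine ⟨(m : ZMod n), ?_, ?_⟩
      · rw [hadj, ZMod.val_natCast_of_lt hm]
        unfold AN at m2 ⊢
        omega
      · rw [hadj, ZMod.val_natCast_of_lt hm]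
        unfold AN at m1 ⊢
        omega
  · intro x y z hxy hyz hxz nxy nyz nxz
    rw [hadj] at nxy nyz nxz
    have h1 := ZMod.val_lt x
    have h2 := ZMod.val_lt y
    have h3 := ZMod.val_lt z
    have e1 : x.val ≠ y.val := fun h => hxy (ZMod.val_injective n h)
    have e2 : y.val ≠ z.val := fun h => hyz (ZMod.val_injective n h)
    have e3 : x.val ≠ z.val := fun h => hxz (ZMod.val_injective n h)
    have hs : ∀ u v, ¬ AN n k u v → ¬ AN n k v u := by
      intro u v h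
      unfold AN at h ⊢
      omega
    have key : ∀ x y z : ZMod n, x.val < y.val → y.val < z.val → ¬ AN n k x.val y.val →
        ¬ AN n k y.val z.val → ¬ AN n k x.val z.val →
        Mid3 (circulantGraph (sk n k)) x y z := by
      intro x y z h1 h2 n1 n2 n3
      have := mid3_of_lt hk hn1 hn2 h1 h2 (ZMod.val_lt z) n1 n2 n3
      rwa [hcast, hcast, hcast] at this
    change Mid3 (circulantGraph (sk n k)) x y z
    rcases lt_or_gt_of_ne e1 with f1 | f1 <;> rcases lt_or_gt_of_ne e2 with f2 | f2 <;>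
      rcases lt_or_gt_of_ne e3 with f3 | f3
    · exact key x y z f1 f2 nxy nyz nxz
    · omega
    · exact (key x z y f3 f2 nxz (hs _ _ nyz) nxy).swap
    · exact (key z x y f3 f1 (hs _ _ nxz) nxy (hs _ _ nyz)).rot
    · exact (key y x z f1 f3 (hs _ _ nxy) nxz nyz).swap.rot.rot
    · exact (key y z x f2 f3 nyz (hs _ _ nxz) (hs _ _ nxy)).rot.rot
    · omega
    · exact (key z y x f2 f1 (hs _ _ nyz) (hs _ _ nxy) (hs _ _ nxz)).rot.rot.swap

theorem nonadj_sk : ∃ a b, a ≠ b ∧ ¬ (circulantGraph (sk n k)).Adj a b := by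
  have : NeZero n := ⟨by omega⟩
  refine ⟨((0 : ℕ) : ZMod n), ((1 : ℕ) : ZMod n), ?_, ?_⟩
  · intro h
    have := congrArg ZMod.val h
    rw [ZMod.val_natCast_of_lt (by omega), ZMod.val_natCast_of_lt (by omega)] at this
    omega
  · rw [adj_cast hk hn1 (by omega) (by omega)]
    unfold AN
    omega

end Interval

end Pool.Agent.Q102.MonoPos
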