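import Mathlib

/-!
Path systems in graphs, and tools to verify statements about them by computation with vertex
lists.
-/

namespace Pool.Agent.Q102.PathSys

variable {V : Type*} {G : SimpleGraph V}

/-- a path system: one simple path for every (unordered) pair of vertices -/
structure PathSystem (G : SimpleGraph V) where
  P : ∀ u v, G.Walk u v
  isPath : ∀ u v, (P u v).IsPath
  symm : ∀ u v, P v u = (P u v).reverse

/-- consistency: the subpath between `x` and `y` of a path of the system is the path of the
system between `x` and `y` -/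
def Consistent (S : PathSystem G) : Prop :=
  ∀ u v x y (p₁ : G.Walk u x) (p₂ : G.Walk x y) (p₃ : G.Walk y v),
    S.P u v = p₁.append (p₂.append p₃) → S.P x y = p₂

/-- weight of a walk -/
noncomputable def weight (w : Sym2 V → ℝ) {u v : V} (p : G.Walk u v) : ℝ := (p.edges.map w).sum

/-! ### Lists and walks -/

section lists

variable {n : ℕ} {H : SimpleGraph (Fin n)} {A : Fin n → Fin n → Bool}

/-- `l` is the vertex list of a walk from `u` to `v` -/
def isWalk (A : Fin n → Fin n → Bool) (v : Fin n) : Fin n → List (Fin n) → Bool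
  | _, [] => false
  | u, [a] => a == u && a == v
  | u, a :: b :: t => a == u && A a b && isWalk A v b (b :: t)

theorem exists_walk (hA : ∀ a b, A a b = true → H.Adj a b) {v : Fin n} :
    ∀ (l : List (Fin n)) (u : Fin n), isWalk A v u l = true →
    ∃ p : H.Walk u v, p.support = l := by
  intro l
  induction l with
  | nil => intro u h; simp [isWalk] at h
  | cons a t ih =>
    intro u h
    cases t with
    | nil =>
      simp only [isWalk, Bool.and_eq_true, beq_iff_eq] at h
      obtain ⟨rfl, rfl⟩ := h
      exact ⟨SimpleGraph.Walk.nil, rfl⟩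
    | cons b t =>
      simp only [isWalk, Bool.and_eq_true, beq_iff_eq] at h
      obtain ⟨⟨rfl, h1⟩, h2⟩ := h
      obtain ⟨p, hp⟩ := ih b h2
      exact ⟨SimpleGraph.Walk.cons (hA _ _ h1) p, by rw [SimpleGraph.Walk.support_cons, hp]⟩

/-- all vertex lists of simple paths with at most `k` edges, starting at `u` and avoiding `vis` -/
def pathsFrom (A : Fin n → Fin n → Bool) : ℕ → Fin n → List (Fin n) → List (List (Fin n))
  | 0, u, _ => [[u]]
  | k + 1, u, vis => [u] :: ((List.finRange n).filter
      (fun x => A u x && !((u :: vis).contains x))).flatMap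
      (fun x => (pathsFrom A k x (u :: vis)).map (fun l => u :: l))

theorem mem_pathsFrom (hA : ∀ a b, H.Adj a b → A a b = true) :
    ∀ (k : ℕ) (u v : Fin n) (vis : List (Fin n)) (p : H.Walk u v), p.IsPath →
    (∀ x ∈ p.support, x ∉ vis) → p.length ≤ k → p.support ∈ pathsFrom A k u vis := by
  intro k
  induction k with
  | zero =>
    intro u v vis p hp hv hk
    cases p with
    | nil => simp [pathsFrom]
    | cons h p => simp at hk
  | succ k ih =>
    intro u v vis p hp hv hk
    cases p with
    | nil => simp [pathsFrom]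
    | @cons _ x _ h p =>
      rw [SimpleGraph.Walk.cons_isPath_iff] at hp
      rw [SimpleGraph.Walk.length_cons] at hk
      simp only [SimpleGraph.Walk.support_cons, List.mem_cons, forall_eq_or_imp] at hv
      have := ih x v (u :: vis) p hp.1 (by
        intro y hy hmem
        rcases List.mem_cons.mp hmem with rfl | hmem
        · exact hp.2 hy
        · exact hv.2 y hy hmem) (by omega)
      rw [SimpleGraph.Walk.support_cons, pathsFrom]
      refine List.mem_cons_of_mem _ (List.mem_flatMap.mpr ⟨x, ?_, List.mem_map.mpr ⟨_, this, rfl⟩⟩)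
      rw [List.mem_filter]
      refine ⟨List.mem_finRange x, ?_⟩
      have h1 : x ≠ u := h.ne'
      have h2 : x ∉ vis := hv.2 x (by simp)
      simp [hA _ _ h, h1, h2]

/-- integer weight of a vertex list -/
def wtL (W : Fin n → Fin n → ℤ) : List (Fin n) → ℤ
  | a :: b :: t => W a b + wtL W (b :: t)
  | _ => 0

/-- the weight function on edges given by a symmetric table -/
noncomputable def wOf (W : Fin n → Fin n → ℤ) (hW : ∀ a b, W a b = W b a) : Sym2 (Fin n) → ℝ :=
  Sym2.lift ⟨fun a b => (W a b : ℝ), fun a b => by
    show (W a b : ℝ) = (W b a : ℝ)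
    rw [hW]⟩

theorem weight_eq (W : Fin n → Fin n → ℤ) (hW : ∀ a b, W a b = W b a) {u v : Fin n}
    (p : H.Walk u v) : weight (wOf W hW) p = (wtL W p.support : ℝ) := by
  induction p with
  | nil => simp [weight, wtL]
  | @cons a b c h p ih =>
    unfold weight at ih ⊢
    rw [SimpleGraph.Walk.edges_cons, List.map_cons, List.sum_cons, ih,
      SimpleGraph.Walk.support_cons]
    obtain ⟨t, ht⟩ : ∃ t, p.support = b :: t := by
      cases p with
      | nil => exact ⟨[], rfl⟩
      | cons h' p' => exact ⟨p'.support, rfl⟩
    rw [ht]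
    simp only [wtL]
    push_cast
    rfl

/-- real weight of a vertex list -/
noncomputable def wtS (w : Sym2 (Fin n) → ℝ) : List (Fin n) → ℝ
  | a :: b :: t => w s(a, b) + wtS w (b :: t)
  | _ => 0

theorem weight_eq_wtS (w : Sym2 (Fin n) → ℝ) {u v : Fin n} (p : H.Walk u v) :
    weight w p = wtS w p.support := by
  induction p with
  | nil => simp [weight, wtS]
  | @cons a b c h p ih =>
    unfold weight at ih ⊢
    rw [SimpleGraph.Walk.edges_cons, List.map_cons, List.sum_cons, ih,
      SimpleGraph.Walk.support_cons]
    obtain ⟨t, ht⟩ : ∃ t, p.support = b :: t := by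
      cases p with
      | nil => exact ⟨[], rfl⟩
      | cons h' p' => exact ⟨p'.support, rfl⟩
    rw [ht]
    simp only [wtS]

theorem head_support {u v : Fin n} (p : H.Walk u v) : p.support.head? = some u := by
  cases p <;> rfl

theorem last_support {u v : Fin n} (p : H.Walk u v) : p.support.getLast? = some v := by
  rw [List.getLast?_eq_some_getLast (SimpleGraph.Walk.support_ne_nil p),
    SimpleGraph.Walk.getLast_support]

/-- all contiguous sublists -/
def infixes (l : List (Fin n)) : List (List (Fin n)) := l.tails.flatMap List.inits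

theorem mem_infixes {l L : List (Fin n)} (h : l <:+: L) : l ∈ infixes L := by
  obtain ⟨s, t, rfl⟩ := h
  unfold infixes
  rw [List.mem_flatMap]
  refine ⟨l ++ t, ?_, ?_⟩
  · rw [List.mem_tails]; exact ⟨s, by simp⟩
  · rw [List.mem_inits]; exact ⟨t, rfl⟩

/-- contiguous sublists of supports -/
theorem support_append3 {u x y v : Fin n} (p₁ : H.Walk u x) (p₂ : H.Walk x y) (p₃ : H.Walk y v) :
    p₂.support <:+: (p₁.append (p₂.append p₃)).support := by
  obtain ⟨D, hD⟩ : ∃ D, p₁.support = D ++ [x] :=
    ⟨p₁.support.dropLast, by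
      conv_lhs => rw [← List.dropLast_append_getLast (SimpleGraph.Walk.support_ne_nil p₁)]
      rw [SimpleGraph.Walk.getLast_support]⟩
  obtain ⟨T, hT⟩ : ∃ T, p₂.support = x :: T := ⟨p₂.support.tail, by cases p₂ <;> rfl⟩
  refine ⟨D, p₃.support.tail, ?_⟩
  rw [SimpleGraph.Walk.support_append, SimpleGraph.Walk.support_append, hD, hT]
  simp

/-- a path system given by a table of vertex lists -/
noncomputable def ofTable (H : SimpleGraph (Fin n)) (A : Fin n → Fin n → Bool)
    (hA : ∀ a b, A a b = true → H.Adj a b) (sup : Fin n → Fin n → List (Fin n))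
    (h1 : ∀ u v, isWalk A v u (sup u v) = true) (h2 : ∀ u v, (sup u v).Nodup)
    (h3 : ∀ u v, sup v u = (sup u v).reverse) : PathSystem H where
  P u v := Classical.choose (exists_walk hA (sup u v) u (h1 u v))
  isPath u v := by
    rw [SimpleGraph.Walk.isPath_def, Classical.choose_spec (exists_walk hA (sup u v) u (h1 u v))]
    exact h2 u v
  symm u v := by
    apply SimpleGraph.Walk.ext_support
    rw [SimpleGraph.Walk.support_reverse,
      Classical.choose_spec (exists_walk hA (sup u v) u (h1 u v)),
      Classical.choose_spec (exists_walk hA (sup v u) v (h1 v u)), h3]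

theorem ofTable_support {H : SimpleGraph (Fin n)} {A : Fin n → Fin n → Bool}
    {hA : ∀ a b, A a b = true → H.Adj a b} {sup : Fin n → Fin n → List (Fin n)}
    {h1 : ∀ u v, isWalk A v u (sup u v) = true} {h2 : ∀ u v, (sup u v).Nodup}
    {h3 : ∀ u v, sup v u = (sup u v).reverse} (u v : Fin n) :
    ((ofTable H A hA sup h1 h2 h3).P u v).support = sup u v :=
  Classical.choose_spec (exists_walk hA (sup u v) u (h1 u v))

theorem ofTable_consistent {H : SimpleGraph (Fin n)} {A : Fin n → Fin n → Bool}
    {hA : ∀ a b, A a b = true → H.Adj a b} {sup : Fin n → Fin n → List (Fin n)}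
    {h1 : ∀ u v, isWalk A v u (sup u v) = true} {h2 : ∀ u v, (sup u v).Nodup}
    {h3 : ∀ u v, sup v u = (sup u v).reverse}
    (hc : ∀ u v, ∀ l ∈ infixes (sup u v), ∀ x y, l.head? = some x → l.getLast? = some y →
      l = sup x y) : Consistent (ofTable H A hA sup h1 h2 h3) := by
  intro u v x y p₁ p₂ p₃ h
  apply SimpleGraph.Walk.ext_support
  rw [ofTable_support]
  have h4 := support_append3 p₁ p₂ p₃
  rw [← h, ofTable_support] at h4
  exact (hc u v _ (mem_infixes h4) x y (head_support p₂) (last_support p₂)).symm

end lists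

end Pool.Agent.Q102.PathSys
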