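import Mathlib
import Pool.Agent.Q102.PathSys

/-!
Verification of metrizability of a graph on `Fin n` by exhaustive search.
-/

namespace Pool.Agent.Q102.PathSys

/-- a graph is metrizable if every consistent path system in it is induced by positive weights
(ties allowed) -/
def Metrizable {V : Type*} (G : SimpleGraph V) : Prop :=
  ∀ S : PathSystem G, Consistent S → ∃ w : Sym2 V → ℝ, (∀ e ∈ G.edgeSet, 0 < w e) ∧
    ∀ u v (q : G.Walk u v), q.IsPath → weight w (S.P u v) ≤ weight w q

theorem weight_reverse {V : Type*} {G : SimpleGraph V} (w : Sym2 V → ℝ) {u v : V}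
    (p : G.Walk u v) : weight w p.reverse = weight w p := by
  unfold weight
  rw [SimpleGraph.Walk.edges_reverse, List.map_reverse, List.sum_reverse]

section search

/-- the search: `M` is the set of paths known to be in the system, `F` the set of paths known not
to be in it -/
def run (C X : ℕ → ℕ) (ms : List ℕ) : List (List ℕ) → ℕ → ℕ → Bool
  | [], M, _ => ms.any (fun a => M &&& a == M)
  | g :: gs, M, F =>
    if g.any (fun i => M.testBit i) then run C X ms gs M F
    else g.all (fun i => (C i &&& F) != 0 || run C X ms gs (M ||| C i) (F ||| X i))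

theorem run_sound (C X : ℕ → ℕ) (ms : List ℕ) (T : ℕ → Prop)
    (hC : ∀ i, T i → ∀ j, (C i).testBit j = true → T j)
    (hCi : ∀ i, T i → (C i).testBit i = true)
    (hX : ∀ i, T i → ∀ j, (X i).testBit j = true → ¬ T j) :
    ∀ (gs : List (List ℕ)) (M F : ℕ), (∀ g ∈ gs, ∃ i ∈ g, T i) →
    (∀ j, M.testBit j = true → T j) → (∀ j, F.testBit j = true → ¬ T j) →
    run C X ms gs M F = true →
    ∃ a ∈ ms, ∃ M' : ℕ, (∀ j, M.testBit j = true → M'.testBit j = true) ∧
      (∀ j, M'.testBit j = true → T j ∧ a.testBit j = true) ∧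
      ∀ g ∈ gs, ∃ i ∈ g, M'.testBit i = true := by
  intro gs
  induction gs with
  | nil =>
    intro M F _ hM _ hr
    simp only [run, List.any_eq_true, beq_iff_eq] at hr
    obtain ⟨a, ha, he⟩ := hr
    refine ⟨a, ha, M, fun _ h => h, fun j hj => ⟨hM j hj, ?_⟩, by simp⟩
    have : (M &&& a).testBit j = true := by rw [he]; exact hj
    rw [Nat.testBit_and, Bool.and_eq_true] at this
    exact this.2
  | cons g gs ih =>
    intro M F hg hM hF hr
    rw [run] at hr
    split_ifs at hr with hany
    · obtain ⟨a, ha, M', h1, h2, h3⟩ := ih M F (fun g' hg' => hg g' (List.mem_cons_of_mem _ hg'))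
        hM hF hr
      refine ⟨a, ha, M', h1, h2, ?_⟩
      intro g' hg'
      rcases List.mem_cons.mp hg' with rfl | hg'
      · rw [List.any_eq_true] at hany
        obtain ⟨i, hi, hb⟩ := hany
        exact ⟨i, hi, h1 i hb⟩
      · exact h3 g' hg'
    · obtain ⟨i, hi, hT⟩ := hg g List.mem_cons_self
      rw [List.all_eq_true] at hr
      have := hr i hi
      rw [Bool.or_eq_true] at this
      rcases this with h | h
      · exfalso
        have hne : C i &&& F ≠ 0 := by simpa using h
        obtain ⟨j, hj⟩ := Nat.exists_testBit_of_ne_zero hne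
        rw [Nat.testBit_and, Bool.and_eq_true] at hj
        exact hF j hj.2 (hC i hT j hj.1)
      · obtain ⟨a, ha, M', h1, h2, h3⟩ := ih (M ||| C i) (F ||| X i)
          (fun g' hg' => hg g' (List.mem_cons_of_mem _ hg')) (by
            intro j hj
            rw [Nat.testBit_or, Bool.or_eq_true] at hj
            rcases hj with hj | hj
            · exact hM j hj
            · exact hC i hT j hj) (by
            intro j hj
            rw [Nat.testBit_or, Bool.or_eq_true] at hj
            rcases hj with hj | hj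
            · exact hF j hj
            · exact hX i hT j hj) h
        refine ⟨a, ha, M', fun j hj => h1 j (by rw [Nat.testBit_or, hj]; rfl), h2, ?_⟩
        intro g' hg'
        rcases List.mem_cons.mp hg' with rfl | hg'
        · exact ⟨i, hi, h1 i (by rw [Nat.testBit_or, hCi i hT]; simp)⟩
        · exact h3 g' hg'

/-- union of `Xs k` over the bits `k < m` of `c` -/
def orAll (Xs : ℕ → ℕ) (c : ℕ) : ℕ → ℕ
  | 0 => 0
  | k + 1 => if c.testBit k then orAll Xs c k ||| Xs k else orAll Xs c k

theorem testBit_orAll (Xs : ℕ → ℕ) (c : ℕ) : ∀ (m j : ℕ), (orAll Xs c m).testBit j = true →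
    ∃ k < m, c.testBit k = true ∧ (Xs k).testBit j = true := by
  intro m
  induction m with
  | zero => intro j h; simp [orAll] at h
  | succ m ih =>
    intro j h
    rw [orAll] at h
    split_ifs at h with hb
    · rw [Nat.testBit_or, Bool.or_eq_true] at h
      rcases h with h | h
      · obtain ⟨k, hk, h'⟩ := ih j h
        exact ⟨k, by omega, h'⟩
      · exact ⟨m, by omega, hb, h⟩
    · obtain ⟨k, hk, h'⟩ := ih j h
      exact ⟨k, by omega, h'⟩

end search

section graph

variable {n : ℕ} {H : SimpleGraph (Fin n)} {A : Fin n → Fin n → Bool}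

theorem infix_of_mem {l L : List (Fin n)} (h : l ∈ infixes L) : l <:+: L := by
  unfold infixes at h
  rw [List.mem_flatMap] at h
  obtain ⟨t, ht, hl⟩ := h
  rw [List.mem_tails] at ht
  rw [List.mem_inits] at hl
  exact hl.isInfix.trans ht.isInfix

theorem split_walk {v : Fin n} : ∀ (s : List (Fin n)) {u : Fin n} (p : H.Walk u v) (x : Fin n)
    (t : List (Fin n)), p.support = s ++ x :: t →
    ∃ (p₁ : H.Walk u x) (p₂ : H.Walk x v), p = p₁.append p₂ ∧ p₁.support = s ++ [x] ∧
      p₂.support = x :: t := by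
  intro s
  induction s with
  | nil =>
    intro u p x t h
    have hu : u = x := by
      have h1 := head_support p
      rw [h] at h1
      simpa using h1.symm
    subst hu
    exact ⟨SimpleGraph.Walk.nil, p, by simp, by simp, by simpa using h⟩
  | cons a s ih =>
    intro u p x t h
    cases p with
    | nil => simp at h
    | @cons _ b _ hab p =>
      rw [SimpleGraph.Walk.support_cons, List.cons_append, List.cons.injEq] at h
      obtain ⟨rfl, h⟩ := h
      obtain ⟨p₁, p₂, rfl, h1, h2⟩ := ih p x t h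
      exact ⟨SimpleGraph.Walk.cons hab p₁, p₂, by simp, by simp [h1], h2⟩

theorem exists_append3 {u v x y : Fin n} (p : H.Walk u v) {l : List (Fin n)}
    (hl : l <:+: p.support) (hx : l.head? = some x) (hy : l.getLast? = some y) :
    ∃ (p₁ : H.Walk u x) (p₂ : H.Walk x y) (p₃ : H.Walk y v), p = p₁.append (p₂.append p₃) ∧
      p₂.support = l := by
  obtain ⟨s, t, h⟩ := hl
  obtain ⟨l', rfl⟩ : ∃ l', l = x :: l' := by
    cases l with
    | nil => simp at hx
    | cons a l' => simp at hx; exact ⟨l', by rw [hx]⟩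
  obtain ⟨p₁, q, rfl, h1, h2⟩ := split_walk s p x (l' ++ t) (by rw [← h]; simp)
  obtain ⟨l'', hl''⟩ : ∃ l'', x :: l' = l'' ++ [y] := by
    refine ⟨(x :: l').dropLast, ?_⟩
    have hne : x :: l' ≠ [] := by simp
    rw [List.getLast?_eq_some_getLast hne] at hy
    have hy' : (x :: l').getLast hne = y := by simpa using hy
    rw [← hy']
    exact (List.dropLast_append_getLast hne).symm
  obtain ⟨p₂, p₃, rfl, h3, -⟩ := split_walk l'' q y t (by
    rw [h2, ← List.cons_append, hl'']; simp)
  exact ⟨p₁, p₂, p₃, rfl, by rw [h3, hl'']⟩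

/-- natural number weight of a vertex list -/
def wtN (W : Fin n → Fin n → ℕ) : List (Fin n) → ℕ
  | a :: b :: t => W a b + wtN W (b :: t)
  | _ => 0

/-- the weight function on edges given by a symmetric table -/
noncomputable def wOfN (W : Fin n → Fin n → ℕ) (hW : ∀ a b, W a b = W b a) : Sym2 (Fin n) → ℝ :=
  Sym2.lift ⟨fun a b => (W a b : ℝ), fun a b => by
    show (W a b : ℝ) = (W b a : ℝ)
    rw [hW]⟩

theorem weight_eqN (W : Fin n → Fin n → ℕ) (hW : ∀ a b, W a b = W b a) {u v : Fin n}
    (p : H.Walk u v) : weight (wOfN W hW) p = (wtN W p.support : ℝ) := by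
  induction p with
  | nil => simp [weight, wtN]
  | @cons a b c h p ih =>
    unfold weight at ih ⊢
    rw [SimpleGraph.Walk.edges_cons, List.map_cons, List.sum_cons, ih,
      SimpleGraph.Walk.support_cons]
    obtain ⟨t, ht⟩ : ∃ t, p.support = b :: t := by
      cases p with
      | nil => exact ⟨[], rfl⟩
      | cons h' p' => exact ⟨p'.support, rfl⟩
    rw [ht]
    simp only [wtN]
    push_cast
    rfl

/-- indices of the edges of a vertex list -/
def eIdx (I : Fin n → Fin n → ℕ) : List (Fin n) → List ℕ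
  | a :: b :: t => I a b :: eIdx I (b :: t)
  | _ => []

/-- weight from edge indices: the digits (base 8) of `w` are the weights -/
def wtI (w : ℕ) : List ℕ → ℕ
  | [] => 0
  | e :: t => (w >>> (3 * e)) % 8 + wtI w t

theorem wtN_eq (I : Fin n → Fin n → ℕ) (w : ℕ) (l : List (Fin n)) :
    wtN (fun a b => (w >>> (3 * I a b)) % 8) l = wtI w (eIdx I l) := by
  induction l with
  | nil => rfl
  | cons a t ih =>
    cases t with
    | nil => rfl
    | cons b t => simp only [wtN, eIdx, wtI]; rw [ih]

/-- `L j` is a subpath of `L i`, in one of the two directions -/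
def subB (L : ℕ → List (Fin n)) (i j : ℕ) : Bool :=
  decide (L j ∈ infixes (L i)) || decide ((L j).reverse ∈ infixes (L i))

/-- **Soundness of the exhaustive search.** -/
theorem metrizable_of_search (m : ℕ) (hA : ∀ a b, H.Adj a b ↔ A a b = true)
    (I : Fin n → Fin n → ℕ) (hI : ∀ a b, I a b = I b a)
    (L : ℕ → List (Fin n)) (PE : ℕ → List ℕ) (C X Xs : ℕ → ℕ) (ms : List (ℕ × ℕ))
    (gs : List (List ℕ)) (h0 : ∀ i < m, L i ≠ [])
    (h1 : ∀ u v : Fin n, u < v → ∃ g ∈ gs, (∀ l ∈ pathsFrom A n u [], l.getLast? = some v →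
      ∃ j ∈ g, L j = l) ∧ (∀ i ∈ g, i < m ∧ (L i).head? = some u ∧ (L i).getLast? = some v))
    (h1' : ∀ g ∈ gs, ∃ u v : Fin n, (∀ l ∈ pathsFrom A n u [], l.getLast? = some v →
      ∃ j ∈ g, L j = l) ∧ (∀ i ∈ g, i < m ∧ (L i).head? = some u ∧ (L i).getLast? = some v))
    (h2 : ∀ i < m, C i < 2 ^ m ∧ (C i).testBit i = true ∧ ∀ j < m, (C i).testBit j = true →
      subB L i j = true)
    (h3 : ∀ i < m, X i = orAll Xs (C i) m)
    (h4 : ∀ k < m, Xs k < 2 ^ m ∧ ∀ j < m, (Xs k).testBit j = true →
      (L k).head? = (L j).head? ∧ (L k).getLast? = (L j).getLast? ∧ L k ≠ L j)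
    (h5 : ∀ i < m, PE i = eIdx I (L i))
    (h6 : ∀ aw ∈ ms, (∀ a b, A a b = true → 1 ≤ (aw.2 >>> (3 * I a b)) % 8) ∧
      ∀ g ∈ gs, ∀ i ∈ g, aw.1.testBit i = true → ∀ j ∈ g, wtI aw.2 (PE i) ≤ wtI aw.2 (PE j))
    (h7 : run C X (ms.map Prod.fst) gs 0 0 = true) : Metrizable H := by
  intro S hS
  set T : ℕ → Prop := fun i => i < m ∧ ∃ u v, (L i).head? = some u ∧ (L i).getLast? = some v ∧
    (S.P u v).support = L i with hT
  have bd : ∀ x j : ℕ, x < 2 ^ m → x.testBit j = true → j < m := by
    intro x j hx hj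
    by_contra hcon
    have : x < 2 ^ j := lt_of_lt_of_le hx (Nat.pow_le_pow_right (by norm_num) (by omega))
    rw [Nat.testBit_lt_two_pow this] at hj
    cases hj
  have tC : ∀ i, T i → ∀ j, (C i).testBit j = true → T j := by
    rintro i ⟨him, u, v, hu, hv, hs⟩ j hj
    obtain ⟨c1, c2, c3⟩ := h2 i him
    have hjm := bd _ _ c1 hj
    have hrev : ∀ l : List (Fin n), l ∈ infixes (L i) → l ≠ [] → ∃ x y, l.head? = some x ∧
        l.getLast? = some y ∧ (S.P x y).support = l := by
      intro l hl hne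
      have hinf := infix_of_mem hl
      rw [← hs] at hinf
      obtain ⟨x, hx⟩ : ∃ x, l.head? = some x := by
        cases l with
        | nil => exact absurd rfl hne
        | cons a t => exact ⟨a, rfl⟩
      obtain ⟨y, hy⟩ : ∃ y, l.getLast? = some y :=
        ⟨_, List.getLast?_eq_some_getLast hne⟩
      obtain ⟨p₁, p₂, p₃, hp, hp2⟩ := exists_append3 (S.P u v) hinf hx hy
      exact ⟨x, y, hx, hy, by rw [hS u v x y p₁ p₂ p₃ hp, hp2]⟩
    have hsub := c3 j hjm hj
    unfold subB at hsub
    rw [Bool.or_eq_true, decide_eq_true_eq, decide_eq_true_eq] at hsub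
    rcases hsub with h | h
    · obtain ⟨x, y, hx, hy, hxy⟩ := hrev _ h (h0 j hjm)
      exact ⟨hjm, x, y, hx, hy, hxy⟩
    · obtain ⟨x, y, hx, hy, hxy⟩ := hrev _ h (by simpa using h0 j hjm)
      refine ⟨hjm, y, x, ?_, ?_, ?_⟩
      · rwa [List.getLast?_reverse] at hy
      · rwa [List.head?_reverse] at hx
      · rw [S.symm x y, SimpleGraph.Walk.support_reverse, hxy, List.reverse_reverse]
  have tX : ∀ i, T i → ∀ j, (X i).testBit j = true → ¬ T j := by
    intro i hi j hj hTj
    rw [h3 i hi.1] at hj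
    obtain ⟨k, hk, hck, hxk⟩ := testBit_orAll _ _ _ _ hj
    obtain ⟨-, u, v, hu, hv, hs⟩ := tC i hi k hck
    obtain ⟨hjm, u', v', hu', hv', hs'⟩ := hTj
    obtain ⟨-, hx4⟩ := h4 k hk
    obtain ⟨e1, e2, e3⟩ := hx4 j hjm hxk
    rw [hu, hu'] at e1
    rw [hv, hv'] at e2
    cases e1; cases e2
    exact e3 (hs.symm.trans hs')
  have tL : ∀ {u v : Fin n} (q : H.Walk u v), q.IsPath → q.support ∈ pathsFrom A n u [] := by
    intro u v q hq
    have hlen : q.length ≤ n := by
      have := hq.length_lt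
      rw [Fintype.card_fin] at this
      omega
    exact mem_pathsFrom (fun a b h => (hA a b).mp h) n u v [] q hq (by simp) hlen
  have tg : ∀ g ∈ gs, ∃ i ∈ g, T i := by
    intro g hg
    obtain ⟨u, v, g1, g2⟩ := h1' g hg
    obtain ⟨j, hj, hLj⟩ := g1 _ (tL _ (S.isPath u v)) (last_support _)
    obtain ⟨q1, q2, q3⟩ := g2 j hj
    exact ⟨j, hj, q1, u, v, q2, q3, hLj.symm⟩
  obtain ⟨a, ha, M', -, r2, r3⟩ := run_sound C X (ms.map Prod.fst) T tC
    (fun i hi => (h2 i hi.1).2.1) tX gs 0 0 tg (by simp) (by simp) h7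
  rw [List.mem_map] at ha
  obtain ⟨⟨a', w⟩, haw, rfl⟩ := ha
  obtain ⟨p1, p2⟩ := h6 _ haw
  have hW : ∀ a b, (w >>> (3 * I a b)) % 8 = (w >>> (3 * I b a)) % 8 := by
    intro a b; rw [hI]
  have main : ∀ u v, u < v → ∀ q : H.Walk u v, q.IsPath →
      weight (wOfN (fun a b => (w >>> (3 * I a b)) % 8) hW) (S.P u v) ≤
      weight (wOfN (fun a b => (w >>> (3 * I a b)) % 8) hW) q := by
    intro u v huv q hq
    obtain ⟨g, hg, g1, g2⟩ := h1 u v huv
    obtain ⟨i, hi, hiM⟩ := r3 g hg
    obtain ⟨⟨him, u', v', hu', hv', hs⟩, hia⟩ := r2 i hiM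
    obtain ⟨-, hu, hv⟩ := g2 i hi
    rw [hu] at hu'; rw [hv] at hv'
    cases hu'; cases hv'
    obtain ⟨j, hj, hLj⟩ := g1 _ (tL q hq) (last_support _)
    have hjm := (g2 j hj).1
    have := p2 g hg i hi hia j hj
    rw [h5 i him, h5 j hjm] at this
    rw [weight_eqN, weight_eqN, hs, ← hLj, wtN_eq, wtN_eq]
    exact_mod_cast this
  refine ⟨wOfN (fun a b => (w >>> (3 * I a b)) % 8) hW, ?_, ?_⟩
  · intro e he
    induction e using Sym2.ind with
    | _ a b =>
      rw [SimpleGraph.mem_edgeSet] at he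
      have := p1 a b ((hA a b).mp he)
      show (0 : ℝ) < (((w >>> (3 * I a b)) % 8 : ℕ) : ℝ)
      exact_mod_cast this
  · intro u v q hq
    rcases lt_trichotomy u v with h | h | h
    · exact main u v h q hq
    · subst h
      have e1 := (SimpleGraph.Walk.isPath_iff_nil.mp (S.isPath u u)).eq_nil
      have e2 := (SimpleGraph.Walk.isPath_iff_nil.mp hq).eq_nil
      rw [e1, e2]
    · have := main v u h q.reverse hq.reverse
      rw [weight_reverse] at this
      rw [S.symm v u, weight_reverse]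
      exact this

end graph

end Pool.Agent.Q102.PathSys
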