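import Mathlib

/-!
Integer points in a box of dimension three, divided into winning and losing points, without short
trades: there are no triangle circuits and no crossing circuits.
-/

namespace Pool.Agent.Q102.Trade3

/-- integer points -/
structure Pt where
  x : ℤ
  y : ℤ
  h : ℤ

/-- points of the box -/
def InB (n p : Pt) : Prop :=
  0 ≤ p.x ∧ p.x ≤ n.x ∧ 0 ≤ p.y ∧ p.y ≤ n.y ∧ 0 ≤ p.h ∧ p.h ≤ n.h

/-- winning and losing points of a box without trades of length at most three (in the last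
coordinate an inequality suffices) -/
structure Ctx (n : Pt) (W L : Pt → Prop) : Prop where
  boxW : ∀ p, W p → InB n p
  boxL : ∀ p, L p → InB n p
  tot : ∀ p, InB n p → W p ∨ L p
  no1 : ∀ p q, W p → L q → p.x = q.x → p.y = q.y → q.h < p.h
  no2 : ∀ p1 p2 q1 q2, W p1 → W p2 → L q1 → L q2 → p1.x + p2.x = q1.x + q2.x →
    p1.y + p2.y = q1.y + q2.y → q1.h + q2.h < p1.h + p2.h
  no3 : ∀ p1 p2 p3 q1 q2 q3, W p1 → W p2 → W p3 → L q1 → L q2 → L q3 →
    p1.x + p2.x + p3.x = q1.x + q2.x + q3.x → p1.y + p2.y + p3.y = q1.y + q2.y + q3.y →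
    q1.h + q2.h + q3.h < p1.h + p2.h + p3.h

/-- reflection of a point in the box -/
def refl (n p : Pt) : Pt := ⟨n.x - p.x, n.y - p.y, n.h - p.h⟩

theorem inB_refl {n p : Pt} (h : InB n p) : InB n (refl n p) := by
  unfold InB refl at *
  refine ⟨?_, ?_, ?_, ?_, ?_, ?_⟩ <;> dsimp only <;> omega

theorem refl_refl (n p : Pt) : refl n (refl n p) = p := by
  cases p
  simp [refl]

theorem Ctx.dual {n : Pt} {W L : Pt → Prop} (c : Ctx n W L) :
    Ctx n (fun p => L (refl n p)) (fun p => W (refl n p)) where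
  boxW p hp := by
    have := inB_refl (c.boxL _ hp)
    rwa [refl_refl] at this
  boxL p hp := by
    have := inB_refl (c.boxW _ hp)
    rwa [refl_refl] at this
  tot p hp := (c.tot _ (inB_refl hp)).symm
  no1 p q hp hq h1 h2 := by
    have := c.no1 _ _ hq hp (by simp only [refl]; omega) (by simp only [refl]; omega)
    simp only [refl] at this
    omega
  no2 p1 p2 q1 q2 hp1 hp2 hq1 hq2 h1 h2 := by
    have := c.no2 _ _ _ _ hq1 hq2 hp1 hp2 (by simp only [refl]; omega)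
      (by simp only [refl]; omega)
    simp only [refl] at this
    omega
  no3 p1 p2 p3 q1 q2 q3 hp1 hp2 hp3 hq1 hq2 hq3 h1 h2 := by
    have := c.no3 _ _ _ _ _ _ hq1 hq2 hq3 hp1 hp2 hp3 (by simp only [refl]; omega)
      (by simp only [refl]; omega)
    simp only [refl] at this
    omega

/-- there is no triangle circuit of length `D` -/
def TStmt (W L : Pt → Prop) (D : ℤ) : Prop :=
  ∀ (X1 X2 X3 Y : Pt) (a1 a2 a3 : ℤ), W X1 → W X2 → W X3 → L Y → 0 ≤ a1 → 0 ≤ a2 → 0 ≤ a3 →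
    a1 + a2 + a3 = D → D * Y.x = a1 * X1.x + a2 * X2.x + a3 * X3.x →
    D * Y.y = a1 * X1.y + a2 * X2.y + a3 * X3.y →
    D * Y.h < a1 * X1.h + a2 * X2.h + a3 * X3.h

theorem combo_bounds {D c1 c2 c3 u1 u2 u3 z n : ℤ} (hD : 0 < D) (h1 : 0 ≤ c1) (h2 : 0 ≤ c2)
    (h3 : 0 ≤ c3) (hs : c1 + c2 + c3 = D) (hz : D * z = c1 * u1 + c2 * u2 + c3 * u3)
    (hu1 : 0 ≤ u1 ∧ u1 ≤ n) (hu2 : 0 ≤ u2 ∧ u2 ≤ n) (hu3 : 0 ≤ u3 ∧ u3 ≤ n) :
    0 ≤ z ∧ z ≤ n := by
  constructor
  · by_contra hlt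
    push Not at hlt
    have h4 : D * z < 0 := mul_neg_of_pos_of_neg hD hlt
    have h5 := mul_nonneg h1 hu1.1
    have h6 := mul_nonneg h2 hu2.1
    have h7 := mul_nonneg h3 hu3.1
    linarith
  · by_contra hlt
    push Not at hlt
    have h4 : 0 < D * (z - n) := mul_pos hD (by linarith)
    have h5 := mul_nonneg h1 (sub_nonneg.mpr hu1.2)
    have h6 := mul_nonneg h2 (sub_nonneg.mpr hu2.2)
    have h7 := mul_nonneg h3 (sub_nonneg.mpr hu3.2)
    have h8 : D * (z - n) = -(c1 * (n - u1)) - c2 * (n - u2) - c3 * (n - u3) := by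
      rw [mul_sub, hz, ← hs]; ring
    linarith

theorem combo_le {D c1 c2 c3 u1 u2 u3 z n : ℤ} (hD : 0 < D) (h1 : 0 ≤ c1) (h2 : 0 ≤ c2)
    (h3 : 0 ≤ c3) (hs : c1 + c2 + c3 = D) (hz : D * z ≤ c1 * u1 + c2 * u2 + c3 * u3)
    (hu1 : u1 ≤ n) (hu2 : u2 ≤ n) (hu3 : u3 ≤ n) : z ≤ n := by
  by_contra hlt
  push Not at hlt
  have h4 : 0 < D * (z - n) := mul_pos hD (by linarith)
  have h5 := mul_nonneg h1 (sub_nonneg.mpr hu1)
  have h6 := mul_nonneg h2 (sub_nonneg.mpr hu2)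
  have h7 := mul_nonneg h3 (sub_nonneg.mpr hu3)
  have h8 : D * (z - n) = D * z - (c1 + c2 + c3) * n := by rw [hs]; ring
  have h9 : (c1 + c2 + c3) * n - (c1 * u1 + c2 * u2 + c3 * u3) =
    c1 * (n - u1) + c2 * (n - u2) + c3 * (n - u3) := by ring
  linarith

theorem two {n : Pt} {W L : Pt → Prop} (c : Ctx n W L) {D : ℤ} (hD : 0 < D)
    (IH : ∀ D', 0 < D' → D' < D → TStmt W L D') {X1 X2 Y : Pt} {a1 a2 : ℤ} (hX1 : W X1)
    (hX2 : W X2) (hY : L Y) (h1 : 0 ≤ a1) (h2 : 0 ≤ a2) (hs : a1 + a2 = D)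
    (hx : D * Y.x = a1 * X1.x + a2 * X2.x) (hy : D * Y.y = a1 * X1.y + a2 * X2.y) :
    D * Y.h < a1 * X1.h + a2 * X2.h := by
  by_contra hle
  push Not at hle
  obtain ⟨b11, b12, b13, b14, b15, b16⟩ := c.boxW _ hX1
  obtain ⟨b21, b22, b23, b24, b25, b26⟩ := c.boxW _ hX2
  rcases h1.eq_or_lt with h10 | h10
  · subst h10
    have e : a2 = D := by linarith
    subst e
    have h3 := c.no1 X2 Y hX2 hY (by
      have : a2 * Y.x = a2 * X2.x := by linarith
      exact (mul_left_cancel₀ hD.ne' this).symm) (by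
      have : a2 * Y.y = a2 * X2.y := by linarith
      exact (mul_left_cancel₀ hD.ne' this).symm)
    have h4 := mul_lt_mul_of_pos_left h3 hD
    linarith
  rcases h2.eq_or_lt with h20 | h20
  · subst h20
    have e : a1 = D := by linarith
    subst e
    have h3 := c.no1 X1 Y hX1 hY (by
      have : a1 * Y.x = a1 * X1.x := by linarith
      exact (mul_left_cancel₀ hD.ne' this).symm) (by
      have : a1 * Y.y = a1 * X1.y := by linarith
      exact (mul_left_cancel₀ hD.ne' this).symm)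
    have h4 := mul_lt_mul_of_pos_left h3 hD
    linarith
  obtain ⟨h', hh1, hh2, hh3⟩ : ∃ h' : ℤ, 0 ≤ h' ∧ X1.h + X2.h - Y.h ≤ h' ∧
      D * h' ≤ a2 * X1.h + a1 * X2.h := by
    rcases le_total 0 (X1.h + X2.h - Y.h) with h3 | h3
    · refine ⟨_, h3, le_rfl, ?_⟩
      have e : D * (X1.h + X2.h - Y.h) = (a1 + a2) * X1.h + (a1 + a2) * X2.h - D * Y.h := by
        rw [hs]; ring
      nlinarith
    · refine ⟨0, le_rfl, h3, ?_⟩
      have h5 := mul_nonneg h2 b15
      have h6 := mul_nonneg h1 b25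
      linarith
  set Z : Pt := ⟨X1.x + X2.x - Y.x, X1.y + X2.y - Y.y, h'⟩ with hZ
  have hZx : D * Z.x = a2 * X1.x + a1 * X2.x + 0 * X1.x := by
    show D * (X1.x + X2.x - Y.x) = _
    have e : D * (X1.x + X2.x - Y.x) = (a1 + a2) * X1.x + (a1 + a2) * X2.x - D * Y.x := by
      rw [hs]; ring
    rw [e, hx]; ring
  have hZy : D * Z.y = a2 * X1.y + a1 * X2.y + 0 * X1.y := by
    show D * (X1.y + X2.y - Y.y) = _
    have e : D * (X1.y + X2.y - Y.y) = (a1 + a2) * X1.y + (a1 + a2) * X2.y - D * Y.y := by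
      rw [hs]; ring
    rw [e, hy]; ring
  have hZb : InB n Z := by
    have h3 := combo_bounds hD h2 h1 le_rfl (by linarith) hZx ⟨b11, b12⟩ ⟨b21, b22⟩ ⟨b11, b12⟩
    have h4 := combo_bounds hD h2 h1 le_rfl (by linarith) hZy ⟨b13, b14⟩ ⟨b23, b24⟩ ⟨b13, b14⟩
    have h5 : h' ≤ n.h := combo_le hD h2 h1 le_rfl (by linarith)
      (show D * h' ≤ a2 * X1.h + a1 * X2.h + 0 * X1.h by linarith) b16 b26 b16
    exact ⟨h3.1, h3.2, h4.1, h4.2, hh1, h5⟩
  rcases c.tot Z hZb with hW | hL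
  · rcases le_total a2 a1 with h3 | h3
    · have h4 := IH a1 h10 (by linarith) X1 Z Z Y (a1 - a2) a2 0 hX1 hW hW hY (by linarith) h2
        le_rfl (by ring) (by
          show a1 * Y.x = (a1 - a2) * X1.x + a2 * (X1.x + X2.x - Y.x) + _
          have : (a1 + a2) * Y.x = a1 * X1.x + a2 * X2.x := by rw [hs]; exact hx
          linear_combination this) (by
          show a1 * Y.y = (a1 - a2) * X1.y + a2 * (X1.y + X2.y - Y.y) + _
          have : (a1 + a2) * Y.y = a1 * X1.y + a2 * X2.y := by rw [hs]; exact hy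
          linear_combination this)
      have h5 : D * (a1 * Y.h) < D * ((a1 - a2) * X1.h + a2 * h') := by
        apply mul_lt_mul_of_pos_left _ hD
        have : a1 * Y.h < (a1 - a2) * X1.h + a2 * h' + 0 * h' := h4
        linarith
      have h6 := mul_le_mul_of_nonneg_left hh3 h2
      have h7 := mul_le_mul_of_nonneg_left hle h1
      have h8 : D * ((a1 - a2) * X1.h + a2 * h') =
        (a1 + a2) * (a1 - a2) * X1.h + a2 * (D * h') := by rw [← hs]; ring
      nlinarith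
    · have h4 := IH a2 h20 (by linarith) X2 Z Z Y (a2 - a1) a1 0 hX2 hW hW hY (by linarith) h1
        le_rfl (by ring) (by
          show a2 * Y.x = (a2 - a1) * X2.x + a1 * (X1.x + X2.x - Y.x) + _
          have : (a1 + a2) * Y.x = a1 * X1.x + a2 * X2.x := by rw [hs]; exact hx
          linear_combination this) (by
          show a2 * Y.y = (a2 - a1) * X2.y + a1 * (X1.y + X2.y - Y.y) + _
          have : (a1 + a2) * Y.y = a1 * X1.y + a2 * X2.y := by rw [hs]; exact hy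
          linear_combination this)
      have h5 : D * (a2 * Y.h) < D * ((a2 - a1) * X2.h + a1 * h') := by
        apply mul_lt_mul_of_pos_left _ hD
        have : a2 * Y.h < (a2 - a1) * X2.h + a1 * h' + 0 * h' := h4
        linarith
      have h6 := mul_le_mul_of_nonneg_left hh3 h1
      have h7 := mul_le_mul_of_nonneg_left hle h2
      have h8 : D * ((a2 - a1) * X2.h + a1 * h') =
        (a1 + a2) * (a2 - a1) * X2.h + a1 * (D * h') := by rw [← hs]; ring
      nlinarith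
  · have h3 := c.no2 X1 X2 Y Z hX1 hX2 hY hL (by show _ = Y.x + (X1.x + X2.x - Y.x); ring)
      (by show _ = Y.y + (X1.y + X2.y - Y.y); ring)
    have h4 : Y.h + h' < X1.h + X2.h := h3
    linarith

/-- a winning point on or below the plane gives a shorter circuit -/
theorem newT {W L : Pt → Prop} {D : ℤ} (hD : 0 < D)
    (IH : ∀ D', 0 < D' → D' < D → TStmt W L D') {X1 X2 X3 Y Z : Pt} {a1 a2 a3 c1 c2 c3 : ℤ}
    (hX2 : W X2) (hX3 : W X3) (hY : L Y) (hZ : W Z) (h1 : 0 ≤ a1)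
    (hs : a1 + a2 + a3 = D) (hcs : c1 + c2 + c3 = D) (hc1 : 0 < c1) (hc1D : c1 < D)
    (hx : D * Y.x = a1 * X1.x + a2 * X2.x + a3 * X3.x)
    (hy : D * Y.y = a1 * X1.y + a2 * X2.y + a3 * X3.y)
    (hh : a1 * X1.h + a2 * X2.h + a3 * X3.h ≤ D * Y.h)
    (hzx : D * Z.x = c1 * X1.x + c2 * X2.x + c3 * X3.x)
    (hzy : D * Z.y = c1 * X1.y + c2 * X2.y + c3 * X3.y)
    (hzh : D * Z.h ≤ c1 * X1.h + c2 * X2.h + c3 * X3.h)
    (hr2 : a1 * c2 ≤ a2 * c1) (hr3 : a1 * c3 ≤ a3 * c1)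
    (hd2 : D ∣ a2 * c1 - a1 * c2) (hd3 : D ∣ a3 * c1 - a1 * c3) : False := by
  obtain ⟨e2, he2⟩ := hd2
  obtain ⟨e3, he3⟩ := hd3
  have he2' : 0 ≤ e2 := by
    by_contra hlt
    push Not at hlt
    have := mul_neg_of_pos_of_neg hD hlt
    linarith
  have he3' : 0 ≤ e3 := by
    by_contra hlt
    push Not at hlt
    have := mul_neg_of_pos_of_neg hD hlt
    linarith
  have hsum : a1 + e2 + e3 = c1 := by
    apply mul_left_cancel₀ hD.ne'
    have : D * (a1 + e2 + e3) = D * a1 + (a2 * c1 - a1 * c2) + (a3 * c1 - a1 * c3) := by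
      rw [he2, he3]; ring
    rw [this]
    have e1 : a1 * (c1 + c2 + c3) = a1 * D := by rw [hcs]
    have e4 : (a1 + a2 + a3) * c1 = D * c1 := by rw [hs]
    linear_combination e4 - e1
  have h4 := IH c1 hc1 hc1D Z X2 X3 Y a1 e2 e3 hZ hX2 hX3 hY h1 he2' he3' hsum (by
    apply mul_left_cancel₀ hD.ne'
    have : D * (a1 * Z.x + e2 * X2.x + e3 * X3.x) = a1 * (D * Z.x) + (D * e2) * X2.x +
      (D * e3) * X3.x := by ring
    rw [this, ← he2, ← he3, hzx]
    linear_combination c1 * hx) (by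
    apply mul_left_cancel₀ hD.ne'
    have : D * (a1 * Z.y + e2 * X2.y + e3 * X3.y) = a1 * (D * Z.y) + (D * e2) * X2.y +
      (D * e3) * X3.y := by ring
    rw [this, ← he2, ← he3, hzy]
    linear_combination c1 * hy)
  have h5 := mul_lt_mul_of_pos_left h4 hD
  have h6 : D * (a1 * Z.h + e2 * X2.h + e3 * X3.h) = a1 * (D * Z.h) + (D * e2) * X2.h +
      (D * e3) * X3.h := by ring
  rw [h6, ← he2, ← he3] at h5
  have h7 := mul_le_mul_of_nonneg_left hzh h1
  have h8 := mul_le_mul_of_nonneg_left hh hc1.le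
  nlinarith

end Pool.Agent.Q102.Trade3
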