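import Mathlib
import Pool.Agent.Q102.Trade3Core

/-!
No triangle circuits: the sequence of multiples of a point modulo the lattice of a triangle.
-/

namespace Pool.Agent.Q102.Trade3

/-- residues of the multiples -/
def res (D a : ℤ) (k : ℕ) : ℤ := ((k : ℤ) * a) % D

theorem res_nonneg {D : ℤ} (hD : 0 < D) (a : ℤ) (k : ℕ) : 0 ≤ res D a k :=
  Int.emod_nonneg _ hD.ne'

theorem res_lt {D : ℤ} (hD : 0 < D) (a : ℤ) (k : ℕ) : res D a k < D :=
  Int.emod_lt_of_pos _ hD

theorem res_one {D a : ℤ} (h1 : 0 ≤ a) (h2 : a < D) : res D a 1 = a := by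
  unfold res
  rw [Nat.cast_one, one_mul]
  exact Int.emod_eq_of_lt h1 h2

theorem res_succ {D a : ℤ} (hD : 0 < D) (h1 : 0 ≤ a) (h2 : a < D) (k : ℕ) :
    res D a (k + 1) = res D a k + a ∨ res D a (k + 1) = res D a k + a - D := by
  have e : res D a (k + 1) = (res D a k + a) % D := by
    unfold res
    rw [Int.emod_add_emod]
    congr 1
    push_cast
    ring
  have h3 := res_nonneg hD a k
  have h4 := res_lt hD a k
  rw [e]
  rcases lt_or_ge (res D a k + a) D with h5 | h5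
  · left
    exact Int.emod_eq_of_lt (by linarith) h5
  · right
    rw [← Int.sub_emod_right]
    exact Int.emod_eq_of_lt (by linarith) (by linarith)

theorem res_dvd {D a1 a2 : ℤ} (k : ℕ) :
    D ∣ a2 * (D - res D a1 k) - a1 * (D - res D a2 k) := by
  unfold res
  have h1 := Int.emod_add_mul_ediv ((k : ℤ) * a1) D
  have h2 := Int.emod_add_mul_ediv ((k : ℤ) * a2) D
  refine ⟨a2 - a1 + a2 * (((k : ℤ) * a1) / D) - a1 * (((k : ℤ) * a2) / D), ?_⟩
  linear_combination (-a2) * h1 + a1 * h2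

/-- one step of the sequence -/
theorem step {n : Pt} {W L : Pt → Prop} (c : Ctx n W L) {D : ℤ} (hD : 0 < D)
    {X1 X2 X3 Y Yk : Pt} {a1 a2 a3 d1 d2 d3 : ℤ} (hX1 : W X1) (hX2 : W X2) (hX3 : W X3)
    (hY : L Y) (hYk : L Yk)
    (hx : D * Y.x = a1 * X1.x + a2 * X2.x + a3 * X3.x)
    (hy : D * Y.y = a1 * X1.y + a2 * X2.y + a3 * X3.y)
    (hh : a1 * X1.h + a2 * X2.h + a3 * X3.h ≤ D * Y.h)
    (hkx : D * Yk.x = d1 * X1.x + d2 * X2.x + d3 * X3.x)
    (hky : D * Yk.y = d1 * X1.y + d2 * X2.y + d3 * X3.y)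
    (hkh : d1 * X1.h + d2 * X2.h + d3 * X3.h ≤ D * Yk.h)
    (he1 : 0 ≤ d1 + a1 - D) (he2 : 0 ≤ d2 + a2) (he3 : 0 ≤ d3 + a3)
    (hs : (d1 + a1 - D) + (d2 + a2) + (d3 + a3) = D) :
    ∃ Z, L Z ∧ D * Z.x = (d1 + a1 - D) * X1.x + (d2 + a2) * X2.x + (d3 + a3) * X3.x ∧
      D * Z.y = (d1 + a1 - D) * X1.y + (d2 + a2) * X2.y + (d3 + a3) * X3.y ∧
      (d1 + a1 - D) * X1.h + (d2 + a2) * X2.h + (d3 + a3) * X3.h ≤ D * Z.h := by
  obtain ⟨b11, b12, b13, b14, b15, b16⟩ := c.boxW _ hX1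
  obtain ⟨b21, b22, b23, b24, b25, b26⟩ := c.boxW _ hX2
  obtain ⟨b31, b32, b33, b34, b35, b36⟩ := c.boxW _ hX3
  have hge : (d1 + a1 - D) * X1.h + (d2 + a2) * X2.h + (d3 + a3) * X3.h ≤
      D * (Yk.h + Y.h - X1.h) := by
    have e : D * (Yk.h + Y.h - X1.h) = D * Yk.h + D * Y.h - D * X1.h := by ring
    rw [e]; linarith
  obtain ⟨h', hh1, hh2, hh3, hh4⟩ : ∃ h' : ℤ, 0 ≤ h' ∧ h' ≤ n.h ∧ h' ≤ Yk.h + Y.h - X1.h ∧
      (d1 + a1 - D) * X1.h + (d2 + a2) * X2.h + (d3 + a3) * X3.h ≤ D * h' := by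
    rcases le_total (Yk.h + Y.h - X1.h) n.h with h3 | h3
    · refine ⟨_, ?_, h3, le_rfl, hge⟩
      by_contra hlt
      push Not at hlt
      have h4 := mul_neg_of_pos_of_neg hD hlt
      have h5 := mul_nonneg he1 b15
      have h6 := mul_nonneg he2 b25
      have h7 := mul_nonneg he3 b35
      linarith
    · refine ⟨n.h, b15.trans b16, le_rfl, h3, ?_⟩
      have h5 := mul_le_mul_of_nonneg_left b16 he1
      have h6 := mul_le_mul_of_nonneg_left b26 he2
      have h7 := mul_le_mul_of_nonneg_left b36 he3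
      have e : D * n.h = (d1 + a1 - D) * n.h + (d2 + a2) * n.h + (d3 + a3) * n.h := by
        rw [← add_mul, ← add_mul, hs]
      rw [e]; linarith
  have hZx : D * (Yk.x + Y.x - X1.x) =
      (d1 + a1 - D) * X1.x + (d2 + a2) * X2.x + (d3 + a3) * X3.x := by
    linear_combination hkx + hx
  have hZy : D * (Yk.y + Y.y - X1.y) =
      (d1 + a1 - D) * X1.y + (d2 + a2) * X2.y + (d3 + a3) * X3.y := by
    linear_combination hky + hy
  have h3 := combo_bounds hD he1 he2 he3 hs hZx ⟨b11, b12⟩ ⟨b21, b22⟩ ⟨b31, b32⟩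
  have h4 := combo_bounds hD he1 he2 he3 hs hZy ⟨b13, b14⟩ ⟨b23, b24⟩ ⟨b33, b34⟩
  have hZb : InB n ⟨Yk.x + Y.x - X1.x, Yk.y + Y.y - X1.y, h'⟩ :=
    ⟨h3.1, h3.2, h4.1, h4.2, hh1, hh2⟩
  rcases c.tot _ hZb with hW | hL
  · exfalso
    have h5 := c.no2 _ _ _ _ hX1 hW hYk hY (by
      show X1.x + (Yk.x + Y.x - X1.x) = _; ring) (by
      show X1.y + (Yk.y + Y.y - X1.y) = _; ring)
    have h6 : Yk.h + Y.h < X1.h + h' := h5
    linarith
  · exact ⟨_, hL, hZx, hZy, hh4⟩

theorem seq {n : Pt} {W L : Pt → Prop} (c : Ctx n W L) {D : ℤ} (hD : 0 < D)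
    {X1 X2 X3 Y : Pt} {a1 a2 a3 : ℤ} (hX1 : W X1) (hX2 : W X2) (hX3 : W X3) (hY : L Y)
    (h1 : 0 < a1) (h2 : 0 < a2) (h3 : 0 < a3) (hs : a1 + a2 + a3 = D)
    (hx : D * Y.x = a1 * X1.x + a2 * X2.x + a3 * X3.x)
    (hy : D * Y.y = a1 * X1.y + a2 * X2.y + a3 * X3.y)
    (hh : a1 * X1.h + a2 * X2.h + a3 * X3.h ≤ D * Y.h) (k : ℕ) :
    (∀ j, 1 ≤ j → j ≤ k + 1 → res D a1 j + res D a2 j + res D a3 j = D) →
    ∃ Z, L Z ∧
      D * Z.x = res D a1 (k + 1) * X1.x + res D a2 (k + 1) * X2.x + res D a3 (k + 1) * X3.x ∧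
      D * Z.y = res D a1 (k + 1) * X1.y + res D a2 (k + 1) * X2.y + res D a3 (k + 1) * X3.y ∧
      res D a1 (k + 1) * X1.h + res D a2 (k + 1) * X2.h + res D a3 (k + 1) * X3.h ≤
        D * Z.h := by
  induction k with
  | zero =>
    intro _
    refine ⟨Y, hY, ?_⟩
    rw [zero_add, res_one h1.le (by linarith), res_one h2.le (by linarith),
      res_one h3.le (by linarith)]
    exact ⟨hx, hy, hh⟩
  | succ k ih =>
    intro hsum
    obtain ⟨Yk, hYk, hkx, hky, hkh⟩ := ih (fun j hj hj' => hsum j hj (by omega))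
    have hk1 := hsum (k + 1) (by omega) (by omega)
    have hk2 := hsum (k + 1 + 1) (by omega) (by omega)
    have r1 := res_succ hD h1.le (by linarith : a1 < D) (k + 1)
    have r2 := res_succ hD h2.le (by linarith : a2 < D) (k + 1)
    have r3 := res_succ hD h3.le (by linarith : a3 < D) (k + 1)
    have n1 := res_nonneg hD a1 (k + 1 + 1)
    have n2 := res_nonneg hD a2 (k + 1 + 1)
    have n3 := res_nonneg hD a3 (k + 1 + 1)
    rcases r1 with r1 | r1 <;> rcases r2 with r2 | r2 <;> rcases r3 with r3 | r3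
    · exfalso; linarith
    · rw [r1, r2, r3] at hk2
      rw [r1] at n1; rw [r2] at n2; rw [r3] at n3
      obtain ⟨Z, hZ, hz1, hz2, hz3⟩ := step c hD (X1 := X3) (X2 := X2) (X3 := X1) (Y := Y)
        (Yk := Yk) (a1 := a3) (a2 := a2) (a3 := a1) (d1 := res D a3 (k + 1))
        (d2 := res D a2 (k + 1)) (d3 := res D a1 (k + 1)) hX3 hX2 hX1 hY hYk (by linarith)
        (by linarith) (by linarith) (by linarith) (by linarith) (by linarith) n3 n2 n1
        (by linarith)
      refine ⟨Z, hZ, ?_, ?_, ?_⟩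
      · rw [r1, r2, r3]; linarith
      · rw [r1, r2, r3]; linarith
      · rw [r1, r2, r3]; linarith
    · rw [r1, r2, r3] at hk2
      rw [r1] at n1; rw [r2] at n2; rw [r3] at n3
      obtain ⟨Z, hZ, hz1, hz2, hz3⟩ := step c hD (X1 := X2) (X2 := X1) (X3 := X3) (Y := Y)
        (Yk := Yk) (a1 := a2) (a2 := a1) (a3 := a3) (d1 := res D a2 (k + 1))
        (d2 := res D a1 (k + 1)) (d3 := res D a3 (k + 1)) hX2 hX1 hX3 hY hYk (by linarith)
        (by linarith) (by linarith) (by linarith) (by linarith) (by linarith) n2 n1 n3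
        (by linarith)
      refine ⟨Z, hZ, ?_, ?_, ?_⟩
      · rw [r1, r2, r3]; linarith
      · rw [r1, r2, r3]; linarith
      · rw [r1, r2, r3]; linarith
    · exfalso; linarith
    · rw [r1, r2, r3] at hk2
      rw [r1] at n1; rw [r2] at n2; rw [r3] at n3
      obtain ⟨Z, hZ, hz1, hz2, hz3⟩ := step c hD (X1 := X1) (X2 := X2) (X3 := X3) (Y := Y)
        (Yk := Yk) (a1 := a1) (a2 := a2) (a3 := a3) (d1 := res D a1 (k + 1))
        (d2 := res D a2 (k + 1)) (d3 := res D a3 (k + 1)) hX1 hX2 hX3 hY hYk (by linarith)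
        (by linarith) (by linarith) (by linarith) (by linarith) (by linarith) n1 n2 n3
        (by linarith)
      refine ⟨Z, hZ, ?_, ?_, ?_⟩
      · rw [r1, r2, r3]; linarith
      · rw [r1, r2, r3]; linarith
      · rw [r1, r2, r3]; linarith
    · exfalso; linarith
    · exfalso; linarith
    · exfalso; linarith

theorem three {n : Pt} {W L : Pt → Prop} (c : Ctx n W L) {D : ℤ} (hD : 0 < D)
    (IH : ∀ D', 0 < D' → D' < D → TStmt W L D') {X1 X2 X3 Y : Pt} {a1 a2 a3 : ℤ}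
    (hX1 : W X1) (hX2 : W X2) (hX3 : W X3) (hY : L Y)
    (h1 : 0 < a1) (h2 : 0 < a2) (h3 : 0 < a3) (hs : a1 + a2 + a3 = D)
    (hx : D * Y.x = a1 * X1.x + a2 * X2.x + a3 * X3.x)
    (hy : D * Y.y = a1 * X1.y + a2 * X2.y + a3 * X3.y) :
    D * Y.h < a1 * X1.h + a2 * X2.h + a3 * X3.h := by
  by_contra hh
  push Not at hh
  obtain ⟨b11, b12, b13, b14, b15, b16⟩ := c.boxW _ hX1
  obtain ⟨b21, b22, b23, b24, b25, b26⟩ := c.boxW _ hX2
  obtain ⟨b31, b32, b33, b34, b35, b36⟩ := c.boxW _ hX3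
  have hex : ∃ k : ℕ, res D a1 (k + 1) + res D a2 (k + 1) + res D a3 (k + 1) ≠ D := by
    obtain ⟨d, rfl⟩ : ∃ d : ℕ, D = (d : ℤ) + 1 := ⟨(D - 1).toNat, by omega⟩
    refine ⟨d, ?_⟩
    have hz : ∀ a : ℤ, res ((d : ℤ) + 1) a (d + 1) = 0 := by
      intro a
      unfold res
      push_cast
      exact Int.mul_emod_right _ _
    rw [hz, hz, hz]
    omega
  have hK := Nat.find_spec hex
  have hmin : ∀ j < Nat.find hex, res D a1 (j + 1) + res D a2 (j + 1) + res D a3 (j + 1) = D := by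
    intro j hj
    have := Nat.find_min hex hj
    push Not at this
    exact this
  set K := Nat.find hex with hKdef
  have hKpos : 1 ≤ K := by
    by_contra hlt
    have hK0 : K = 0 := by omega
    rw [hK0, zero_add, res_one h1.le (by linarith), res_one h2.le (by linarith),
      res_one h3.le (by linarith)] at hK
    exact hK hs
  obtain ⟨k, hk⟩ : ∃ k, K = k + 1 := ⟨K - 1, by omega⟩
  obtain ⟨Yk, hYk, hkx, hky, hkh⟩ := seq c hD hX1 hX2 hX3 hY h1 h2 h3 hs hx hy hh k (by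
    intro j hj hj'
    have := hmin (j - 1) (by omega)
    rwa [show j - 1 + 1 = j by omega] at this)
  have hk1 := hmin k (by omega)
  rw [hk] at hK
  have r1 := res_succ hD h1.le (by linarith : a1 < D) (k + 1)
  have r2 := res_succ hD h2.le (by linarith : a2 < D) (k + 1)
  have r3 := res_succ hD h3.le (by linarith : a3 < D) (k + 1)
  have n1 := res_nonneg hD a1 (k + 1)
  have n2 := res_nonneg hD a2 (k + 1)
  have n3 := res_nonneg hD a3 (k + 1)
  have m1 := res_nonneg hD a1 (k + 1 + 1)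
  have m2 := res_nonneg hD a2 (k + 1 + 1)
  have m3 := res_nonneg hD a3 (k + 1 + 1)
  have l1 := res_lt hD a1 (k + 1 + 1)
  have l2 := res_lt hD a2 (k + 1 + 1)
  have l3 := res_lt hD a3 (k + 1 + 1)
  have dv12 := res_dvd (D := D) (a1 := a1) (a2 := a2) (k + 1 + 1)
  have dv13 := res_dvd (D := D) (a1 := a1) (a2 := a3) (k + 1 + 1)
  have dv21 := res_dvd (D := D) (a1 := a2) (a2 := a1) (k + 1 + 1)
  have dv23 := res_dvd (D := D) (a1 := a2) (a2 := a3) (k + 1 + 1)
  have dv31 := res_dvd (D := D) (a1 := a3) (a2 := a1) (k + 1 + 1)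
  have dv32 := res_dvd (D := D) (a1 := a3) (a2 := a2) (k + 1 + 1)
  have hall : res D a1 (k + 1 + 1) = res D a1 (k + 1) + a1 ∧
      res D a2 (k + 1 + 1) = res D a2 (k + 1) + a2 ∧
      res D a3 (k + 1 + 1) = res D a3 (k + 1) + a3 := by
    rcases r1 with r1 | r1 <;> rcases r2 with r2 | r2 <;> rcases r3 with r3 | r3
    · exact ⟨r1, r2, r3⟩
    · exact absurd (by linarith) hK
    · exact absurd (by linarith) hK
    · exfalso; linarith
    · exact absurd (by linarith) hK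
    · exfalso; linarith
    · exfalso; linarith
    · exfalso; linarith
  obtain ⟨s1, s2, s3⟩ := hall
  set c1 := D - res D a1 (k + 1 + 1) with hc1
  set c2 := D - res D a2 (k + 1 + 1) with hc2
  set c3 := D - res D a3 (k + 1 + 1) with hc3
  have c1pos : 0 < c1 := by linarith
  have c2pos : 0 < c2 := by linarith
  have c3pos : 0 < c3 := by linarith
  have c1lt : c1 < D := by linarith
  have c2lt : c2 < D := by linarith
  have c3lt : c3 < D := by linarith
  have hcs : c1 + c2 + c3 = D := by linarith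
  have hcle : D * (X1.h + X2.h + X3.h - Yk.h - Y.h) ≤ c1 * X1.h + c2 * X2.h + c3 * X3.h := by
    rw [hc1, hc2, hc3, s1, s2, s3]
    nlinarith
  obtain ⟨h', hh1, hh2, hh3⟩ : ∃ h' : ℤ, 0 ≤ h' ∧ X1.h + X2.h + X3.h - Yk.h - Y.h ≤ h' ∧
      D * h' ≤ c1 * X1.h + c2 * X2.h + c3 * X3.h := by
    rcases le_total 0 (X1.h + X2.h + X3.h - Yk.h - Y.h) with h4 | h4
    · exact ⟨_, h4, le_rfl, hcle⟩
    · refine ⟨0, le_rfl, h4, ?_⟩
      have h5 := mul_nonneg c1pos.le b15
      have h6 := mul_nonneg c2pos.le b25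
      have h7 := mul_nonneg c3pos.le b35
      linarith
  set Z : Pt := ⟨X1.x + X2.x + X3.x - Yk.x - Y.x, X1.y + X2.y + X3.y - Yk.y - Y.y, h'⟩ with hZ
  have hZx : D * Z.x = c1 * X1.x + c2 * X2.x + c3 * X3.x := by
    show D * (X1.x + X2.x + X3.x - Yk.x - Y.x) = _
    rw [hc1, hc2, hc3, s1, s2, s3]
    linear_combination -hkx - hx
  have hZy : D * Z.y = c1 * X1.y + c2 * X2.y + c3 * X3.y := by
    show D * (X1.y + X2.y + X3.y - Yk.y - Y.y) = _
    rw [hc1, hc2, hc3, s1, s2, s3]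
    linear_combination -hky - hy
  have hZh : D * Z.h ≤ c1 * X1.h + c2 * X2.h + c3 * X3.h := hh3
  have hZb : InB n Z := by
    have h4 := combo_bounds hD c1pos.le c2pos.le c3pos.le hcs hZx ⟨b11, b12⟩ ⟨b21, b22⟩ ⟨b31, b32⟩
    have h5 := combo_bounds hD c1pos.le c2pos.le c3pos.le hcs hZy ⟨b13, b14⟩ ⟨b23, b24⟩ ⟨b33, b34⟩
    have h6 := combo_le hD c1pos.le c2pos.le c3pos.le hcs hZh b16 b26 b36
    exact ⟨h4.1, h4.2, h5.1, h5.2, hh1, h6⟩
  rcases c.tot Z hZb with hW | hL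
  · rcases le_total (a1 * c2) (a2 * c1) with q12 | q12
    · rcases le_total (a1 * c3) (a3 * c1) with q13 | q13
      · exact newT hD IH hX2 hX3 hY hW h1.le hs hcs c1pos c1lt hx hy hh hZx hZy hZh q12 q13
          dv12 dv13
      · -- index 3 is minimal: a3 c1 ≤ a1 c3, and a3 c2 ≤ a2 c3
        have q32 : a3 * c2 ≤ a2 * c3 := by
          have e1 : (a3 * c1) * (a1 * c2) ≤ (a1 * c3) * (a2 * c1) :=
            mul_le_mul q13 q12 (by positivity) (by positivity)
          have e2 : (a1 * c1) * (a3 * c2) ≤ (a1 * c1) * (a2 * c3) := by linarith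
          exact le_of_mul_le_mul_left e2 (by positivity)
        exact newT (X1 := X3) (X2 := X1) (X3 := X2) (a1 := a3) (a2 := a1) (a3 := a2) (c1 := c3)
          (c2 := c1) (c3 := c2) hD IH hX1 hX2 hY hW h3.le (by linarith) (by linarith) c3pos c3lt
          (by linarith) (by linarith) (by linarith) (by linarith) (by linarith) (by linarith)
          q13 q32 dv31 dv32
    · rcases le_total (a2 * c3) (a3 * c2) with q23 | q23
      · exact newT (X1 := X2) (X2 := X1) (X3 := X3) (a1 := a2) (a2 := a1) (a3 := a3) (c1 := c2)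
          (c2 := c1) (c3 := c3) hD IH hX1 hX3 hY hW h2.le (by linarith) (by linarith) c2pos c2lt
          (by linarith) (by linarith) (by linarith) (by linarith) (by linarith) (by linarith)
          q12 q23 dv21 dv23
      · have q31 : a3 * c1 ≤ a1 * c3 := by
          have e1 : (a3 * c2) * (a2 * c1) ≤ (a2 * c3) * (a1 * c2) :=
            mul_le_mul q23 q12 (by positivity) (by positivity)
          have e2 : (a2 * c2) * (a3 * c1) ≤ (a2 * c2) * (a1 * c3) := by linarith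
          exact le_of_mul_le_mul_left e2 (by positivity)
        exact newT (X1 := X3) (X2 := X1) (X3 := X2) (a1 := a3) (a2 := a1) (a3 := a2) (c1 := c3)
          (c2 := c1) (c3 := c2) hD IH hX1 hX2 hY hW h3.le (by linarith) (by linarith) c3pos c3lt
          (by linarith) (by linarith) (by linarith) (by linarith) (by linarith) (by linarith)
          q31 q23 dv31 dv32
  · have h4 := c.no3 X1 X2 X3 Yk Y Z hX1 hX2 hX3 hYk hY hL (by
      show _ = Yk.x + Y.x + (X1.x + X2.x + X3.x - Yk.x - Y.x); ring) (by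
      show _ = Yk.y + Y.y + (X1.y + X2.y + X3.y - Yk.y - Y.y); ring)
    have h5 : Yk.h + Y.h + h' < X1.h + X2.h + X3.h := h4
    linarith

/-- **no triangle circuits** -/
theorem tStmt {n : Pt} {W L : Pt → Prop} (c : Ctx n W L) (N : ℕ) :
    ∀ D : ℤ, 0 < D → D ≤ N → TStmt W L D := by
  induction N with
  | zero => intro D h1 h2; exfalso; push_cast at h2; linarith
  | succ N ih =>
    intro D hD hDN X1 X2 X3 Y a1 a2 a3 hX1 hX2 hX3 hY h1 h2 h3 hs hx hy
    have IH : ∀ D', 0 < D' → D' < D → TStmt W L D' := fun D' h4 h5 =>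
      ih D' h4 (by push_cast at hDN; omega)
    rcases h1.eq_or_lt with h10 | h10
    · subst h10
      have := two c hD IH hX2 hX3 hY h2 h3 (by linarith) (by linarith) (by linarith)
      linarith
    rcases h2.eq_or_lt with h20 | h20
    · subst h20
      have := two c hD IH hX1 hX3 hY h1 h3 (by linarith) (by linarith) (by linarith)
      linarith
    rcases h3.eq_or_lt with h30 | h30
    · subst h30
      have := two c hD IH hX1 hX2 hY h1 h2 (by linarith) (by linarith) (by linarith)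
      linarith
    exact three c hD IH hX1 hX2 hX3 hY h10 h20 h30 hs hx hy

theorem tStmt' {n : Pt} {W L : Pt → Prop} (c : Ctx n W L) {D : ℤ} (hD : 0 < D) : TStmt W L D :=
  tStmt c D.toNat D hD (by omega)

end Pool.Agent.Q102.Trade3
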