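import Mathlib
import Pool.Agent.Q102.Trade3Tri

/-!
No crossing circuits, and the dual triangle circuits.
-/

namespace Pool.Agent.Q102.Trade3

/-- dual triangle circuits: one winning point, three losing points -/
theorem tDual {n : Pt} {W L : Pt → Prop} (c : Ctx n W L) {D : ℤ} (hD : 0 < D)
    {X Y1 Y2 Y3 : Pt} {b1 b2 b3 : ℤ} (hX : W X) (hY1 : L Y1) (hY2 : L Y2) (hY3 : L Y3)
    (h1 : 0 ≤ b1) (h2 : 0 ≤ b2) (h3 : 0 ≤ b3) (hs : b1 + b2 + b3 = D)
    (hx : D * X.x = b1 * Y1.x + b2 * Y2.x + b3 * Y3.x)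
    (hy : D * X.y = b1 * Y1.y + b2 * Y2.y + b3 * Y3.y) :
    b1 * Y1.h + b2 * Y2.h + b3 * Y3.h < D * X.h := by
  have h := tStmt' c.dual hD (refl n Y1) (refl n Y2) (refl n Y3) (refl n X) b1 b2 b3
    (by show L _; rwa [refl_refl]) (by show L _; rwa [refl_refl]) (by show L _; rwa [refl_refl])
    (by show W _; rwa [refl_refl]) h1 h2 h3 hs
    (by simp only [refl]; linear_combination (-n.x) * hs - hx)
    (by simp only [refl]; linear_combination (-n.y) * hs - hy)
  simp only [refl] at h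
  have e : b1 * (n.h - Y1.h) + b2 * (n.h - Y2.h) + b3 * (n.h - Y3.h) =
    D * n.h - (b1 * Y1.h + b2 * Y2.h + b3 * Y3.h) := by rw [← hs]; ring
  rw [e] at h
  linarith

/-- there is no crossing circuit of length `D` -/
def SStmt (W L : Pt → Prop) (D : ℤ) : Prop :=
  ∀ (X1 X2 Y1 Y2 : Pt) (a1 a2 b1 b2 : ℤ), W X1 → W X2 → L Y1 → L Y2 → 0 ≤ a1 → 0 ≤ a2 →
    0 ≤ b1 → 0 ≤ b2 → a1 + a2 = D → b1 + b2 = D →
    a1 * X1.x + a2 * X2.x = b1 * Y1.x + b2 * Y2.x →
    a1 * X1.y + a2 * X2.y = b1 * Y1.y + b2 * Y2.y →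
    b1 * Y1.h + b2 * Y2.h < a1 * X1.h + a2 * X2.h

theorem coord_ge {a1 a2 b1 b2 u1 u2 v1 v2 : ℤ} (hb1 : 0 < b1)
    (h1 : a1 ≤ b1) (h2 : a2 ≤ b1) (hb2 : 0 ≤ b2) (hu1 : 0 ≤ u1) (hu2 : 0 ≤ u2) (hv2 : 0 ≤ v2)
    (h : b1 * v1 + b2 * v2 ≤ a1 * u1 + a2 * u2) : 0 ≤ u1 + u2 - v1 := by
  by_contra hlt
  push Not at hlt
  have h3 : b1 * (u1 + u2) < b1 * v1 := mul_lt_mul_of_pos_left (by linarith) hb1
  have h4 := mul_nonneg hb2 hv2
  have h5 := mul_le_mul_of_nonneg_right h1 hu1
  have h6 := mul_le_mul_of_nonneg_right h2 hu2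
  linarith

/-- the core case: `b2 ≤ a1 ≤ a2` -/
theorem core {n : Pt} {W L : Pt → Prop} (c : Ctx n W L) {D : ℤ} (hD : 0 < D)
    (IH : ∀ D', 0 < D' → D' < D → SStmt W L D') {X1 X2 Y1 Y2 : Pt} {a1 a2 b1 b2 : ℤ}
    (hX1 : W X1) (hX2 : W X2) (hY1 : L Y1) (hY2 : L Y2) (h1 : 0 < a1) (h2 : 0 < a2)
    (hb2 : 0 < b2) (hsa : a1 + a2 = D) (hsb : b1 + b2 = D)
    (hx : a1 * X1.x + a2 * X2.x = b1 * Y1.x + b2 * Y2.x)
    (hy : a1 * X1.y + a2 * X2.y = b1 * Y1.y + b2 * Y2.y)
    (h12 : a1 ≤ a2) (hba : b2 ≤ a1) :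
    b1 * Y1.h + b2 * Y2.h < a1 * X1.h + a2 * X2.h := by
  by_contra hle
  push Not at hle
  obtain ⟨b11, b12, b13, b14, b15, b16⟩ := c.boxW _ hX1
  obtain ⟨b21, b22, b23, b24, b25, b26⟩ := c.boxW _ hX2
  obtain ⟨c11, c12, c13, c14, c15, c16⟩ := c.boxL _ hY1
  obtain ⟨c21, c22, c23, c24, c25, c26⟩ := c.boxL _ hY2
  have hb1 : a2 ≤ b1 := by linarith
  have hb1' : a1 ≤ b1 := by linarith
  have hb1pos : 0 < b1 := by linarith
  have hup : ∀ m u1 u2 v1 v2 : ℤ, u1 ≤ m → u2 ≤ m → v2 ≤ m →
      a1 * u1 + a2 * u2 ≤ b1 * v1 + b2 * v2 → u1 + u2 - v1 ≤ m := by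
    intro m u1 u2 v1 v2 g1 g2 g3 g4
    have := coord_ge (a1 := a1) (a2 := a2) (b1 := b1) (b2 := b2) (u1 := m - u1) (u2 := m - u2)
      (v1 := m - v1) (v2 := m - v2) hb1pos hb1' hb1 hb2.le (by linarith) (by linarith)
      (by linarith) (by
        have e : (b1 + b2) * m = (a1 + a2) * m := by rw [hsa, hsb]
        nlinarith)
    linarith
  have hRx : 0 ≤ X1.x + X2.x - Y1.x ∧ X1.x + X2.x - Y1.x ≤ n.x :=
    ⟨coord_ge hb1pos hb1' hb1 hb2.le b11 b21 c21 hx.ge, hup _ _ _ _ _ b12 b22 c22 hx.le⟩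
  have hRy : 0 ≤ X1.y + X2.y - Y1.y ∧ X1.y + X2.y - Y1.y ≤ n.y :=
    ⟨coord_ge hb1pos hb1' hb1 hb2.le b13 b23 c23 hy.ge, hup _ _ _ _ _ b14 b24 c24 hy.le⟩
  have hRh : X1.h + X2.h - Y1.h ≤ n.h := hup _ _ _ _ _ b16 b26 c26 hle
  obtain ⟨h', hh1, hh2, hh3, hh4⟩ : ∃ h' : ℤ, 0 ≤ h' ∧ h' ≤ n.h ∧ X1.h + X2.h - Y1.h ≤ h' ∧
      a1 * h' + (a2 - a1) * X2.h ≤ (b1 - a1) * Y1.h + b2 * Y2.h := by
    rcases le_total 0 (X1.h + X2.h - Y1.h) with h3 | h3
    · refine ⟨_, h3, hRh, le_rfl, ?_⟩
      linarith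
    · refine ⟨0, le_rfl, b15.trans b16, h3, ?_⟩
      have h4 : (a2 - a1) * X2.h ≤ (a2 - a1) * Y1.h :=
        mul_le_mul_of_nonneg_left (by linarith) (by linarith)
      have h5 : (a2 - a1) * Y1.h ≤ (b1 - a1) * Y1.h :=
        mul_le_mul_of_nonneg_right (by linarith) c15
      have h6 := mul_nonneg hb2.le c25
      linarith
  rcases c.tot ⟨X1.x + X2.x - Y1.x, X1.y + X2.y - Y1.y, h'⟩
    ⟨hRx.1, hRx.2, hRy.1, hRy.2, hh1, hh2⟩ with hW | hL
  · have h3 := IH a2 h2 (by linarith) _ X2 Y1 Y2 a1 (a2 - a1) (b1 - a1) b2 hW hX2 hY1 hY2 h1.le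
      (by linarith) (by linarith) hb2.le (by ring) (by linarith) (by
        show a1 * (X1.x + X2.x - Y1.x) + _ = _
        linear_combination hx) (by
        show a1 * (X1.y + X2.y - Y1.y) + _ = _
        linear_combination hy)
    have h4 : (b1 - a1) * Y1.h + b2 * Y2.h < a1 * h' + (a2 - a1) * X2.h := h3
    linarith
  · have h3 := c.no2 X1 X2 Y1 _ hX1 hX2 hY1 hL (by
      show _ = Y1.x + (X1.x + X2.x - Y1.x); ring) (by
      show _ = Y1.y + (X1.y + X2.y - Y1.y); ring)
    have h4 : Y1.h + h' < X1.h + X2.h := h3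
    linarith

/-- the case where `b2` is the smallest coefficient -/
theorem core' {n : Pt} {W L : Pt → Prop} (c : Ctx n W L) {D : ℤ} (hD : 0 < D)
    (IH : ∀ D', 0 < D' → D' < D → SStmt W L D') {X1 X2 Y1 Y2 : Pt} {a1 a2 b1 b2 : ℤ}
    (hX1 : W X1) (hX2 : W X2) (hY1 : L Y1) (hY2 : L Y2) (h1 : 0 < a1) (h2 : 0 < a2)
    (hb2 : 0 < b2) (hsa : a1 + a2 = D) (hsb : b1 + b2 = D)
    (hx : a1 * X1.x + a2 * X2.x = b1 * Y1.x + b2 * Y2.x)
    (hy : a1 * X1.y + a2 * X2.y = b1 * Y1.y + b2 * Y2.y)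
    (hb1 : b2 ≤ a1) (hb2' : b2 ≤ a2) :
    b1 * Y1.h + b2 * Y2.h < a1 * X1.h + a2 * X2.h := by
  rcases le_total a1 a2 with h | h
  · exact core c hD IH hX1 hX2 hY1 hY2 h1 h2 hb2 hsa hsb hx hy h hb1
  · have := core c hD IH hX2 hX1 hY1 hY2 h2 h1 hb2 (by linarith) hsb (by linarith) (by linarith)
      h hb2'
    linarith

theorem sStmt_dual {n : Pt} {W L : Pt → Prop} {D : ℤ} (h : SStmt W L D) :
    SStmt (fun p => L (refl n p)) (fun p => W (refl n p)) D := by
  intro X1 X2 Y1 Y2 a1 a2 b1 b2 hX1 hX2 hY1 hY2 h1 h2 h3 h4 hsa hsb hx hy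
  have := h (refl n Y1) (refl n Y2) (refl n X1) (refl n X2) b1 b2 a1 a2 hY1 hY2 hX1 hX2
    h3 h4 h1 h2 hsb hsa (by
      simp only [refl]
      linear_combination n.x * hsb - n.x * hsa + hx) (by
      simp only [refl]
      linear_combination n.y * hsb - n.y * hsa + hy)
  simp only [refl] at this
  have e : (a1 + a2) * n.h = (b1 + b2) * n.h := by rw [hsa, hsb]
  nlinarith

/-- **no crossing circuits** -/
theorem sStmt {n : Pt} {W L : Pt → Prop} (c : Ctx n W L) (N : ℕ) :
    ∀ D : ℤ, 0 < D → D ≤ N → SStmt W L D := by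
  induction N with
  | zero => intro D h1 h2; exfalso; push_cast at h2; linarith
  | succ N ih =>
    intro D hD hDN X1 X2 Y1 Y2 a1 a2 b1 b2 hX1 hX2 hY1 hY2 h1 h2 h3 h4 hsa hsb hx hy
    have IH : ∀ D', 0 < D' → D' < D → SStmt W L D' := fun D' h4 h5 =>
      ih D' h4 (by push_cast at hDN; omega)
    rcases h1.eq_or_lt with h10 | h10
    · subst h10
      have := tDual c hD hX2 hY1 hY2 hY2 h3 h4 le_rfl (by linarith) (by
        have e : a2 = D := by linarith
        rw [← e]; linarith) (by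
        have e : a2 = D := by linarith
        rw [← e]; linarith)
      have e : a2 = D := by linarith
      rw [e]; linarith
    rcases h2.eq_or_lt with h20 | h20
    · subst h20
      have e : a1 = D := by linarith
      have := tDual c hD hX1 hY1 hY2 hY2 h3 h4 le_rfl (by linarith) (by
        rw [← e]; linarith) (by
        rw [← e]; linarith)
      rw [e]; linarith
    rcases h3.eq_or_lt with h30 | h30
    · subst h30
      have e : b2 = D := by linarith
      have := tStmt' c hD X1 X2 X2 Y2 a1 a2 0 hX1 hX2 hX2 hY2 h1 h2 le_rfl (by linarith) (by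
        rw [← e]; linarith) (by
        rw [← e]; linarith)
      rw [e]; linarith
    rcases h4.eq_or_lt with h40 | h40
    · subst h40
      have e : b1 = D := by linarith
      have := tStmt' c hD X1 X2 X2 Y1 a1 a2 0 hX1 hX2 hX2 hY1 h1 h2 le_rfl (by linarith) (by
        rw [← e]; linarith) (by
        rw [← e]; linarith)
      rw [e]; linarith
    -- the dual problem
    have IH' : ∀ D', 0 < D' → D' < D →
        SStmt (fun p => L (refl n p)) (fun p => W (refl n p)) D' :=
      fun D' g1 g2 => sStmt_dual (IH D' g1 g2)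
    have hfin : ∀ P Q R S : Pt, ∀ p q r s : ℤ, p + q = D → r + s = D →
        r * (refl n R).h + s * (refl n S).h < p * (refl n P).h + q * (refl n Q).h →
        p * P.h + q * Q.h < r * R.h + s * S.h := by
      intro P Q R S p q r s g1 g2 g3
      simp only [refl] at g3
      have e : (p + q) * n.h = (r + s) * n.h := by rw [g1, g2]
      nlinarith
    rcases le_total b1 b2 with hb | hb
    · rcases le_total a1 a2 with ha | ha
      · rcases le_total b1 a1 with hab | hab
        · have := core' c hD IH (b1 := b2) (b2 := b1) hX1 hX2 hY2 hY1 h10 h20 h30 hsa (by linarith) (by linarith)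
            (by linarith) hab (by linarith)
          linarith
        · -- `a1` smallest
          have := core' c.dual hD IH' (X1 := refl n Y1) (X2 := refl n Y2) (Y1 := refl n X2)
            (Y2 := refl n X1) (a1 := b1) (a2 := b2) (b1 := a2) (b2 := a1)
            (by show L _; rwa [refl_refl]) (by show L _; rwa [refl_refl])
            (by show W _; rwa [refl_refl]) (by show W _; rwa [refl_refl]) h30 h40 h10 hsb
            (by linarith) (by
              simp only [refl]
              linear_combination n.x * hsb - n.x * hsa + hx) (by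
              simp only [refl]
              linear_combination n.y * hsb - n.y * hsa + hy) hab (by linarith)
          have := hfin Y1 Y2 X2 X1 b1 b2 a2 a1 hsb (by linarith) this
          linarith
      · rcases le_total b1 a2 with hab | hab
        · have := core' c hD IH (b1 := b2) (b2 := b1) hX1 hX2 hY2 hY1 h10 h20 h30 hsa (by linarith) (by linarith)
            (by linarith) (by linarith) hab
          linarith
        · -- `a2` smallest
          have := core' c.dual hD IH' (X1 := refl n Y1) (X2 := refl n Y2) (Y1 := refl n X1)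
            (Y2 := refl n X2) (a1 := b1) (a2 := b2) (b1 := a1) (b2 := a2)
            (by show L _; rwa [refl_refl]) (by show L _; rwa [refl_refl])
            (by show W _; rwa [refl_refl]) (by show W _; rwa [refl_refl]) h30 h40 h20 hsb
            (by linarith) (by
              simp only [refl]
              linear_combination n.x * hsb - n.x * hsa + hx) (by
              simp only [refl]
              linear_combination n.y * hsb - n.y * hsa + hy) hab (by linarith)
          exact hfin Y1 Y2 X1 X2 b1 b2 a1 a2 hsb (by linarith) this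
    · rcases le_total a1 a2 with ha | ha
      · rcases le_total b2 a1 with hab | hab
        · exact core' c hD IH (b1 := b1) (b2 := b2) hX1 hX2 hY1 hY2 h10 h20 h40 hsa (by linarith) (by linarith)
            (by linarith) hab (by linarith)
        · have := core' c.dual hD IH' (X1 := refl n Y1) (X2 := refl n Y2) (Y1 := refl n X2)
            (Y2 := refl n X1) (a1 := b1) (a2 := b2) (b1 := a2) (b2 := a1)
            (by show L _; rwa [refl_refl]) (by show L _; rwa [refl_refl])
            (by show W _; rwa [refl_refl]) (by show W _; rwa [refl_refl]) h30 h40 h10 hsb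
            (by linarith) (by
              simp only [refl]
              linear_combination n.x * hsb - n.x * hsa + hx) (by
              simp only [refl]
              linear_combination n.y * hsb - n.y * hsa + hy) (by linarith) hab
          have := hfin Y1 Y2 X2 X1 b1 b2 a2 a1 hsb (by linarith) this
          linarith
      · rcases le_total b2 a2 with hab | hab
        · exact core' c hD IH (b1 := b1) (b2 := b2) hX1 hX2 hY1 hY2 h10 h20 h40 hsa (by linarith) (by linarith)
            (by linarith) (by linarith) hab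
        · have := core' c.dual hD IH' (X1 := refl n Y1) (X2 := refl n Y2) (Y1 := refl n X1)
            (Y2 := refl n X2) (a1 := b1) (a2 := b2) (b1 := a1) (b2 := a2)
            (by show L _; rwa [refl_refl]) (by show L _; rwa [refl_refl])
            (by show W _; rwa [refl_refl]) (by show W _; rwa [refl_refl]) h30 h40 h20 hsb
            (by linarith) (by
              simp only [refl]
              linear_combination n.x * hsb - n.x * hsa + hx) (by
              simp only [refl]
              linear_combination n.y * hsb - n.y * hsa + hy) (by linarith) hab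
          exact hfin Y1 Y2 X1 X2 b1 b2 a1 a2 hsb (by linarith) this

theorem sStmt' {n : Pt} {W L : Pt → Prop} (c : Ctx n W L) {D : ℤ} (hD : 0 < D) : SStmt W L D :=
  sStmt c D.toNat D hD (by omega)

end Pool.Agent.Q102.Trade3
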