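import Mathlib
import Pool.Agent.Q102.Trade3Cross

/-!
No trades of any length: reduction to triangle and crossing circuits.
-/

namespace Pool.Agent.Q102.Trade3

open Finset

theorem clear3 (a1 a2 a3 : ℚ) : ∃ (K : ℤ) (A1 A2 A3 : ℤ), 0 < K ∧ (A1 : ℚ) = K * a1 ∧
    (A2 : ℚ) = K * a2 ∧ (A3 : ℚ) = K * a3 := by
  refine ⟨a1.den * a2.den * a3.den, a1.num * a2.den * a3.den, a1.den * a2.num * a3.den,
    a1.den * a2.den * a3.num, ?_, ?_, ?_, ?_⟩
  · have h1 : (0 : ℤ) < a1.den := by exact_mod_cast a1.den_pos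
    have h2 : (0 : ℤ) < a2.den := by exact_mod_cast a2.den_pos
    have h3 : (0 : ℤ) < a3.den := by exact_mod_cast a3.den_pos
    positivity
  · have h := Rat.mul_den_eq_num a1
    push_cast
    rw [← h]; ring
  · have h := Rat.mul_den_eq_num a2
    push_cast
    rw [← h]; ring
  · have h := Rat.mul_den_eq_num a3
    push_cast
    rw [← h]; ring

theorem clear4 (a1 a2 a3 a4 : ℚ) : ∃ (K : ℤ) (A1 A2 A3 A4 : ℤ), 0 < K ∧ (A1 : ℚ) = K * a1 ∧
    (A2 : ℚ) = K * a2 ∧ (A3 : ℚ) = K * a3 ∧ (A4 : ℚ) = K * a4 := by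
  obtain ⟨K, A1, A2, A3, hK, h1, h2, h3⟩ := clear3 a1 a2 a3
  refine ⟨K * a4.den, A1 * a4.den, A2 * a4.den, A3 * a4.den, K * a4.num, ?_, ?_, ?_, ?_, ?_⟩
  · have : (0 : ℤ) < a4.den := by exact_mod_cast a4.den_pos
    positivity
  · push_cast; rw [h1]; ring
  · push_cast; rw [h2]; ring
  · push_cast; rw [h3]; ring
  · have h := Rat.mul_den_eq_num a4
    push_cast
    rw [← h]; ring

theorem tq {n : Pt} {W L : Pt → Prop} (c : Ctx n W L) {X1 X2 X3 Y : Pt} {a1 a2 a3 : ℚ}
    (hX1 : W X1) (hX2 : W X2) (hX3 : W X3) (hY : L Y) (h1 : 0 ≤ a1) (h2 : 0 ≤ a2) (h3 : 0 ≤ a3)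
    (hD : 0 < a1 + a2 + a3)
    (hx : (a1 + a2 + a3) * Y.x = a1 * X1.x + a2 * X2.x + a3 * X3.x)
    (hy : (a1 + a2 + a3) * Y.y = a1 * X1.y + a2 * X2.y + a3 * X3.y) :
    (a1 + a2 + a3) * Y.h < a1 * X1.h + a2 * X2.h + a3 * X3.h := by
  obtain ⟨K, A1, A2, A3, hK, e1, e2, e3⟩ := clear3 a1 a2 a3
  have hKq : (0 : ℚ) < K := by exact_mod_cast hK
  have hA1 : 0 ≤ A1 := by
    have : (0 : ℚ) ≤ (A1 : ℚ) := by rw [e1]; positivity
    exact_mod_cast this
  have hA2 : 0 ≤ A2 := by
    have : (0 : ℚ) ≤ (A2 : ℚ) := by rw [e2]; positivity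
    exact_mod_cast this
  have hA3 : 0 ≤ A3 := by
    have : (0 : ℚ) ≤ (A3 : ℚ) := by rw [e3]; positivity
    exact_mod_cast this
  have hDD : 0 < A1 + A2 + A3 := by
    have : (0 : ℚ) < ((A1 + A2 + A3 : ℤ) : ℚ) := by
      push_cast
      rw [e1, e2, e3, ← mul_add, ← mul_add]
      positivity
    exact_mod_cast this
  have h := tStmt' c hDD X1 X2 X3 Y A1 A2 A3 hX1 hX2 hX3 hY hA1 hA2 hA3 rfl (by
    have : (((A1 + A2 + A3) * Y.x : ℤ) : ℚ) = ((A1 * X1.x + A2 * X2.x + A3 * X3.x : ℤ) : ℚ) := by
      push_cast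
      rw [e1, e2, e3]
      linear_combination K * hx
    exact_mod_cast this) (by
    have : (((A1 + A2 + A3) * Y.y : ℤ) : ℚ) = ((A1 * X1.y + A2 * X2.y + A3 * X3.y : ℤ) : ℚ) := by
      push_cast
      rw [e1, e2, e3]
      linear_combination K * hy
    exact_mod_cast this)
  have h' : (((A1 + A2 + A3) * Y.h : ℤ) : ℚ) < ((A1 * X1.h + A2 * X2.h + A3 * X3.h : ℤ) : ℚ) := by
    exact_mod_cast h
  push_cast at h'
  rw [e1, e2, e3] at h'
  have h2 : (K : ℚ) * ((a1 + a2 + a3) * Y.h) < K * (a1 * X1.h + a2 * X2.h + a3 * X3.h) := by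
    linarith
  exact lt_of_mul_lt_mul_left h2 hKq.le

theorem tdq {n : Pt} {W L : Pt → Prop} (c : Ctx n W L) {X Y1 Y2 Y3 : Pt} {b1 b2 b3 : ℚ}
    (hX : W X) (hY1 : L Y1) (hY2 : L Y2) (hY3 : L Y3) (h1 : 0 ≤ b1) (h2 : 0 ≤ b2) (h3 : 0 ≤ b3)
    (hD : 0 < b1 + b2 + b3)
    (hx : (b1 + b2 + b3) * X.x = b1 * Y1.x + b2 * Y2.x + b3 * Y3.x)
    (hy : (b1 + b2 + b3) * X.y = b1 * Y1.y + b2 * Y2.y + b3 * Y3.y) :
    b1 * Y1.h + b2 * Y2.h + b3 * Y3.h < (b1 + b2 + b3) * X.h := by
  have h := tq c.dual (X1 := refl n Y1) (X2 := refl n Y2) (X3 := refl n Y3) (Y := refl n X)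
    (by show L _; rwa [refl_refl]) (by show L _; rwa [refl_refl]) (by show L _; rwa [refl_refl])
    (by show W _; rwa [refl_refl]) h1 h2 h3 hD
    (by simp only [refl]; push_cast; linear_combination -hx)
    (by simp only [refl]; push_cast; linear_combination -hy)
  simp only [refl] at h
  push_cast at h
  linarith

theorem sq {n : Pt} {W L : Pt → Prop} (c : Ctx n W L) {X1 X2 Y1 Y2 : Pt} {a1 a2 b1 b2 : ℚ}
    (hX1 : W X1) (hX2 : W X2) (hY1 : L Y1) (hY2 : L Y2) (h1 : 0 ≤ a1) (h2 : 0 ≤ a2)
    (h3 : 0 ≤ b1) (h4 : 0 ≤ b2) (hD : 0 < a1 + a2) (hs : a1 + a2 = b1 + b2)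
    (hx : a1 * X1.x + a2 * X2.x = b1 * Y1.x + b2 * Y2.x)
    (hy : a1 * X1.y + a2 * X2.y = b1 * Y1.y + b2 * Y2.y) :
    b1 * Y1.h + b2 * Y2.h < a1 * X1.h + a2 * X2.h := by
  obtain ⟨K, A1, A2, B1, B2, hK, e1, e2, e3, e4⟩ := clear4 a1 a2 b1 b2
  have hKq : (0 : ℚ) < K := by exact_mod_cast hK
  have hA1 : 0 ≤ A1 := by
    have : (0 : ℚ) ≤ (A1 : ℚ) := by rw [e1]; positivity
    exact_mod_cast this
  have hA2 : 0 ≤ A2 := by
    have : (0 : ℚ) ≤ (A2 : ℚ) := by rw [e2]; positivity
    exact_mod_cast this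
  have hB1 : 0 ≤ B1 := by
    have : (0 : ℚ) ≤ (B1 : ℚ) := by rw [e3]; positivity
    exact_mod_cast this
  have hB2 : 0 ≤ B2 := by
    have : (0 : ℚ) ≤ (B2 : ℚ) := by rw [e4]; positivity
    exact_mod_cast this
  have hDD : 0 < A1 + A2 := by
    have : (0 : ℚ) < ((A1 + A2 : ℤ) : ℚ) := by
      push_cast
      rw [e1, e2, ← mul_add]
      positivity
    exact_mod_cast this
  have hss : B1 + B2 = A1 + A2 := by
    have : ((B1 + B2 : ℤ) : ℚ) = ((A1 + A2 : ℤ) : ℚ) := by
      push_cast
      rw [e1, e2, e3, e4]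
      linear_combination -K * hs
    exact_mod_cast this
  have h := sStmt' c hDD X1 X2 Y1 Y2 A1 A2 B1 B2 hX1 hX2 hY1 hY2 hA1 hA2 hB1 hB2 rfl hss (by
    have : ((A1 * X1.x + A2 * X2.x : ℤ) : ℚ) = ((B1 * Y1.x + B2 * Y2.x : ℤ) : ℚ) := by
      push_cast
      rw [e1, e2, e3, e4]
      linear_combination K * hx
    exact_mod_cast this) (by
    have : ((A1 * X1.y + A2 * X2.y : ℤ) : ℚ) = ((B1 * Y1.y + B2 * Y2.y : ℤ) : ℚ) := by
      push_cast
      rw [e1, e2, e3, e4]
      linear_combination K * hy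
    exact_mod_cast this)
  have h' : ((B1 * Y1.h + B2 * Y2.h : ℤ) : ℚ) < ((A1 * X1.h + A2 * X2.h : ℤ) : ℚ) := by
    exact_mod_cast h
  push_cast at h'
  rw [e1, e2, e3, e4] at h'
  have h2 : (K : ℚ) * (b1 * Y1.h + b2 * Y2.h) < K * (a1 * X1.h + a2 * X2.h) := by
    linarith
  exact lt_of_mul_lt_mul_left h2 hKq.le

/-- the sign of an index -/
def σ {ι : Type*} (sg : ι → Bool) (i : ι) : ℚ := if sg i = true then 1 else -1

theorem three_elems {ι : Type*} [DecidableEq ι] {A : Finset ι} (hA : A.Nonempty) (h3 : #A ≤ 3)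
    {w : ι → ℚ} (hw : ∀ i ∈ A, 0 < w i) : ∃ i1 ∈ A, ∃ i2 ∈ A, ∃ i3 ∈ A, ∃ a1 a2 a3 : ℚ,
      0 ≤ a1 ∧ 0 ≤ a2 ∧ 0 ≤ a3 ∧
      ∀ F : ι → ℚ, ∑ i ∈ A, w i * F i = a1 * F i1 + a2 * F i2 + a3 * F i3 := by
  have h1 := Finset.card_pos.mpr hA
  rcases (by omega : #A = 1 ∨ #A = 2 ∨ #A = 3) with h | h | h
  · obtain ⟨i, rfl⟩ := Finset.card_eq_one.mp h
    have hi := Finset.mem_singleton_self i
    exact ⟨i, hi, i, hi, i, hi, w i, 0, 0, (hw i hi).le, le_rfl, le_rfl, fun F => by simp⟩
  · obtain ⟨i, j, hij, rfl⟩ := Finset.card_eq_two.mp h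
    have hi : i ∈ ({i, j} : Finset ι) := by simp
    have hj : j ∈ ({i, j} : Finset ι) := by simp
    exact ⟨i, hi, j, hj, j, hj, w i, w j, 0, (hw i hi).le, (hw j hj).le, le_rfl, fun F => by
      rw [Finset.sum_pair hij]; ring⟩
  · obtain ⟨i, j, k, hij, hik, hjk, rfl⟩ := Finset.card_eq_three.mp h
    have hi : i ∈ ({i, j, k} : Finset ι) := by simp
    have hj : j ∈ ({i, j, k} : Finset ι) := by simp
    have hk : k ∈ ({i, j, k} : Finset ι) := by simp
    exact ⟨i, hi, j, hj, k, hk, w i, w j, w k, (hw i hi).le, (hw j hj).le, (hw k hk).le,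
      fun F => by
        rw [Finset.sum_insert (by simp [hij, hik]), Finset.sum_pair hjk]; ring⟩

theorem exists_relation {ι : Type*} [DecidableEq ι] (v : ι → Fin 3 → ℚ) {t : Finset ι}
    (ht : #t = 4) : ∃ z : ι → ℚ, (∀ i, i ∉ t → z i = 0) ∧ (∃ i ∈ t, z i ≠ 0) ∧
      ∑ i ∈ t, z i • v i = 0 := by
  have hnot : ¬ LinearIndependent ℚ (fun i : t => v i) := by
    intro h
    have := h.fintype_card_le_finrank
    rw [Fintype.card_coe, ht, Module.finrank_fin_fun] at this
    omega
  rw [Fintype.not_linearIndependent_iff] at hnot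
  obtain ⟨g, hg, i, hi⟩ := hnot
  refine ⟨fun i => if h : i ∈ t then g ⟨i, h⟩ else 0, ?_, ⟨i, i.2, ?_⟩, ?_⟩
  · intro i hi; exact dif_neg hi
  · simpa using hi
  · rw [← Finset.sum_attach]
    rw [← hg]
    apply Finset.sum_congr rfl
    intro i _
    simp

theorem no_combo {n : Pt} {W L : Pt → Prop} (c : Ctx n W L) {ι : Type*} [DecidableEq ι]
    (P : ι → Pt) (sg : ι → Bool) (m : ℕ) : ∀ s : Finset ι, #s = m → s.Nonempty →
    ∀ w : ι → ℚ, (∀ i ∈ s, 0 < w i) → (∀ i ∈ s, sg i = true → W (P i)) →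
    (∀ i ∈ s, sg i = false → L (P i)) → ∑ i ∈ s, w i * σ sg i = 0 →
    ∑ i ∈ s, w i * (σ sg i * (P i).x) = 0 → ∑ i ∈ s, w i * (σ sg i * (P i).y) = 0 →
    ∑ i ∈ s, w i * (σ sg i * (P i).h) ≤ 0 → False := by
  induction m using Nat.strong_induction_on with
  | _ m ih =>
    intro s hs hne w hw hW hL e0 ex ey eh
    by_cases h5 : 5 ≤ m
    · -- a relation among four of them
      obtain ⟨t, hts, ht⟩ := Finset.exists_subset_card_eq (s := s) (n := 4) (by omega)
      obtain ⟨z, hz1, ⟨i0, hi0, hz2⟩, hz3⟩ := exists_relation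
        (fun i => ![σ sg i, σ sg i * (P i).x, σ sg i * (P i).y]) ht
      obtain ⟨j0, hj0, hj0t⟩ : ∃ j ∈ s, j ∉ t := by
        by_contra hcon
        push Not at hcon
        have := Finset.card_le_card (show s ⊆ t from hcon)
        omega
      have hzsum : ∀ F : ι → ℚ, ∑ i ∈ t, z i * F i = ∑ i ∈ s, z i * F i := by
        intro F
        apply Finset.sum_subset hts
        intro i _ hi
        rw [hz1 i hi, zero_mul]
      have z0 : ∑ i ∈ s, z i * σ sg i = 0 := by
        rw [← hzsum]
        have := congrFun hz3 0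
        rw [Finset.sum_apply] at this
        simpa using this
      have zx : ∑ i ∈ s, z i * (σ sg i * (P i).x) = 0 := by
        rw [← hzsum]
        have := congrFun hz3 1
        rw [Finset.sum_apply] at this
        simpa using this
      have zy : ∑ i ∈ s, z i * (σ sg i * (P i).y) = 0 := by
        rw [← hzsum]
        have := congrFun hz3 2
        rw [Finset.sum_apply] at this
        simpa using this
      -- general reduction
      have key : ∀ r : ι → ℚ, (∀ i ∈ s, 0 ≤ r i) → (∃ i ∈ s, r i = 0) → (∃ i ∈ s, r i ≠ 0) →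
          ∑ i ∈ s, r i * σ sg i = 0 → ∑ i ∈ s, r i * (σ sg i * (P i).x) = 0 →
          ∑ i ∈ s, r i * (σ sg i * (P i).y) = 0 → ∑ i ∈ s, r i * (σ sg i * (P i).h) ≤ 0 →
          False := by
        intro r hr1 ⟨i1, hi1, hr2⟩ ⟨i2, hi2, hr3⟩ f0 fx fy fh
        have hsum : ∀ F : ι → ℚ, ∑ i ∈ s.filter (fun i => r i ≠ 0), r i * F i =
            ∑ i ∈ s, r i * F i := by
          intro F
          apply Finset.sum_subset (Finset.filter_subset _ _)
          intro i hi hi'
          rw [Finset.mem_filter, not_and, not_not] at hi'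
          rw [hi' hi, zero_mul]
        refine ih #(s.filter (fun i => r i ≠ 0)) ?_ _ rfl ⟨i2, ?_⟩ r ?_ ?_ ?_ ?_ ?_ ?_ ?_
        · rw [← hs]
          apply Finset.card_lt_card
          rw [Finset.ssubset_iff_of_subset (Finset.filter_subset _ _)]
          exact ⟨i1, hi1, by simp [hr2]⟩
        · rw [Finset.mem_filter]; exact ⟨hi2, hr3⟩
        · intro i hi
          rw [Finset.mem_filter] at hi
          exact lt_of_le_of_ne (hr1 i hi.1) (Ne.symm hi.2)
        · intro i hi; exact hW i (Finset.mem_filter.mp hi).1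
        · intro i hi; exact hL i (Finset.mem_filter.mp hi).1
        · rw [hsum]; exact f0
        · rw [hsum]; exact fx
        · rw [hsum]; exact fy
        · rw [hsum]; exact fh
      obtain ⟨M, hM, hMmax⟩ := Finset.exists_max_image s (fun i => z i / w i) hne
      obtain ⟨m', hm', hmin⟩ := Finset.exists_min_image s (fun i => z i / w i) hne
      have hlin : ∀ (α β : ℚ) (F : ι → ℚ), ∑ i ∈ s, (α * w i + β * z i) * F i =
          α * ∑ i ∈ s, w i * F i + β * ∑ i ∈ s, z i * F i := by
        intro α β F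
        rw [Finset.mul_sum, Finset.mul_sum, ← Finset.sum_add_distrib]
        apply Finset.sum_congr rfl
        intro i _; ring
      have hMge : ∀ i ∈ s, 0 ≤ z M / w M * w i + (-1) * z i := by
        intro i hi
        have h1 := hMmax i hi
        have h2 := hw i hi
        have h3 : z i / w i * w i = z i := div_mul_cancel₀ _ h2.ne'
        have h4 := mul_le_mul_of_nonneg_right h1 h2.le
        linarith
      have hmge : ∀ i ∈ s, 0 ≤ -(z m' / w m') * w i + 1 * z i := by
        intro i hi
        have h1 := hmin i hi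
        have h2 := hw i hi
        have h3 : z i / w i * w i = z i := div_mul_cancel₀ _ h2.ne'
        have h4 := mul_le_mul_of_nonneg_right h1 h2.le
        linarith
      have hρ : 0 ≤ z M / w M - z m' / w m' := by
        have := hMmax m' hm'
        linarith
      have hsumF : (∑ i ∈ s, (z M / w M * w i + (-1) * z i) * (σ sg i * (P i).h)) +
          ∑ i ∈ s, (-(z m' / w m') * w i + 1 * z i) * (σ sg i * (P i).h) ≤ 0 := by
        rw [hlin, hlin]
        have := mul_nonneg hρ (neg_nonneg.mpr eh)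
        linarith
      rcases le_or_gt (∑ i ∈ s, (z M / w M * w i + (-1) * z i) * (σ sg i * (P i).h)) 0 with h6 | h6
      · refine key (fun i => z M / w M * w i + (-1) * z i) hMge ⟨M, hM, ?_⟩ ?_ ?_ ?_ ?_ h6
        · show z M / w M * w M + (-1) * z M = 0
          rw [div_mul_cancel₀ _ (hw M hM).ne']; ring
        · by_contra hcon
          push Not at hcon
          have h7 := hcon j0 hj0
          rw [hz1 j0 hj0t] at h7
          have h8 : z M / w M = 0 := by
            have := (hw j0 hj0).ne'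
            have h9 : z M / w M * w j0 = 0 := by linarith
            exact (mul_eq_zero.mp h9).resolve_right this
          have h9 := hcon i0 (hts hi0)
          rw [h8] at h9
          apply hz2
          linarith
        · show ∑ i ∈ s, (z M / w M * w i + (-1) * z i) * σ sg i = 0
          rw [hlin, e0, z0]; ring
        · show ∑ i ∈ s, (z M / w M * w i + (-1) * z i) * _ = 0
          rw [hlin, ex, zx]; ring
        · show ∑ i ∈ s, (z M / w M * w i + (-1) * z i) * _ = 0
          rw [hlin, ey, zy]; ring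
      · refine key (fun i => -(z m' / w m') * w i + 1 * z i) hmge ⟨m', hm', ?_⟩ ?_ ?_ ?_ ?_
          (by
            show ∑ i ∈ s, (-(z m' / w m') * w i + 1 * z i) * (σ sg i * (P i).h) ≤ 0
            linarith)
        · show -(z m' / w m') * w m' + 1 * z m' = 0
          rw [neg_mul, div_mul_cancel₀ _ (hw m' hm').ne']; ring
        · by_contra hcon
          push Not at hcon
          have h7 := hcon j0 hj0
          rw [hz1 j0 hj0t] at h7
          have h8 : z m' / w m' = 0 := by
            have := (hw j0 hj0).ne'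
            have h9 : z m' / w m' * w j0 = 0 := by linarith
            exact (mul_eq_zero.mp h9).resolve_right this
          have h9 := hcon i0 (hts hi0)
          rw [h8] at h9
          apply hz2
          linarith
        · show ∑ i ∈ s, (-(z m' / w m') * w i + 1 * z i) * σ sg i = 0
          rw [hlin, e0, z0]; ring
        · show ∑ i ∈ s, (-(z m' / w m') * w i + 1 * z i) * _ = 0
          rw [hlin, ex, zx]; ring
        · show ∑ i ∈ s, (-(z m' / w m') * w i + 1 * z i) * _ = 0
          rw [hlin, ey, zy]; ring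
    · -- at most four points
      have hsplit : ∀ F : ι → ℚ, ∑ i ∈ s, w i * (σ sg i * F i) =
          (∑ i ∈ s.filter (fun i => sg i = true), w i * F i) -
            ∑ i ∈ s.filter (fun i => ¬ sg i = true), w i * F i := by
        intro F
        rw [← Finset.sum_filter_add_sum_filter_not s (fun i => sg i = true), sub_eq_add_neg,
          ← Finset.sum_neg_distrib]
        congr 1
        · apply Finset.sum_congr rfl
          intro i hi
          rw [Finset.mem_filter] at hi
          unfold σ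
          rw [if_pos hi.2]; ring
        · apply Finset.sum_congr rfl
          intro i hi
          rw [Finset.mem_filter] at hi
          unfold σ
          rw [if_neg hi.2]; ring
      set A := s.filter (fun i => sg i = true) with hA
      set B := s.filter (fun i => ¬ sg i = true) with hB
      have hcard : #A + #B = m := by
        rw [hA, hB, Finset.card_filter_add_card_filter_not, hs]
      have f0 : ∑ i ∈ A, w i = ∑ i ∈ B, w i := by
        have := hsplit (fun _ => 1)
        simp only [mul_one] at this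
        rw [e0] at this
        linarith
      have fx : ∑ i ∈ A, w i * (P i).x = ∑ i ∈ B, w i * (P i).x := by
        have := hsplit (fun i => (P i).x)
        rw [ex] at this
        linarith
      have fy : ∑ i ∈ A, w i * (P i).y = ∑ i ∈ B, w i * (P i).y := by
        have := hsplit (fun i => (P i).y)
        rw [ey] at this
        linarith
      have fh : ∑ i ∈ A, w i * (P i).h ≤ ∑ i ∈ B, w i * (P i).h := by
        have := hsplit (fun i => (P i).h)
        linarith
      have hwA : ∀ i ∈ A, 0 < w i := fun i hi => hw i (Finset.mem_filter.mp hi).1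
      have hwB : ∀ i ∈ B, 0 < w i := fun i hi => hw i (Finset.mem_filter.mp hi).1
      have hWA : ∀ i ∈ A, W (P i) := fun i hi =>
        hW i (Finset.mem_filter.mp hi).1 (Finset.mem_filter.mp hi).2
      have hLB : ∀ i ∈ B, L (P i) := fun i hi =>
        hL i (Finset.mem_filter.mp hi).1 (by
          have := (Finset.mem_filter.mp hi).2
          simpa using this)
      have hAne : A.Nonempty := by
        by_contra hcon
        rw [Finset.not_nonempty_iff_eq_empty] at hcon
        rw [hcon, Finset.sum_empty] at f0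
        have hBne : B.Nonempty := by
          rw [← Finset.card_pos]
          have := Finset.card_pos.mpr hne
          rw [hcon, Finset.card_empty] at hcard
          omega
        have := Finset.sum_pos hwB hBne
        linarith
      have hBne : B.Nonempty := by
        by_contra hcon
        rw [Finset.not_nonempty_iff_eq_empty] at hcon
        rw [hcon, Finset.sum_empty] at f0
        have := Finset.sum_pos hwA hAne
        linarith
      have hA1 := Finset.card_pos.mpr hAne
      have hB1 := Finset.card_pos.mpr hBne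
      by_cases hBone : #B = 1
      · obtain ⟨i1, h1, i2, h2, i3, h3, a1, a2, a3, p1, p2, p3, hF⟩ :=
          three_elems hAne (by omega) hwA
        obtain ⟨j, hj⟩ := Finset.card_eq_one.mp hBone
        have hjB : j ∈ B := by rw [hj]; exact Finset.mem_singleton_self j
        rw [hj, Finset.sum_singleton] at f0 fx fy fh
        have g0 := hF (fun _ => 1)
        simp only [mul_one] at g0
        rw [f0] at g0
        rw [hF (fun i => ((P i).x : ℚ))] at fx
        rw [hF (fun i => ((P i).y : ℚ))] at fy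
        rw [hF (fun i => ((P i).h : ℚ))] at fh
        have hpos := hwB j hjB
        have := tq c (hWA i1 h1) (hWA i2 h2) (hWA i3 h3) (hLB j hjB) p1 p2 p3 (by linarith)
          (by rw [← g0]; linarith) (by rw [← g0]; linarith)
        rw [← g0] at this
        linarith
      · by_cases hAone : #A = 1
        · obtain ⟨i1, h1, i2, h2, i3, h3, a1, a2, a3, p1, p2, p3, hF⟩ :=
            three_elems hBne (by omega) hwB
          obtain ⟨j, hj⟩ := Finset.card_eq_one.mp hAone
          have hjA : j ∈ A := by rw [hj]; exact Finset.mem_singleton_self j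
          rw [hj, Finset.sum_singleton] at f0 fx fy fh
          have g0 := hF (fun _ => 1)
          simp only [mul_one] at g0
          rw [← f0] at g0
          rw [hF (fun i => ((P i).x : ℚ))] at fx
          rw [hF (fun i => ((P i).y : ℚ))] at fy
          rw [hF (fun i => ((P i).h : ℚ))] at fh
          have hpos := hwA j hjA
          have := tdq c (hWA j hjA) (hLB i1 h1) (hLB i2 h2) (hLB i3 h3) p1 p2 p3 (by linarith)
            (by rw [← g0]; linarith) (by rw [← g0]; linarith)
          rw [← g0] at this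
          linarith
        · obtain ⟨i, j, hij, hAeq⟩ := Finset.card_eq_two.mp (show #A = 2 by omega)
          obtain ⟨k, l, hkl, hBeq⟩ := Finset.card_eq_two.mp (show #B = 2 by omega)
          have hi : i ∈ A := by rw [hAeq]; simp
          have hj : j ∈ A := by rw [hAeq]; simp
          have hk : k ∈ B := by rw [hBeq]; simp
          have hl : l ∈ B := by rw [hBeq]; simp
          rw [hAeq, hBeq, Finset.sum_pair hij, Finset.sum_pair hkl] at f0 fx fy fh
          have := sq c (hWA i hi) (hWA j hj) (hLB k hk) (hLB l hl) (hwA i hi).le (hwA j hj).le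
            (hwB k hk).le (hwB l hl).le (by
              have h1 := hwA i hi
              have h2 := hwA j hj
              linarith) f0 fx fy
          linarith

end Pool.Agent.Q102.Trade3
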