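import Mathlib

/-!
Complete simple games: desirability, types, shift-minimal winning coalitions, trade robustness.
-/

namespace Pool.Agent.Q102.Trade

open Finset Classical

variable {N : Type*} [Fintype N] [DecidableEq N]

/-- the family of winning coalitions is closed under supersets, the empty coalition loses and the
grand coalition wins -/
def IsSimple (W : Finset N → Prop) : Prop :=
  (∀ S T : Finset N, S ⊆ T → W S → W T) ∧ ¬ W ∅ ∧ W Finset.univ

/-- the game is weighted -/
def Weighted (W : Finset N → Prop) : Prop :=
  ∃ (w : N → ℝ) (q : ℝ), (∀ i, 0 ≤ w i) ∧ ∀ S : Finset N, W S ↔ q ≤ ∑ i ∈ S, w i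

/-- `i` is at least as desirable as `j` -/
def Ge (W : Finset N → Prop) (i j : N) : Prop :=
  ∀ S : Finset N, i ∉ S → j ∉ S → W (insert j S) → W (insert i S)

/-- the desirability relation is total -/
def Complete (W : Finset N → Prop) : Prop := ∀ i j, Ge W i j ∨ Ge W j i

/-- `i` and `j` have the same type -/
def Same (W : Finset N → Prop) (i j : N) : Prop := Ge W i j ∧ Ge W j i

/-- the number of types of players: the number of classes of `Same` -/
noncomputable def numTypes (W : Finset N → Prop) : ℕ :=
  #(Finset.univ.image fun i : N => Finset.univ.filter fun j : N => Same W i j)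

/-- the type vector of a coalition, as a function on players: at `i` it is the number of members
of `S` that have the type of `i` -/
noncomputable def typeVec (W : Finset N → Prop) (S : Finset N) : N → ℕ :=
  fun i => #(S.filter fun j => Same W i j)

/-- the number of members of `S` that are at least as desirable as `i` (a partial sum of the type
vector) -/
noncomputable def upCount (W : Finset N → Prop) (S : Finset N) (i : N) : ℕ :=
  #(S.filter fun j => Ge W j i)

/-- `S` dominates `T`: all partial sums of the type vector of `S` are at least those of `T` -/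
def Dom (W : Finset N → Prop) (S T : Finset N) : Prop := ∀ i, upCount W T i ≤ upCount W S i

/-- shift-minimal winning coalitions -/
def ShiftMin (W : Finset N → Prop) (S : Finset N) : Prop :=
  W S ∧ ∀ T, Dom W S T → typeVec W T ≠ typeVec W S → ¬ W T

/-- the number of type vectors of shift-minimal winning coalitions -/
noncomputable def numShiftMin (W : Finset N → Prop) : ℕ :=
  #((Finset.univ.filter fun S : Finset N => ShiftMin W S).image (typeVec W))

/-- every player lies in as many `X i` as `Y i` -/
def IsTrade {j : ℕ} (X Y : Fin j → Finset N) : Prop :=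
  ∀ p, #{i | p ∈ X i} = #{i | p ∈ Y i}

/-- `m`-trade robustness -/
def TradeRobust (m : ℕ) (W : Finset N → Prop) : Prop :=
  ∀ j, 1 ≤ j → j ≤ m → ∀ X Y : Fin j → Finset N, IsTrade X Y → (∀ i, W (X i)) → ∃ i, W (Y i)

/-- `m`-invariant trade robustness -/
def InvTradeRobust (m : ℕ) (W : Finset N → Prop) : Prop :=
  ∀ j, 1 ≤ j → j ≤ m → ∀ X Y : Fin j → Finset N, IsTrade X Y → (∀ i, ShiftMin W (X i)) →
    ∃ i, W (Y i)

theorem Ge.refl (W : Finset N → Prop) (i : N) : Ge W i i := fun _ _ _ h => h

theorem Ge.trans {W : Finset N → Prop} {i j k : N} (h1 : Ge W i j) (h2 : Ge W j k) :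
    Ge W i k := by
  intro S hi hk hW
  by_cases hj : j ∈ S
  · by_cases hij : i = j
    · subst hij; exact absurd hj hi
    by_cases hjk : j = k
    · subst hjk; exact absurd hj hk
    by_cases hik : i = k
    · subst hik; exact hW
    have e1 : insert k S = insert j (insert k (S.erase j)) := by
      rw [Finset.insert_comm, Finset.insert_erase hj]
    rw [e1] at hW
    have h3 := h1 (insert k (S.erase j)) (by
      rw [Finset.mem_insert, Finset.mem_erase]; tauto) (by
      rw [Finset.mem_insert, Finset.mem_erase]; tauto) hW
    rw [Finset.insert_comm] at h3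
    have h4 := h2 (insert i (S.erase j)) (by
      rw [Finset.mem_insert, Finset.mem_erase]
      rintro (h | h)
      · exact hij h.symm
      · exact h.1 rfl) (by
      rw [Finset.mem_insert, Finset.mem_erase]
      rintro (h | h)
      · exact hik h.symm
      · exact hk h.2) h3
    rwa [Finset.insert_comm, Finset.insert_erase hj] at h4
  · exact h1 S hi hj (h2 S hj hk hW)

theorem Same.refl (W : Finset N → Prop) (i : N) : Same W i i := ⟨Ge.refl W i, Ge.refl W i⟩

theorem Same.symm {W : Finset N → Prop} {i j : N} (h : Same W i j) : Same W j i := ⟨h.2, h.1⟩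

theorem Same.trans {W : Finset N → Prop} {i j k : N} (h1 : Same W i j) (h2 : Same W j k) :
    Same W i k := ⟨h1.1.trans h2.1, h2.2.trans h1.2⟩

theorem exists_least {W : Finset N → Prop} (hc : Complete W) {S : Finset N} (hS : S.Nonempty) :
    ∃ p ∈ S, ∀ q ∈ S, Ge W q p := by
  induction S using Finset.induction_on with
  | empty => exact absurd hS (by simp)
  | insert a S ha ih =>
    by_cases h : S.Nonempty
    · obtain ⟨p, hp, hq⟩ := ih h
      rcases hc a p with h1 | h1
      · refine ⟨p, Finset.mem_insert_of_mem hp, ?_⟩
        intro q hq'
        rcases Finset.mem_insert.mp hq' with rfl | hq'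
        · exact h1
        · exact hq q hq'
      · refine ⟨a, Finset.mem_insert_self _ _, ?_⟩
        intro q hq'
        rcases Finset.mem_insert.mp hq' with rfl | hq'
        · exact Ge.refl W q
        · exact (hq q hq').trans h1
    · rw [Finset.not_nonempty_iff_eq_empty] at h
      subst h
      exact ⟨a, Finset.mem_insert_self _ _, by
        intro q hq
        rw [Finset.mem_insert] at hq
        rcases hq with rfl | hq
        · exact Ge.refl W q
        · simp at hq⟩

end Pool.Agent.Q102.Trade
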