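import Mathlib
import Pool.Agent.Q102.TradeBasic

/-!
Complete simple games given by the number of members of each type and a list of shift-minimal
winning vectors.
-/

namespace Pool.Agent.Q102.Trade

open Finset Classical

variable {t : ℕ} {n : Fin t → ℕ}

/-- players: `n k` players of type `k` -/
abbrev Pl {t : ℕ} (n : Fin t → ℕ) := Σ k : Fin t, Fin (n k)

/-- embedding of a type class -/
def emb (n : Fin t → ℕ) (k : Fin t) : Fin (n k) ↪ Pl n :=
  ⟨fun a => ⟨k, a⟩, fun _ _ h => eq_of_heq (Sigma.mk.inj_iff.mp h).2⟩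

/-- number of members of `S` of type `k` -/
noncomputable def cnt (S : Finset (Pl n)) (k : Fin t) : ℕ := #(S.filter fun x => x.1 = k)

/-- partial sums -/
def psum (c : Fin t → ℕ) (k : Fin t) : ℕ := ∑ i ∈ Finset.univ.filter (· ≤ k), c i

/-- dominance of vectors -/
def DomV (c c' : Fin t → ℕ) : Prop := ∀ k, psum c' k ≤ psum c k

/-- the game with shift-minimal winning vectors `R` -/
def rgame (n : Fin t → ℕ) (R : Finset (Fin t → ℕ)) (S : Finset (Pl n)) : Prop :=
  ∃ r ∈ R, DomV (cnt S) r

theorem DomV.refl (c : Fin t → ℕ) : DomV c c := fun _ => le_rfl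

theorem DomV.trans {a b c : Fin t → ℕ} (h1 : DomV a b) (h2 : DomV b c) : DomV a c :=
  fun k => (h2 k).trans (h1 k)

theorem psum_eq_of {c : Fin t → ℕ} (k : Fin t) :
    psum c k = (∑ i ∈ Finset.univ.filter (· < k), c i) + c k := by
  unfold psum
  have : (Finset.univ.filter fun i : Fin t => i ≤ k) =
      insert k (Finset.univ.filter fun i : Fin t => i < k) := by
    ext i; simp [le_iff_lt_or_eq, or_comm]
  rw [this, Finset.sum_insert (by simp), add_comm]

theorem DomV.antisymm {a b : Fin t → ℕ} (h1 : DomV a b) (h2 : DomV b a) : a = b := by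
  have h : ∀ k, psum a k = psum b k := fun k => le_antisymm (h2 k) (h1 k)
  funext k
  induction hk : k.val using Nat.strong_induction_on generalizing k with
  | _ m ih =>
    have h3 := h k
    rw [psum_eq_of, psum_eq_of] at h3
    have h4 : ∑ i ∈ Finset.univ.filter (· < k), a i = ∑ i ∈ Finset.univ.filter (· < k), b i := by
      apply Finset.sum_congr rfl
      intro i hi
      rw [Finset.mem_filter] at hi
      exact ih i.val (by rw [← hk]; exact hi.2) i rfl
    omega

theorem cnt_le (S : Finset (Pl n)) (k : Fin t) : cnt S k ≤ n k := by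
  unfold cnt
  have : S.filter (fun x => x.1 = k) ⊆
      (Finset.univ : Finset (Fin (n k))).map (emb n k) := by
    rintro ⟨k', a⟩ hx
    rw [Finset.mem_filter] at hx
    obtain ⟨-, rfl⟩ := hx
    exact Finset.mem_map.mpr ⟨a, Finset.mem_univ _, rfl⟩
  refine (Finset.card_le_card this).trans ?_
  rw [Finset.card_map, Finset.card_univ, Fintype.card_fin]

theorem cnt_insert {S : Finset (Pl n)} {x : Pl n} (hx : x ∉ S) (k : Fin t) :
    cnt (insert x S) k = cnt S k + if x.1 = k then 1 else 0 := by
  unfold cnt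
  rw [Finset.filter_insert]
  split_ifs with h
  · rw [Finset.card_insert_of_notMem (by simp [hx])]
  · simp

theorem cnt_mono {S T : Finset (Pl n)} (h : S ⊆ T) (k : Fin t) : cnt S k ≤ cnt T k :=
  Finset.card_le_card (Finset.filter_subset_filter _ h)

theorem psum_mono {c c' : Fin t → ℕ} (h : ∀ k, c k ≤ c' k) : DomV c' c :=
  fun _ => Finset.sum_le_sum fun i _ => h i

/-- a coalition with given counts -/
noncomputable def real (c : Fin t → ℕ) : Finset (Pl n) :=
  Finset.univ.filter fun x => x.2.val < c x.1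

theorem cnt_real {c : Fin t → ℕ} (hc : ∀ k, c k ≤ n k) : cnt (real c : Finset (Pl n)) = c := by
  funext k
  unfold cnt real
  rw [Finset.filter_filter]
  have : (Finset.univ.filter fun x : Pl n => x.2.val < c x.1 ∧ x.1 = k) =
      (Finset.univ.filter fun a : Fin (n k) => a.val < c k).map
        (emb n k) := by
    ext ⟨k', a⟩
    simp only [Finset.mem_filter, Finset.mem_univ, true_and, Finset.mem_map,
      emb, Function.Embedding.coeFn_mk]
    constructor
    · rintro ⟨h1, h2⟩
      subst h2
      exact ⟨a, h1, rfl⟩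
    · rintro ⟨a', h1, h2⟩
      obtain ⟨rfl, h3⟩ := Sigma.mk.inj_iff.mp h2
      have := eq_of_heq h3
      subst this
      exact ⟨h1, rfl⟩
  rw [this, Finset.card_map]
  have h2 := hc k
  rw [Fin.card_filter_val_lt]
  omega

theorem psum_cnt_insert {S : Finset (Pl n)} {x : Pl n} (hx : x ∉ S) (k : Fin t) :
    psum (cnt (insert x S)) k = psum (cnt S) k + if x.1 ≤ k then 1 else 0 := by
  unfold psum
  simp_rw [cnt_insert hx]
  rw [Finset.sum_add_distrib, Finset.sum_ite_eq]
  simp

section rows

variable {R : Finset (Fin t → ℕ)}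

theorem rgame_mono {S T : Finset (Pl n)} (h : DomV (cnt T) (cnt S)) (hS : rgame n R S) :
    rgame n R T := by
  obtain ⟨r, hr, hd⟩ := hS
  exact ⟨r, hr, h.trans hd⟩

theorem ge_of_le {x y : Pl n} (h : x.1 ≤ y.1) : Ge (rgame n R) x y := by
  intro S hx hy hwin
  refine rgame_mono ?_ hwin
  intro k
  rw [psum_cnt_insert hx, psum_cnt_insert hy]
  split_ifs with h1 h2
  · omega
  · exact absurd (h.trans h1) h2
  · omega
  · omega

/-- two consecutive types differ -/
def Distinct (n : Fin t → ℕ) (R : Finset (Fin t → ℕ)) : Prop :=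
  ∀ k l : Fin t, l.val = k.val + 1 → ∃ c : Fin t → ℕ, (∀ i, c i ≤ n i) ∧ 1 ≤ c k ∧ c l < n l ∧
    (∃ r ∈ R, DomV c r) ∧
    ∀ r ∈ R, ¬ DomV (fun i => if i = k then c i - 1 else if i = l then c i + 1 else c i) r

theorem not_ge_succ (hd : Distinct n R) {x y : Pl n} (h : y.1.val = x.1.val + 1) :
    ¬ Ge (rgame n R) y x := by
  intro hge
  obtain ⟨k, a⟩ := x
  obtain ⟨l, b⟩ := y
  dsimp only at h
  have hkl : k ≠ l := by rintro rfl; omega
  obtain ⟨c, hc, hck, hcl, hwin, hlose⟩ := hd k l h
  -- a coalition with counts `c - e_k`, missing `⟨k, a⟩` and `⟨l, b⟩`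
  obtain ⟨S, hS1, hS2, hS3⟩ : ∃ S : Finset (Pl n), (⟨k, a⟩ : Pl n) ∉ S ∧ (⟨l, b⟩ : Pl n) ∉ S ∧
      cnt S = fun i => if i = k then c i - 1 else c i := by
    have hs : ∀ (m j : ℕ) (a : Fin m), j < m → ∃ A : Finset (Fin m), a ∉ A ∧ #A = j := by
      intro m j a hj
      have h1 : j ≤ #((Finset.univ : Finset (Fin m)).erase a) := by
        rw [Finset.card_erase_of_mem (Finset.mem_univ _), Finset.card_univ, Fintype.card_fin]
        omega
      obtain ⟨A, hA, hcard⟩ := Finset.exists_subset_card_eq h1
      exact ⟨A, fun h => absurd (hA h) (by simp), hcard⟩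
    obtain ⟨A, hA1, hA2⟩ := hs (n k) (c k - 1) a (by have := hc k; omega)
    obtain ⟨B, hB1, hB2⟩ := hs (n l) (c l) b hcl
    have hex : ∀ i : Fin t, ∃ C : Finset (Fin (n i)),
        #C = (if i = k then c i - 1 else c i) ∧
        (∀ e : i = k, (e ▸ a : Fin (n i)) ∉ C) ∧ (∀ e : i = l, (e ▸ b : Fin (n i)) ∉ C) := by
      intro i
      by_cases hik : i = k
      · subst hik
        exact ⟨A, by rw [if_pos rfl, hA2], fun _ => hA1, fun e => absurd e hkl⟩
      · by_cases hil : i = l
        · subst hil
          exact ⟨B, by rw [if_neg hik, hB2], fun e => absurd e hik, fun _ => hB1⟩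
        · have h1 : c i ≤ #(Finset.univ : Finset (Fin (n i))) := by
            rw [Finset.card_univ, Fintype.card_fin]; exact hc i
          obtain ⟨C, -, hC⟩ := Finset.exists_subset_card_eq h1
          exact ⟨C, by rw [if_neg hik, hC], fun e => absurd e hik, fun e => absurd e hil⟩
    choose C hC1 hC2 hC3 using hex
    refine ⟨Finset.univ.filter fun x => x.2 ∈ C x.1, ?_, ?_, ?_⟩
    · simpa using hC2 k rfl
    · simpa using hC3 l rfl
    · funext i
      rw [← hC1 i]
      unfold cnt
      rw [Finset.filter_filter, ← Finset.card_map (emb n i)]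
      congr 1
      ext ⟨k', a'⟩
      simp only [Finset.mem_filter, Finset.mem_univ, true_and, Finset.mem_map,
        emb, Function.Embedding.coeFn_mk]
      constructor
      · rintro ⟨h1, h2⟩
        subst h2
        exact ⟨a', h1, rfl⟩
      · rintro ⟨a'', h1, h2⟩
        obtain ⟨rfl, h3⟩ := Sigma.mk.inj_iff.mp h2
        have := eq_of_heq h3
        subst this
        exact ⟨h1, rfl⟩
  have h1 := hge S hS2 hS1 (by
    obtain ⟨r, hr, hdom⟩ := hwin
    refine ⟨r, hr, ?_⟩
    have : cnt (insert (⟨k, a⟩ : Pl n) S) = c := by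
      funext i
      rw [cnt_insert hS1, hS3]
      dsimp only
      by_cases hik : i = k
      · subst hik; simp; omega
      · rw [if_neg hik, if_neg (fun e => hik e.symm), add_zero]
    rwa [this])
  obtain ⟨r, hr, hdom⟩ := h1
  apply hlose r hr
  have : cnt (insert (⟨l, b⟩ : Pl n) S) =
      fun i => if i = k then c i - 1 else if i = l then c i + 1 else c i := by
    funext i
    rw [cnt_insert hS2, hS3]
    dsimp only
    by_cases hik : i = k
    · subst hik; simp [hkl.symm]
    · by_cases hil : i = l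
      · subst hil; simp [hik]
      · have hli : ¬ l = i := fun e => hil e.symm
        simp [hik, hil, hli]
  rwa [this] at hdom

variable (hn : ∀ k, 1 ≤ n k) (hd : Distinct n R)

include hn hd in
theorem ge_iff {x y : Pl n} : Ge (rgame n R) x y ↔ x.1 ≤ y.1 := by
  constructor
  · intro h
    by_contra hlt
    rw [not_le] at hlt
    have hlt' : y.1.val < x.1.val := hlt
    have hb : y.1.val + 1 < t := by have := x.1.isLt; omega
    let z : Pl n := ⟨⟨y.1.val + 1, hb⟩, ⟨0, hn _⟩⟩
    have h1 : Ge (rgame n R) z x := ge_of_le (by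
      rw [Fin.le_def]
      show y.1.val + 1 ≤ x.1.val
      omega)
    exact not_ge_succ hd (x := y) (y := z) rfl (h1.trans h)
  · exact ge_of_le

include hn hd in
theorem same_iff {x y : Pl n} : Same (rgame n R) x y ↔ x.1 = y.1 := by
  unfold Same
  rw [ge_iff hn hd, ge_iff hn hd]
  exact ⟨fun h => le_antisymm h.1 h.2, fun h => ⟨h.le, h.ge⟩⟩

theorem rgame_complete : Complete (rgame n R) := by
  intro x y
  rcases le_total x.1 y.1 with h | h
  · exact Or.inl (ge_of_le h)
  · exact Or.inr (ge_of_le h)

include hn hd in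
theorem rgame_numTypes : numTypes (rgame n R) = t := by
  unfold numTypes
  have : (Finset.univ.image fun i : Pl n =>
      Finset.univ.filter fun j : Pl n => Same (rgame n R) i j) =
      Finset.univ.image fun k : Fin t => Finset.univ.filter fun j : Pl n => k = j.1 := by
    ext S
    simp only [Finset.mem_image, Finset.mem_univ, true_and]
    constructor
    · rintro ⟨i, rfl⟩
      refine ⟨i.1, ?_⟩
      ext j
      simp [same_iff hn hd]
    · rintro ⟨k, rfl⟩
      refine ⟨⟨k, ⟨0, hn k⟩⟩, ?_⟩
      ext j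
      simp [same_iff hn hd]
  rw [this, Finset.card_image_of_injective, Finset.card_univ, Fintype.card_fin]
  intro k k' h
  have : (⟨k, ⟨0, hn k⟩⟩ : Pl n) ∈ Finset.univ.filter fun j : Pl n => k' = j.1 := by
    dsimp only at h
    rw [← h]; simp
  rw [Finset.mem_filter] at this
  exact this.2.symm

include hn hd in
theorem typeVec_eq (S : Finset (Pl n)) (x : Pl n) : typeVec (rgame n R) S x = cnt S x.1 := by
  unfold typeVec cnt
  congr 1
  ext j
  simp [same_iff hn hd, eq_comm]

include hn hd in
theorem upCount_eq (S : Finset (Pl n)) (x : Pl n) :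
    upCount (rgame n R) S x = psum (cnt S) x.1 := by
  unfold upCount psum cnt
  rw [← Finset.card_biUnion]
  · congr 1
    ext j
    simp [ge_iff hn hd, and_comm]
  · intro a _ b _ hab
    rw [Function.onFun, Finset.disjoint_left]
    intro j h1 h2
    rw [Finset.mem_filter] at h1 h2
    exact hab (h1.2.symm.trans h2.2)

include hn hd in
theorem dom_iff {S T : Finset (Pl n)} : Dom (rgame n R) S T ↔ DomV (cnt S) (cnt T) := by
  constructor
  · intro h k
    have := h ⟨k, ⟨0, hn k⟩⟩
    rwa [upCount_eq hn hd, upCount_eq hn hd] at this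
  · intro h x
    rw [upCount_eq hn hd, upCount_eq hn hd]
    exact h x.1

include hn hd in
theorem typeVec_eq_iff {S T : Finset (Pl n)} :
    typeVec (rgame n R) S = typeVec (rgame n R) T ↔ cnt S = cnt T := by
  constructor
  · intro h
    funext k
    have := congrFun h ⟨k, ⟨0, hn k⟩⟩
    rwa [typeVec_eq hn hd, typeVec_eq hn hd] at this
  · intro h
    funext x
    rw [typeVec_eq hn hd, typeVec_eq hn hd, h]

variable (hbox : ∀ r ∈ R, ∀ k, r k ≤ n k) (hanti : ∀ r ∈ R, ∀ r' ∈ R, DomV r r' → r = r')

include hn hd hbox hanti in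
theorem shiftMin_iff {S : Finset (Pl n)} : ShiftMin (rgame n R) S ↔ cnt S ∈ R := by
  constructor
  · rintro ⟨⟨r, hr, hdom⟩, hmin⟩
    by_contra hS
    refine hmin (real r) ?_ ?_ ?_
    · rw [dom_iff hn hd, cnt_real (hbox r hr)]; exact hdom
    · rw [Ne, typeVec_eq_iff hn hd, cnt_real (hbox r hr)]
      rintro rfl
      exact hS hr
    · exact ⟨r, hr, by rw [cnt_real (hbox r hr)]; exact DomV.refl r⟩
  · intro hS
    refine ⟨⟨_, hS, DomV.refl _⟩, ?_⟩
    rintro T hT hne ⟨r, hr, hdom⟩
    rw [dom_iff hn hd] at hT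
    rw [Ne, typeVec_eq_iff hn hd] at hne
    have h1 := hanti _ hS _ hr (hT.trans hdom)
    apply hne
    rw [← h1] at hdom
    exact hdom.antisymm hT

include hn hd hbox hanti in
theorem rgame_numShiftMin : numShiftMin (rgame n R) = #R := by
  unfold numShiftMin
  have : ((Finset.univ.filter fun S : Finset (Pl n) => ShiftMin (rgame n R) S).image
      (typeVec (rgame n R))) = R.image fun r => fun x : Pl n => r x.1 := by
    ext v
    simp only [Finset.mem_image, Finset.mem_filter, Finset.mem_univ, true_and]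
    constructor
    · rintro ⟨S, hS, rfl⟩
      rw [shiftMin_iff hn hd hbox hanti] at hS
      refine ⟨_, hS, ?_⟩
      funext x
      rw [typeVec_eq hn hd]
    · rintro ⟨r, hr, rfl⟩
      refine ⟨real r, ?_, ?_⟩
      · rw [shiftMin_iff hn hd hbox hanti, cnt_real (hbox r hr)]; exact hr
      · funext x
        rw [typeVec_eq hn hd, cnt_real (hbox r hr)]
  rw [this, Finset.card_image_of_injective]
  intro r r' h
  funext k
  exact congrFun h ⟨k, ⟨0, hn k⟩⟩

include hbox in
theorem rgame_simple (hne : R.Nonempty) (h0 : (fun _ => 0) ∉ R) : IsSimple (rgame n R) := by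
  refine ⟨fun S T h => rgame_mono (psum_mono (cnt_mono h)), ?_, ?_⟩
  · rintro ⟨r, hr, hdom⟩
    apply h0
    have : r = fun _ => 0 := by
      apply DomV.antisymm (psum_mono fun k => Nat.zero_le _)
      have h1 : cnt (∅ : Finset (Pl n)) = fun _ => 0 := by funext k; simp [cnt]
      rwa [h1] at hdom
    rwa [← this]
  · obtain ⟨r, hr⟩ := hne
    refine ⟨r, hr, psum_mono ?_⟩
    intro k
    have h1 : cnt (real n : Finset (Pl n)) = n := cnt_real fun k => le_rfl
    calc r k ≤ n k := hbox r hr k
      _ = cnt (real n : Finset (Pl n)) k := by rw [h1]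
      _ ≤ _ := cnt_mono (Finset.subset_univ _) k

end rows

theorem sum_cnt {j : ℕ} (X : Fin j → Finset (Pl n)) (k : Fin t) :
    ∑ i, cnt (X i) k = ∑ a : Fin (n k), #{i | (⟨k, a⟩ : Pl n) ∈ X i} := by
  have : ∀ i, cnt (X i) k = ∑ a : Fin (n k), if (⟨k, a⟩ : Pl n) ∈ X i then 1 else 0 := by
    intro i
    rw [← Finset.card_filter]
    unfold cnt
    rw [← Finset.card_map (emb n k)]
    congr 1
    ext ⟨k', a'⟩
    simp only [Finset.mem_filter, Finset.mem_univ, true_and, Finset.mem_map,
      emb, Function.Embedding.coeFn_mk]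
    constructor
    · rintro ⟨h1, h2⟩
      subst h2
      exact ⟨a', h1, rfl⟩
    · rintro ⟨a'', h1, h2⟩
      obtain ⟨rfl, h3⟩ := Sigma.mk.inj_iff.mp h2
      have := eq_of_heq h3
      subst this
      exact ⟨h1, rfl⟩
  simp_rw [this, Finset.card_filter]
  rw [Finset.sum_comm]

theorem trade_cnt {j : ℕ} {X Y : Fin j → Finset (Pl n)} (h : IsTrade X Y) (k : Fin t) :
    ∑ i, cnt (X i) k = ∑ i, cnt (Y i) k := by
  rw [sum_cnt, sum_cnt]
  exact Finset.sum_congr rfl fun a _ => h _

/-- how often the residue `x` occurs below `s` -/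
noncomputable def occ (m s x : ℕ) : ℕ := #((Finset.range s).filter fun r => r % m = x)

theorem exists_block {m : ℕ} (hm : 0 < m) (s c : ℕ) (hc : c ≤ m) : ∃ C : Finset (Fin m),
    #C = c ∧ ∀ x : Fin m, occ m (s + c) x = occ m s x + if x ∈ C then 1 else 0 := by
  induction c with
  | zero => exact ⟨∅, by simp, by intro x; simp⟩
  | succ c ih =>
    obtain ⟨C, hC, hocc⟩ := ih (by omega)
    let y : Fin m := ⟨(s + c) % m, Nat.mod_lt _ hm⟩
    have hstep : ∀ x : Fin m, occ m (s + (c + 1)) x = occ m (s + c) x + if x = y then 1 else 0 := by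
      intro x
      unfold occ
      rw [← add_assoc, Finset.range_add_one, Finset.filter_insert]
      by_cases h : x = y
      · subst h
        rw [if_pos rfl, if_pos rfl, Finset.card_insert_of_notMem (by simp)]
      · rw [if_neg h, if_neg (fun e => h (Fin.ext e.symm))]
        rfl
    have hy : y ∉ C := by
      intro hy
      -- `y` would occur twice in a window of length at most `m`
      have h1 := hocc y
      rw [if_pos hy] at h1
      have h2 : occ m (s + c) y = occ m s y := by
        unfold occ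
        congr 1
        ext r
        rw [Finset.mem_filter, Finset.mem_filter, Finset.mem_range, Finset.mem_range]
        constructor
        · rintro ⟨h3, h4⟩
          refine ⟨?_, h4⟩
          by_contra h5
          push Not at h5
          have h6 : r % m = (s + c) % m := h4
          have h7 : (s + c) - r < m := by omega
          have h8 : ((s + c) - r) % m = 0 := by
            have := (Nat.modEq_iff_dvd' (show r ≤ s + c by omega)).mp (h6 : r ≡ s + c [MOD m])
            exact Nat.mod_eq_zero_of_dvd this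
          rw [Nat.mod_eq_of_lt h7] at h8
          omega
        · rintro ⟨h3, h4⟩
          exact ⟨by omega, h4⟩
      omega
    refine ⟨insert y C, by rw [Finset.card_insert_of_notMem hy, hC], ?_⟩
    intro x
    rw [hstep, hocc]
    by_cases h : x = y
    · subst h; simp [hy]
    · simp [h]

theorem exists_family (m : ℕ) : ∀ (j : ℕ) (c : Fin j → ℕ), (∀ i, c i ≤ m) →
    ∃ C : Fin j → Finset (Fin m), (∀ i, #(C i) = c i) ∧
      ∀ x : Fin m, #{i | x ∈ C i} = occ m (∑ i, c i) x := by
  rcases Nat.eq_zero_or_pos m with rfl | hm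
  · intro j c hc
    exact ⟨fun _ => ∅, fun i => by have := hc i; simp; omega, fun x => x.elim0⟩
  intro j
  induction j with
  | zero => intro c _; exact ⟨fun i => i.elim0, fun i => i.elim0, fun x => by simp [occ]⟩
  | succ j ih =>
    intro c hc
    obtain ⟨C, hC1, hC2⟩ := ih (fun i => c i.castSucc) (fun i => hc _)
    obtain ⟨D, hD1, hD2⟩ := exists_block hm (∑ i : Fin j, c i.castSucc) (c (Fin.last j)) (hc _)
    refine ⟨Fin.snoc C D, ?_, ?_⟩
    · intro i
      refine Fin.lastCases ?_ (fun i => ?_) i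
      · rw [Fin.snoc_last]; exact hD1
      · rw [Fin.snoc_castSucc]; exact hC1 i
    · intro x
      rw [Fin.sum_univ_castSucc, hD2, ← hC2, Finset.card_filter, Fin.sum_univ_castSucc,
        Finset.card_filter]
      simp only [Fin.snoc_last, Fin.snoc_castSucc]

/-- realize trades of vectors -/
theorem exists_trade {j : ℕ} (c d : Fin j → Fin t → ℕ) (hc : ∀ i k, c i k ≤ n k)
    (hd : ∀ i k, d i k ≤ n k) (hsum : ∀ k, ∑ i, c i k = ∑ i, d i k) :
    ∃ X Y : Fin j → Finset (Pl n), IsTrade X Y ∧ (∀ i, cnt (X i) = c i) ∧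
      ∀ i, cnt (Y i) = d i := by
  have key : ∀ c : Fin j → Fin t → ℕ, (∀ i k, c i k ≤ n k) →
      ∃ X : Fin j → Finset (Pl n), (∀ i, cnt (X i) = c i) ∧
        ∀ x : Pl n, #{i | x ∈ X i} = occ (n x.1) (∑ i, c i x.1) x.2 := by
    intro c hc
    have hex := fun k => exists_family (n k) j (fun i => c i k) (fun i => hc i k)
    choose C hC1 hC2 using hex
    refine ⟨fun i => Finset.univ.filter fun x => x.2 ∈ C x.1 i, ?_, ?_⟩
    · intro i
      funext k
      rw [← hC1 k i]
      unfold cnt
      rw [Finset.filter_filter, ← Finset.card_map (emb n k)]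
      congr 1
      ext ⟨k', a'⟩
      simp only [Finset.mem_filter, Finset.mem_univ, true_and, Finset.mem_map,
        emb, Function.Embedding.coeFn_mk]
      constructor
      · rintro ⟨h1, h2⟩
        subst h2
        exact ⟨a', h1, rfl⟩
      · rintro ⟨a'', h1, h2⟩
        obtain ⟨rfl, h3⟩ := Sigma.mk.inj_iff.mp h2
        have := eq_of_heq h3
        subst this
        exact ⟨h1, rfl⟩
    · intro x
      rw [← hC2]
      simp
  obtain ⟨X, hX1, hX2⟩ := key c hc
  obtain ⟨Y, hY1, hY2⟩ := key d hd
  refine ⟨X, Y, ?_, hX1, hY1⟩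
  intro x
  rw [hX2, hY2, hsum]

end Pool.Agent.Q102.Trade
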