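import Mathlib
import Pool.Agent.Q102.TradeBasic
import Pool.Agent.Results.MP_96963f_co.SharpExponent

/-!
A simple game that is not weighted has a trade; coalitions with the same type vector are
simultaneously winning.
-/

namespace Pool.Agent.Q102.Trade

open Finset Classical

variable {N : Type*} [Fintype N] [DecidableEq N]

theorem weighted_of_real {W : Finset N → Prop} (hW : IsSimple W) {w : N → ℝ} {q : ℝ}
    (h : ∀ S : Finset N, W S ↔ q ≤ ∑ i ∈ S, w i) : Weighted W := by
  refine ⟨fun i => max (w i) 0, q, fun i => le_max_right _ _, ?_⟩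
  intro S
  constructor
  · intro hS
    exact ((h S).mp hS).trans (Finset.sum_le_sum fun i _ => le_max_left _ _)
  · intro hS
    have h1 : ∑ i ∈ S, max (w i) 0 = ∑ i ∈ S.filter (fun i => 0 ≤ w i), w i := by
      rw [Finset.sum_filter]
      apply Finset.sum_congr rfl
      intro i _
      split_ifs with h2
      · exact max_eq_left h2
      · exact max_eq_right (by linarith)
    rw [h1] at hS
    exact hW.1 _ _ (Finset.filter_subset _ _) ((h _).mpr hS)

theorem exists_trade_of_not_weighted {W : Finset N → Prop} (hW : IsSimple W)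
    (h : ¬ Weighted W) : ∃ k, 1 ≤ k ∧ ∃ X Y : Fin k → Finset N, IsTrade X Y ∧ (∀ i, W (X i)) ∧
      ∀ i, ¬ W (Y i) := by
  let n := Fintype.card N
  let e : N ≃ Fin n := Fintype.equivFin N
  let S : (Fin n → Bool) → Finset N := fun x => Finset.univ.filter fun p => x (e p) = true
  let f : (Fin n → Bool) → Bool := fun x => decide (W (S x))
  have hf : ∀ x, f x = true ↔ W (S x) := fun x => decide_eq_true_iff
  have hf' : ∀ x, f x = false ↔ ¬ W (S x) := fun x => decide_eq_false_iff_not
  have hmono : Monotone f := by
    intro x y hxy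
    by_cases hx : f x = true
    · have : f y = true := by
        rw [hf] at hx ⊢
        refine hW.1 _ _ ?_ hx
        intro p hp
        rw [Finset.mem_filter] at hp ⊢
        refine ⟨hp.1, ?_⟩
        have := hxy (e p)
        rw [hp.2] at this
        exact top_le_iff.mp this
      rw [hx, this]
    · rw [Bool.not_eq_true] at hx
      rw [hx]
      exact Bool.false_le _
  have hcert := Pool.Agent.Results.MP_96963f_co.SharpExponent.certifies_upper n f hmono
  have hnot : ¬ Pool.Agent.Results.MP_96963f_co.SharpExponent.IsThreshold f := by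
    rintro ⟨w, q, hw⟩
    apply h
    apply weighted_of_real hW (w := fun p => w (e p)) (q := q)
    intro T
    let χ : Fin n → Bool := fun i => decide (e.symm i ∈ T)
    have h1 : W (S χ) ↔ q ≤ ∑ i, w i * ((χ i).toNat : ℝ) := (hf χ).symm.trans (hw χ)
    have h2 : S χ = T := by
      ext p
      simp [S, χ]
    rw [h2] at h1
    rw [h1]
    have h3 : ∑ i, w i * ((χ i).toNat : ℝ) = ∑ p ∈ T, w (e p) := by
      rw [← Equiv.sum_comp e]
      simp only [χ, Equiv.symm_apply_apply]
      rw [← Finset.sum_filter_add_sum_filter_not Finset.univ (fun p => p ∈ T)]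
      rw [Finset.sum_eq_zero (s := Finset.univ.filter fun p => ¬ p ∈ T)]
      · rw [add_zero]
        have : (Finset.univ.filter fun p => p ∈ T) = T := by ext p; simp
        rw [this]
        apply Finset.sum_congr rfl
        intro p hp
        simp [hp]
      · intro p hp
        rw [Finset.mem_filter] at hp
        simp [hp.2]
    rw [h3]
  have hna : ¬ Pool.Agent.Results.MP_96963f_co.SharpExponent.Asummable
      (Nat.sqrt ((n + 2) ^ (n + 4))) f := fun ha => hnot (hcert ha)
  unfold Pool.Agent.Results.MP_96963f_co.SharpExponent.Asummable at hna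
  push Not at hna
  obtain ⟨k, hk, -, x, y, hx, hy, hs⟩ := hna
  refine ⟨k, hk, fun i => S (x i), fun i => S (y i), ?_, fun i => (hf _).mp (hx i),
    fun i => (hf' _).mp (hy i)⟩
  intro p
  have hc : ∀ z : Fin k → Fin n → Bool, #{i | p ∈ S (z i)} = ∑ j, (z j (e p)).toNat := by
    intro z
    rw [Finset.card_filter]
    apply Finset.sum_congr rfl
    intro j _
    by_cases h : z j (e p) = true
    · simp [S, h]
    · simp [S, h]
  rw [hc, hc]
  exact hs (e p)

theorem win_of_typeVec {W : Finset N → Prop} (hW : IsSimple W) (m : ℕ) : ∀ S T : Finset N,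
    #(S \ T) = m → typeVec W S = typeVec W T → W S → W T := by
  induction m with
  | zero =>
    intro S T h _ hS
    rw [Finset.card_eq_zero, Finset.sdiff_eq_empty_iff_subset] at h
    exact hW.1 _ _ h hS
  | succ m ih =>
    intro S T h htv hS
    obtain ⟨x, hx⟩ : (S \ T).Nonempty := by rw [← Finset.card_pos]; omega
    rw [Finset.mem_sdiff] at hx
    obtain ⟨y, hyT, hyS, hxy⟩ : ∃ y ∈ T, y ∉ S ∧ Same W x y := by
      by_contra hcon
      push Not at hcon
      have hsub : T.filter (fun j => Same W x j) ⊆ (S.filter fun j => Same W x j).erase x := by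
        intro j hj
        rw [Finset.mem_filter] at hj
        rw [Finset.mem_erase, Finset.mem_filter]
        have hjS : j ∈ S := by
          by_contra hjS
          exact hcon j hj.1 hjS hj.2
        refine ⟨?_, hjS, hj.2⟩
        rintro rfl
        exact hx.2 hj.1
      have h1 := Finset.card_le_card hsub
      have h2 := congrFun htv x
      unfold typeVec at h2
      have hxm : x ∈ S.filter fun j => Same W x j :=
        Finset.mem_filter.mpr ⟨hx.1, Same.refl W x⟩
      rw [Finset.card_erase_of_mem hxm] at h1
      have h3 := Finset.card_pos.mpr ⟨x, hxm⟩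
      omega
    have hyx : y ≠ x := by rintro rfl; exact hyS hx.1
    refine ih (insert y (S.erase x)) T ?_ ?_ ?_
    · have : (insert y (S.erase x)) \ T = (S \ T).erase x := by
        ext j
        simp only [Finset.mem_sdiff, Finset.mem_insert, Finset.mem_erase]
        constructor
        · rintro ⟨h1 | h1, h2⟩
          · subst h1; exact absurd hyT h2
          · exact ⟨h1.1, h1.2, h2⟩
        · rintro ⟨h1, h2, h3⟩
          exact ⟨Or.inr ⟨h1, h2⟩, h3⟩
      rw [this, Finset.card_erase_of_mem (Finset.mem_sdiff.mpr hx), h]
      rfl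
    · rw [← htv]
      funext p
      unfold typeVec
      rw [Finset.filter_insert]
      have hiff : Same W p x ↔ Same W p y := ⟨fun h => h.trans hxy, fun h => h.trans hxy.symm⟩
      by_cases hp : Same W p y
      · rw [if_pos hp, Finset.card_insert_of_notMem (by
          rw [Finset.mem_filter, Finset.mem_erase]
          rintro ⟨h1, -⟩
          exact hyS h1.2), Finset.filter_erase, Finset.card_erase_of_mem (by
          rw [Finset.mem_filter]; exact ⟨hx.1, hiff.mpr hp⟩)]
        have := Finset.card_pos.mpr ⟨x, show x ∈ S.filter fun j => Same W p j by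
          rw [Finset.mem_filter]; exact ⟨hx.1, hiff.mpr hp⟩⟩
        omega
      · rw [if_neg hp, Finset.filter_erase, Finset.erase_eq_of_notMem (by
          rw [Finset.mem_filter]
          rintro ⟨-, h1⟩
          exact hp (hiff.mp h1))]
    · refine hxy.2 (S.erase x) ?_ (Finset.notMem_erase x S) ?_
      · rw [Finset.mem_erase]; rintro ⟨-, h1⟩; exact hyS h1
      · rwa [Finset.insert_erase hx.1]

end Pool.Agent.Q102.Trade
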