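import Mathlib
import Pool.Agent.Q102.TradeVec
import Pool.Agent.Q102.TradeWeighted
import Pool.Agent.Q102.Trade3Kirch

/-!
Simple games with three types of players: 3-trade robustness implies weightedness.
-/

namespace Pool.Agent.Q102.Trade

open Finset Classical Pool.Agent.Q102.Trade3

theorem exists_lower : ∀ (j : ℕ) (d : Fin j → ℕ) (m : ℕ), m ≤ ∑ i, d i →
    ∃ d' : Fin j → ℕ, (∀ i, d' i ≤ d i) ∧ ∑ i, d' i = m := by
  intro j
  induction j with
  | zero => intro d m hm; exact ⟨d, fun i => le_rfl, by simp at hm ⊢; omega⟩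
  | succ j ih =>
    intro d m hm
    rw [Fin.sum_univ_castSucc] at hm
    rcases le_total m (∑ i : Fin j, d i.castSucc) with h | h
    · obtain ⟨d', h1, h2⟩ := ih _ _ h
      refine ⟨Fin.snoc d' 0, ?_, ?_⟩
      · intro i
        refine Fin.lastCases ?_ (fun i => ?_) i
        · rw [Fin.snoc_last]; exact Nat.zero_le _
        · rw [Fin.snoc_castSucc]; exact h1 i
      · rw [Fin.sum_univ_castSucc]
        simp only [Fin.snoc_last, Fin.snoc_castSucc]
        omega
    · refine ⟨Fin.snoc (fun i => d i.castSucc) (m - ∑ i : Fin j, d i.castSucc), ?_, ?_⟩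
      · intro i
        refine Fin.lastCases ?_ (fun i => ?_) i
        · rw [Fin.snoc_last]; omega
        · rw [Fin.snoc_castSucc]
      · rw [Fin.sum_univ_castSucc]
        simp only [Fin.snoc_last, Fin.snoc_castSucc]
        omega

section

variable {n : Fin 3 → ℕ} {W : Finset (Pl n) → Prop}

theorem win_of_cnt_le (hW : IsSimple W) (hc : ∀ S T : Finset (Pl n), cnt S = cnt T → W S → W T)
    {S T : Finset (Pl n)} (h : ∀ k, cnt S k ≤ cnt T k) (hS : W S) : W T := by
  have h1 : W (real (cnt S)) := hc S _ (cnt_real (cnt_le S)).symm hS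
  have h2 : W (real (cnt T)) := by
    refine hW.1 _ _ ?_ h1
    intro x hx
    unfold real at hx ⊢
    rw [Finset.mem_filter] at hx ⊢
    exact ⟨hx.1, lt_of_lt_of_le hx.2 (h _)⟩
  exact hc _ T (cnt_real (cnt_le T)) h2

theorem slack (hW : IsSimple W) (hc : ∀ S T : Finset (Pl n), cnt S = cnt T → W S → W T)
    (hrob : TradeRobust 3 W) {j : ℕ} (h1 : 1 ≤ j) (h3 : j ≤ 3) (S T : Fin j → Finset (Pl n))
    (hS : ∀ i, W (S i)) (hT : ∀ i, ¬ W (T i)) (e0 : ∑ i, cnt (S i) 0 = ∑ i, cnt (T i) 0)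
    (e1 : ∑ i, cnt (S i) 1 = ∑ i, cnt (T i) 1) :
    ∑ i, cnt (T i) 2 < ∑ i, cnt (S i) 2 := by
  by_contra hle
  push Not at hle
  obtain ⟨d', hd1, hd2⟩ := exists_lower j (fun i => cnt (T i) 2) _ hle
  obtain ⟨X, Y, hXY, hX, hY⟩ := exists_trade (n := n) (fun i => cnt (S i))
    (fun i => ![cnt (T i) 0, cnt (T i) 1, d' i]) (fun i k => cnt_le _ _) (by
      intro i k
      fin_cases k
      · exact cnt_le _ _
      · exact cnt_le _ _
      · exact (hd1 i).trans (cnt_le _ _)) (by
      intro k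
      fin_cases k
      · exact e0
      · exact e1
      · exact hd2.symm)
  obtain ⟨i, hi⟩ := hrob j h1 h3 X Y hXY (fun i => hc _ _ (hX i).symm (hS i))
  apply hT i
  refine win_of_cnt_le hW hc ?_ hi
  intro k
  rw [hY]
  fin_cases k
  · exact le_rfl
  · exact le_rfl
  · exact hd1 i

/-- the point of a coalition -/
noncomputable def pt (S : Finset (Pl n)) : Pt := ⟨cnt S 0, cnt S 1, cnt S 2⟩

/-- winning points -/
def Wp (W : Finset (Pl n) → Prop) (p : Pt) : Prop := ∃ S, W S ∧ pt S = p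

/-- losing points -/
def Lp (W : Finset (Pl n) → Prop) (p : Pt) : Prop := ∃ S, ¬ W S ∧ pt S = p

theorem inB_pt (S : Finset (Pl n)) : InB ⟨n 0, n 1, n 2⟩ (pt S) := by
  have h0 := cnt_le S 0
  have h1 := cnt_le S 1
  have h2 := cnt_le S 2
  unfold InB pt
  dsimp only
  omega

theorem ctx (hW : IsSimple W) (hc : ∀ S T : Finset (Pl n), cnt S = cnt T → W S → W T)
    (hrob : TradeRobust 3 W) : Ctx ⟨n 0, n 1, n 2⟩ (Wp W) (Lp W) where
  boxW := by rintro p ⟨S, -, rfl⟩; exact inB_pt S
  boxL := by rintro p ⟨S, -, rfl⟩; exact inB_pt S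
  tot := by
    rintro ⟨x, y, h⟩ ⟨h1, h2, h3, h4, h5, h6⟩
    dsimp only at h1 h2 h3 h4 h5 h6
    have hcnt : cnt (real ![x.toNat, y.toNat, h.toNat] : Finset (Pl n)) =
        ![x.toNat, y.toNat, h.toNat] := by
      apply cnt_real
      intro k
      fin_cases k
      · show x.toNat ≤ n 0; omega
      · show y.toNat ≤ n 1; omega
      · show h.toNat ≤ n 2; omega
    have hpt : pt (real ![x.toNat, y.toNat, h.toNat] : Finset (Pl n)) = ⟨x, y, h⟩ := by
      unfold pt
      rw [hcnt]
      show (⟨(x.toNat : ℤ), (y.toNat : ℤ), (h.toNat : ℤ)⟩ : Pt) = _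
      rw [Int.toNat_of_nonneg h1, Int.toNat_of_nonneg h3, Int.toNat_of_nonneg h5]
    by_cases hw : W (real ![x.toNat, y.toNat, h.toNat] : Finset (Pl n))
    · exact Or.inl ⟨_, hw, hpt⟩
    · exact Or.inr ⟨_, hw, hpt⟩
  no1 := by
    rintro p q ⟨S, hS, rfl⟩ ⟨T, hT, rfl⟩ e0 e1
    have := slack hW hc hrob (j := 1) le_rfl (by norm_num) (fun _ => S) (fun _ => T)
      (fun _ => hS) (fun _ => hT) (by simpa [pt] using e0) (by simpa [pt] using e1)
    simpa [pt] using this
  no2 := by
    rintro p1 p2 q1 q2 ⟨S1, hS1, rfl⟩ ⟨S2, hS2, rfl⟩ ⟨T1, hT1, rfl⟩ ⟨T2, hT2, rfl⟩ e0 e1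
    simp only [pt] at e0 e1 ⊢
    have := slack hW hc hrob (j := 2) (by norm_num) (by norm_num) ![S1, S2] ![T1, T2]
      (by intro i; fin_cases i; exacts [hS1, hS2]) (by intro i; fin_cases i; exacts [hT1, hT2])
      (by rw [Fin.sum_univ_two, Fin.sum_univ_two]
          show cnt S1 0 + cnt S2 0 = cnt T1 0 + cnt T2 0
          exact_mod_cast e0)
      (by rw [Fin.sum_univ_two, Fin.sum_univ_two]
          show cnt S1 1 + cnt S2 1 = cnt T1 1 + cnt T2 1
          exact_mod_cast e1)
    rw [Fin.sum_univ_two, Fin.sum_univ_two] at this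
    have h2 : cnt T1 2 + cnt T2 2 < cnt S1 2 + cnt S2 2 := this
    exact_mod_cast h2
  no3 := by
    rintro p1 p2 p3 q1 q2 q3 ⟨S1, hS1, rfl⟩ ⟨S2, hS2, rfl⟩ ⟨S3, hS3, rfl⟩ ⟨T1, hT1, rfl⟩
      ⟨T2, hT2, rfl⟩ ⟨T3, hT3, rfl⟩ e0 e1
    simp only [pt] at e0 e1 ⊢
    have := slack hW hc hrob (j := 3) (by norm_num) (by norm_num) ![S1, S2, S3] ![T1, T2, T3]
      (by intro i; fin_cases i; exacts [hS1, hS2, hS3])
      (by intro i; fin_cases i; exacts [hT1, hT2, hT3])
      (by rw [Fin.sum_univ_three, Fin.sum_univ_three]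
          show cnt S1 0 + cnt S2 0 + cnt S3 0 = cnt T1 0 + cnt T2 0 + cnt T3 0
          exact_mod_cast e0)
      (by rw [Fin.sum_univ_three, Fin.sum_univ_three]
          show cnt S1 1 + cnt S2 1 + cnt S3 1 = cnt T1 1 + cnt T2 1 + cnt T3 1
          exact_mod_cast e1)
    rw [Fin.sum_univ_three, Fin.sum_univ_three] at this
    have h2 : cnt T1 2 + cnt T2 2 + cnt T3 2 < cnt S1 2 + cnt S2 2 + cnt S3 2 := this
    exact_mod_cast h2

theorem no_trade (hW : IsSimple W) (hc : ∀ S T : Finset (Pl n), cnt S = cnt T → W S → W T)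
    (hrob : TradeRobust 3 W) {k : ℕ} (hk : 1 ≤ k) (X Y : Fin k → Finset (Pl n))
    (hXY : IsTrade X Y) (hX : ∀ i, W (X i)) (hY : ∀ i, ¬ W (Y i)) : False := by
  have c := ctx hW hc hrob
  refine no_combo c (ι := Fin k ⊕ Fin k) (Sum.elim (fun i => pt (X i)) fun i => pt (Y i))
    (Sum.elim (fun _ => true) fun _ => false) _ Finset.univ rfl
    ⟨Sum.inl ⟨0, hk⟩, Finset.mem_univ _⟩ (fun _ => 1) (fun _ _ => one_pos) ?_ ?_ ?_ ?_ ?_ ?_
  · rintro (i | i) - h
    · exact ⟨X i, hX i, rfl⟩
    · simp at h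
  · rintro (i | i) - h
    · simp at h
    · exact ⟨Y i, hY i, rfl⟩
  · rw [Fintype.sum_sum_type]
    simp [σ]
  · rw [Fintype.sum_sum_type]
    have := trade_cnt hXY 0
    have h2 : ∑ i, (cnt (X i) 0 : ℚ) = ∑ i, (cnt (Y i) 0 : ℚ) := by exact_mod_cast this
    simp [σ, pt, h2]
  · rw [Fintype.sum_sum_type]
    have := trade_cnt hXY 1
    have h2 : ∑ i, (cnt (X i) 1 : ℚ) = ∑ i, (cnt (Y i) 1 : ℚ) := by exact_mod_cast this
    simp [σ, pt, h2]
  · rw [Fintype.sum_sum_type]
    have := trade_cnt hXY 2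
    have h2 : ∑ i, (cnt (X i) 2 : ℚ) = ∑ i, (cnt (Y i) 2 : ℚ) := by exact_mod_cast this
    simp [σ, pt, h2]

end

/-- **Main theorem.** A simple game with at most three types of players that is 3-trade robust is
weighted. -/
theorem weighted_of_le_three {N : Type*} [Fintype N] [DecidableEq N] {W : Finset N → Prop}
    (hW : IsSimple W) (ht : numTypes W ≤ 3) (hrob : TradeRobust 3 W) : Weighted W := by
  by_contra hnw
  obtain ⟨k, hk, X, Y, hXY, hX, hY⟩ := exists_trade_of_not_weighted hW hnw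
  -- classes
  let cls : N → Finset N := fun i => Finset.univ.filter fun j => Same W i j
  have hcls : ∀ i j, cls i = cls j ↔ Same W i j := by
    intro i j
    constructor
    · intro h
      have : j ∈ cls j := Finset.mem_filter.mpr ⟨Finset.mem_univ _, Same.refl W j⟩
      rw [← h] at this
      exact (Finset.mem_filter.mp this).2
    · intro h
      ext x
      simp only [cls, Finset.mem_filter, Finset.mem_univ, true_and]
      exact ⟨fun h' => h.symm.trans h', fun h' => h.trans h'⟩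
  obtain ⟨φ⟩ : Nonempty ((Finset.univ.image cls : Finset (Finset N)) ↪ Fin 3) :=
    Function.Embedding.nonempty_of_card_le (by
      rw [Fintype.card_coe, Fintype.card_fin]; exact ht)
  let τ : N → Fin 3 := fun i => φ ⟨cls i, Finset.mem_image_of_mem _ (Finset.mem_univ i)⟩
  have hτ : ∀ i j, τ i = τ j ↔ Same W i j := by
    intro i j
    rw [← hcls]
    simp only [τ]
    rw [φ.injective.eq_iff, Subtype.mk.injEq]
  let n : Fin 3 → ℕ := fun k => Fintype.card {x // τ x = k}
  let e : N ≃ Pl n := (Equiv.sigmaFiberEquiv τ).symm.trans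
    (Equiv.sigmaCongrRight fun k => Fintype.equivFin _)
  have he : ∀ x, (e x).1 = τ x := fun x => rfl
  let W' : Finset (Pl n) → Prop := fun S => W (S.map e.symm.toEmbedding)
  have hW' : IsSimple W' := by
    refine ⟨fun S T h hS => hW.1 _ _ (Finset.map_subset_map.mpr h) hS, ?_, ?_⟩
    · show ¬ W _
      rw [Finset.map_empty]; exact hW.2.1
    · show W _
      rw [Finset.map_univ_equiv]; exact hW.2.2
  have htv : ∀ S : Finset (Pl n), ∀ x : N,
      typeVec W (S.map e.symm.toEmbedding) x = cnt S (τ x) := by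
    intro S x
    unfold typeVec cnt
    rw [← Finset.card_map e.symm.toEmbedding (s := S.filter fun y => y.1 = τ x)]
    congr 1
    ext y
    simp only [Finset.mem_filter, Finset.mem_map, Equiv.coe_toEmbedding]
    constructor
    · rintro ⟨⟨z, hz, rfl⟩, h⟩
      refine ⟨z, ⟨hz, ?_⟩, rfl⟩
      rw [← hτ] at h
      rw [h, ← he, Equiv.apply_symm_apply]
    · rintro ⟨z, ⟨hz, hz'⟩, rfl⟩
      refine ⟨⟨z, hz, rfl⟩, ?_⟩
      rw [← hτ, ← hz', ← he (e.symm z), Equiv.apply_symm_apply]
  have hc : ∀ S T : Finset (Pl n), cnt S = cnt T → W' S → W' T := by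
    intro S T h
    refine win_of_typeVec hW _ _ _ rfl ?_
    funext x
    rw [htv, htv, h]
  have hrob' : TradeRobust 3 W' := by
    intro j h1 h3 S T hST hS
    refine hrob j h1 h3 (fun i => (S i).map e.symm.toEmbedding)
      (fun i => (T i).map e.symm.toEmbedding) ?_ hS
    intro p
    have := hST (e p)
    have hmem : ∀ U : Finset (Pl n), p ∈ U.map e.symm.toEmbedding ↔ e p ∈ U := by
      intro U
      rw [Finset.mem_map_equiv, Equiv.symm_symm]
    simp only [hmem]
    exact this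
  refine no_trade hW' hc hrob' hk (fun i => (X i).map e.toEmbedding)
    (fun i => (Y i).map e.toEmbedding) ?_ ?_ ?_
  · intro p
    have := hXY (e.symm p)
    have hmem : ∀ U : Finset N, p ∈ U.map e.toEmbedding ↔ e.symm p ∈ U := by
      intro U
      rw [Finset.mem_map_equiv]
    simp only [hmem]
    exact this
  · intro i
    show W _
    rw [Finset.map_map]
    have : ((X i).map (e.toEmbedding.trans e.symm.toEmbedding)) = X i := by
      ext x; simp
    rw [this]
    exact hX i
  · intro i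
    show ¬ W _
    rw [Finset.map_map]
    have : ((Y i).map (e.toEmbedding.trans e.symm.toEmbedding)) = Y i := by
      ext x; simp
    rw [this]
    exact hY i

/-- A simple game with exactly three types of players that is 3-trade robust is weighted. -/
theorem weighted_of_three {N : Type*} [Fintype N] [DecidableEq N] {W : Finset N → Prop}
    (hW : IsSimple W) (ht : numTypes W = 3) (hrob : TradeRobust 3 W) : Weighted W :=
  weighted_of_le_three hW ht.le hrob

end Pool.Agent.Q102.Trade
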