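import Mathlib
import Pool.Agent.Q102.TradeVec

/-!
Complete simple games with four types of players and three shift-minimal winning types that are
`(m - 1)`-trade robust but not `m`-trade robust, for every `m ≥ 3`.
-/

namespace Pool.Agent.Q102.Trade4

open Finset Classical Pool.Agent.Q102.Trade

theorem psum0 (c : Fin 4 → ℕ) : psum c 0 = c 0 := by
  unfold psum
  have : (Finset.univ.filter fun i : Fin 4 => i ≤ 0) = {0} := by decide
  rw [this]; simp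

theorem psum1 (c : Fin 4 → ℕ) : psum c 1 = c 0 + c 1 := by
  unfold psum
  have : (Finset.univ.filter fun i : Fin 4 => i ≤ 1) = {0, 1} := by decide
  rw [this]; simp

theorem psum2 (c : Fin 4 → ℕ) : psum c 2 = c 0 + c 1 + c 2 := by
  unfold psum
  have : (Finset.univ.filter fun i : Fin 4 => i ≤ 2) = {0, 1, 2} := by decide
  rw [this]; simp [add_assoc]

theorem psum3 (c : Fin 4 → ℕ) : psum c 3 = c 0 + c 1 + c 2 + c 3 := by
  unfold psum
  have : (Finset.univ.filter fun i : Fin 4 => i ≤ 3) = {0, 1, 2, 3} := by decide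
  rw [this]; simp [add_assoc]

theorem domV_iff (c d : Fin 4 → ℕ) : DomV c d ↔
    d 0 ≤ c 0 ∧ d 0 + d 1 ≤ c 0 + c 1 ∧ d 0 + d 1 + d 2 ≤ c 0 + c 1 + c 2 ∧
      d 0 + d 1 + d 2 + d 3 ≤ c 0 + c 1 + c 2 + c 3 := by
  unfold DomV
  rw [Fin.forall_fin_succ, Fin.forall_fin_succ, Fin.forall_fin_two]
  show psum d 0 ≤ psum c 0 ∧ psum d 1 ≤ psum c 1 ∧ psum d 2 ≤ psum c 2 ∧
    psum d 3 ≤ psum c 3 ↔ _
  rw [psum0, psum0, psum1, psum1, psum2, psum2, psum3, psum3]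

/-- the game with three rows -/
noncomputable def rows3 (a b c : Fin 4 → ℕ) : Finset (Fin 4 → ℕ) := {a, b, c}

section

variable {n a b c : Fin 4 → ℕ}

theorem mem_rows {r : Fin 4 → ℕ} : r ∈ rows3 a b c ↔ r = a ∨ r = b ∨ r = c := by
  unfold rows3; rw [Finset.mem_insert, Finset.mem_insert, Finset.mem_singleton]

theorem win_iff {S : Finset (Pl n)} : rgame n (rows3 a b c) S ↔
    DomV (cnt S) a ∨ DomV (cnt S) b ∨ DomV (cnt S) c := by
  unfold rgame
  constructor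
  · rintro ⟨r, hr, h⟩
    rw [mem_rows] at hr
    rcases hr with rfl | rfl | rfl
    · exact Or.inl h
    · exact Or.inr (Or.inl h)
    · exact Or.inr (Or.inr h)
  · rintro (h | h | h)
    · exact ⟨_, mem_rows.mpr (Or.inl rfl), h⟩
    · exact ⟨_, mem_rows.mpr (Or.inr (Or.inl rfl)), h⟩
    · exact ⟨_, mem_rows.mpr (Or.inr (Or.inr rfl)), h⟩

/-- a linear functional separates weakly; on the hyperplane the third coordinate gives a
divisibility -/
theorem robust_of (w : Fin 4 → ℤ) (Q : ℤ) {m : ℕ} (e : ℤ) (he : e = 1 ∨ e = -1)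
    (hwin : ∀ S : Finset (Pl n), rgame n (rows3 a b c) S →
      Q ≤ w 0 * cnt S 0 + w 1 * cnt S 1 + w 2 * cnt S 2 + w 3 * cnt S 3 ∧
      (Q = w 0 * cnt S 0 + w 1 * cnt S 1 + w 2 * cnt S 2 + w 3 * cnt S 3 →
        (m : ℤ) ∣ cnt S 2 + e))
    (hlose : ∀ S : Finset (Pl n), ¬ rgame n (rows3 a b c) S →
      w 0 * cnt S 0 + w 1 * cnt S 1 + w 2 * cnt S 2 + w 3 * cnt S 3 ≤ Q ∧
      (w 0 * cnt S 0 + w 1 * cnt S 1 + w 2 * cnt S 2 + w 3 * cnt S 3 = Q →
        (m : ℤ) ∣ cnt S 2)) (k : ℕ) (hk : k < m) :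
    TradeRobust k (rgame n (rows3 a b c)) := by
  intro j h1 hj X Y hT hX
  by_contra hcon
  push Not at hcon
  let f : Finset (Pl n) → ℤ := fun S =>
    w 0 * cnt S 0 + w 1 * cnt S 1 + w 2 * cnt S 2 + w 3 * cnt S 3
  have hxge : ∀ i, Q ≤ f (X i) := fun i => (hwin _ (hX i)).1
  have hyle : ∀ i, f (Y i) ≤ Q := fun i => (hlose _ (hcon i)).1
  have hc : ∀ k, ∑ i, (cnt (X i) k : ℤ) = ∑ i, (cnt (Y i) k : ℤ) := by
    intro k
    exact_mod_cast trade_cnt hT k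
  have hsum : ∑ i, f (X i) = ∑ i, f (Y i) := by
    simp only [f, Finset.sum_add_distrib, ← Finset.mul_sum, hc]
  have hXs : ∑ i, f (X i) = ∑ _i : Fin j, Q := by
    apply le_antisymm
    · rw [hsum]; exact Finset.sum_le_sum fun i _ => hyle i
    · exact Finset.sum_le_sum fun i _ => hxge i
  have hYs := hsum ▸ hXs
  have hXe : ∀ i, (m : ℤ) ∣ cnt (X i) 2 + e := by
    intro i
    exact (hwin _ (hX i)).2 ((Finset.sum_eq_sum_iff_of_le (fun i _ => hxge i)).mp hXs.symm i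
      (Finset.mem_univ i))
  have hYe : ∀ i, (m : ℤ) ∣ cnt (Y i) 2 := by
    intro i
    exact (hlose _ (hcon i)).2 ((Finset.sum_eq_sum_iff_of_le (fun i _ => hyle i)).mp hYs i
      (Finset.mem_univ i))
  have h2 : (m : ℤ) ∣ ∑ i, ((cnt (X i) 2 + e) - cnt (Y i) 2 : ℤ) :=
    Finset.dvd_sum fun i _ => dvd_sub (hXe i) (hYe i)
  have h3 : ∑ i, ((cnt (X i) 2 + e) - cnt (Y i) 2 : ℤ) = j * e := by
    rw [Finset.sum_sub_distrib, Finset.sum_add_distrib, hc]
    simp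
  rw [h3] at h2
  have h4 : (m : ℤ) ∣ j := by
    rcases he with rfl | rfl
    · simpa using h2
    · simpa using h2
  have := Nat.le_of_dvd h1 (by exact_mod_cast h4)
  omega

theorem single (hab : 2 ≤ a 0 + a 1 + a 2 + a 3) (hb : 2 ≤ b 0 + b 1 + b 2 + b 3)
    (hc : 2 ≤ c 0 + c 1 + c 2 + c 3) (p : Pl n) : ¬ rgame n (rows3 a b c) {p} := by
  rw [win_iff, domV_iff, domV_iff, domV_iff]
  have h1 : ∀ k, cnt ({p} : Finset (Pl n)) k = if p.1 = k then 1 else 0 := by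
    intro k
    have := cnt_insert (S := (∅ : Finset (Pl n))) (x := p) (by simp) k
    rw [insert_empty_eq] at this
    rw [this]
    simp [cnt]
  rw [h1, h1, h1, h1]
  have h2 : ∀ k : Fin 4, (if k = 0 then 1 else 0) + (if k = 1 then 1 else 0) +
      (if k = 2 then 1 else 0) + (if k = 3 then 1 else 0) = 1 := by decide
  have := h2 p.1
  omega

end

/-! ### The family -/

/-- class sizes -/
def bn (u : ℕ) : Fin 4 → ℕ := ![u + 2, u + 3, u + 4, u + 3]

/-- rows -/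
def ra (u : ℕ) : Fin 4 → ℕ := ![u + 2, u + 2, u + 3, 1]

/-- rows -/
def rb (u : ℕ) : Fin 4 → ℕ := ![u + 2, u + 3, 1, u + 2]

/-- rows -/
def rc (u : ℕ) : Fin 4 → ℕ := ![0, u + 3, u + 3, u + 3]

/-- the game -/
def G (u : ℕ) : Finset (Pl (bn u)) → Prop := rgame (bn u) (rows3 (ra u) (rb u) (rc u))

theorem dom_a (u : ℕ) (c : Fin 4 → ℕ) : DomV c (ra u) ↔
    u + 2 ≤ c 0 ∧ 2 * u + 4 ≤ c 0 + c 1 ∧ 3 * u + 7 ≤ c 0 + c 1 + c 2 ∧
      3 * u + 8 ≤ c 0 + c 1 + c 2 + c 3 := by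
  rw [domV_iff]
  show (u + 2 ≤ c 0 ∧ u + 2 + (u + 2) ≤ c 0 + c 1 ∧ u + 2 + (u + 2) + (u + 3) ≤
    c 0 + c 1 + c 2 ∧ u + 2 + (u + 2) + (u + 3) + 1 ≤ c 0 + c 1 + c 2 + c 3) ↔ _
  omega

theorem dom_b (u : ℕ) (c : Fin 4 → ℕ) : DomV c (rb u) ↔
    u + 2 ≤ c 0 ∧ 2 * u + 5 ≤ c 0 + c 1 ∧ 2 * u + 6 ≤ c 0 + c 1 + c 2 ∧
      3 * u + 8 ≤ c 0 + c 1 + c 2 + c 3 := by
  rw [domV_iff]
  show (u + 2 ≤ c 0 ∧ u + 2 + (u + 3) ≤ c 0 + c 1 ∧ u + 2 + (u + 3) + 1 ≤
    c 0 + c 1 + c 2 ∧ u + 2 + (u + 3) + 1 + (u + 2) ≤ c 0 + c 1 + c 2 + c 3) ↔ _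
  omega

theorem dom_c (u : ℕ) (c : Fin 4 → ℕ) : DomV c (rc u) ↔
    u + 3 ≤ c 0 + c 1 ∧ 2 * u + 6 ≤ c 0 + c 1 + c 2 ∧
      3 * u + 9 ≤ c 0 + c 1 + c 2 + c 3 := by
  rw [domV_iff]
  show (0 ≤ c 0 ∧ 0 + (u + 3) ≤ c 0 + c 1 ∧ 0 + (u + 3) + (u + 3) ≤
    c 0 + c 1 + c 2 ∧ 0 + (u + 3) + (u + 3) + (u + 3) ≤ c 0 + c 1 + c 2 + c 3) ↔ _
  omega

theorem hn (u : ℕ) : ∀ k, 1 ≤ bn u k := by
  intro k; fin_cases k <;> simp [bn]

theorem hbox (u : ℕ) : ∀ r ∈ rows3 (ra u) (rb u) (rc u), ∀ k, r k ≤ bn u k := by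
  intro r hr k
  rw [mem_rows] at hr
  rcases hr with rfl | rfl | rfl
  · fin_cases k <;> simp [bn, ra]
  · fin_cases k <;> simp [bn, rb]
  · fin_cases k <;> simp [bn, rc]

theorem hanti (u : ℕ) : ∀ r ∈ rows3 (ra u) (rb u) (rc u), ∀ r' ∈ rows3 (ra u) (rb u) (rc u),
    DomV r r' → r = r' := by
  intro r hr r' hr' h
  rw [mem_rows] at hr hr'
  rcases hr with rfl | rfl | rfl <;> rcases hr' with rfl | rfl | rfl
  · rfl
  · rw [dom_b] at h; simp [ra] at h; omega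
  · rw [dom_c] at h; simp [ra] at h; omega
  · rw [dom_a] at h; simp [rb] at h; omega
  · rfl
  · rw [dom_c] at h; simp [rb] at h; omega
  · rw [dom_a] at h; simp [rc] at h
  · rw [dom_b] at h; simp [rc] at h
  · rfl

theorem hdist (u : ℕ) : Distinct (bn u) (rows3 (ra u) (rb u) (rc u)) := by
  intro k l hkl
  have hk : k.val = 0 ∨ k.val = 1 ∨ k.val = 2 := by have := l.isLt; omega
  have hbox' := hbox u _ (mem_rows.mpr (Or.inl rfl))
  rcases hk with hk | hk | hk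
  · have hk' : k = 0 := Fin.ext hk
    have hl' : l = 1 := Fin.ext (by rw [hkl, hk]; rfl)
    subst hk'; subst hl'
    refine ⟨ra u, hbox', by simp [ra], by simp [ra, bn],
      ⟨ra u, mem_rows.mpr (Or.inl rfl), DomV.refl _⟩, ?_⟩
    intro r hr
    rw [mem_rows] at hr
    rcases hr with rfl | rfl | rfl
    · rw [dom_a]; simp [ra]
    · rw [dom_b]; simp [ra]
    · rw [dom_c]; simp [ra]; omega
  · have hk' : k = 1 := Fin.ext hk
    have hl' : l = 2 := Fin.ext (by rw [hkl, hk]; rfl)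
    subst hk'; subst hl'
    refine ⟨ra u, hbox', by simp [ra], by simp [ra, bn],
      ⟨ra u, mem_rows.mpr (Or.inl rfl), DomV.refl _⟩, ?_⟩
    intro r hr
    rw [mem_rows] at hr
    rcases hr with rfl | rfl | rfl
    · rw [dom_a]; simp [ra]; omega
    · rw [dom_b]; simp [ra]; omega
    · rw [dom_c]; simp [ra]; omega
  · have hk' : k = 2 := Fin.ext hk
    have hl' : l = 3 := Fin.ext (by rw [hkl, hk]; rfl)
    subst hk'; subst hl'
    refine ⟨ra u, hbox', by simp [ra], by simp [ra, bn],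
      ⟨ra u, mem_rows.mpr (Or.inl rfl), DomV.refl _⟩, ?_⟩
    intro r hr
    rw [mem_rows] at hr
    rcases hr with rfl | rfl | rfl
    · rw [dom_a]; simp [ra]; omega
    · rw [dom_b]; simp [ra]; omega
    · rw [dom_c]; simp [ra]; omega

theorem G_simple (u : ℕ) : IsSimple (G u) := by
  apply rgame_simple (hbox u) ⟨ra u, mem_rows.mpr (Or.inl rfl)⟩
  rw [mem_rows]
  rintro (h | h | h)
  · have := congrFun h 3; simp [ra] at this
  · have := congrFun h 2; simp [rb] at this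
  · have := congrFun h 3; simp [rc] at this

theorem G_single (u : ℕ) (p : Pl (bn u)) : ¬ G u {p} := by
  apply single
  · show 2 ≤ u + 2 + (u + 2) + (u + 3) + 1; omega
  · show 2 ≤ u + 2 + (u + 3) + 1 + (u + 2); omega
  · show 2 ≤ 0 + (u + 3) + (u + 3) + (u + 3); omega

theorem G_complete (u : ℕ) : Complete (G u) := rgame_complete

theorem G_numTypes (u : ℕ) : numTypes (G u) = 4 := rgame_numTypes (hn u) (hdist u)

theorem card_rows (u : ℕ) : #(rows3 (ra u) (rb u) (rc u)) = 3 := by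
  unfold rows3
  rw [Finset.card_insert_of_notMem, Finset.card_pair]
  · intro h
    have := congrFun h 0
    simp [rb, rc] at this
  · rw [Finset.mem_insert, Finset.mem_singleton]
    rintro (h | h)
    · have := congrFun h 1
      simp [ra, rb] at this
    · have := congrFun h 0
      simp [ra, rc] at this

theorem G_numShiftMin (u : ℕ) : numShiftMin (G u) = 3 := by
  unfold G
  rw [rgame_numShiftMin (hn u) (hdist u) (hbox u) (hanti u), card_rows]

end Pool.Agent.Q102.Trade4
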