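import Mathlib
import Pool.Agent.Q102.Trade4Base

/-!
The four-type family: robustness and its failure; the game for trades of length three.
-/

namespace Pool.Agent.Q102.Trade4

open Finset Classical Pool.Agent.Q102.Trade

theorem win_aux {v x0 x1 x2 x3 : ℤ} (hv : 0 ≤ v)
    (h : (v + 2 ≤ x0 ∧ 2 * v + 4 ≤ x0 + x1 ∧ 3 * v + 7 ≤ x0 + x1 + x2 ∧
      3 * v + 8 ≤ x0 + x1 + x2 + x3) ∨ (v + 2 ≤ x0 ∧ 2 * v + 5 ≤ x0 + x1 ∧
      2 * v + 6 ≤ x0 + x1 + x2 ∧ 3 * v + 8 ≤ x0 + x1 + x2 + x3) ∨ (0 ≤ x0 ∧ v + 3 ≤ x0 + x1 ∧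
      2 * v + 6 ≤ x0 + x1 + x2 ∧ 3 * v + 9 ≤ x0 + x1 + x2 + x3)) :
    ((v + 2) * (v + 4) + 1) * (v + 2) + (v + 2) * (v + 4) * (v + 3) +
    ((v + 2) * (v + 3) - 1) * (v + 3)
    ≤ ((v + 2) * (v + 4) + 1) * x0 + ((v + 2) * (v + 4)) * x1 + ((v + 2) * (v + 3)) * x2 +
    ((v + 2) * (v + 3) - 1) * x3 ∧
    (((v + 2) * (v + 4) + 1) * (v + 2) + (v + 2) * (v + 4) * (v + 3) +
    ((v + 2) * (v + 3) - 1) * (v + 3)
    = ((v + 2) * (v + 4) + 1) * x0 + ((v + 2) * (v + 4)) * x1 + ((v + 2) * (v + 3)) * x2 +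
    ((v + 2) * (v + 3) - 1) * x3 → x2 = v + 3) := by
  have hc : (0 : ℤ) < (v + 2) * (v + 3) - 1 := by nlinarith
  rcases h with ⟨h1, h2, h3, h4⟩ | ⟨h1, h2, h3, h4⟩ | ⟨h1, h2, h3, h4⟩
  · have e1 : 0 ≤ (v + 2) * (x0 + x1 - (2 * v + 4)) := mul_nonneg (by linarith) (by linarith)
    have e2 := mul_nonneg hc.le (show 0 ≤ x0 + x1 + x2 + x3 - (3 * v + 8) by linarith)
    constructor
    · nlinarith
    · intro heq
      have e3 : (v + 2) * (x0 + x1 - (2 * v + 4)) + (x0 + x1 + x2 - (3 * v + 7)) = 0 := by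
        nlinarith
      have e4 : x0 + x1 - (2 * v + 4) = 0 := by nlinarith
      have e5 : x0 + x1 + x2 - (3 * v + 7) = 0 := by nlinarith
      linarith
  · have e1 : 0 ≤ (v + 2) * (x0 + x1 - (2 * v + 5)) := mul_nonneg (by linarith) (by linarith)
    have e2 := mul_nonneg hc.le (show 0 ≤ x0 + x1 + x2 + x3 - (3 * v + 8) by linarith)
    constructor
    · nlinarith
    · intro heq
      exfalso
      nlinarith
  · have e1 : 0 ≤ (v + 2) * (x0 + x1 - (v + 3)) := mul_nonneg (by linarith) (by linarith)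
    have e2 := mul_nonneg hc.le (show 0 ≤ x0 + x1 + x2 + x3 - (3 * v + 9) by linarith)
    constructor
    · nlinarith
    · intro heq
      have e3 : (v + 2) * (x0 + x1 - (v + 3)) + (x0 + x1 + x2 - (2 * v + 6)) = 0 := by
        nlinarith
      have e4 : x0 + x1 - (v + 3) = 0 := by nlinarith
      have e5 : x0 + x1 + x2 - (2 * v + 6) = 0 := by nlinarith
      linarith

theorem lose_aux {v x0 x1 x2 x3 : ℤ} (hv : 0 ≤ v) (b0 : 0 ≤ x0) (b0' : x0 ≤ v + 2)
    (b1 : 0 ≤ x1) (b1' : x1 ≤ v + 3)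
    (b2 : 0 ≤ x2) (b2' : x2 ≤ v + 4) (b3 : 0 ≤ x3) (b3' : x3 ≤ v + 3)
    (ha : ¬ (v + 2 ≤ x0 ∧ 2 * v + 4 ≤ x0 + x1 ∧ 3 * v + 7 ≤ x0 + x1 + x2 ∧
      3 * v + 8 ≤ x0 + x1 + x2 + x3)) (hb : ¬ (v + 2 ≤ x0 ∧ 2 * v + 5 ≤ x0 + x1 ∧
      2 * v + 6 ≤ x0 + x1 + x2 ∧ 3 * v + 8 ≤ x0 + x1 + x2 + x3)) (hc : ¬ (v + 3 ≤ x0 + x1 ∧
      2 * v + 6 ≤ x0 + x1 + x2 ∧ 3 * v + 9 ≤ x0 + x1 + x2 + x3)) :
    ((v + 2) * (v + 4) + 1) * x0 + ((v + 2) * (v + 4)) * x1 + ((v + 2) * (v + 3)) * x2 +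
    ((v + 2) * (v + 3) - 1) * x3 ≤ ((v + 2) * (v + 4) + 1) * (v + 2) +
    (v + 2) * (v + 4) * (v + 3) + ((v + 2) * (v + 3) - 1) * (v + 3) ∧
    (((v + 2) * (v + 4) + 1) * x0 + ((v + 2) * (v + 4)) * x1 + ((v + 2) * (v + 3)) * x2 +
    ((v + 2) * (v + 3) - 1) * x3 = ((v + 2) * (v + 4) + 1) * (v + 2) +
    (v + 2) * (v + 4) * (v + 3) + ((v + 2) * (v + 3) - 1) * (v + 3) → x2 = 0 ∨ x2 = v + 4) := by
  -- missing numbers
  obtain ⟨z0, rfl⟩ : ∃ z0, x0 = v + 2 - z0 := ⟨v + 2 - x0, by ring⟩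
  obtain ⟨z1, rfl⟩ : ∃ z1, x1 = v + 3 - z1 := ⟨v + 3 - x1, by ring⟩
  obtain ⟨z2, rfl⟩ : ∃ z2, x2 = v + 4 - z2 := ⟨v + 4 - x2, by ring⟩
  obtain ⟨z3, rfl⟩ : ∃ z3, x3 = v + 3 - z3 := ⟨v + 3 - x3, by ring⟩
  have key : (v + 2) * (v + 3) * (v + 4) ≤
      (v + 2) * ((v + 3) * (z0 + z1 + z2 + z3) + (z0 + z1)) + z0 - z3 ∧
      ((v + 2) * (v + 3) * (v + 4) =
      (v + 2) * ((v + 3) * (z0 + z1 + z2 + z3) + (z0 + z1)) + z0 - z3 →
        z2 = 0 ∨ z2 = v + 4) := by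
    have hv2 : 0 < (v + 2) * (v + 3) := by nlinarith
    rcases (by omega : v + 5 ≤ z0 + z1 + z2 + z3 ∨ z0 + z1 + z2 + z3 = v + 4 ∨
        z0 + z1 + z2 + z3 ≤ v + 3) with hT | hT | hT
    · have e1 := mul_nonneg hv2.le (show 0 ≤ z0 + z1 + z2 + z3 - (v + 5) by linarith)
      have e2 := mul_nonneg (show 0 ≤ v + 2 by linarith) (show 0 ≤ z0 + z1 by linarith)
      have : (v + 2) * (v + 3) * (v + 4) <
        (v + 2) * ((v + 3) * (z0 + z1 + z2 + z3) + (z0 + z1)) + z0 - z3 := by nlinarith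
      exact ⟨this.le, fun h => absurd h this.ne⟩
    · rw [hT]
      have e3 : (v + 2) * ((v + 3) * (v + 4) + (z0 + z1)) + z0 - z3 =
        (v + 2) * (v + 3) * (v + 4) + ((v + 2) * (z0 + z1) + z0 - z3) := by ring
      rw [e3]
      rcases (by omega : z0 + z1 = 0 ∨ z0 + z1 = 1 ∨ 2 ≤ z0 + z1) with h | h | h
      · have h3 : z3 = 0 := by omega
        have h0 : z0 = 0 := by omega
        rw [h, h3, h0]
        refine ⟨by linarith, fun _ => Or.inr (by linarith)⟩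
      · rw [h]
        rcases (by omega : z0 = 0 ∨ z0 = 1) with h0 | h0
        · have : z3 ≤ v + 1 := by omega
          refine ⟨by linarith, fun h' => by exfalso; linarith⟩
        · rw [h0]
          refine ⟨by linarith, fun h' => Or.inl (by linarith)⟩
      · have e2 := mul_nonneg (show 0 ≤ v + 2 by linarith) (show 0 ≤ z0 + z1 - 2 by linarith)
        have h5 : 0 < (v + 2) * (z0 + z1) + z0 - z3 := by
          have : z3 ≤ v + 2 := by linarith
          linarith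
        refine ⟨by linarith, fun h' => by exfalso; linarith⟩
    · have h1 : v + 3 ≤ z0 + z1 := by omega
      have h2 : z2 = 0 := by omega
      have h3 : z3 = 0 := by omega
      have h4 : z0 + z1 = v + 3 := by omega
      rw [h2, h3]
      refine ⟨?_, fun _ => Or.inl rfl⟩
      have e3 : (v + 2) * ((v + 3) * (z0 + z1 + 0 + 0) + (z0 + z1)) + z0 - 0 =
        (v + 2) * ((v + 3) * (z0 + z1) + (z0 + z1)) + z0 := by ring
      rw [e3, h4]
      have : (v + 2) * ((v + 3) * (v + 3) + (v + 3)) = (v + 2) * (v + 3) * (v + 4) := by ring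
      rw [this]; linarith
  constructor
  · have := key.1
    linarith
  · intro h
    have := key.2 (by linarith)
    omega

/-- weights -/
def wt (u : ℕ) : Fin 4 → ℤ :=
  ![(u + 2) * (u + 4) + 1, (u + 2) * (u + 4), (u + 2) * (u + 3), (u + 2) * (u + 3) - 1]

theorem G_robust (u k : ℕ) (hk : k < u + 4) : TradeRobust k (G u) := by
  unfold G
  apply robust_of (wt u) (((u + 2) * (u + 4) + 1) * (u + 2) +
    (u + 2) * (u + 4) * (u + 3) + ((u + 2) * (u + 3) - 1) * (u + 3)) (m := u + 4) 1 (Or.inl rfl)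
    _ _ k hk
  · intro S hS
    rw [win_iff, dom_a, dom_b, dom_c] at hS
    have h1 := win_aux (v := u) (x0 := cnt S 0) (x1 := cnt S 1) (x2 := cnt S 2) (x3 := cnt S 3)
      (by omega) (by omega)
    refine ⟨h1.1, fun h => ?_⟩
    rw [h1.2 h]
    push_cast
    exact ⟨1, by ring⟩
  · intro S hS
    rw [win_iff, dom_a, dom_b, dom_c, not_or, not_or] at hS
    have b0 : cnt S 0 ≤ u + 2 := cnt_le S 0
    have b1 : cnt S 1 ≤ u + 3 := cnt_le S 1
    have b2 : cnt S 2 ≤ u + 4 := cnt_le S 2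
    have b3 : cnt S 3 ≤ u + 3 := cnt_le S 3
    have h1 := lose_aux (v := u) (x0 := cnt S 0) (x1 := cnt S 1) (x2 := cnt S 2) (x3 := cnt S 3)
      (by omega) (by omega) (by omega) (by omega) (by omega) (by omega) (by omega) (by omega)
      (by omega) (by omega) (by omega) (by omega)
    refine ⟨h1.1, fun h => ?_⟩
    rcases h1.2 h with h2 | h2
    · rw [h2]; exact dvd_zero _
    · rw [h2]; push_cast; exact dvd_rfl

theorem G_not_robust (u : ℕ) : ¬ TradeRobust (u + 4) (G u) := by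
  intro hrob
  let c : Fin (u + 2 + 1 + 1) → Fin 4 → ℕ := fun i => if i.val = 0 then rc u else ra u
  let d : Fin (u + 2 + 1 + 1) → Fin 4 → ℕ := fun i =>
    if i.val = 0 then ![u + 2, 0, u + 4, u + 3] else if i.val = 1 then
      ![u + 2, u + 3, 0, u + 3] else ![u + 1, u + 3, u + 4, 0]
  have hc0 : c 0 = rc u := rfl
  have hc1 : ∀ i : Fin (u + 2 + 1), c i.succ = ra u := by
    intro i
    show (if i.val + 1 = 0 then _ else _) = _
    rw [if_neg (by omega)]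
  have hd0 : d 0 = ![u + 2, 0, u + 4, u + 3] := rfl
  have hd1 : d (Fin.succ 0) = ![u + 2, u + 3, 0, u + 3] := rfl
  have hd2 : ∀ i : Fin (u + 2), d i.succ.succ = ![u + 1, u + 3, u + 4, 0] := by
    intro i
    show (if i.val + 1 + 1 = 0 then _ else if i.val + 1 + 1 = 1 then _ else _) = _
    rw [if_neg (by omega), if_neg (by omega)]
  obtain ⟨X, Y, hT, hX, hY⟩ := exists_trade (n := bn u) (j := u + 2 + 1 + 1) c d (by
      intro i k
      show (if i.val = 0 then _ else _ : Fin 4 → ℕ) k ≤ _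
      split_ifs
      · exact hbox u _ (mem_rows.mpr (Or.inr (Or.inr rfl))) k
      · exact hbox u _ (mem_rows.mpr (Or.inl rfl)) k) (by
      intro i k
      show (if i.val = 0 then _ else if i.val = 1 then _ else _ : Fin 4 → ℕ) k ≤ _
      split_ifs <;> fin_cases k <;> simp [bn]) (by
      intro k
      have hs : ∑ i, d i k = d 0 k + (d (Fin.succ 0) k + ∑ i : Fin (u + 2), d i.succ.succ k) := by
        rw [Fin.sum_univ_succ, Fin.sum_univ_succ]
      have hs' : ∑ i, c i k = c 0 k + ∑ i : Fin (u + 2 + 1), c i.succ k := by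
        rw [Fin.sum_univ_succ]
      rw [hs, hs', hc0, hd0, hd1]
      simp_rw [hc1, hd2]
      fin_cases k
      · simp [ra, rc]; ring
      · simp [ra, rc]; ring
      · simp [ra, rc]; ring
      · simp [ra, rc])
  obtain ⟨i, hi⟩ := hrob (u + 2 + 1 + 1) (by omega) le_rfl X Y hT (by
    intro i
    unfold G
    rw [win_iff, hX]
    by_cases h : i.val = 0
    · have : c i = rc u := by show (if i.val = 0 then _ else _) = _; rw [if_pos h]
      rw [this]; exact Or.inr (Or.inr (DomV.refl _))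
    · have : c i = ra u := by show (if i.val = 0 then _ else _) = _; rw [if_neg h]
      rw [this]; exact Or.inl (DomV.refl _))
  unfold G at hi
  rw [win_iff, hY, dom_a, dom_b, dom_c] at hi
  have : d i = ![u + 2, 0, u + 4, u + 3] ∨ d i = ![u + 2, u + 3, 0, u + 3] ∨
      d i = ![u + 1, u + 3, u + 4, 0] := by
    show (if i.val = 0 then _ else if i.val = 1 then _ else _ : Fin 4 → ℕ) = _ ∨
      (if i.val = 0 then _ else if i.val = 1 then _ else _ : Fin 4 → ℕ) = _ ∨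
      (if i.val = 0 then _ else if i.val = 1 then _ else _ : Fin 4 → ℕ) = _
    split_ifs <;> simp
  rcases this with h | h | h
  · rw [h] at hi; simp at hi; omega
  · rw [h] at hi; simp at hi; omega
  · rw [h] at hi; simp at hi; omega

end Pool.Agent.Q102.Trade4
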