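import Mathlib
import Pool.Agent.Q102.Trade4Base

/-!
A complete simple game with four types of players and three shift-minimal winning types that is
2-trade robust but not 3-trade robust.
-/

namespace Pool.Agent.Q102.Trade4

open Finset Classical Pool.Agent.Q102.Trade

/-- class sizes -/
def sn : Fin 4 → ℕ := ![1, 3, 3, 3]

/-- rows -/
def sa : Fin 4 → ℕ := ![1, 1, 1, 0]

/-- rows -/
def sb : Fin 4 → ℕ := ![0, 1, 1, 2]

/-- rows -/
def sc : Fin 4 → ℕ := ![0, 0, 2, 3]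

/-- the game -/
def H : Finset (Pl sn) → Prop := rgame sn (rows3 sa sb sc)

theorem dom_sa (c : Fin 4 → ℕ) : DomV c sa ↔
    1 ≤ c 0 ∧ 2 ≤ c 0 + c 1 ∧ 3 ≤ c 0 + c 1 + c 2 := by
  rw [domV_iff]
  show (1 ≤ c 0 ∧ 1 + 1 ≤ c 0 + c 1 ∧ 1 + 1 + 1 ≤
    c 0 + c 1 + c 2 ∧ 1 + 1 + 1 + 0 ≤ c 0 + c 1 + c 2 + c 3) ↔ _
  omega

theorem dom_sb (c : Fin 4 → ℕ) : DomV c sb ↔
    1 ≤ c 0 + c 1 ∧ 2 ≤ c 0 + c 1 + c 2 ∧ 4 ≤ c 0 + c 1 + c 2 + c 3 := by
  rw [domV_iff]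
  show (0 ≤ c 0 ∧ 0 + 1 ≤ c 0 + c 1 ∧ 0 + 1 + 1 ≤
    c 0 + c 1 + c 2 ∧ 0 + 1 + 1 + 2 ≤ c 0 + c 1 + c 2 + c 3) ↔ _
  omega

theorem dom_sc (c : Fin 4 → ℕ) : DomV c sc ↔
    2 ≤ c 0 + c 1 + c 2 ∧ 5 ≤ c 0 + c 1 + c 2 + c 3 := by
  rw [domV_iff]
  show (0 ≤ c 0 ∧ 0 + 0 ≤ c 0 + c 1 ∧ 0 + 0 + 2 ≤
    c 0 + c 1 + c 2 ∧ 0 + 0 + 2 + 3 ≤ c 0 + c 1 + c 2 + c 3) ↔ _
  omega

theorem hn_s : ∀ k, 1 ≤ sn k := by
  intro k; fin_cases k <;> simp [sn]

theorem hbox_s : ∀ r ∈ rows3 sa sb sc, ∀ k, r k ≤ sn k := by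
  intro r hr k
  rw [mem_rows] at hr
  rcases hr with rfl | rfl | rfl
  · fin_cases k <;> simp [sn, sa]
  · fin_cases k <;> simp [sn, sb]
  · fin_cases k <;> simp [sn, sc]

theorem hanti_s : ∀ r ∈ rows3 sa sb sc, ∀ r' ∈ rows3 sa sb sc, DomV r r' → r = r' := by
  intro r hr r' hr' h
  rw [mem_rows] at hr hr'
  rcases hr with rfl | rfl | rfl <;> rcases hr' with rfl | rfl | rfl
  · rfl
  · rw [dom_sb] at h; simp [sa] at h
  · rw [dom_sc] at h; simp [sa] at h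
  · rw [dom_sa] at h; simp [sb] at h
  · rfl
  · rw [dom_sc] at h; simp [sb] at h
  · rw [dom_sa] at h; simp [sc] at h
  · rw [dom_sb] at h; simp [sc] at h
  · rfl

theorem hdist_s : Distinct sn (rows3 sa sb sc) := by
  intro k l hkl
  have hk : k.val = 0 ∨ k.val = 1 ∨ k.val = 2 := by have := l.isLt; omega
  rcases hk with hk | hk | hk
  · have hk' : k = 0 := Fin.ext hk
    have hl' : l = 1 := Fin.ext (by rw [hkl, hk]; rfl)
    subst hk'; subst hl'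
    refine ⟨sa, hbox_s _ (mem_rows.mpr (Or.inl rfl)), by simp [sa], by simp [sa, sn],
      ⟨sa, mem_rows.mpr (Or.inl rfl), DomV.refl _⟩, ?_⟩
    intro r hr
    rw [mem_rows] at hr
    rcases hr with rfl | rfl | rfl
    · rw [dom_sa]; simp [sa]
    · rw [dom_sb]; simp [sa]
    · rw [dom_sc]; simp [sa]
  · have hk' : k = 1 := Fin.ext hk
    have hl' : l = 2 := Fin.ext (by rw [hkl, hk]; rfl)
    subst hk'; subst hl'
    refine ⟨sa, hbox_s _ (mem_rows.mpr (Or.inl rfl)), by simp [sa], by simp [sa, sn],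
      ⟨sa, mem_rows.mpr (Or.inl rfl), DomV.refl _⟩, ?_⟩
    intro r hr
    rw [mem_rows] at hr
    rcases hr with rfl | rfl | rfl
    · rw [dom_sa]; simp [sa]
    · rw [dom_sb]; simp [sa]
    · rw [dom_sc]; simp [sa]
  · have hk' : k = 2 := Fin.ext hk
    have hl' : l = 3 := Fin.ext (by rw [hkl, hk]; rfl)
    subst hk'; subst hl'
    refine ⟨sa, hbox_s _ (mem_rows.mpr (Or.inl rfl)), by simp [sa], by simp [sa, sn],
      ⟨sa, mem_rows.mpr (Or.inl rfl), DomV.refl _⟩, ?_⟩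
    intro r hr
    rw [mem_rows] at hr
    rcases hr with rfl | rfl | rfl
    · rw [dom_sa]; simp [sa]
    · rw [dom_sb]; simp [sa]
    · rw [dom_sc]; simp [sa]

theorem H_simple : IsSimple H := by
  apply rgame_simple hbox_s ⟨sa, mem_rows.mpr (Or.inl rfl)⟩
  rw [mem_rows]
  rintro (h | h | h)
  · have := congrFun h 0; simp [sa] at this
  · have := congrFun h 3; simp [sb] at this
  · have := congrFun h 3; simp [sc] at this

theorem H_single (p : Pl sn) : ¬ H {p} := by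
  apply single
  · show 2 ≤ 1 + 1 + 1 + 0; omega
  · show 2 ≤ 0 + 1 + 1 + 2; omega
  · show 2 ≤ 0 + 0 + 2 + 3; omega

theorem H_complete : Complete H := rgame_complete

theorem H_numTypes : numTypes H = 4 := rgame_numTypes hn_s hdist_s

theorem card_rows_s : #(rows3 sa sb sc) = 3 := by
  unfold rows3
  rw [Finset.card_insert_of_notMem, Finset.card_pair]
  · intro h
    have := congrFun h 1
    simp [sb, sc] at this
  · rw [Finset.mem_insert, Finset.mem_singleton]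
    rintro (h | h)
    · have := congrFun h 0
      simp [sa, sb] at this
    · have := congrFun h 0
      simp [sa, sc] at this

theorem H_numShiftMin : numShiftMin H = 3 := by
  unfold H
  rw [rgame_numShiftMin hn_s hdist_s hbox_s hanti_s, card_rows_s]

theorem H_robust : TradeRobust 2 H := by
  unfold H
  apply robust_of ![6, 5, 4, 3] 15 (m := 3) (-1) (Or.inr rfl) _ _ 2 (by norm_num)
  · intro S hS
    rw [win_iff, dom_sa, dom_sb, dom_sc] at hS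
    have b0 : cnt S 0 ≤ 1 := cnt_le S 0
    have b1 : cnt S 1 ≤ 3 := cnt_le S 1
    have b2 : cnt S 2 ≤ 3 := cnt_le S 2
    have b3 : cnt S 3 ≤ 3 := cnt_le S 3
    show (15 : ℤ) ≤ 6 * cnt S 0 + 5 * cnt S 1 + 4 * cnt S 2 + 3 * cnt S 3 ∧
      ((15 : ℤ) = 6 * cnt S 0 + 5 * cnt S 1 + 4 * cnt S 2 + 3 * cnt S 3 →
        ((3 : ℕ) : ℤ) ∣ cnt S 2 + -1)
    generalize cnt S 0 = y0 at *
    generalize cnt S 1 = y1 at *
    generalize cnt S 2 = y2 at *
    generalize cnt S 3 = y3 at *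
    refine ⟨by omega, fun h => ?_⟩
    interval_cases y2 <;> interval_cases y1 <;> omega
  · intro S hS
    rw [win_iff, dom_sa, dom_sb, dom_sc, not_or, not_or] at hS
    have b0 : cnt S 0 ≤ 1 := cnt_le S 0
    have b1 : cnt S 1 ≤ 3 := cnt_le S 1
    have b2 : cnt S 2 ≤ 3 := cnt_le S 2
    have b3 : cnt S 3 ≤ 3 := cnt_le S 3
    show 6 * (cnt S 0 : ℤ) + 5 * cnt S 1 + 4 * cnt S 2 + 3 * cnt S 3 ≤ 15 ∧
      (6 * (cnt S 0 : ℤ) + 5 * cnt S 1 + 4 * cnt S 2 + 3 * cnt S 3 = 15 →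
        ((3 : ℕ) : ℤ) ∣ cnt S 2)
    generalize cnt S 0 = y0 at *
    generalize cnt S 1 = y1 at *
    generalize cnt S 2 = y2 at *
    generalize cnt S 3 = y3 at *
    refine ⟨by omega, fun h => ?_⟩
    interval_cases y2 <;> interval_cases y1 <;> omega

theorem H_not_robust : ¬ TradeRobust 3 H := by
  intro hrob
  obtain ⟨X, Y, hT, hX, hY⟩ := exists_trade (n := sn) (j := 3)
    ![![0, 1, 1, 2], ![0, 1, 1, 2], ![1, 1, 1, 0]] ![![0, 0, 3, 1], ![0, 3, 0, 0], ![1, 0, 0, 3]]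
    (by decide) (by decide) (by decide)
  obtain ⟨i, hi⟩ := hrob 3 (by norm_num) le_rfl X Y hT (by
    intro i
    unfold H
    rw [win_iff, hX]
    fin_cases i
    · exact Or.inr (Or.inl (DomV.refl _))
    · exact Or.inr (Or.inl (DomV.refl _))
    · exact Or.inl (DomV.refl _))
  unfold H at hi
  rw [win_iff, hY, dom_sa, dom_sb, dom_sc] at hi
  fin_cases i <;> simp at hi

end Pool.Agent.Q102.Trade4
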