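import Mathlib
import Pool.Agent.Q102.TradeBasic

/-!
Adding two top players to a complete simple game: both of them win, exactly one of them wins
together with a winning coalition of the old game.
-/

namespace Pool.Agent.Q102.Trade

open Finset Classical

variable {N : Type*} [Fintype N] [DecidableEq N]

/-- the old members of a coalition -/
noncomputable def rest (S : Finset (Bool ⊕ N)) : Finset N :=
  Finset.univ.filter fun p => Sum.inr p ∈ S

/-- the extended game -/
def ext (W : Finset N → Prop) (S : Finset (Bool ⊕ N)) : Prop :=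
  (Sum.inl true ∈ S ∧ Sum.inl false ∈ S) ∨
    ((Sum.inl true ∈ S ∨ Sum.inl false ∈ S) ∧ W (rest S))

theorem mem_rest {S : Finset (Bool ⊕ N)} {p : N} : p ∈ rest S ↔ Sum.inr p ∈ S := by
  unfold rest; simp

theorem rest_insert_inl (S : Finset (Bool ⊕ N)) (b : Bool) :
    rest (insert (Sum.inl b) S) = rest S := by
  ext p; simp [mem_rest]

theorem rest_insert_inr (S : Finset (Bool ⊕ N)) (p : N) :
    rest (insert (Sum.inr p) S) = insert p (rest S) := by
  ext q; simp [mem_rest]

/-- lift of a coalition: add the player `true` -/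
noncomputable def lift (S : Finset N) : Finset (Bool ⊕ N) :=
  insert (Sum.inl true) (S.map ⟨Sum.inr, Sum.inr_injective⟩)

theorem rest_lift (S : Finset N) : rest (lift S) = S := by
  ext p; simp [mem_rest, lift]

theorem inl_true_lift (S : Finset N) : (Sum.inl true : Bool ⊕ N) ∈ lift S := by simp [lift]

theorem inl_false_lift (S : Finset N) : (Sum.inl false : Bool ⊕ N) ∉ lift S := by simp [lift]

theorem inr_lift {S : Finset N} {p : N} : (Sum.inr p : Bool ⊕ N) ∈ lift S ↔ p ∈ S := by
  simp [lift]

theorem ext_lift {W : Finset N → Prop} {S : Finset N} : ext W (lift S) ↔ W S := by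
  unfold ext
  rw [rest_lift]
  simp [inl_true_lift, inl_false_lift]

theorem ge_inl {W : Finset N → Prop} (hW : IsSimple W) (hs : ∀ p, ¬ W {p}) (b : Bool)
    (x : Bool ⊕ N) : Ge (ext W) (Sum.inl b) x := by
  intro S hb hx hwin
  rcases x with c | p
  · by_cases hbc : b = c
    · subst hbc; exact hwin
    · have hnot : ∀ d, (Sum.inl d : Bool ⊕ N) ∉ S := by
        intro d hd
        cases b <;> cases c <;> cases d <;> simp_all
      rcases hwin with h | h
      · exfalso
        rcases h with ⟨h1, h2⟩
        rw [Finset.mem_insert] at h1 h2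
        rcases h1 with h1 | h1
        · rcases h2 with h2 | h2
          · rw [Sum.inl.injEq] at h1 h2
            rw [← h1] at h2
            exact absurd h2 (by decide)
          · exact hnot _ h2
        · exact hnot _ h1
      · right
        rw [rest_insert_inl] at h ⊢
        refine ⟨?_, h.2⟩
        cases b <;> simp
  · rcases hwin with h | h
    · left
      have h1 : (Sum.inl true : Bool ⊕ N) ∈ S := by simpa using h.1
      have h2 : (Sum.inl false : Bool ⊕ N) ∈ S := by simpa using h.2
      exact ⟨Finset.mem_insert_of_mem h1, Finset.mem_insert_of_mem h2⟩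
    · left
      have h1 : (Sum.inl true : Bool ⊕ N) ∈ S ∨ (Sum.inl false : Bool ⊕ N) ∈ S := by
        simpa using h.1
      cases b
      · rcases h1 with h1 | h1
        · exact ⟨Finset.mem_insert_of_mem h1, Finset.mem_insert_self _ _⟩
        · exact absurd h1 hb
      · rcases h1 with h1 | h1
        · exact absurd h1 hb
        · exact ⟨Finset.mem_insert_self _ _, Finset.mem_insert_of_mem h1⟩

theorem not_ge_inr_inl {W : Finset N → Prop} (hs : ∀ p, ¬ W {p}) (p : N) (b : Bool) :
    ¬ Ge (ext W) (Sum.inr p) (Sum.inl b) := by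
  intro h
  have h1 := h {Sum.inl (!b)} (by simp) (by cases b <;> simp) (by
    left
    cases b <;> simp)
  rcases h1 with h1 | h1
  · cases b <;> simp at h1
  · apply hs p
    have h2 := h1.2
    rw [rest_insert_inr] at h2
    have h3 : rest ({Sum.inl (!b)} : Finset (Bool ⊕ N)) = ∅ := by
      ext q; simp [mem_rest]
    rw [h3] at h2
    simpa using h2

theorem ge_inr_inr {W : Finset N → Prop} (hW : IsSimple W) {p q : N} :
    Ge (ext W) (Sum.inr p) (Sum.inr q) ↔ Ge W p q := by
  constructor
  · intro h S hp hq hwin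
    have h1 := h (lift S) (by rwa [inr_lift]) (by rwa [inr_lift]) (by
      right
      rw [rest_insert_inr, rest_lift]
      exact ⟨Or.inl (Finset.mem_insert_of_mem (inl_true_lift S)), hwin⟩)
    rcases h1 with h1 | h1
    · exfalso
      have := h1.2
      rw [Finset.mem_insert] at this
      rcases this with h2 | h2
      · simp at h2
      · exact inl_false_lift S h2
    · have := h1.2
      rwa [rest_insert_inr, rest_lift] at this
  · intro h S hp hq hwin
    rcases hwin with h1 | h1
    · left
      have h2 : (Sum.inl true : Bool ⊕ N) ∈ S := by simpa using h1.1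
      have h3 : (Sum.inl false : Bool ⊕ N) ∈ S := by simpa using h1.2
      exact ⟨Finset.mem_insert_of_mem h2, Finset.mem_insert_of_mem h3⟩
    · right
      refine ⟨?_, ?_⟩
      · have h2 : (Sum.inl true : Bool ⊕ N) ∈ S ∨ (Sum.inl false : Bool ⊕ N) ∈ S := by
          simpa using h1.1
        rcases h2 with h2 | h2
        · exact Or.inl (Finset.mem_insert_of_mem h2)
        · exact Or.inr (Finset.mem_insert_of_mem h2)
      · have h2 := h1.2
        rw [rest_insert_inr] at h2 ⊢
        exact h _ (by rwa [mem_rest]) (by rwa [mem_rest]) h2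

theorem ext_simple {W : Finset N → Prop} (hW : IsSimple W) : IsSimple (ext W) := by
  refine ⟨?_, ?_, ?_⟩
  · intro S T hST hS
    rcases hS with h | h
    · exact Or.inl ⟨hST h.1, hST h.2⟩
    · right
      refine ⟨h.1.imp (fun h => hST h) (fun h => hST h), hW.1 _ _ ?_ h.2⟩
      intro p hp
      rw [mem_rest] at hp ⊢
      exact hST hp
  · rintro (h | h)
    · simp at h
    · simp at h
  · left; simp

theorem ext_single {W : Finset N → Prop} (hW : IsSimple W) (x : Bool ⊕ N) : ¬ ext W {x} := by
  rintro (h | h)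
  · rcases h with ⟨h1, h2⟩
    rw [Finset.mem_singleton] at h1 h2
    rw [← h1] at h2
    simp at h2
  · rcases x with b | p
    · apply hW.2.1
      have h2 := h.2
      have h3 : rest ({Sum.inl b} : Finset (Bool ⊕ N)) = ∅ := by
        ext q; simp [mem_rest]
      rwa [h3] at h2
    · simp at h

theorem ext_complete {W : Finset N → Prop} (hW : IsSimple W) (hs : ∀ p, ¬ W {p})
    (hc : Complete W) : Complete (ext W) := by
  intro x y
  rcases x with a | p
  · exact Or.inl (ge_inl hW hs a y)
  · rcases y with b | q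
    · exact Or.inr (ge_inl hW hs b _)
    · rw [ge_inr_inr hW, ge_inr_inr hW]
      exact hc p q

theorem same_inl_inl {W : Finset N → Prop} (hW : IsSimple W) (hs : ∀ p, ¬ W {p}) (a b : Bool) :
    Same (ext W) (Sum.inl a) (Sum.inl b) := ⟨ge_inl hW hs a _, ge_inl hW hs b _⟩

theorem not_same_inl_inr {W : Finset N → Prop} (hs : ∀ p, ¬ W {p}) (a : Bool) (p : N) :
    ¬ Same (ext W) (Sum.inl a) (Sum.inr p) := fun h => not_ge_inr_inl hs p a h.2

theorem not_same_inr_inl {W : Finset N → Prop} (hs : ∀ p, ¬ W {p}) (a : Bool) (p : N) :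
    ¬ Same (ext W) (Sum.inr p) (Sum.inl a) := fun h => not_ge_inr_inl hs p a h.1

theorem same_inr_inr {W : Finset N → Prop} (hW : IsSimple W) {p q : N} :
    Same (ext W) (Sum.inr p) (Sum.inr q) ↔ Same W p q := by
  unfold Same
  rw [ge_inr_inr hW, ge_inr_inr hW]

theorem ext_numTypes {W : Finset N → Prop} (hW : IsSimple W) (hs : ∀ p, ¬ W {p}) :
    numTypes (ext W) = numTypes W + 1 := by
  unfold numTypes
  have hinl : ∀ a : Bool, (Finset.univ.filter fun j : Bool ⊕ N => Same (ext W) (Sum.inl a) j) =
      Finset.univ.filter fun j : Bool ⊕ N => j.isLeft = true := by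
    intro a
    ext j
    rw [Finset.mem_filter, Finset.mem_filter]
    rcases j with b | q
    · simp [same_inl_inl hW hs a b]
    · simp [not_same_inl_inr hs a q]
  have hinr : ∀ p : N, (Finset.univ.filter fun j : Bool ⊕ N => Same (ext W) (Sum.inr p) j) =
      (Finset.univ.filter fun j : N => Same W p j).map ⟨Sum.inr, Sum.inr_injective⟩ := by
    intro p
    ext j
    rcases j with b | q
    · simp [not_same_inr_inl hs b p]
    · simp [same_inr_inr hW]
  have himage : (Finset.univ.image fun i : Bool ⊕ N =>
      Finset.univ.filter fun j : Bool ⊕ N => Same (ext W) i j) =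
      insert (Finset.univ.filter fun j : Bool ⊕ N => j.isLeft = true)
      ((Finset.univ.image fun i : N => Finset.univ.filter fun j : N => Same W i j).map
        ⟨fun S => S.map ⟨Sum.inr, Sum.inr_injective⟩, Finset.map_injective _⟩) := by
    ext S
    simp only [Finset.mem_image, Finset.mem_univ, true_and, Finset.mem_insert, Finset.mem_map,
      Function.Embedding.coeFn_mk, exists_exists_eq_and]
    constructor
    · rintro ⟨i, rfl⟩
      rcases i with a | p
      · left; exact hinl a
      · right; exact ⟨p, (hinr p).symm⟩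
    · rintro (rfl | ⟨p, rfl⟩)
      · exact ⟨Sum.inl true, hinl true⟩
      · exact ⟨Sum.inr p, hinr p⟩
  rw [himage, Finset.card_insert_of_notMem, Finset.card_map]
  intro hmem
  simp only [Finset.mem_image, Finset.mem_univ, true_and, Finset.mem_map,
      Function.Embedding.coeFn_mk, exists_exists_eq_and] at hmem
  obtain ⟨p, hp⟩ := hmem
  have h1 : (Sum.inl true : Bool ⊕ N) ∈ Finset.univ.filter fun j : Bool ⊕ N => j.isLeft = true := by
    simp
  rw [← hp] at h1
  simp at h1

/-- number of top players in a coalition -/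
noncomputable def tops (S : Finset (Bool ⊕ N)) : ℕ := #(S.filter fun j => j.isLeft = true)

theorem card_filter_rest (S : Finset (Bool ⊕ N)) (P : N → Prop) :
    #((rest S).filter P) = #(S.filter fun j => ∃ q, j = Sum.inr q ∧ P q) := by
  rw [← Finset.card_map ⟨Sum.inr, Sum.inr_injective⟩]
  congr 1
  ext j
  simp only [Finset.mem_map, Finset.mem_filter, mem_rest, Function.Embedding.coeFn_mk]
  constructor
  · rintro ⟨q, ⟨h1, h2⟩, rfl⟩
    exact ⟨h1, q, rfl, h2⟩
  · rintro ⟨h1, q, rfl, h2⟩
    exact ⟨q, ⟨h1, h2⟩, rfl⟩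

theorem typeVec_inl {W : Finset N → Prop} (hW : IsSimple W) (hs : ∀ p, ¬ W {p})
    (S : Finset (Bool ⊕ N)) (a : Bool) : typeVec (ext W) S (Sum.inl a) = tops S := by
  unfold typeVec tops
  congr 1
  ext j
  rw [Finset.mem_filter, Finset.mem_filter]
  rcases j with b | q
  · simp [same_inl_inl hW hs a b]
  · simp [not_same_inl_inr hs a q]

theorem typeVec_inr {W : Finset N → Prop} (hW : IsSimple W) (hs : ∀ p, ¬ W {p})
    (S : Finset (Bool ⊕ N)) (p : N) : typeVec (ext W) S (Sum.inr p) = typeVec W (rest S) p := by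
  unfold typeVec
  rw [card_filter_rest]
  congr 1
  ext j
  rw [Finset.mem_filter, Finset.mem_filter]
  rcases j with b | q
  · simp [not_same_inr_inl hs b p]
  · simp [same_inr_inr hW]

theorem upCount_inl {W : Finset N → Prop} (hW : IsSimple W) (hs : ∀ p, ¬ W {p})
    (S : Finset (Bool ⊕ N)) (a : Bool) : upCount (ext W) S (Sum.inl a) = tops S := by
  unfold upCount tops
  congr 1
  ext j
  rw [Finset.mem_filter, Finset.mem_filter]
  rcases j with b | q
  · simp [ge_inl hW hs b]
  · simp [not_ge_inr_inl hs q a]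

theorem upCount_inr {W : Finset N → Prop} (hW : IsSimple W) (hs : ∀ p, ¬ W {p})
    (S : Finset (Bool ⊕ N)) (p : N) :
    upCount (ext W) S (Sum.inr p) = tops S + upCount W (rest S) p := by
  unfold upCount tops
  rw [card_filter_rest, ← Finset.card_union_of_disjoint]
  · congr 1
    ext j
    rw [Finset.mem_filter, Finset.mem_union, Finset.mem_filter, Finset.mem_filter]
    rcases j with b | q
    · simp [ge_inl hW hs b]
    · simp [ge_inr_inr hW]
  · rw [Finset.disjoint_left]
    intro j h1 h2
    rw [Finset.mem_filter] at h1 h2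
    obtain ⟨q, rfl, -⟩ := h2.2
    simp at h1

theorem tops_le (S : Finset (Bool ⊕ N)) : tops S ≤ 2 := by
  unfold tops
  have : S.filter (fun j => j.isLeft = true) ⊆ {Sum.inl true, Sum.inl false} := by
    intro j hj
    rw [Finset.mem_filter] at hj
    rcases j with b | q
    · cases b <;> simp
    · simp at hj
  exact (Finset.card_le_card this).trans Finset.card_le_two

theorem tops_eq (S : Finset (Bool ⊕ N)) : tops S =
    (if (Sum.inl true : Bool ⊕ N) ∈ S then 1 else 0) +
      (if (Sum.inl false : Bool ⊕ N) ∈ S then 1 else 0) := by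
  unfold tops
  have h1 : S.filter (fun j => j.isLeft = true) =
      (S.filter fun j => j = Sum.inl true) ∪ (S.filter fun j => j = Sum.inl false) := by
    ext j
    rw [Finset.mem_filter, Finset.mem_union, Finset.mem_filter, Finset.mem_filter]
    rcases j with b | q
    · cases b <;> simp
    · simp
  rw [h1, Finset.card_union_of_disjoint]
  · congr 1
    · rw [Finset.filter_eq']; split_ifs <;> simp
    · rw [Finset.filter_eq']; split_ifs <;> simp
  · rw [Finset.disjoint_left]
    intro j h1 h2
    rw [Finset.mem_filter] at h1 h2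
    rw [h1.2] at h2
    simp at h2

theorem ext_iff {W : Finset N → Prop} {S : Finset (Bool ⊕ N)} :
    ext W S ↔ tops S = 2 ∨ (tops S = 1 ∧ W (rest S)) ∨ (tops S = 2 ∧ W (rest S)) := by
  unfold ext
  rw [tops_eq]
  by_cases h1 : (Sum.inl true : Bool ⊕ N) ∈ S <;> by_cases h2 : (Sum.inl false : Bool ⊕ N) ∈ S <;>
    simp [h1, h2]

theorem ext_iff' {W : Finset N → Prop} {S : Finset (Bool ⊕ N)} :
    ext W S ↔ tops S = 2 ∨ (tops S = 1 ∧ W (rest S)) := by
  rw [ext_iff]
  tauto

theorem tops_lift (S : Finset N) : tops (lift S) = 1 := by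
  rw [tops_eq, if_pos (inl_true_lift S), if_neg (inl_false_lift S)]

theorem typeVec_ext {W : Finset N → Prop} (hW : IsSimple W) (hs : ∀ p, ¬ W {p})
    (S : Finset (Bool ⊕ N)) :
    typeVec (ext W) S = Sum.elim (fun _ => tops S) (typeVec W (rest S)) := by
  funext x
  rcases x with a | p
  · exact typeVec_inl hW hs S a
  · exact typeVec_inr hW hs S p

theorem dom_ext {W : Finset N → Prop} (hW : IsSimple W) (hs : ∀ p, ¬ W {p})
    {S T : Finset (Bool ⊕ N)} : Dom (ext W) S T ↔
      tops T ≤ tops S ∧ ∀ p, tops T + upCount W (rest T) p ≤ tops S + upCount W (rest S) p := by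
  constructor
  · intro h
    refine ⟨?_, ?_⟩
    · have := h (Sum.inl true)
      rwa [upCount_inl hW hs, upCount_inl hW hs] at this
    · intro p
      have := h (Sum.inr p)
      rwa [upCount_inr hW hs, upCount_inr hW hs] at this
  · rintro ⟨h1, h2⟩ x
    rcases x with a | p
    · rwa [upCount_inl hW hs, upCount_inl hW hs]
    · rw [upCount_inr hW hs, upCount_inr hW hs]
      exact h2 p

/-- both top players, nobody else -/
noncomputable def both : Finset (Bool ⊕ N) := {Sum.inl true, Sum.inl false}

theorem tops_both : tops (both : Finset (Bool ⊕ N)) = 2 := by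
  rw [tops_eq]; simp [both]

theorem rest_both : rest (both : Finset (Bool ⊕ N)) = ∅ := by
  ext p; simp [mem_rest, both]

theorem card_ge_two {W : Finset N → Prop} (hW : IsSimple W) (hs : ∀ p, ¬ W {p}) {U : Finset N}
    (hU : W U) : 2 ≤ #U := by
  by_contra hlt
  rcases (by omega : #U = 0 ∨ #U = 1) with h | h
  · rw [Finset.card_eq_zero] at h
    subst h
    exact hW.2.1 hU
  · rw [Finset.card_eq_one] at h
    obtain ⟨p, rfl⟩ := h
    exact hs p hU

theorem shiftMin_both {W : Finset N → Prop} (hW : IsSimple W) (hs : ∀ p, ¬ W {p})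
    (hc : Complete W) : ShiftMin (ext W) (both : Finset (Bool ⊕ N)) := by
  refine ⟨ext_iff'.mpr (Or.inl tops_both), ?_⟩
  intro T hT hne hwin
  rw [dom_ext hW hs, tops_both, rest_both] at hT
  rw [ext_iff'] at hwin
  have hz : ∀ p, upCount W (∅ : Finset N) p = 0 := by intro p; simp [upCount]
  rcases hwin with h1 | h1
  · have hrest : rest T = ∅ := by
      by_contra hne'
      obtain ⟨p, hp, hq⟩ := exists_least hc (Finset.nonempty_iff_ne_empty.mpr hne')
      have h2 := hT.2 p
      rw [hz, h1] at h2
      have h3 : upCount W (rest T) p = #(rest T) := by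
        unfold upCount
        rw [Finset.filter_true_of_mem hq]
      have h4 := Finset.card_pos.mpr ⟨p, hp⟩
      omega
    apply hne
    rw [typeVec_ext hW hs, typeVec_ext hW hs, h1, hrest, tops_both, rest_both]
  · have hne' : (rest T).Nonempty := by
      have := card_ge_two hW hs h1.2
      rw [← Finset.card_pos]; omega
    obtain ⟨p, hp, hq⟩ := exists_least hc hne'
    have h2 := hT.2 p
    rw [hz, h1.1] at h2
    have h3 : upCount W (rest T) p = #(rest T) := by
      unfold upCount
      rw [Finset.filter_true_of_mem hq]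
    have := card_ge_two hW hs h1.2
    omega

theorem shiftMin_of_two {W : Finset N → Prop} (hW : IsSimple W) (hs : ∀ p, ¬ W {p})
    {S : Finset (Bool ⊕ N)} (h2 : tops S = 2) (hS : ShiftMin (ext W) S) : 
    typeVec (ext W) S = typeVec (ext W) (both : Finset (Bool ⊕ N)) := by
  by_contra hne
  refine hS.2 both ?_ (fun h => hne h.symm) (ext_iff'.mpr (Or.inl tops_both))
  rw [dom_ext hW hs, tops_both, rest_both, h2]
  refine ⟨le_rfl, fun p => ?_⟩
  have : upCount W (∅ : Finset N) p = 0 := by simp [upCount]
  omega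

theorem shiftMin_of_one {W : Finset N → Prop} (hW : IsSimple W) (hs : ∀ p, ¬ W {p})
    {S : Finset (Bool ⊕ N)} (h1 : tops S = 1) : ShiftMin (ext W) S ↔ ShiftMin W (rest S) := by
  constructor
  · rintro ⟨hwin, hmin⟩
    rw [ext_iff', h1] at hwin
    have hW' : W (rest S) := by
      rcases hwin with h | h
      · exact absurd h (by norm_num)
      · exact h.2
    refine ⟨hW', ?_⟩
    intro T hT hne hT'
    refine hmin (lift T) ?_ ?_ (ext_lift.mpr hT')
    · rw [dom_ext hW hs, tops_lift, rest_lift, h1]
      exact ⟨le_rfl, fun p => Nat.add_le_add_left (hT p) 1⟩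
    · intro he
      apply hne
      funext p
      have := congrFun he (Sum.inr p)
      rwa [typeVec_inr hW hs, typeVec_inr hW hs, rest_lift] at this
  · rintro ⟨hwin, hmin⟩
    refine ⟨ext_iff'.mpr (Or.inr ⟨h1, hwin⟩), ?_⟩
    intro T hT hne hT'
    rw [dom_ext hW hs, h1] at hT
    rw [ext_iff'] at hT'
    rcases hT' with h | h
    · omega
    · refine hmin (rest T) ?_ ?_ h.2
      · intro p
        have := hT.2 p
        rw [h.1] at this
        omega
      · intro he
        apply hne
        rw [typeVec_ext hW hs, typeVec_ext hW hs, he, h.1, h1]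

theorem ext_numShiftMin {W : Finset N → Prop} (hW : IsSimple W) (hs : ∀ p, ¬ W {p})
    (hc : Complete W) : numShiftMin (ext W) = numShiftMin W + 1 := by
  unfold numShiftMin
  have himage : ((Finset.univ.filter fun S : Finset (Bool ⊕ N) => ShiftMin (ext W) S).image
      (typeVec (ext W))) = insert (typeVec (ext W) both)
      (((Finset.univ.filter fun S : Finset N => ShiftMin W S).image (typeVec W)).map
        ⟨fun v => (Sum.elim (fun _ => 1) v : Bool ⊕ N → ℕ), by
          intro v v' h
          funext p
          exact congrFun h (Sum.inr p)⟩) := by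
    ext v
    simp only [Finset.mem_image, Finset.mem_filter, Finset.mem_univ, true_and,
      Finset.mem_insert, Finset.mem_map, Function.Embedding.coeFn_mk]
    constructor
    · rintro ⟨S, hS, rfl⟩
      have hwin := hS.1
      rw [ext_iff'] at hwin
      rcases hwin with h | h
      · left; exact shiftMin_of_two hW hs h hS
      · right
        refine ⟨typeVec W (rest S), ⟨rest S, (shiftMin_of_one hW hs h.1).mp hS, rfl⟩, ?_⟩
        rw [typeVec_ext hW hs, h.1]
    · rintro (rfl | ⟨v', ⟨S, hS, rfl⟩, rfl⟩)
      · exact ⟨both, shiftMin_both hW hs hc, rfl⟩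
      · refine ⟨lift S, ?_, ?_⟩
        · rw [shiftMin_of_one hW hs (tops_lift S), rest_lift]; exact hS
        · rw [typeVec_ext hW hs, rest_lift, tops_lift]
  rw [himage, Finset.card_insert_of_notMem, Finset.card_map]
  intro hmem
  simp only [Finset.mem_map, Function.Embedding.coeFn_mk] at hmem
  obtain ⟨v, -, hv⟩ := hmem
  have := congrFun hv (Sum.inl true)
  rw [typeVec_inl hW hs, tops_both] at this
  simp at this

theorem sum_tops {j : ℕ} (X : Fin j → Finset (Bool ⊕ N)) :
    ∑ i, tops (X i) = #{i | (Sum.inl true : Bool ⊕ N) ∈ X i} +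
      #{i | (Sum.inl false : Bool ⊕ N) ∈ X i} := by
  simp_rw [tops_eq, Finset.sum_add_distrib, Finset.card_filter]

theorem trade_tops {W : Finset N → Prop} {j : ℕ} {X Y : Fin j → Finset (Bool ⊕ N)}
    (hT : IsTrade X Y) (hX : ∀ i, ext W (X i)) (hY : ∀ i, ¬ ext W (Y i)) :
    (∀ i, tops (X i) = 1) ∧ (∀ i, tops (Y i) = 1) := by
  have h1 : ∀ i, 1 ≤ tops (X i) := by
    intro i
    have := hX i
    rw [ext_iff'] at this
    omega
  have h2 : ∀ i, tops (Y i) ≤ 1 := by
    intro i
    have := hY i
    rw [ext_iff'] at this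
    have := tops_le (Y i)
    by_contra hc
    have h3 : tops (Y i) = 2 := by omega
    tauto
  have hsum : ∑ i, tops (X i) = ∑ i, tops (Y i) := by
    rw [sum_tops, sum_tops, hT, hT]
  have h3 : ∑ i, tops (X i) = ∑ i : Fin j, 1 := by
    apply le_antisymm
    · rw [hsum]; exact Finset.sum_le_sum fun i _ => h2 i
    · exact Finset.sum_le_sum fun i _ => h1 i
  have h4 : ∑ i, tops (Y i) = ∑ i : Fin j, 1 := hsum ▸ h3
  constructor
  · intro i
    exact ((Finset.sum_eq_sum_iff_of_le (fun i _ => h1 i)).mp h3.symm i (Finset.mem_univ i)).symm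
  · intro i
    exact (Finset.sum_eq_sum_iff_of_le (fun i _ => h2 i)).mp h4 i (Finset.mem_univ i)

theorem isTrade_rest {j : ℕ} {X Y : Fin j → Finset (Bool ⊕ N)} (hT : IsTrade X Y) :
    IsTrade (fun i => rest (X i)) (fun i => rest (Y i)) := by
  intro p
  simp only [mem_rest]
  exact hT (Sum.inr p)

theorem isTrade_lift {j : ℕ} {X Y : Fin j → Finset N} (hT : IsTrade X Y) :
    IsTrade (fun i => lift (X i)) (fun i => lift (Y i)) := by
  intro x
  rcases x with b | p
  · cases b <;> simp [inl_true_lift, inl_false_lift]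
  · simp only [inr_lift]
    exact hT p

theorem ext_tradeRobust {W : Finset N → Prop} {m : ℕ} :
    TradeRobust m (ext W) ↔ TradeRobust m W := by
  constructor
  · intro h j h1 hm X Y hT hX
    obtain ⟨i, hi⟩ := h j h1 hm _ _ (isTrade_lift hT) (fun i => ext_lift.mpr (hX i))
    exact ⟨i, ext_lift.mp hi⟩
  · intro h j h1 hm X Y hT hX
    by_contra hcon
    push Not at hcon
    obtain ⟨h2, h3⟩ := trade_tops hT hX hcon
    obtain ⟨i, hi⟩ := h j h1 hm _ _ (isTrade_rest hT) (fun i => by
      have := hX i
      rw [ext_iff', h2] at this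
      rcases this with h | h
      · exact absurd h (by norm_num)
      · exact h.2)
    exact hcon i (ext_iff'.mpr (Or.inr ⟨h3 i, hi⟩))

theorem ext_invTradeRobust {W : Finset N → Prop} (hW : IsSimple W) (hs : ∀ p, ¬ W {p}) {m : ℕ} :
    InvTradeRobust m (ext W) ↔ InvTradeRobust m W := by
  constructor
  · intro h j h1 hm X Y hT hX
    obtain ⟨i, hi⟩ := h j h1 hm _ _ (isTrade_lift hT) (fun i => by
      rw [shiftMin_of_one hW hs (tops_lift _), rest_lift]; exact hX i)
    exact ⟨i, ext_lift.mp hi⟩
  · intro h j h1 hm X Y hT hX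
    by_contra hcon
    push Not at hcon
    obtain ⟨h2, h3⟩ := trade_tops hT (fun i => (hX i).1) hcon
    obtain ⟨i, hi⟩ := h j h1 hm _ _ (isTrade_rest hT) (fun i =>
      (shiftMin_of_one hW hs (h2 i)).mp (hX i))
    exact hcon i (ext_iff'.mpr (Or.inr ⟨h3 i, hi⟩))

end Pool.Agent.Q102.Trade
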