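import Mathlib
import Pool.Agent.Q102.TradeExt
import Pool.Agent.Q102.TradeVec
import Pool.Agent.Q102.Trade4Rob
import Pool.Agent.Q102.Trade4Small

/-!
For all `k ≥ 2` and all `e` there is a complete simple game with `e + 4` types of players and
`e + 3` shift-minimal winning types that is `k`-trade robust but not `(k + 1)`-trade robust.
-/

namespace Pool.Agent.Q102.Trade

open Finset Classical Pool.Agent.Q102.Trade4

theorem tradeRobust_of_weighted {N : Type*} [Fintype N] [DecidableEq N] {W : Finset N → Prop}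
    (h : Weighted W) (m : ℕ) : TradeRobust m W := by
  obtain ⟨w, q, -, hw⟩ := h
  intro j h1 _ X Y hT hX
  by_contra hcon
  push Not at hcon
  have h2 : ∀ i, q ≤ ∑ p ∈ X i, w p := fun i => (hw _).mp (hX i)
  have h3 : ∀ i, ∑ p ∈ Y i, w p < q := by
    intro i
    have := (hw (Y i)).not.mp (hcon i)
    exact not_le.mp this
  have key : ∀ Z : Fin j → Finset N, ∑ i, ∑ p ∈ Z i, w p = ∑ p, (#{i | p ∈ Z i} : ℝ) * w p := by
    intro Z
    have : ∀ i, ∑ p ∈ Z i, w p = ∑ p, if p ∈ Z i then w p else 0 := by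
      intro i
      rw [← Finset.sum_filter]
      congr 1
      ext p; simp
    simp_rw [this]
    rw [Finset.sum_comm]
    refine Finset.sum_congr rfl fun p _ => ?_
    rw [← Finset.sum_filter, Finset.sum_const, nsmul_eq_mul]
  have h4 : ∑ i, ∑ p ∈ X i, w p = ∑ i, ∑ p ∈ Y i, w p := by
    rw [key, key]
    refine Finset.sum_congr rfl fun p _ => ?_
    rw [hT p]
  have h5 : ∑ i, ∑ p ∈ Y i, w p < ∑ i : Fin j, q :=
    Finset.sum_lt_sum_of_nonempty ⟨⟨0, h1⟩, Finset.mem_univ _⟩ fun i _ => h3 i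
  have h6 : ∑ i : Fin j, q ≤ ∑ i, ∑ p ∈ X i, w p := Finset.sum_le_sum fun i _ => h2 i
  linarith

theorem exists_game (e k : ℕ) (hk : 2 ≤ k) :
    ∃ (N : Type) (_ : Fintype N) (_ : DecidableEq N) (W : Finset N → Prop),
      IsSimple W ∧ Complete W ∧ (∀ p, ¬ W {p}) ∧ numTypes W = e + 4 ∧ numShiftMin W = e + 3 ∧
        TradeRobust k W ∧ ¬ TradeRobust (k + 1) W := by
  induction e with
  | zero =>
    rcases (by omega : k = 2 ∨ 3 ≤ k) with rfl | hk
    · exact ⟨Pl sn, inferInstance, inferInstance, H, H_simple, H_complete, H_single, H_numTypes,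
        H_numShiftMin, H_robust, H_not_robust⟩
    · obtain ⟨u, rfl⟩ : ∃ u, k = u + 3 := ⟨k - 3, by omega⟩
      exact ⟨Pl (bn u), inferInstance, inferInstance, G u, G_simple u, G_complete u, G_single u,
        G_numTypes u, G_numShiftMin u, G_robust u _ (by omega), G_not_robust u⟩
  | succ e ih =>
    obtain ⟨N, i1, i2, W, h1, h2, h3, h4, h5, h6, h7⟩ := ih
    refine ⟨Bool ⊕ N, inferInstance, inferInstance, ext W, ext_simple h1,
      ext_complete h1 h3 h2, ext_single h1, ?_, ?_, ?_, ?_⟩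
    · rw [ext_numTypes h1 h3, h4]
    · rw [ext_numShiftMin h1 h3 h2, h5]
    · rw [ext_tradeRobust]; exact h6
    · rw [ext_tradeRobust]; exact h7

end Pool.Agent.Q102.Trade
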