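import Mathlib

/-!
Bridging constants of graphs (`bgc` and `BGC`) and the `X`-tree.
-/

namespace Pool.Agent.Q102.XTree

/-! ### Definitions -/

/-- a simple cycle of length `N ≥ 3` in `G` -/
structure Cyc {V : Type*} (G : SimpleGraph V) (N : ℕ) where
  f : ZMod N → V
  inj : Function.Injective f
  adj : ∀ i, G.Adj (f i) (f (i + 1))
  three : 3 ≤ N

/-- distance along a cycle of length `N` -/
def dC {N : ℕ} (i j : ZMod N) : ℕ := min (j - i).val (i - j).val

variable {V : Type*} {G : SimpleGraph V} {N : ℕ}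

/-- `μ`-locally geodesic cycles -/
def LocGeo (C : Cyc G N) (μ : ℕ) : Prop :=
  ∀ i j, G.dist (C.f i) (C.f j) = dC i j → dC i j ≤ μ

/-- sides of non-`μ`-locality: arcs `i, i+1, …, i+μ+1` joining vertices with
`d_G = d_C = μ + 1` -/
def IsSide (C : Cyc G N) (μ : ℕ) (S : Set (ZMod N)) : Prop :=
  ∃ i : ZMod N, G.dist (C.f i) (C.f (i + (μ + 1 : ℕ))) = μ + 1 ∧ dC i (i + (μ + 1 : ℕ)) = μ + 1 ∧
    S = {j | ∃ t : ℕ, t ≤ μ + 1 ∧ j = i + t}

/-- `k`-bridges -/
def Bridge (C : Cyc G N) (k : ℕ) (i j : ZMod N) : Prop :=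
  G.dist (C.f i) (C.f j) ≤ k ∧ k < dC i j

/-- the property defining `bgc` -/
def PropS (G : SimpleGraph V) (μ : ℕ) : Prop :=
  ∀ (N : ℕ) (C : Cyc G N), ¬ LocGeo C μ → ∀ S, IsSide C μ S →
    ∃ v ∈ S, ∃ z ∉ S, Bridge C ((μ + 1) / 2) v z

/-- the property defining `BGC` -/
def PropW (G : SimpleGraph V) (μ : ℕ) : Prop :=
  ∀ (N : ℕ) (C : Cyc G N), ¬ LocGeo C μ → ∃ v z, Bridge C ((μ + 1) / 2) v z

/-- the bridging constant with respect to sides -/
noncomputable def bgc (G : SimpleGraph V) : ℕ := sInf {μ | 1 ≤ μ ∧ PropS G μ}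

/-- the relaxed bridging constant -/
noncomputable def BGC (G : SimpleGraph V) : ℕ := sInf {μ | 1 ≤ μ ∧ PropW G μ}

/-! ### Cyclic distances -/

theorem dC_add {i : ZMod N} {t : ℕ} (ht : 2 * t ≤ N) (hN : 0 < N) : dC i (i + t) = t := by
  have : NeZero N := ⟨by omega⟩
  unfold dC
  rw [add_sub_cancel_left, sub_add_cancel_left, ZMod.val_natCast, Nat.mod_eq_of_lt (by omega)]
  by_cases h0 : t = 0
  · subst h0; simp
  · have : (-(t : ZMod N)).val = N - t := by
      rw [ZMod.neg_val, if_neg, ZMod.val_natCast, Nat.mod_eq_of_lt (by omega)]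
      intro h
      rw [ZMod.natCast_eq_zero_iff] at h
      exact absurd (Nat.le_of_dvd (by omega) h) (by omega)
    rw [this]
    omega

theorem dC_le {i j : ZMod N} (hN : 0 < N) : 2 * dC i j ≤ N := by
  have : NeZero N := ⟨by omega⟩
  unfold dC
  by_cases h : j - i = 0
  · simp [h]
  · have h2 : i - j = -(j - i) := by ring
    rw [h2, ZMod.neg_val, if_neg h]
    have := ZMod.val_lt (j - i)
    omega

theorem dC_le_val {i j : ZMod N} (hN : 0 < N) (h : i.val ≤ j.val) : dC i j ≤ j.val - i.val := by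
  have : NeZero N := ⟨by omega⟩
  unfold dC
  rw [ZMod.val_sub h]
  omega

theorem dC_comm (i j : ZMod N) : dC i j = dC j i := by
  unfold dC; exact min_comm _ _

theorem val_succ (hN : 2 ≤ N) (i : ZMod N) :
    (i + 1).val = i.val + 1 ∨ (i.val + 1 = N ∧ (i + 1).val = 0) := by
  have : NeZero N := ⟨by omega⟩
  have h1 : (1 : ZMod N).val = 1 := by
    have : Fact (1 < N) := ⟨by omega⟩
    exact ZMod.val_one N
  have := ZMod.val_lt i
  rw [ZMod.val_add, h1]
  by_cases h : i.val + 1 = N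
  · right; refine ⟨h, ?_⟩; rw [h]; simp
  · left; rw [Nat.mod_eq_of_lt (by omega)]

/-! ### Walks of bounded length -/

/-- there is a walk of length at most `k` -/
def Near (G : SimpleGraph V) (k : ℕ) (u v : V) : Prop := ∃ p : G.Walk u v, p.length ≤ k

theorem Near.refl (k : ℕ) (u : V) : Near G k u u := ⟨SimpleGraph.Walk.nil, by simp⟩

theorem Near.symm {k : ℕ} {u v : V} (h : Near G k u v) : Near G k v u := by
  obtain ⟨p, hp⟩ := h
  exact ⟨p.reverse, by simpa using hp⟩

theorem Near.trans {k l : ℕ} {u v w : V} (h : Near G k u v) (h' : Near G l v w) :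
    Near G (k + l) u w := by
  obtain ⟨p, hp⟩ := h
  obtain ⟨q, hq⟩ := h'
  exact ⟨p.append q, by rw [SimpleGraph.Walk.length_append]; omega⟩

theorem Near.mono {k l : ℕ} {u v : V} (h : Near G k u v) (hkl : k ≤ l) : Near G l u v := by
  obtain ⟨p, hp⟩ := h
  exact ⟨p, hp.trans hkl⟩

theorem Near.adj {u v : V} (h : G.Adj u v) : Near G 1 u v :=
  ⟨SimpleGraph.Walk.cons h SimpleGraph.Walk.nil, by simp⟩

theorem Near.dist {k : ℕ} {u v : V} (h : Near G k u v) : G.dist u v ≤ k := by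
  obtain ⟨p, hp⟩ := h
  exact (SimpleGraph.dist_le p).trans hp

theorem Cyc.near (C : Cyc G N) (i : ZMod N) (t : ℕ) : Near G t (C.f i) (C.f (i + t)) := by
  induction t with
  | zero => simpa using Near.refl 0 (C.f i)
  | succ t ih =>
    have := ih.trans (Near.adj (C.adj (i + t)))
    rwa [show i + (t : ZMod N) + 1 = i + ((t + 1 : ℕ) : ZMod N) by push_cast; ring] at this

/-! ### The X-tree -/

/-- vertices of the `X`-tree of height `n`: pairs (level, position) -/
abbrev XV (n : ℕ) := Σ i : Fin (n + 1), Fin (2 ^ i.val)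

variable {n : ℕ}

/-- level -/
def lev (v : XV n) : ℕ := v.1.val

/-- position -/
def pos (v : XV n) : ℕ := v.2.val

/-- vertex from level and position -/
def mk (i m : ℕ) (hi : i ≤ n) (hm : m < 2 ^ i) : XV n := ⟨⟨i, by omega⟩, ⟨m, hm⟩⟩

@[simp] theorem lev_mk (i m : ℕ) (hi : i ≤ n) (hm : m < 2 ^ i) : lev (mk i m hi hm) = i := rfl

@[simp] theorem pos_mk (i m : ℕ) (hi : i ≤ n) (hm : m < 2 ^ i) : pos (mk i m hi hm) = m := rfl

theorem lev_le (v : XV n) : lev v ≤ n := Nat.lt_succ_iff.mp v.1.2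

theorem pos_lt (v : XV n) : pos v < 2 ^ lev v := v.2.2

theorem xv_ext {u v : XV n} (h1 : lev u = lev v) (h2 : pos u = pos v) : u = v := by
  obtain ⟨⟨i, hi⟩, ⟨m, hm⟩⟩ := u
  obtain ⟨⟨j, hj⟩, ⟨l, hl⟩⟩ := v
  simp only [lev, pos] at h1 h2
  subst h1; subst h2
  rfl

/-- the `X`-tree: a complete binary tree with the vertices of each level joined in a path -/
def xtree (n : ℕ) : SimpleGraph (XV n) where
  Adj u v := (lev u = lev v ∧ (pos u + 1 = pos v ∨ pos v + 1 = pos u)) ∨
    (lev u + 1 = lev v ∧ pos v / 2 = pos u) ∨ (lev v + 1 = lev u ∧ pos u / 2 = pos v)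
  symm := ⟨fun u v h => by
    rcases h with ⟨h, h'⟩ | h | h
    · exact Or.inl ⟨h.symm, h'.symm⟩
    · exact Or.inr (Or.inr h)
    · exact Or.inr (Or.inl h)⟩
  loopless := ⟨fun u h => by
    rcases h with ⟨h, h'⟩ | h | h <;> omega⟩

theorem near_hor (d : ℕ) : ∀ u v : XV n, lev u = lev v → pos u + d = pos v →
    Near (xtree n) d u v := by
  induction d with
  | zero =>
    intro u v h1 h2
    rw [xv_ext h1 h2]; exact Near.refl 0 v
  | succ d ih =>
    intro u v h1 h2
    have hlt := pos_lt v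
    have hw : ∃ w : XV n, lev w = lev v ∧ pos w = pos u + d :=
      ⟨mk (lev v) (pos u + d) (lev_le v) (by omega), rfl, rfl⟩
    obtain ⟨w, hw1, hw2⟩ := hw
    refine (ih u w (by omega) (by omega)).trans (Near.adj ?_)
    exact Or.inl ⟨hw1, Or.inl (by omega)⟩

theorem near_hor' {d : ℕ} {u v : XV n} (h : lev u = lev v) (h1 : pos u ≤ pos v + d)
    (h2 : pos v ≤ pos u + d) : Near (xtree n) d u v := by
  rcases le_total (pos u) (pos v) with h' | h'
  · exact (near_hor (pos v - pos u) u v h (by omega)).mono (by omega)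
  · exact (near_hor (pos u - pos v) v u h.symm (by omega)).symm.mono (by omega)

theorem exists_parent (v : XV n) (h : 1 ≤ lev v) : ∃ p : XV n, lev p + 1 = lev v ∧
    pos p = pos v / 2 := by
  have hlt := pos_lt v
  have hle := lev_le v
  refine ⟨mk (lev v - 1) (pos v / 2) (by omega) ?_, ?_, rfl⟩
  · have : 2 ^ lev v = 2 ^ (lev v - 1) * 2 := by
      rw [← pow_succ]; congr 1; omega
    rw [Nat.div_lt_iff_lt_mul (by norm_num)]; omega
  · simp only [lev_mk]; omega

theorem lev_lip {u v : XV n} {k : ℕ} (h : Near (xtree n) k u v) :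
    lev u ≤ lev v + k ∧ lev v ≤ lev u + k := by
  obtain ⟨p, hp⟩ := h
  have key : ∀ {u v : XV n} (p : (xtree n).Walk u v),
      lev u ≤ lev v + p.length ∧ lev v ≤ lev u + p.length := by
    intro u v p
    induction p with
    | nil => simp
    | cons hab p ih =>
      rw [SimpleGraph.Walk.length_cons]
      have : (xtree n).Adj _ _ := hab
      rcases hab with ⟨h, _⟩ | ⟨h, _⟩ | ⟨h, _⟩ <;> omega
  have := key p
  omega

theorem xtree_connected : (xtree n).Connected := by
  have key : ∀ l, ∀ v : XV n, lev v = l → (xtree n).Reachable v (mk 0 0 (Nat.zero_le _) (by simp)) := by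
    intro l
    induction l with
    | zero =>
      intro v hv
      have h1 := pos_lt v
      rw [hv] at h1
      have : v = mk 0 0 (Nat.zero_le _) (by simp) := xv_ext (by simp [hv]) (by simp; omega)
      rw [this]
    | succ l ih =>
      intro v hv
      obtain ⟨p, hp1, hp2⟩ := exists_parent v (by omega)
      have : (xtree n).Adj v p := Or.inr (Or.inr ⟨hp1, hp2.symm⟩)
      exact this.reachable.trans (ih p (by omega))
  rw [SimpleGraph.connected_iff]
  exact ⟨fun u v => (key _ u rfl).trans (key _ v rfl).symm, ⟨mk 0 0 (Nat.zero_le _) (by simp)⟩⟩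

theorem near_dist (u v : XV n) : Near (xtree n) ((xtree n).dist u v) u v := by
  obtain ⟨p, hp⟩ := xtree_connected.exists_walk_length_eq_dist u v
  exact ⟨p, hp.le⟩

/-! ### Every long cycle of the X-tree has a short bridge -/

theorem exists_exit (C : Cyc (xtree n) N) : ∃ t : ZMod N,
    (∀ s, lev (C.f s) ≤ lev (C.f t)) ∧ lev (C.f (t - 1)) ≠ lev (C.f t) := by
  have h3 := C.three
  have : NeZero N := ⟨by omega⟩
  obtain ⟨t₀, ht₀⟩ := Finite.exists_max (fun s : ZMod N => lev (C.f s))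
  by_contra hcon
  push Not at hcon
  -- all levels are equal
  have hall : ∀ k : ℕ, lev (C.f (t₀ - k)) = lev (C.f t₀) := by
    intro k
    induction k with
    | zero => simp
    | succ k ih =>
      have := hcon (t₀ - k) (by intro s; rw [ih]; exact ht₀ s)
      rw [show t₀ - ((k + 1 : ℕ) : ZMod N) = t₀ - k - 1 by push_cast; ring, this, ih]
  have hall' : ∀ s, lev (C.f s) = lev (C.f t₀) := by
    intro s
    have := hall (t₀ - s).val
    rwa [ZMod.natCast_zmod_val, sub_sub_cancel] at this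
  obtain ⟨m, hm⟩ := Finite.exists_max (fun s : ZMod N => pos (C.f s))
  have hadj : ∀ s, pos (C.f s) + 1 = pos (C.f (s + 1)) ∨ pos (C.f (s + 1)) + 1 = pos (C.f s) := by
    intro s
    have h1 := hall' s
    have h2 := hall' (s + 1)
    rcases C.adj s with ⟨h, h'⟩ | ⟨h, _⟩ | ⟨h, _⟩
    · exact h'
    · omega
    · omega
  have e1 := hadj m
  have e2 := hadj (m - 1)
  rw [sub_add_cancel] at e2
  have e3 := hm (m + 1)
  have e4 := hm (m - 1)
  have : C.f (m + 1) = C.f (m - 1) :=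
    xv_ext ((hall' _).trans (hall' _).symm) (by omega)
  have h5 := C.inj this
  have h6 : (2 : ZMod N) = 0 := by linear_combination h5
  have h7 : ((2 : ℕ) : ZMod N) = 0 := by exact_mod_cast h6
  rw [ZMod.natCast_eq_zero_iff] at h7
  exact absurd (Nat.le_of_dvd (by omega) h7) (by omega)

theorem exists_bridge (C : Cyc (xtree n) N) (hN : 14 ≤ N) : ∃ v z, Bridge C 5 v z := by
  obtain ⟨t, hmax, hne⟩ := exists_exit C
  have hin := C.adj (t - 1)
  rw [sub_add_cancel] at hin
  have hm1 := hmax (t - 1)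
  -- `f (t-1)` is the parent of `f t`
  have hpar : lev (C.f (t - 1)) + 1 = lev (C.f t) ∧ pos (C.f t) / 2 = pos (C.f (t - 1)) := by
    rcases hin with ⟨h, _⟩ | h | ⟨h, _⟩
    · exact absurd h hne
    · exact h
    · omega
  -- positions along a run
  have hrun : ∀ s : ℕ, (∀ r : ℕ, r ≤ s → lev (C.f (t + r)) = lev (C.f t)) →
      pos (C.f (t + s)) ≤ pos (C.f t) + s ∧ pos (C.f t) ≤ pos (C.f (t + s)) + s := by
    intro s
    induction s with
    | zero => intro _; simp
    | succ s ih =>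
      intro hr
      obtain ⟨i1, i2⟩ := ih (fun r hrs => hr r (by omega))
      have a1 := C.adj (t + s)
      rw [show t + (s : ZMod N) + 1 = t + ((s + 1 : ℕ) : ZMod N) by push_cast; ring] at a1
      have l1 := hr s (by omega)
      have l2 := hr (s + 1) le_rfl
      rcases a1 with ⟨h, h'⟩ | ⟨h, _⟩ | ⟨h, _⟩ <;> omega
  by_cases hall : ∀ r : ℕ, r ≤ 6 → lev (C.f (t + r)) = lev (C.f t)
  · -- a long run: shortcut through the parents
    refine ⟨t, t + (6 : ℕ), ?_, ?_⟩
    · obtain ⟨r1, r2⟩ := hrun 6 hall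
      have hl6 := hall 6 le_rfl
      obtain ⟨q, hq1, hq2⟩ := exists_parent (C.f (t + (6 : ℕ))) (by omega)
      have n1 : Near (xtree n) 1 (C.f t) (C.f (t - 1)) := Near.adj (Or.inr (Or.inr hpar))
      have n2 : Near (xtree n) 3 (C.f (t - 1)) q := by
        apply near_hor' <;> omega
      have n3 : Near (xtree n) 1 q (C.f (t + (6 : ℕ))) := Near.adj (Or.inr (Or.inl ⟨hq1, hq2.symm⟩))
      exact ((n1.trans n2).trans n3).dist
    · rw [dC_add (by omega) (by omega)]; norm_num
  · push Not at hall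
    -- first exit
    have hex : ∃ s : ℕ, s ≤ 6 ∧ lev (C.f (t + s)) ≠ lev (C.f t) := hall
    classical
    obtain ⟨s, ⟨hs6, hsne⟩, hsmin⟩ : ∃ s : ℕ, (s ≤ 6 ∧ lev (C.f (t + s)) ≠ lev (C.f t)) ∧
        ∀ r < s, ¬ (r ≤ 6 ∧ lev (C.f (t + r)) ≠ lev (C.f t)) :=
      ⟨Nat.find hex, Nat.find_spec hex, fun r hr => Nat.find_min hex hr⟩
    have hs0 : s ≠ 0 := by
      rintro rfl
      simp at hsne
    obtain ⟨s, rfl⟩ : ∃ s', s = s' + 1 := ⟨s - 1, by omega⟩
    have hrl : ∀ r : ℕ, r ≤ s → lev (C.f (t + r)) = lev (C.f t) := by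
      intro r hr
      by_contra hcon
      exact hsmin r (by omega) ⟨by omega, hcon⟩
    obtain ⟨r1, r2⟩ := hrun s hrl
    have a1 := C.adj (t + s)
    rw [show t + (s : ZMod N) + 1 = t + ((s + 1 : ℕ) : ZMod N) by push_cast; ring] at a1
    have l1 := hrl s le_rfl
    have m1 := hmax (t + ((s + 1 : ℕ) : ZMod N))
    have hpar2 : lev (C.f (t + ((s + 1 : ℕ) : ZMod N))) + 1 = lev (C.f (t + s)) ∧
        pos (C.f (t + s)) / 2 = pos (C.f (t + ((s + 1 : ℕ) : ZMod N))) := by
      rcases a1 with ⟨h, _⟩ | ⟨h, _⟩ | h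
      · omega
      · omega
      · exact h
    have n2 : Near (xtree n) ((s + 1) / 2) (C.f (t - 1)) (C.f (t + ((s + 1 : ℕ) : ZMod N))) := by
      apply near_hor' <;> omega
    -- go back `4 - s` further steps (none if `s = 5`)
    have n1 := C.near (t - 1 - ((4 - s : ℕ) : ZMod N)) (4 - s)
    rw [sub_add_cancel] at n1
    refine ⟨t - 1 - ((4 - s : ℕ) : ZMod N), t + ((s + 1 : ℕ) : ZMod N), ?_, ?_⟩
    · exact ((n1.trans n2).mono (by omega)).dist
    · have : t + ((s + 1 : ℕ) : ZMod N) =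
          (t - 1 - ((4 - s : ℕ) : ZMod N)) + ((4 - s + s + 2 : ℕ) : ZMod N) := by
        push_cast; ring
      rw [this, dC_add (by omega) (by omega)]
      omega

theorem BGC_le : BGC (xtree n) ≤ 9 := by
  apply Nat.sInf_le
  refine ⟨by norm_num, ?_⟩
  intro N C hC
  unfold LocGeo at hC
  push Not at hC
  obtain ⟨i, j, -, hlt⟩ := hC
  have h3 := C.three
  have := dC_le (i := i) (j := j) (by omega : 0 < N)
  exact exists_bridge C (by omega)

/-! ### The boundary cycle -/

theorem pos_growth {j : ℕ} {u v : XV n} {k : ℕ} (hu : lev u = j) (hu' : pos u = 0)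
    (h : Near (xtree n) k u v) : pos v * 2 ^ j ≤ k * 2 ^ k * 2 ^ lev v := by
  have key : ∀ (k : ℕ) (v : XV n) (p : (xtree n).Walk u v), p.length = k →
      pos v * 2 ^ j ≤ k * 2 ^ k * 2 ^ lev v := by
    intro k
    induction k with
    | zero =>
      intro v p hp
      have : v = u := (SimpleGraph.Walk.eq_of_length_eq_zero hp).symm
      subst this
      simp [hu']
    | succ k ih =>
      intro v p hp
      obtain ⟨w, q, hq, hw⟩ : ∃ (w : XV n) (q : (xtree n).Walk u w), q.length = k ∧ (xtree n).Adj w v := by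
        have hr : p.reverse.length = k + 1 := by simpa using hp
        generalize p.reverse = r at hr
        cases r with
        | nil => simp at hr
        | cons h r' => exact ⟨_, r'.reverse, by simpa using hr, h.symm⟩
      have i1 := ih w q hq
      have hl : j ≤ lev v + (k + 1) := by
        have := (lev_lip (⟨p, hp.le⟩ : Near (xtree n) (k + 1) u v)).1
        omega
      have hpow : 2 ^ j ≤ 2 ^ lev v * 2 ^ (k + 1) := by
        rw [← pow_add]; exact Nat.pow_le_pow_right (by norm_num) hl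
      have e : (k + 1) * 2 ^ (k + 1) * 2 ^ lev v =
          2 * (k * 2 ^ k * 2 ^ lev v) + 2 ^ lev v * 2 ^ (k + 1) := by
        rw [pow_succ]; ring
      rw [e]
      rcases hw with ⟨h, h'⟩ | ⟨h, h'⟩ | ⟨h, h'⟩
      · rw [h] at i1
        have : pos v ≤ pos w + 1 := by omega
        calc pos v * 2 ^ j ≤ (pos w + 1) * 2 ^ j := Nat.mul_le_mul_right _ this
          _ = pos w * 2 ^ j + 2 ^ j := by ring
          _ ≤ _ := by omega
      · have : pos v ≤ 2 * pos w + 1 := by omega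
        have e2 : 2 ^ lev v = 2 * 2 ^ lev w := by rw [← h, pow_succ]; ring
        calc pos v * 2 ^ j ≤ (2 * pos w + 1) * 2 ^ j := Nat.mul_le_mul_right _ this
          _ = 2 * (pos w * 2 ^ j) + 2 ^ j := by ring
          _ ≤ 2 * (k * 2 ^ k * 2 ^ lev w) + 2 ^ lev v * 2 ^ (k + 1) := by omega
          _ ≤ 2 * (k * 2 ^ k * 2 ^ lev v) + 2 ^ lev v * 2 ^ (k + 1) := by
            have : k * 2 ^ k * 2 ^ lev w ≤ k * 2 ^ k * 2 ^ lev v :=
              Nat.mul_le_mul_left _ (by omega)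
            omega
      · have e2 : 2 ^ lev w = 2 * 2 ^ lev v := by rw [← h, pow_succ]; ring
        have : 2 * pos v ≤ pos w := by omega
        have h4 : 2 * (pos v * 2 ^ j) ≤ 2 * (k * 2 ^ k * 2 ^ lev v) := by
          calc 2 * (pos v * 2 ^ j) = (2 * pos v) * 2 ^ j := by ring
            _ ≤ pos w * 2 ^ j := Nat.mul_le_mul_right _ this
            _ ≤ k * 2 ^ k * 2 ^ lev w := i1
            _ = 2 * (k * 2 ^ k * 2 ^ lev v) := by rw [e2]; ring
        omega
  obtain ⟨p, hp⟩ := h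
  have := key _ v p rfl
  refine this.trans (Nat.mul_le_mul_right _ (Nat.mul_le_mul hp ?_))
  exact Nat.pow_le_pow_right (by norm_num) hp

/-- level of the `i`-th vertex of the boundary cycle -/
def bl (n i : ℕ) : ℕ := if i ≤ n then i else if i < n + 2 ^ n then n else 2 ^ n + 2 * n - 1 - i

/-- position of the `i`-th vertex of the boundary cycle -/
def bp (n i : ℕ) : ℕ := if i ≤ n then 0 else if i < n + 2 ^ n then i - n else
  2 ^ (2 ^ n + 2 * n - 1 - i) - 1

theorem bl_le (n i : ℕ) : bl n i ≤ n := by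
  unfold bl
  have := Nat.one_le_two_pow (n := n)
  split_ifs <;> omega

theorem bp_lt (n i : ℕ) : bp n i < 2 ^ bl n i := by
  unfold bp bl
  split_ifs with h1 h2
  · positivity
  · omega
  · have := Nat.one_le_two_pow (n := 2 ^ n + 2 * n - 1 - i)
    omega

/-- `i`-th vertex of the boundary cycle -/
def bv (n i : ℕ) : XV n := mk (bl n i) (bp n i) (bl_le n i) (bp_lt n i)

theorem bv_inj (hn : 1 ≤ n) {i j : ℕ} (hi : i < 2 ^ n + 2 * n - 1) (hj : j < 2 ^ n + 2 * n - 1)
    (h : bv n i = bv n j) : i = j := by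
  have h1 : bl n i = bl n j := congrArg lev h
  have h2 : bp n i = bp n j := congrArg pos h
  unfold bl at h1
  unfold bp at h2
  have p1 : ∀ k, 1 ≤ k → 2 ≤ 2 ^ k := fun k hk => by
    calc 2 = 2 ^ 1 := by norm_num
      _ ≤ 2 ^ k := Nat.pow_le_pow_right (by norm_num) hk
  have q1 := p1 (2 ^ n + 2 * n - 1 - i)
  have q2 := p1 (2 ^ n + 2 * n - 1 - j)
  generalize 2 ^ (2 ^ n + 2 * n - 1 - i) = A at *
  generalize 2 ^ (2 ^ n + 2 * n - 1 - j) = B at *
  generalize 2 ^ n = D at *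
  split_ifs at h1 h2 <;> omega

theorem bv_adj (hn : 2 ≤ n) {i : ℕ} (hi : i + 1 < 2 ^ n + 2 * n - 1) :
    (xtree n).Adj (bv n i) (bv n (i + 1)) := by
  have hD : 2 ^ n = 2 * 2 ^ (n - 1) := by
    rw [← pow_succ']; congr 1; omega
  have hD1 := Nat.one_le_two_pow (n := n - 1)
  show (bl n i = bl n (i + 1) ∧ (bp n i + 1 = bp n (i + 1) ∨ bp n (i + 1) + 1 = bp n i)) ∨
    (bl n i + 1 = bl n (i + 1) ∧ bp n (i + 1) / 2 = bp n i) ∨
    (bl n (i + 1) + 1 = bl n i ∧ bp n i / 2 = bp n (i + 1))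
  rcases (by omega : i + 1 ≤ n ∨ i = n ∨ (n < i ∧ i + 1 < n + 2 ^ n) ∨ i + 1 = n + 2 ^ n ∨
    n + 2 ^ n ≤ i) with h | h | h | h | h
  · right; left
    have hi' : i ≤ n := by omega
    unfold bl bp
    simp [h, hi']
  · left
    unfold bl bp
    rw [if_pos (by omega), if_neg (by omega), if_pos (by omega), if_pos (by omega),
      if_neg (by omega), if_pos (by omega)]
    omega
  · left
    unfold bl bp
    rw [if_neg (by omega), if_pos (by omega), if_neg (by omega), if_pos (by omega),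
      if_neg (by omega), if_pos (by omega), if_neg (by omega), if_pos (by omega)]
    omega
  · right; right
    unfold bl bp
    rw [if_neg (by omega), if_neg (by omega), if_neg (by omega), if_pos (by omega),
      if_neg (by omega), if_pos (by omega), if_neg (by omega), if_neg (by omega)]
    have e : 2 ^ n + 2 * n - 1 - (i + 1) = n - 1 := by omega
    rw [e]
    omega
  · right; right
    unfold bl bp
    rw [if_neg (by omega), if_neg (by omega), if_neg (by omega), if_neg (by omega),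
      if_neg (by omega), if_neg (by omega), if_neg (by omega), if_neg (by omega)]
    obtain ⟨a, ha⟩ : ∃ a, 2 ^ n + 2 * n - 1 - (i + 1) = a := ⟨_, rfl⟩
    have ha' : 2 ^ n + 2 * n - 1 - i = a + 1 := by omega
    rw [ha, ha', pow_succ]
    have := Nat.one_le_two_pow (n := a)
    omega

theorem bv_close (hn : 2 ≤ n) : (xtree n).Adj (bv n (2 ^ n + 2 * n - 2)) (bv n 0) := by
  have hD := Nat.one_le_two_pow (n := n)
  show (bl n (2 ^ n + 2 * n - 2) = bl n 0 ∧ (bp n (2 ^ n + 2 * n - 2) + 1 = bp n 0 ∨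
      bp n 0 + 1 = bp n (2 ^ n + 2 * n - 2))) ∨
    (bl n (2 ^ n + 2 * n - 2) + 1 = bl n 0 ∧ bp n 0 / 2 = bp n (2 ^ n + 2 * n - 2)) ∨
    (bl n 0 + 1 = bl n (2 ^ n + 2 * n - 2) ∧ bp n (2 ^ n + 2 * n - 2) / 2 = bp n 0)
  right; right
  unfold bl bp
  rw [if_pos (by omega), if_neg (by omega), if_neg (by omega), if_neg (by omega), if_neg (by omega),
    if_pos (by omega)]
  have e : 2 ^ n + 2 * n - 1 - (2 ^ n + 2 * n - 2) = 1 := by omega
  rw [e]
  omega

/-- the boundary cycle -/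
def bCyc (n : ℕ) (hn : 2 ≤ n) : Cyc (xtree n) (2 ^ n + 2 * n - 1) where
  f := fun i => bv n i.val
  inj := by
    intro i j h
    have hD := Nat.one_le_two_pow (n := n)
    have : NeZero (2 ^ n + 2 * n - 1) := ⟨by omega⟩
    exact ZMod.val_injective _ (bv_inj (by omega) (ZMod.val_lt i) (ZMod.val_lt j) h)
  adj := by
    intro i
    have hD := Nat.one_le_two_pow (n := n)
    have : NeZero (2 ^ n + 2 * n - 1) := ⟨by omega⟩
    have hlt := ZMod.val_lt (i + 1)
    rcases val_succ (by omega) i with h | ⟨h1, h2⟩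
    · rw [h]
      exact bv_adj hn (by omega)
    · rw [h2]
      have : i.val = 2 ^ n + 2 * n - 2 := by omega
      rw [this]
      exact bv_close hn
  three := by
    have hD := Nat.one_le_two_pow (n := n)
    omega

theorem bCyc_lev (n : ℕ) (hn : 2 ≤ n) (z : ZMod (2 ^ n + 2 * n - 1)) :
    lev ((bCyc n hn).f z) = bl n z.val := rfl

theorem bCyc_pos (n : ℕ) (hn : 2 ≤ n) (z : ZMod (2 ^ n + 2 * n - 1)) :
    pos ((bCyc n hn).f z) = bp n z.val := rfl

theorem not_PropS {K μ n : ℕ} (hn : n = 6 * K + 10) (hμ : μ ≤ K) : ¬ PropS (xtree n) μ := by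
  intro hP
  obtain ⟨N, C, hN, hCl, hCp⟩ : ∃ (N : ℕ) (C : Cyc (xtree n) N), N = 2 ^ n + 2 * n - 1 ∧
      (∀ z, lev (C.f z) = bl n z.val) ∧ (∀ z, pos (C.f z) = bp n z.val) :=
    ⟨_, bCyc n (by omega), rfl, bCyc_lev n _, bCyc_pos n _⟩
  have hD := Nat.one_le_two_pow (n := n)
  have : NeZero N := ⟨by omega⟩
  have hfv : ∀ j : ℕ, j ≤ n → lev (C.f (j : ZMod N)) = j ∧ pos (C.f (j : ZMod N)) = 0 := by
    intro j hj
    have hv : (j : ZMod N).val = j := by rw [ZMod.val_natCast, Nat.mod_eq_of_lt (by omega)]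
    rw [hCl, hCp, hv]
    unfold bl bp
    rw [if_pos hj, if_pos hj]
    exact ⟨rfl, rfl⟩
  -- the side starts at level `2K+4`
  obtain ⟨i0, hi0⟩ : ∃ i0, i0 = 2 * K + 4 := ⟨_, rfl⟩
  have hcast : ((i0 : ℕ) : ZMod N) + ((μ + 1 : ℕ) : ZMod N) = ((i0 + (μ + 1) : ℕ) : ZMod N) := by
    push_cast; ring
  have hdC : dC ((i0 : ℕ) : ZMod N) ((i0 : ℕ) + ((μ + 1 : ℕ) : ZMod N)) = μ + 1 :=
    dC_add (by omega) (by omega)
  have hdG : (xtree n).dist (C.f (i0 : ℕ)) (C.f ((i0 : ℕ) + ((μ + 1 : ℕ) : ZMod N))) = μ + 1 := by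
    apply le_antisymm
    · exact (C.near _ _).dist
    · have h1 := lev_lip (near_dist (C.f (i0 : ℕ)) (C.f ((i0 : ℕ) + ((μ + 1 : ℕ) : ZMod N))))
      rw [hcast] at h1 ⊢
      rw [(hfv i0 (by omega)).1, (hfv (i0 + (μ + 1)) (by omega)).1] at h1
      omega
  have hnl : ¬ LocGeo C μ := by
    intro h
    have := h (i0 : ℕ) ((i0 : ℕ) + ((μ + 1 : ℕ) : ZMod N)) (by rw [hdG, hdC])
    rw [hdC] at this
    omega
  obtain ⟨v, ⟨t, ht, hv⟩, z, hz, hb1, hb2⟩ := hP N C hnl _ ⟨(i0 : ℕ), hdG, hdC, rfl⟩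
  obtain ⟨k, hk⟩ : ∃ k, (μ + 1) / 2 = k := ⟨_, rfl⟩
  rw [hk] at hb1 hb2
  have hv' : v = ((i0 + t : ℕ) : ZMod N) := by rw [hv]; push_cast; ring
  subst hv'
  have hnear : Near (xtree n) k (C.f ((i0 + t : ℕ) : ZMod N)) (C.f z) :=
    (near_dist _ _).mono hb1
  have hlip := lev_lip hnear
  rw [(hfv (i0 + t) (by omega)).1] at hlip
  have hgr := pos_growth (hfv (i0 + t) (by omega)).1 (hfv (i0 + t) (by omega)).2 hnear
  have hzlt := ZMod.val_lt z
  have hvv : ((i0 + t : ℕ) : ZMod N).val = i0 + t := by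
    rw [ZMod.val_natCast, Nat.mod_eq_of_lt (by omega)]
  have hlz := hCl z
  have hpz := hCp z
  by_cases h1 : z.val ≤ n
  · -- `z` on the left path
    have hl : lev (C.f z) = z.val := by rw [hlz]; unfold bl; rw [if_pos h1]
    rw [hl] at hlip
    rcases le_total (i0 + t) z.val with h | h
    · have := dC_le_val (i := ((i0 + t : ℕ) : ZMod N)) (j := z) (by omega) (by rw [hvv]; exact h)
      rw [hvv] at this
      omega
    · have := dC_le_val (i := z) (j := ((i0 + t : ℕ) : ZMod N)) (by omega) (by rw [hvv]; exact h)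
      rw [hvv, dC_comm] at this
      omega
  · by_cases h2 : z.val < n + 2 ^ n
    · -- bottom row
      have hl : lev (C.f z) = n := by rw [hlz]; unfold bl; rw [if_neg h1, if_pos h2]
      rw [hl] at hlip
      omega
    · -- right path
      obtain ⟨a, ha⟩ : ∃ a, 2 ^ n + 2 * n - 1 - z.val = a := ⟨_, rfl⟩
      have ha1 : 1 ≤ a := by omega
      have hl : lev (C.f z) = a := by rw [hlz]; unfold bl; rw [if_neg h1, if_neg h2, ha]
      have hp : pos (C.f z) = 2 ^ a - 1 := by rw [hpz]; unfold bp; rw [if_neg h1, if_neg h2, ha]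
      rw [hl, hp] at hgr
      obtain ⟨b, rfl⟩ : ∃ b, a = b + 1 := ⟨a - 1, by omega⟩
      have hb1 := Nat.one_le_two_pow (n := b)
      have h3 : 2 ^ b ≤ 2 ^ (b + 1) - 1 := by rw [pow_succ]; omega
      have h4 : 2 ^ b * 2 ^ (i0 + t) ≤ k * 2 ^ k * 2 ^ (b + 1) :=
        (Nat.mul_le_mul_right _ h3).trans hgr
      have h5 : k * 2 ^ k * 2 ^ (b + 1) = 2 ^ b * (2 * k * 2 ^ k) := by rw [pow_succ]; ring
      rw [h5] at h4
      have h6 : 2 ^ (i0 + t) ≤ 2 * k * 2 ^ k := Nat.le_of_mul_le_mul_left h4 (by positivity)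
      have h7 : k < 2 ^ k := Nat.lt_two_pow_self
      have h8 : 2 * k * 2 ^ k < 2 ^ (1 + k + k) := by
        rw [pow_add, pow_add, pow_one]
        exact Nat.mul_lt_mul_of_pos_right (by omega) (by positivity)
      have h9 : 2 ^ (1 + k + k) ≤ 2 ^ (i0 + t) := Nat.pow_le_pow_right (by norm_num) (by omega)
      omega

theorem bgc_gt {K n : ℕ} (hn : n = 6 * K + 10) : K < bgc (xtree n) := by
  have hne : {μ | 1 ≤ μ ∧ PropS (xtree n) μ}.Nonempty := by
    refine ⟨Fintype.card (XV n) + 1, by omega, ?_⟩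
    intro N C _ S hS
    exfalso
    obtain ⟨i, -, h, -⟩ := hS
    have h3 := C.three
    have : NeZero N := ⟨by omega⟩
    have h1 := dC_le (i := i) (j := i + ((Fintype.card (XV n) + 1 + 1 : ℕ) : ZMod N)) (by omega)
    have h2 := Fintype.card_le_of_injective _ C.inj
    rw [ZMod.card] at h2
    omega
  have hmem := Nat.sInf_mem hne
  by_contra hcon
  push Not at hcon
  exact not_PropS hn hcon hmem.2

end Pool.Agent.Q102.XTree
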